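import Pool.Agent.PCx.ThrX

/-!
# RAG.Diag: the thresholds

PROOF. Choose `thr i j` with `P i j m` for all `m ≥ thr i j`. Define `ζ` by recursion: `ζ 0 = W 0`, `ζ (j+1) = W (j+1) + 2^(j+10) (ζ j + 1)`, `W j = 4 ∑_{i≤j} thr i (j+1) + 4` (as `ThrX_Z` in `Pool/Agent/PCx/ThrX.lean`), so `ζ j ≥ W j`.
Let `i` be given and `4m ≥ ζ i`. Then `JJ ζ (4m) = j + 1` with `j ≥ i` (`Pool.Agent.PCx.JJ_succ`, `JJ_mono`, `JJ_zero`; `ζ j ≤ 4m < ζ (j+1)`), and `4m ≥ ζ j ≥ 4 thr i (j+1)`, so `P i (j+1) m`.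
`MM_chain`: `QQ j ∣ QQ (j+1)` (see `bhx_QQ_dvd` in `Pool/Agent/PCx/BHX.lean`; `PP_succ`) and `JJ_mono`.
-/

namespace RAG

open Filter Pool.Agent.PCx

private def diag_Z (W : ℕ → ℕ) : ℕ → ℕ
  | 0 => W 0
  | j + 1 => W (j + 1) + 2 ^ (j + 10) * (diag_Z W j + 1)

private theorem diag_Z_le (W : ℕ → ℕ) (j : ℕ) : W j ≤ diag_Z W j := by
  cases j with
  | zero => exact le_rfl
  | succ j => exact Nat.le_add_right _ _

private theorem diag_PP_dvd (j : ℕ) : PP j ∣ PP (j + 1) := by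
  unfold PP primorial
  refine Finset.prod_dvd_prod_of_subset _ _ _ ?_
  intro p hp
  rw [Finset.mem_filter, Finset.mem_range] at hp ⊢
  exact ⟨by omega, hp.2⟩

private theorem diag_QQ_dvd (j : ℕ) : QQ j ∣ QQ (j + 1) := by
  unfold QQ
  exact (pow_dvd_pow_of_dvd (diag_PP_dvd j) (j + 1)).trans (pow_dvd_pow _ (by omega))

private theorem diag_QQ_le {i j : ℕ} (h : i ≤ j) : QQ i ∣ QQ j := by
  induction h with
  | refl => exact dvd_rfl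
  | step _ ih => exact ih.trans (diag_QQ_dvd _)

theorem diag (P : ℕ → ℕ → ℕ → Prop) (h : ∀ i j : ℕ, ∀ᶠ m : ℕ in atTop, P i j m) :
    ∃ ζ : ℕ → ℕ, (∀ j, 2 ^ (j + 10) * (ζ j + 1) ≤ ζ (j + 1)) ∧
      ∀ i : ℕ, ∀ᶠ m : ℕ in atTop, P i (JJ ζ (4 * m)) m := by
  have h1 : ∀ i j : ℕ, ∃ N : ℕ, ∀ m : ℕ, N ≤ m → P i j m := fun i j =>
    eventually_atTop.1 (h i j)
  choose thr hthr using h1
  obtain ⟨W, hW⟩ : ∃ W : ℕ → ℕ,
      W = fun j => 4 * (∑ i ∈ Finset.range (j + 1), thr i (j + 1)) + 4 := ⟨_, rfl⟩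
  have hZ : ∀ j, 2 ^ (j + 10) * (diag_Z W j + 1) ≤ diag_Z W (j + 1) := fun j =>
    Nat.le_add_left _ _
  have hlt : ∀ j, diag_Z W j < diag_Z W (j + 1) := by
    intro j
    have h1 : 1 ≤ 2 ^ (j + 10) := Nat.one_le_two_pow
    have h2 : 1 * (diag_Z W j + 1) ≤ 2 ^ (j + 10) * (diag_Z W j + 1) :=
      Nat.mul_le_mul_right _ h1
    have := hZ j
    omega
  refine ⟨diag_Z W, hZ, fun i => ?_⟩
  filter_upwards [eventually_ge_atTop (diag_Z W i)] with m hm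
  have h2 : JJ (diag_Z W) (diag_Z W i) = i + 1 := (JJ_succ hZ i _).2 ⟨le_rfl, hlt i⟩
  have h3 : JJ (diag_Z W) (diag_Z W i) ≤ JJ (diag_Z W) (4 * m) := JJ_mono _ (by omega)
  obtain ⟨j, hj⟩ : ∃ j, JJ (diag_Z W) (4 * m) = j + 1 := ⟨JJ (diag_Z W) (4 * m) - 1, by omega⟩
  have hij : i ≤ j := by omega
  have h4 : diag_Z W j ≤ 4 * m := ((JJ_succ hZ j _).1 hj).1
  have h5 : W j ≤ 4 * m := (diag_Z_le W j).trans h4
  have h6 : thr i (j + 1) ≤ ∑ i ∈ Finset.range (j + 1), thr i (j + 1) :=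
    Finset.single_le_sum (f := fun i => thr i (j + 1)) (fun _ _ => Nat.zero_le _)
      (Finset.mem_range.2 (by omega))
  rw [hW] at h5
  have h7 : thr i (j + 1) ≤ m := by
    have h8 : 4 * (∑ i ∈ Finset.range (j + 1), thr i (j + 1)) + 4 ≤ 4 * m := h5
    omega
  rw [hj]
  exact hthr i (j + 1) m h7

theorem MM_chain (ζ : ℕ → ℕ) {a b : ℕ} (h : a ≤ b) : MM ζ a ∣ MM ζ b := by
  unfold MM
  exact diag_QQ_le (JJ_mono ζ h)

theorem MM_pos (ζ : ℕ → ℕ) (a : ℕ) : 0 < MM ζ a := QQ_pos _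

end RAG
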