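import Pool.Agent.RAG.Geo
import Pool.Agent.RAG.Diag

/-!
# RAG.Loc: localisation of the modulus function

PROOF. `Ml_adm`: `MM_chain`, `MM_pos`. `ch_loc`: `m0` from `ch_block`; induction on `i ≤ m`: the step from `i - 1` to `i` uses the modulus of the block `b = log₂ (ch n (i-1)) ≤ m + 2(i-1) ≤ 4m` (`ch_block` for the moduli `Ml ζ m`), where `Ml ζ m b = MM ζ (min b (4m)) = MM ζ b`; `T` depends on the modulus only
through the modulus of this block (unfold `T`). `wt_loc`, `cnt_loc`: immediately.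
-/

namespace RAG

open Filter Pool.Agent.PCx

/-- The modulus function, constant from the block `4m` on. -/
def Ml (ζ : ℕ → ℕ) (m b : ℕ) : ℕ := MM ζ (min b (4 * m))

theorem Ml_dvd (ζ : ℕ → ℕ) (m b : ℕ) : Ml ζ m b ∣ MM ζ (4 * m) := by
  unfold Ml
  exact MM_chain ζ (min_le_right _ _)

theorem Ml_chain (ζ : ℕ → ℕ) (m b : ℕ) : Ml ζ m b ∣ Ml ζ m (b + 1) := by
  unfold Ml
  exact MM_chain ζ (min_le_min_right _ (Nat.le_succ b))

theorem Ml_adm {t K : ℝ} {g : ℕ → ℝ} (h : AdmK t K g) (ζ : ℕ → ℕ) (m : ℕ) : AdmG (MM ζ (4 * m)) (Ml ζ m) t K g where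
  hR := MM_pos ζ _
  dvd := fun b => Ml_dvd ζ m b
  ht := h.ht
  ht1 := h.ht1
  hK := h.hK
  mono := h.mono
  nonneg := h.nonneg
  le := h.le

theorem ch_loc (t K : ℝ) : ∃ m0 : ℕ, ∀ (ζ : ℕ → ℕ) (g : ℕ → ℝ), AdmK t K g → ∀ m : ℕ, m0 ≤ m →
    ∀ ω : ℕ → ℝ × ℝ, (∀ i, ω i ∈ Set.Icc (0 : ℝ) 1 ×ˢ Set.Icc (0 : ℝ) 1) → ∀ n : ℕ, Nat.log 2 n = m →
    ∀ i : ℕ, i ≤ m → ch (MM ζ) t g ω n i = ch (Ml ζ m) t g ω n i := by
  obtain ⟨m0, hm0⟩ := ch_block t K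
  refine ⟨m0, fun ζ g hg m hm ω hω n hn i => ?_⟩
  induction i with
  | zero => intro _; rfl
  | succ i ih =>
    intro hi
    have hi' : i ≤ m := by omega
    have h1 := ih hi'
    have h2 := hm0 (MM ζ (4 * m)) (Ml ζ m) g (Ml_adm hg ζ m) m hm ω hω n hn i
    have h3 : ch (MM ζ) t g ω n (i + 1) = T (MM ζ) t g ω (ch (MM ζ) t g ω n i) := by
      simp only [ch, Function.iterate_succ_apply']
    have h4 : ch (Ml ζ m) t g ω n (i + 1) = T (Ml ζ m) t g ω (ch (Ml ζ m) t g ω n i) := by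
      simp only [ch, Function.iterate_succ_apply']
    rw [h3, h4, h1]
    unfold T
    have h5 : Ml ζ m (Nat.log 2 (ch (Ml ζ m) t g ω n i)) = MM ζ (Nat.log 2 (ch (Ml ζ m) t g ω n i)) := by
      have h6 : Nat.log 2 (ch (Ml ζ m) t g ω n i) ≤ 4 * m := by omega
      show MM ζ (min _ (4 * m)) = _
      rw [min_eq_left h6]
    rw [h5]

theorem cnt_loc (t K : ℝ) : ∃ m0 : ℕ, ∀ (ζ : ℕ → ℕ) (g : ℕ → ℝ), AdmK t K g → ∀ m : ℕ, m0 ≤ m →
    ∀ ω : ℕ → ℝ × ℝ, (∀ i, ω i ∈ Set.Icc (0 : ℝ) 1 ×ˢ Set.Icc (0 : ℝ) 1) →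
    ∀ S ⊆ Finset.Ico (2 ^ m) (2 ^ (m + 1)), ∀ k : ℕ, k ≤ m + 1 →
      cnt (MM ζ) t g ω k S = cnt (Ml ζ m) t g ω k S := by
  obtain ⟨m0, hm0⟩ := ch_loc t K
  refine ⟨m0, fun ζ g hg m hm ω hω S hS k hk => ?_⟩
  unfold cnt
  congr 1
  refine Finset.filter_congr fun n hn => ?_
  have hn' := Finset.mem_Ico.mp (hS hn)
  have hlog : Nat.log 2 n = m := by
    rw [Nat.log_eq_iff]
    · exact hn'
    · right
      exact ⟨by norm_num, by have := Nat.pos_of_ne_zero (pow_ne_zero m (two_ne_zero (α := ℕ))); omega⟩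
  refine forall_congr' fun i => ?_
  refine imp_congr_right fun hi => ?_
  rw [hm0 ζ g hg m hm ω hω n hlog i (by omega)]

end RAG
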