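import Pool.Agent.RAG.ZHx
import Pool.Agent.RAG.Loc
import Pool.Agent.RAF.Res

/-!
# RAG.AeI: Borel-Cantelli

PROOF. `mem`: `RAF.ae_mem`. For the others it is enough to treat `ε = 1/(q+2)`, `q : ℕ` (monotone in `ε`: `LL m ≥ 1`, `log (LL m) ≥ 0`), and one `N`. Let `i ≥ q` with `K ≤ i + 1`; for large `m` `Bnd (MM ζ (4m)) t (i+1) (1/(i+2)) m` (`ZH.bnd`), so `Bnd (MM ζ (4m)) t K ε m` (`Bnd.mono`; note `1 ≤ K` by `AdmK`), applied with
`Mb = Ml ζ m` (`Ml_adm`). Markov's inequality (`mul_meas_ge_le_lintegral₀`, `meas_ge_le_lintegral_div`): `var`: for each `s < N` and each `J` the probability that the bound fails is at most `m^(-10) m² = m^(-8)` (`I = wn m N s ∩ RAF.Inn t m`; the case `pr = 0` does not occur, `pr_one_le`), there are at most `m` values of `J`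
(`J + 1 ≤ LL m/log (LL m) ≤ m` for large `m`); total `≤ N m^(-7)`. `bdry`: at most `2m` values of `J`, each has probability `≤ 2^(-((1-t)/8)m)`. `up`: for each `k ≤ m` the probability is at most `m²/m^5 = m^(-3)`, total `≤ m^(-2)`. All summable over `m`: Borel-Cantelli (`measure_limsup_atTop_eq_zero` or `ae_eventually_notMem`), then
countable intersection over `q`, `N` (`ae_all_iff`). Measurability: `wt_meas`, `ch_meas` (`cnt` is a finite sum of indicators of measurable sets). See `Pool/Agent/RAF/AeV.lean`, `Bdry.lean`.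
-/

namespace RAG

open MeasureTheory Filter Pool.Agent.PCx
open RAF (uu Pm)

/-- The windows `(2^m (1+s/N), 2^m (1+(s+1)/N)]`. -/
def wn (m N s : ℕ) : Finset ℕ := Finset.Ioc (2 ^ m + 2 ^ m * s / N) (2 ^ m + 2 ^ m * (s + 1) / N)

structure GoodI (t : ℝ) (g : ℕ → ℝ) (ζ : ℕ → ℕ) (ω : ℕ → ℝ × ℝ) : Prop where
  mem : ∀ i, ω i ∈ Set.Icc (0 : ℝ) 1 ×ˢ Set.Icc (0 : ℝ) 1
  var : ∀ ε : ℝ, 0 < ε → ε < 1 → ∀ N : ℕ, 1 ≤ N → ∀ᶠ m : ℕ in atTop, ∀ s < N, ∀ J : ℕ,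
    ((J : ℝ) + 1 ≤ (1 - ε) * (LL m / Real.log (LL m))) →
    |∑ n ∈ (wn m N s).filter (fun n => n ∈ RAF.Inn t m),
      (wt (Ml ζ m) t g n J ω - RLC.th n * gg (MM ζ (4 * m)) (Ml ζ m) J m n)| ≤
      pr (Ml ζ m) m J * (2 ^ m / (m : ℝ) ^ 2)
  bdry : ∀ᶠ m : ℕ in atTop, ∀ J : ℕ, ((J : ℝ) ≤ 2 * (LL m / Real.log (LL m))) →
    ∑ n ∈ (Finset.Ico (2 ^ m) (2 ^ (m + 1))).filter (fun n => n ∉ RAF.Inn t m), wt (Ml ζ m) t g n J ω ≤
      (2 : ℝ) ^ ((1 - (1 - t) / 8) * (m : ℝ))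
  up : ∀ ε : ℝ, 0 < ε → ε < 1 → ∀ᶠ m : ℕ in atTop, ∀ k : ℕ, 1 ≤ k → k ≤ m →
    (cnt (Ml ζ m) t g ω k (Finset.Ico (2 ^ m) (2 ^ (m + 1))) : ℝ) ≤
      2 ^ m * (m : ℝ) ^ 5 * LL m ^ (-((1 - ε) * (k : ℝ)))

private theorem AeI_BC {s : ℕ → Set (ℕ → ℝ × ℝ)} {f : ℕ → ℝ} (hf : Summable f)
    (h : ∀ᶠ m : ℕ in atTop, Pm (s m) ≤ ENNReal.ofReal (f m)) : ∀ᵐ ω ∂Pm, ∀ᶠ m : ℕ in atTop, ω ∉ s m := by
  obtain ⟨m0, hm0⟩ := eventually_atTop.1 h
  have hsum : ∑' m, Pm (s (m + m0)) ≠ ⊤ := by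
    have h2 : Summable fun m : ℕ => f (m + m0) := (summable_nat_add_iff m0).2 hf
    exact ne_top_of_le_ne_top h2.tsum_ofReal_ne_top
      (ENNReal.tsum_le_tsum fun m => hm0 (m + m0) (Nat.le_add_left _ _))
  filter_upwards [ae_eventually_notMem hsum] with x hx
  obtain ⟨m1, hm1⟩ := eventually_atTop.1 hx
  refine eventually_atTop.2 ⟨m1 + m0, fun m hm => ?_⟩
  have h1 := hm1 (m - m0) (by omega)
  rwa [Nat.sub_add_cancel (by omega : m0 ≤ m)] at h1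

private theorem AeI_markov {f : (ℕ → ℝ × ℝ) → ENNReal} (hf : Measurable f) {a b : ℝ} (ha : 0 < a)
    (h : ∫⁻ ω, f ω ∂Pm ≤ ENNReal.ofReal (a * b)) :
    Pm {ω | ENNReal.ofReal a ≤ f ω} ≤ ENNReal.ofReal b := by
  have h1 := mul_meas_ge_le_lintegral (μ := Pm) hf (ENNReal.ofReal a)
  have h3 : ENNReal.ofReal a * Pm {ω | ENNReal.ofReal a ≤ f ω} ≤ ENNReal.ofReal a * ENNReal.ofReal b := by
    refine (h1.trans h).trans ?_
    rw [← ENNReal.ofReal_mul ha.le]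
  exact (ENNReal.mul_le_mul_iff_right (ENNReal.ofReal_pos.2 ha).ne' ENNReal.ofReal_ne_top).1 h3

private theorem AeI_LL_le (m : ℕ) : LL m ≤ m := by
  rw [LL_eq]
  have h1 := Real.log_two_lt_d9
  have h2 : (0 : ℝ) ≤ m := Nat.cast_nonneg m
  nlinarith

private theorem AeI_LL_tendsto : Tendsto LL atTop atTop := by
  have h1 : LL = fun m : ℕ => (m : ℝ) * Real.log 2 := funext LL_eq
  rw [h1]
  exact tendsto_natCast_atTop_atTop.atTop_mul_const (Real.log_pos (by norm_num))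

private theorem AeI_loglog : ∀ᶠ m : ℕ in atTop, 1 ≤ Real.log (LL m) ∧ 1 ≤ LL m ∧ 6 ≤ m := by
  have h1 := (Real.tendsto_log_atTop.comp AeI_LL_tendsto).eventually_ge_atTop 1
  filter_upwards [h1, AeI_LL_tendsto.eventually_ge_atTop 1, eventually_ge_atTop 6] with m h1 h2 h3
  exact ⟨h1, h2, h3⟩

private theorem AeI_bnd {t K : ℝ} {g : ℕ → ℝ} (_h : AdmK t K g) {ζ : ℕ → ℕ} (hζ : ZH t ζ) {ε : ℝ} (hε : 0 < ε) :
    ∀ᶠ m : ℕ in atTop, Bnd (MM ζ (4 * m)) t K ε m := by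
  obtain ⟨i1, hi1⟩ := exists_nat_ge K
  obtain ⟨i2, hi2⟩ := exists_nat_ge (1 / ε)
  filter_upwards [hζ.bnd (i1 + i2), eventually_ge_atTop 6] with m hm h6
  have e1 : (0 : ℝ) ≤ i1 := Nat.cast_nonneg _
  have e2 : (0 : ℝ) ≤ i2 := Nat.cast_nonneg _
  refine hm.mono ?_ ?_ ?_ h6
  · push_cast
    linarith
  · push_cast
    linarith
  · rw [div_le_iff₀ (by push_cast; linarith)]
    rw [div_le_iff₀ hε] at hi2
    push_cast
    nlinarith

private theorem AeI_pr_pos {t K : ℝ} {g : ℕ → ℝ} (h : AdmK t K g) (ζ : ℕ → ℕ) (m J : ℕ) :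
    0 < pr (Ml ζ m) m J :=
  lt_of_lt_of_le one_pos (pr_one_le (fun b => (Ml_adm h ζ m).pos b) m J)

/-- The set where the estimate of the windows fails. -/
private def AeI_badV (t : ℝ) (g : ℕ → ℝ) (ζ : ℕ → ℕ) (ε : ℝ) (N m : ℕ) : Set (ℕ → ℝ × ℝ) :=
  {ω | ∃ s < N, ∃ J : ℕ, ((J : ℝ) + 1 ≤ (1 - ε) * (LL m / Real.log (LL m))) ∧
    pr (Ml ζ m) m J * (2 ^ m / (m : ℝ) ^ 2) <
      |∑ n ∈ (wn m N s).filter (fun n => n ∈ RAF.Inn t m),
        (wt (Ml ζ m) t g n J ω - RLC.th n * gg (MM ζ (4 * m)) (Ml ζ m) J m n)|}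

private theorem AeI_probV {t K : ℝ} {g : ℕ → ℝ} (h : AdmK t K g) {ζ : ℕ → ℕ} (hζ : ZH t ζ) {ε : ℝ}
    (hε : 0 < ε) (hε1 : ε < 1) (N : ℕ) :
    ∀ᶠ m : ℕ in atTop, Pm (AeI_badV t g ζ ε N m) ≤ ENNReal.ofReal ((N : ℝ) * (1 / (m : ℝ) ^ 7)) := by
  filter_upwards [AeI_bnd h hζ hε, AeI_loglog] with m hB hm
  obtain ⟨hll, hL1, h6⟩ := hm
  have hm0 : (0 : ℝ) < m := by
    have : 0 < m := by omega
    exact_mod_cast this
  have hj : ∀ J : ℕ, ((J : ℝ) + 1 ≤ (1 - ε) * (LL m / Real.log (LL m))) → J < m := by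
    intro J hJ
    have e1 : LL m / Real.log (LL m) ≤ LL m := div_le_self (by linarith) hll
    have e2 : 0 ≤ LL m / Real.log (LL m) := div_nonneg (by linarith) (by linarith)
    have e3 := AeI_LL_le m
    have e4 : (J : ℝ) + 1 ≤ m := by nlinarith
    have e5 : ((J + 1 : ℕ) : ℝ) ≤ m := by
      push_cast
      exact e4
    have := Nat.cast_le.1 e5
    omega
  set F : ℕ → ℕ → Set (ℕ → ℝ × ℝ) := fun s J =>
    {ω | ENNReal.ofReal (pr (Ml ζ m) m J * (2 ^ m / (m : ℝ) ^ 2)) ≤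
      ENNReal.ofReal |∑ n ∈ (wn m N s).filter (fun n => n ∈ RAF.Inn t m),
        (wt (Ml ζ m) t g n J ω - RLC.th n * gg (MM ζ (4 * m)) (Ml ζ m) J m n)|} with hF
  have hone : ∀ s J : ℕ, ((J : ℝ) + 1 ≤ (1 - ε) * (LL m / Real.log (LL m))) →
      Pm (F s J) ≤ ENNReal.ofReal (1 / (m : ℝ) ^ 8) := by
    intro s J hJ
    have hp := AeI_pr_pos h ζ m J
    have h1 := hB.var (Ml ζ m) g (Ml_adm h ζ m) ((wn m N s).filter (fun n => n ∈ RAF.Inn t m))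
      (fun n hn => (Finset.mem_filter.1 hn).2) J hJ
    refine AeI_markov ?_ (by positivity) (h1.trans (le_of_eq ?_))
    · exact (Finset.measurable_fun_sum _ fun n _ => (wt_meas (Ml ζ m) t g n J).sub_const _).abs.ennreal_ofReal
    · congr 1
      have e1 : (m : ℝ) ^ (-(10 : ℝ)) = 1 / (m : ℝ) ^ 10 := by
        rw [Real.rpow_neg hm0.le, one_div]
        norm_cast
      rw [e1]
      field_simp
  have hsub : AeI_badV t g ζ ε N m ⊆ ⋃ s ∈ Finset.range N, ⋃ J ∈ (Finset.range m).filter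
      (fun J : ℕ => (J : ℝ) + 1 ≤ (1 - ε) * (LL m / Real.log (LL m))), F s J := by
    rintro ω ⟨s, hs, J, hJ1, hJ2⟩
    simp only [Set.mem_iUnion]
    exact ⟨s, Finset.mem_range.2 hs, J, Finset.mem_filter.2 ⟨Finset.mem_range.2 (hj J hJ1), hJ1⟩,
      ENNReal.ofReal_le_ofReal hJ2.le⟩
  calc Pm (AeI_badV t g ζ ε N m) ≤ _ := measure_mono hsub
    _ ≤ _ := measure_biUnion_finset_le _ _
    _ ≤ ∑ _s ∈ Finset.range N, ENNReal.ofReal (1 / (m : ℝ) ^ 7) := by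
        apply Finset.sum_le_sum
        intro s _
        refine (measure_biUnion_finset_le _ _).trans ?_
        refine (Finset.sum_le_sum fun J hJ => hone s J (Finset.mem_filter.1 hJ).2).trans ?_
        rw [Finset.sum_const, nsmul_eq_mul]
        have e1 : (((Finset.range m).filter
            (fun J : ℕ => (J : ℝ) + 1 ≤ (1 - ε) * (LL m / Real.log (LL m)))).card : ENNReal) ≤
            ENNReal.ofReal (m : ℝ) := by
          rw [ENNReal.ofReal_natCast]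
          have := Finset.card_filter_le (Finset.range m)
            (fun J : ℕ => (J : ℝ) + 1 ≤ (1 - ε) * (LL m / Real.log (LL m)))
          rw [Finset.card_range] at this
          exact_mod_cast this
        refine (mul_le_mul_left e1 _).trans ?_
        rw [← ENNReal.ofReal_mul hm0.le]
        apply ENNReal.ofReal_le_ofReal
        apply le_of_eq
        field_simp
    _ = ENNReal.ofReal ((N : ℝ) * (1 / (m : ℝ) ^ 7)) := by
        rw [Finset.sum_const, Finset.card_range, nsmul_eq_mul, ENNReal.ofReal_mul (Nat.cast_nonneg _),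
          ENNReal.ofReal_natCast]

private theorem AeI_var {t K : ℝ} {g : ℕ → ℝ} (h : AdmK t K g) {ζ : ℕ → ℕ} (hζ : ZH t ζ) {ε : ℝ}
    (hε : 0 < ε) (hε1 : ε < 1) (N : ℕ) :
    ∀ᵐ ω ∂Pm, ∀ᶠ m : ℕ in atTop, ∀ s < N, ∀ J : ℕ,
    ((J : ℝ) + 1 ≤ (1 - ε) * (LL m / Real.log (LL m))) →
    |∑ n ∈ (wn m N s).filter (fun n => n ∈ RAF.Inn t m),
      (wt (Ml ζ m) t g n J ω - RLC.th n * gg (MM ζ (4 * m)) (Ml ζ m) J m n)| ≤
      pr (Ml ζ m) m J * (2 ^ m / (m : ℝ) ^ 2) := by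
  have hs : Summable fun m : ℕ => (N : ℝ) * (1 / (m : ℝ) ^ 7) :=
    (Real.summable_one_div_nat_pow.2 (by norm_num)).mul_left _
  filter_upwards [AeI_BC hs (AeI_probV h hζ hε hε1 N)] with ω hω
  filter_upwards [hω] with m hm s hs J hJ
  by_contra hc
  exact hm ⟨s, hs, J, hJ, not_le.1 hc⟩

/-- The set where the estimate near the end of the block fails. -/
private def AeI_badB (t : ℝ) (g : ℕ → ℝ) (ζ : ℕ → ℕ) (m : ℕ) : Set (ℕ → ℝ × ℝ) :=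
  {ω | ∃ J : ℕ, ((J : ℝ) ≤ 2 * (LL m / Real.log (LL m))) ∧
    (2 : ℝ) ^ ((1 - (1 - t) / 8) * (m : ℝ)) <
    ∑ n ∈ (Finset.Ico (2 ^ m) (2 ^ (m + 1))).filter (fun n => n ∉ RAF.Inn t m), wt (Ml ζ m) t g n J ω}

private theorem AeI_probB {t K : ℝ} {g : ℕ → ℝ} (h : AdmK t K g) {ζ : ℕ → ℕ} (hζ : ZH t ζ) :
    ∀ᶠ m : ℕ in atTop, Pm (AeI_badB t g ζ m) ≤
      ENNReal.ofReal ((2 * (m : ℝ) + 1) * ((2 : ℝ) ^ (-((1 - t) / 8))) ^ m) := by
  filter_upwards [AeI_bnd h hζ (show (0 : ℝ) < 1 / 2 by norm_num), AeI_loglog] with m hB hm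
  obtain ⟨hll, hL1, h6⟩ := hm
  have hm0 : (0 : ℝ) < m := by
    have : 0 < m := by omega
    exact_mod_cast this
  have hj : ∀ J : ℕ, ((J : ℝ) ≤ 2 * (LL m / Real.log (LL m))) → J < 2 * m + 1 := by
    intro J hJ
    have e1 : LL m / Real.log (LL m) ≤ LL m := div_le_self (by linarith) hll
    have e3 := AeI_LL_le m
    have e4 : (J : ℝ) ≤ 2 * m := by linarith
    have e5 : (J : ℝ) ≤ ((2 * m : ℕ) : ℝ) := by
      push_cast
      exact e4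
    have := Nat.cast_le.1 e5
    omega
  set S : Finset ℕ := (Finset.Ico (2 ^ m) (2 ^ (m + 1))).filter (fun n => n ∉ RAF.Inn t m) with hS
  set F : ℕ → Set (ℕ → ℝ × ℝ) := fun J =>
    {ω | ENNReal.ofReal ((2 : ℝ) ^ ((1 - (1 - t) / 8) * (m : ℝ))) ≤
      ∑ n ∈ S, ENNReal.ofReal (wt (Ml ζ m) t g n J ω)} with hF
  have hone : ∀ J : ℕ, ((J : ℝ) ≤ 2 * (LL m / Real.log (LL m))) →
      Pm (F J) ≤ ENNReal.ofReal (((2 : ℝ) ^ (-((1 - t) / 8))) ^ m) := by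
    intro J hJ
    have h1 := hB.bdry (Ml ζ m) g (Ml_adm h ζ m) J hJ
    refine AeI_markov ?_ (by positivity) ?_
    · exact Finset.measurable_fun_sum _ fun n _ => (wt_meas (Ml ζ m) t g n J).ennreal_ofReal
    · rw [lintegral_finsetSum _ (fun n _ => (wt_meas (Ml ζ m) t g n J).ennreal_ofReal)]
      refine h1.trans (le_of_eq ?_)
      congr 1
      rw [← Real.rpow_natCast ((2 : ℝ) ^ (-((1 - t) / 8))) m, ← Real.rpow_mul (by norm_num),
        ← Real.rpow_add (by norm_num)]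
      congr 1
      ring
  have hsub : AeI_badB t g ζ m ⊆ ⋃ J ∈ (Finset.range (2 * m + 1)).filter
      (fun J : ℕ => (J : ℝ) ≤ 2 * (LL m / Real.log (LL m))), F J := by
    rintro ω ⟨J, hJ1, hJ2⟩
    simp only [Set.mem_iUnion]
    refine ⟨J, Finset.mem_filter.2 ⟨Finset.mem_range.2 (hj J hJ1), hJ1⟩, ?_⟩
    rw [hF]
    simp only [Set.mem_ofPred_eq]
    rw [← ENNReal.ofReal_sum_of_nonneg (fun n _ => wt_nonneg _ t g n J ω)]
    exact ENNReal.ofReal_le_ofReal hJ2.le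
  calc Pm (AeI_badB t g ζ m) ≤ _ := measure_mono hsub
    _ ≤ _ := measure_biUnion_finset_le _ _
    _ ≤ ∑ _J ∈ (Finset.range (2 * m + 1)).filter
      (fun J : ℕ => (J : ℝ) ≤ 2 * (LL m / Real.log (LL m))),
        ENNReal.ofReal (((2 : ℝ) ^ (-((1 - t) / 8))) ^ m) :=
        Finset.sum_le_sum fun J hJ => hone J (Finset.mem_filter.1 hJ).2
    _ ≤ ENNReal.ofReal (2 * (m : ℝ) + 1) * ENNReal.ofReal (((2 : ℝ) ^ (-((1 - t) / 8))) ^ m) := by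
        rw [Finset.sum_const, nsmul_eq_mul]
        refine mul_le_mul_left ?_ _
        have e1 := Finset.card_filter_le (Finset.range (2 * m + 1))
          (fun J : ℕ => (J : ℝ) ≤ 2 * (LL m / Real.log (LL m)))
        rw [Finset.card_range] at e1
        have e2 : (2 * (m : ℝ) + 1) = ((2 * m + 1 : ℕ) : ℝ) := by push_cast; ring
        rw [e2, ENNReal.ofReal_natCast]
        exact_mod_cast e1
    _ = ENNReal.ofReal ((2 * (m : ℝ) + 1) * ((2 : ℝ) ^ (-((1 - t) / 8))) ^ m) := by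
        rw [ENNReal.ofReal_mul (by positivity)]

private theorem AeI_bdry {t K : ℝ} {g : ℕ → ℝ} (h : AdmK t K g) {ζ : ℕ → ℕ} (hζ : ZH t ζ) :
    ∀ᵐ ω ∂Pm, ∀ᶠ m : ℕ in atTop, ∀ J : ℕ, ((J : ℝ) ≤ 2 * (LL m / Real.log (LL m))) →
    ∑ n ∈ (Finset.Ico (2 ^ m) (2 ^ (m + 1))).filter (fun n => n ∉ RAF.Inn t m), wt (Ml ζ m) t g n J ω ≤
      (2 : ℝ) ^ ((1 - (1 - t) / 8) * (m : ℝ)) := by
  have ht := h.ht1
  set r : ℝ := (2 : ℝ) ^ (-((1 - t) / 8)) with hr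
  have hr0 : 0 < r := by positivity
  have hr1 : r < 1 := Real.rpow_lt_one_of_one_lt_of_neg (by norm_num) (by linarith)
  have hrn : ‖r‖ < 1 := by
    rw [Real.norm_of_nonneg hr0.le]
    exact hr1
  have hs : Summable fun m : ℕ => (2 * (m : ℝ) + 1) * r ^ m := by
    have s1 := summable_pow_mul_geometric_of_norm_lt_one 1 hrn
    have s2 := summable_geometric_of_lt_one hr0.le hr1
    refine ((s1.mul_left 2).add s2).congr fun m => ?_
    simp only [pow_one]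
    ring
  filter_upwards [AeI_BC hs (AeI_probB h hζ)] with ω hω
  filter_upwards [hω] with m hm J hJ
  by_contra hc
  exact hm ⟨J, hJ, not_le.1 hc⟩

private theorem AeI_cnt_meas (Mb : ℕ → ℕ) (t : ℝ) (g : ℕ → ℝ) (k : ℕ) (S : Finset ℕ) :
    Measurable fun ω : ℕ → ℝ × ℝ => (cnt Mb t g ω k S : ENNReal) := by
  classical
  have h1 : (fun ω : ℕ → ℝ × ℝ => (cnt Mb t g ω k S : ENNReal)) =
      fun ω => ∑ n ∈ S, if (∀ i < k, (ch Mb t g ω n i).Prime) then (1 : ENNReal) else 0 := by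
    funext ω
    unfold cnt
    rw [Finset.card_filter]
    push_cast
    apply Finset.sum_congr rfl
    intro n _
    by_cases hp : ∀ i < k, (ch Mb t g ω n i).Prime
    · rw [if_pos hp]
    · rw [if_neg hp]
  rw [h1]
  refine Finset.measurable_fun_sum _ fun n _ => Measurable.ite ?_ measurable_const measurable_const
  have h2 : {ω : ℕ → ℝ × ℝ | ∀ i < k, (ch Mb t g ω n i).Prime} =
      ⋂ i : ℕ, ⋂ _ : i < k, (fun ω => ch Mb t g ω n i) ⁻¹' {p | p.Prime} := by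
    ext ω
    simp
  rw [h2]
  exact MeasurableSet.iInter fun i => MeasurableSet.iInter fun _ =>
    (ch_meas Mb t g n i) (MeasurableSet.of_discrete)

/-- The set where the upper bound fails. -/
private def AeI_badU (t : ℝ) (g : ℕ → ℝ) (ζ : ℕ → ℕ) (ε : ℝ) (m : ℕ) : Set (ℕ → ℝ × ℝ) :=
  {ω | ∃ k : ℕ, 1 ≤ k ∧ k ≤ m ∧ 2 ^ m * (m : ℝ) ^ 5 * LL m ^ (-((1 - ε) * (k : ℝ))) <
    (cnt (Ml ζ m) t g ω k (Finset.Ico (2 ^ m) (2 ^ (m + 1))) : ℝ)}

private theorem AeI_probU {t K : ℝ} {g : ℕ → ℝ} (h : AdmK t K g) {ζ : ℕ → ℕ} (hζ : ZH t ζ) {ε : ℝ}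
    (hε : 0 < ε) :
    ∀ᶠ m : ℕ in atTop, Pm (AeI_badU t g ζ ε m) ≤ ENNReal.ofReal (1 / (m : ℝ) ^ 2) := by
  filter_upwards [AeI_bnd h hζ hε, AeI_loglog] with m hB hm
  obtain ⟨hll, hL1, h6⟩ := hm
  have hm0 : (0 : ℝ) < m := by
    have : 0 < m := by omega
    exact_mod_cast this
  have hL0 : 0 < LL m := by linarith
  set F : ℕ → Set (ℕ → ℝ × ℝ) := fun k =>
    {ω | ENNReal.ofReal (2 ^ m * (m : ℝ) ^ 5 * LL m ^ (-((1 - ε) * (k : ℝ)))) ≤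
      (cnt (Ml ζ m) t g ω k (Finset.Ico (2 ^ m) (2 ^ (m + 1))) : ENNReal)} with hF
  have hone : ∀ k : ℕ, 1 ≤ k → Pm (F k) ≤ ENNReal.ofReal (1 / (m : ℝ) ^ 3) := by
    intro k hk
    have h1 := hB.cnt (Ml ζ m) g (Ml_adm h ζ m) k hk
    have hp : 0 < LL m ^ (-((1 - ε) * (k : ℝ))) := Real.rpow_pos_of_pos hL0 _
    refine AeI_markov (AeI_cnt_meas _ t g k _) (by positivity) (h1.trans (le_of_eq ?_))
    congr 1
    field_simp
  have hsub : AeI_badU t g ζ ε m ⊆ ⋃ k ∈ Finset.Icc 1 m, F k := by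
    rintro ω ⟨k, hk1, hk2, hk3⟩
    simp only [Set.mem_iUnion]
    refine ⟨k, Finset.mem_Icc.2 ⟨hk1, hk2⟩, ?_⟩
    rw [hF]
    simp only [Set.mem_ofPred_eq]
    rw [← ENNReal.ofReal_natCast]
    exact ENNReal.ofReal_le_ofReal hk3.le
  calc Pm (AeI_badU t g ζ ε m) ≤ _ := measure_mono hsub
    _ ≤ _ := measure_biUnion_finset_le _ _
    _ ≤ ∑ _k ∈ Finset.Icc 1 m, ENNReal.ofReal (1 / (m : ℝ) ^ 3) :=
        Finset.sum_le_sum fun k hk => hone k (Finset.mem_Icc.1 hk).1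
    _ = ENNReal.ofReal (1 / (m : ℝ) ^ 2) := by
        rw [Finset.sum_const, Nat.card_Icc, nsmul_eq_mul, Nat.add_sub_cancel, ← ENNReal.ofReal_natCast,
          ← ENNReal.ofReal_mul hm0.le]
        congr 1
        field_simp

private theorem AeI_up {t K : ℝ} {g : ℕ → ℝ} (h : AdmK t K g) {ζ : ℕ → ℕ} (hζ : ZH t ζ) {ε : ℝ}
    (hε : 0 < ε) :
    ∀ᵐ ω ∂Pm, ∀ᶠ m : ℕ in atTop, ∀ k : ℕ, 1 ≤ k → k ≤ m →
    (cnt (Ml ζ m) t g ω k (Finset.Ico (2 ^ m) (2 ^ (m + 1))) : ℝ) ≤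
      2 ^ m * (m : ℝ) ^ 5 * LL m ^ (-((1 - ε) * (k : ℝ))) := by
  have hs : Summable fun m : ℕ => 1 / (m : ℝ) ^ 2 := Real.summable_one_div_nat_pow.2 (by norm_num)
  filter_upwards [AeI_BC hs (AeI_probU h hζ hε)] with ω hω
  filter_upwards [hω] with m hm k hk1 hk2
  by_contra hc
  exact hm ⟨k, hk1, hk2, not_le.1 hc⟩

private theorem AeI_eps (q : ℕ) : (0 : ℝ) < 1 / ((q : ℝ) + 2) ∧ 1 / ((q : ℝ) + 2) < 1 := by
  have hq0 : (0 : ℝ) ≤ q := Nat.cast_nonneg q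
  refine ⟨by positivity, ?_⟩
  rw [div_lt_one (by linarith)]
  linarith

private theorem AeI_exists_q {ε : ℝ} (hε : 0 < ε) : ∃ q : ℕ, 1 / ((q : ℝ) + 2) ≤ ε := by
  obtain ⟨q, hqε⟩ := exists_nat_ge (1 / ε)
  refine ⟨q, ?_⟩
  have hq0 : (0 : ℝ) ≤ q := Nat.cast_nonneg q
  rw [div_le_iff₀ (by linarith)]
  rw [div_le_iff₀ hε] at hqε
  nlinarith

theorem ae_good {t K : ℝ} {g : ℕ → ℝ} (h : AdmK t K g) {ζ : ℕ → ℕ} (hζ : ZH t ζ) :
    ∀ᵐ ω ∂Pm, GoodI t g ζ ω := by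
  have hV := ae_all_iff.2 fun q : ℕ => ae_all_iff.2 fun N : ℕ =>
    AeI_var h hζ (AeI_eps q).1 (AeI_eps q).2 N
  have hU := ae_all_iff.2 fun q : ℕ => AeI_up h hζ (AeI_eps q).1
  filter_upwards [RAF.ae_mem, hV, AeI_bdry h hζ, hU] with ω h1 h2 h3 h4
  refine ⟨h1, ?_, h3, ?_⟩
  · intro ε hε _ N _
    obtain ⟨q, hq⟩ := AeI_exists_q hε
    filter_upwards [h2 q N, AeI_loglog] with m hm hl s hs J hJ
    obtain ⟨hll, hL1, _⟩ := hl
    refine hm s hs J (hJ.trans ?_)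
    have h5 : 0 ≤ LL m / Real.log (LL m) := div_nonneg (by linarith) (by linarith)
    exact mul_le_mul_of_nonneg_right (by linarith) h5
  · intro ε hε _
    obtain ⟨q, hq⟩ := AeI_exists_q hε
    filter_upwards [h4 q, AeI_loglog] with m hm hl k hk1 hk2
    obtain ⟨_, hL1, _⟩ := hl
    refine (hm k hk1 hk2).trans ?_
    have h5 : LL m ^ (-((1 - 1 / ((q : ℝ) + 2)) * (k : ℝ))) ≤ LL m ^ (-((1 - ε) * (k : ℝ))) := by
      apply Real.rpow_le_rpow_of_exponent_le hL1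
      have h6 : (0 : ℝ) ≤ k := Nat.cast_nonneg k
      nlinarith
    exact mul_le_mul_of_nonneg_left h5 (by positivity)

end RAG
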