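import Pool.Agent.RAG.OneU
import Pool.Agent.RAF.Dens

/-!
# RAG.Dens: the distribution of the members of the chains, averaged over the starting points

PROOF. `C` from `dens_step`. Let `G_j n = ∫⁻ ofReal (∏_{i<j} th (ch n i)) F (ch n j)`. `G_0 = F`, and `G_(j+1) n = ofReal (th n) ∫⁻ G_j (TT n y) dy` for `n > 0` (`first_gen` with the integrand of `G_j`, whose
measurability and invariance are clear from `ch_meas`, `ch_update_lt`; `∏_{i<j+1} th (ch n i) = th n ∏_{i<j} th (ch (T n) i)`, `ch_succ'`). So by `dens_step` (for `G_j`):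
`∑'_{n>0, m ≤ log₂ n} G_(j+1) n ≤ C ∑'_{z>0, m+1 ≤ log₂ z} G_j z`, induction on `j` for all `m`.
-/

namespace RAG

open MeasureTheory

open RAF (uu Pm)

/-- The integrand. -/
private noncomputable def Dens_f (Mb : ℕ → ℕ) (t : ℝ) (g : ℕ → ℝ) (F : ℕ → ENNReal) (j n : ℕ) (ω : ℕ → ℝ × ℝ) : ENNReal :=
  ENNReal.ofReal (∏ i ∈ Finset.range j, RLC.th (ch Mb t g ω n i)) * F (ch Mb t g ω n j)

/-- The integral. -/
private noncomputable def Dens_G (Mb : ℕ → ℕ) (t : ℝ) (g : ℕ → ℝ) (F : ℕ → ENNReal) (j n : ℕ) : ENNReal :=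
  ∫⁻ ω, Dens_f Mb t g F j n ω ∂Pm

private theorem Dens_f_meas (Mb : ℕ → ℕ) (t : ℝ) (g : ℕ → ℝ) (F : ℕ → ENNReal) (j n : ℕ) :
    Measurable (Dens_f Mb t g F j n) := by
  unfold Dens_f
  refine Measurable.mul ?_ ?_
  · refine ENNReal.measurable_ofReal.comp ?_
    refine Finset.measurable_prod _ fun i _ => ?_
    exact (measurable_of_countable RLC.th).comp (ch_meas Mb t g n i)
  · exact (measurable_of_countable F).comp (ch_meas Mb t g n j)

private theorem Dens_f_update (Mb : ℕ → ℕ) (t : ℝ) (g : ℕ → ℝ) (F : ℕ → ENNReal) (j q m : ℕ) (y : ℝ × ℝ)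
    (ω : ℕ → ℝ × ℝ) (hm : m < Nat.log 2 q) :
    Dens_f Mb t g F j q (Function.update ω m y) = Dens_f Mb t g F j q ω := by
  unfold Dens_f
  simp only [ch_update_lt Mb t g ω hm y]

private theorem Dens_G_zero (Mb : ℕ → ℕ) (t : ℝ) (g : ℕ → ℝ) (F : ℕ → ENNReal) (n : ℕ) :
    Dens_G Mb t g F 0 n = F n := by
  unfold Dens_G Dens_f
  simp [ch_zero]

private theorem Dens_G_succ (Mb : ℕ → ℕ) (t : ℝ) (g : ℕ → ℝ) (F : ℕ → ENNReal) (j : ℕ) {n : ℕ} (hn : 0 < n) :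
    Dens_G Mb t g F (j + 1) n = ENNReal.ofReal (RLC.th n) * ∫⁻ y, Dens_G Mb t g F j (RAF.TT (Mb (Nat.log 2 n)) t g n y) ∂uu := by
  have h1 : ∀ ω : ℕ → ℝ × ℝ, Dens_f Mb t g F (j + 1) n ω =
      ENNReal.ofReal (RLC.th n) * Dens_f Mb t g F j (T Mb t g ω n) ω := by
    intro ω
    unfold Dens_f
    rw [Finset.prod_range_succ', ch_zero, ch_succ']
    have h2 : ∀ i, ch Mb t g ω n (i + 1) = ch Mb t g ω (T Mb t g ω n) i := fun i => ch_succ' Mb t g ω n i
    simp only [h2]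
    rw [ENNReal.ofReal_mul (Finset.prod_nonneg fun i _ => RLC.th_nonneg _)]
    rw [mul_comm (ENNReal.ofReal (∏ i ∈ Finset.range j, RLC.th (ch Mb t g ω (T Mb t g ω n) i))), mul_assoc]
  have h3 := first_gen Mb t g hn (Dens_f Mb t g F j) (Dens_f_meas Mb t g F j)
    (fun q m y ω hm => Dens_f_update Mb t g F j q m y ω hm)
  calc Dens_G Mb t g F (j + 1) n = ∫⁻ ω, ENNReal.ofReal (RLC.th n) * Dens_f Mb t g F j (T Mb t g ω n) ω ∂Pm := by
        unfold Dens_G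
        exact lintegral_congr h1
    _ = ENNReal.ofReal (RLC.th n) * ∫⁻ ω, Dens_f Mb t g F j (T Mb t g ω n) ω ∂Pm := by
        rw [lintegral_const_mul' _ _ ENNReal.ofReal_ne_top]
    _ = ENNReal.ofReal (RLC.th n) * ∫⁻ y, Dens_G Mb t g F j (RAF.TT (Mb (Nat.log 2 n)) t g n y) ∂uu := by
        rw [h3]
        rfl

open Classical in
theorem dens {R : ℕ} (hR : 0 < R) (t K : ℝ) : ∃ C : ℝ, 1 ≤ C ∧ ∀ (Mb : ℕ → ℕ) (g : ℕ → ℝ), AdmG R Mb t K g →
    ∀ (F : ℕ → ENNReal) (m j : ℕ),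
    ∑' n : ℕ, (if 0 < n ∧ m ≤ Nat.log 2 n then
      ∫⁻ ω, ENNReal.ofReal (∏ i ∈ Finset.range j, RLC.th (ch Mb t g ω n i)) * F (ch Mb t g ω n j) ∂Pm else 0) ≤
    ENNReal.ofReal (C ^ j) * ∑' z : ℕ, (if 0 < z ∧ m + j ≤ Nat.log 2 z then F z else 0) := by
  obtain ⟨C, hC, hs'⟩ := dens_step hR t K
  refine ⟨C, hC, fun Mb g h F m j => ?_⟩
  have hs := hs' g ⟨h.ht, h.ht1, h.hK, h.mono, h.nonneg, h.le⟩ Mb h.dvd
  have key : ∀ j m : ℕ, ∑' n : ℕ, (if 0 < n ∧ m ≤ Nat.log 2 n then Dens_G Mb t g F j n else 0) ≤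
      ENNReal.ofReal (C ^ j) * ∑' z : ℕ, (if 0 < z ∧ m + j ≤ Nat.log 2 z then F z else 0) := by
    intro j
    induction j with
    | zero =>
      intro m
      simp only [Dens_G_zero, pow_zero, ENNReal.ofReal_one, one_mul, add_zero]
      exact le_refl _
    | succ j ih =>
      intro m
      have h1 : ∑' n : ℕ, (if 0 < n ∧ m ≤ Nat.log 2 n then Dens_G Mb t g F (j + 1) n else 0) =
          ∑' n : ℕ, (if 0 < n ∧ m ≤ Nat.log 2 n then
            ENNReal.ofReal (RLC.th n) * ∫⁻ y, Dens_G Mb t g F j (RAF.TT (Mb (Nat.log 2 n)) t g n y) ∂uu else 0) := by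
        refine tsum_congr fun n => ?_
        by_cases hn : 0 < n ∧ m ≤ Nat.log 2 n
        · rw [if_pos hn, if_pos hn, Dens_G_succ Mb t g F j hn.1]
        · rw [if_neg hn, if_neg hn]
      rw [h1]
      refine (hs (Dens_G Mb t g F j) m).trans ?_
      have h2 := ih (m + 1)
      have h3 : m + (j + 1) = m + 1 + j := by omega
      rw [h3, pow_succ, mul_comm (C ^ j) C, ENNReal.ofReal_mul (by linarith), mul_assoc]
      exact mul_le_mul_right h2 _
  exact key j m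

end RAG
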