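import Pool.Agent.RAG.OneU
import Pool.Agent.RAF.Mom1

/-!
# RAG.Mom1: first moments

PROOF. As `Pool/Agent/RAF/Mom1.lean` (copy), `C` from `one_step` of `OneU.lean`.
-/

namespace RAG

open MeasureTheory
open RAF (uu Pm)

theorem mom_one {R : ℕ} (hR : 0 < R) (t K : ℝ) : ∃ C : ℝ, 1 ≤ C ∧ ∀ (Mb : ℕ → ℕ) (g : ℕ → ℝ), AdmG R Mb t K g →
    ∀ n : ℕ, 0 < n → ∀ j : ℕ,
    ∫⁻ ω, ENNReal.ofReal (wt Mb t g n j ω) ∂Pm ≤ ENNReal.ofReal (RLC.th n * C ^ j) := by
  obtain ⟨C, hC, hone⟩ := one_step hR t K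
  refine ⟨C, hC, ?_⟩
  intro Mb g h n hn j
  induction j generalizing n with
  | zero =>
    simp only [wt_zero, pow_zero, mul_one]
    rw [lintegral_const, measure_univ, mul_one]
  | succ j ih =>
    have h1 : ∀ ω, ENNReal.ofReal (wt Mb t g n (j + 1) ω) =
        ENNReal.ofReal (RLC.th n) * ENNReal.ofReal (wt Mb t g (T Mb t g ω n) j ω) := fun ω => by
      rw [wt_succ', ENNReal.ofReal_mul (RLC.th_nonneg n)]
    have h2 := first_gen Mb t g hn (fun q ω => ENNReal.ofReal (wt Mb t g q j ω))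
      (fun q => (wt_meas Mb t g q j).ennreal_ofReal)
      (fun q m y ω hm => by simp only [wt_update_lt Mb t g ω hm y j])
    calc ∫⁻ ω, ENNReal.ofReal (wt Mb t g n (j + 1) ω) ∂Pm
        = ENNReal.ofReal (RLC.th n) * ∫⁻ ω, ENNReal.ofReal (wt Mb t g (T Mb t g ω n) j ω) ∂Pm := by
          rw [← lintegral_const_mul' _ _ ENNReal.ofReal_ne_top]
          exact lintegral_congr h1
      _ = ENNReal.ofReal (RLC.th n) * ∫⁻ y, ∫⁻ ω,
            ENNReal.ofReal (wt Mb t g (RAF.TT (Mb (Nat.log 2 n)) t g n y) j ω) ∂Pm ∂uu := by rw [h2]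
      _ ≤ ENNReal.ofReal (RLC.th n) * ∫⁻ y,
            ENNReal.ofReal (RLC.th (RAF.TT (Mb (Nat.log 2 n)) t g n y)) * ENNReal.ofReal (C ^ j) ∂uu := by
          refine mul_le_mul' le_rfl (lintegral_mono fun y => ?_)
          rw [← ENNReal.ofReal_mul (RLC.th_nonneg _)]
          exact ih _ (lt_of_lt_of_le (by omega) (RAF.TT_ge (Mb (Nat.log 2 n)) t g n y))
      _ = ENNReal.ofReal (RLC.th n) *
            ((∫⁻ y, ENNReal.ofReal (RLC.th (RAF.TT (Mb (Nat.log 2 n)) t g n y)) ∂uu) *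
              ENNReal.ofReal (C ^ j)) := by
          rw [lintegral_mul_const' _ _ ENNReal.ofReal_ne_top]
      _ ≤ ENNReal.ofReal (RLC.th n) * (ENNReal.ofReal C * ENNReal.ofReal (C ^ j)) :=
          mul_le_mul' le_rfl (mul_le_mul' (hone g h.admK (Mb (Nat.log 2 n)) (h.dvd _) n hn) le_rfl)
      _ = ENNReal.ofReal (RLC.th n * C ^ (j + 1)) := by
          rw [← ENNReal.ofReal_mul (by linarith), ← ENNReal.ofReal_mul (RLC.th_nonneg n)]
          congr 1
          ring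

open Classical in
theorem tail {R : ℕ} (hR : 0 < R) (t K : ℝ) : ∃ C : ℝ, 1 ≤ C ∧ ∀ (Mb : ℕ → ℕ) (g : ℕ → ℝ), AdmG R Mb t K g →
    ∀ (S : Set ℕ) (n : ℕ), 0 < n → ∀ i l : ℕ,
    ∫⁻ ω, (if ch Mb t g ω n i ∈ S then ENNReal.ofReal (wt Mb t g n (i + l) ω) else 0) ∂Pm ≤
      ENNReal.ofReal (C ^ l) * ∫⁻ ω, (if ch Mb t g ω n i ∈ S then ENNReal.ofReal (wt Mb t g n i ω) else 0) ∂Pm := by
  obtain ⟨C, hC, hmom⟩ := mom_one hR t K
  refine ⟨C, hC, ?_⟩
  intro Mb g h S n hn i l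
  have hkey : ∀ (n i k : ℕ), 0 < n →
      ∫⁻ ω, (if ch Mb t g ω n (i + 1) ∈ S then ENNReal.ofReal (wt Mb t g n (k + 1) ω) else 0) ∂Pm =
      ENNReal.ofReal (RLC.th n) * ∫⁻ y, ∫⁻ ω,
        (if ch Mb t g ω (RAF.TT (Mb (Nat.log 2 n)) t g n y) i ∈ S then
          ENNReal.ofReal (wt Mb t g (RAF.TT (Mb (Nat.log 2 n)) t g n y) k ω) else 0) ∂Pm ∂uu := by
    intro n i k hn
    have h2 := first_gen Mb t g hn
      (fun q ω => if ch Mb t g ω q i ∈ S then ENNReal.ofReal (wt Mb t g q k ω) else 0)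
      (fun q => Measurable.ite ((ch_meas Mb t g q i) (MeasurableSet.of_discrete (s := S)))
        (wt_meas Mb t g q k).ennreal_ofReal measurable_const)
      (fun q m y ω hm => by simp only [wt_update_lt Mb t g ω hm y k, ch_update_lt Mb t g ω hm y i])
    rw [← h2, ← lintegral_const_mul' _ _ ENNReal.ofReal_ne_top]
    refine lintegral_congr fun ω => ?_
    rw [ch_succ', wt_succ', ENNReal.ofReal_mul (RLC.th_nonneg n)]
    split_ifs
    · rfl
    · rw [mul_zero]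
  induction i generalizing n with
  | zero =>
    simp only [ch_zero, zero_add, wt_zero]
    by_cases hS : n ∈ S
    · simp only [hS, if_true]
      rw [lintegral_const, measure_univ, mul_one]
      refine (hmom Mb g h n hn l).trans (le_of_eq ?_)
      rw [mul_comm, ENNReal.ofReal_mul (pow_nonneg (by linarith) l)]
    · simp only [hS, if_false]
      simp
  | succ i ih =>
    have e : i + 1 + l = (i + l) + 1 := by ring
    rw [e, hkey n i (i + l) hn, hkey n i i hn]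
    calc ENNReal.ofReal (RLC.th n) * ∫⁻ y, ∫⁻ ω,
          (if ch Mb t g ω (RAF.TT (Mb (Nat.log 2 n)) t g n y) i ∈ S then
            ENNReal.ofReal (wt Mb t g (RAF.TT (Mb (Nat.log 2 n)) t g n y) (i + l) ω) else 0) ∂Pm ∂uu
        ≤ ENNReal.ofReal (RLC.th n) * ∫⁻ y, ENNReal.ofReal (C ^ l) *
            ∫⁻ ω, (if ch Mb t g ω (RAF.TT (Mb (Nat.log 2 n)) t g n y) i ∈ S then
              ENNReal.ofReal (wt Mb t g (RAF.TT (Mb (Nat.log 2 n)) t g n y) i ω) else 0) ∂Pm ∂uu := by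
          refine mul_le_mul' le_rfl (lintegral_mono fun y => ?_)
          exact ih _ (lt_of_lt_of_le (by omega) (RAF.TT_ge (Mb (Nat.log 2 n)) t g n y))
      _ = ENNReal.ofReal (RLC.th n) * (ENNReal.ofReal (C ^ l) * ∫⁻ y,
            ∫⁻ ω, (if ch Mb t g ω (RAF.TT (Mb (Nat.log 2 n)) t g n y) i ∈ S then
              ENNReal.ofReal (wt Mb t g (RAF.TT (Mb (Nat.log 2 n)) t g n y) i ω) else 0) ∂Pm ∂uu) := by
          rw [lintegral_const_mul' _ _ ENNReal.ofReal_ne_top]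
      _ = _ := by ring

end RAG
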