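import Pool.Agent.RAG.KapU
import Pool.Agent.RAF.BadP

/-!
# RAG.BadU: the exceptional set

PROOF. As `Pool/Agent/RAF/BadP.lean` (copy), with `cells hR` (modulus `R`), `kap_far` of `KapU.lean`; `B` depends on `R`, `t`, `K`, `A` only.
-/

namespace RAG

open MeasureTheory
open RAF (uu Pm)

private theorem BadU_big {s : ℝ} (hs : 0 < s) (D : ℝ) : ∀ᶠ m : ℕ in Filter.atTop, D ≤ (2 : ℝ) ^ (s * (m : ℝ)) := by
  have h1 : Filter.Tendsto (fun m : ℕ => ((2 : ℝ) ^ s) ^ m) Filter.atTop Filter.atTop :=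
    tendsto_pow_atTop_atTop_of_one_lt (Real.one_lt_rpow (by norm_num) hs)
  filter_upwards [h1.eventually_ge_atTop D] with m hm
  rw [Real.rpow_mul (by norm_num), Real.rpow_natCast]
  exact hm

private theorem BadU_pow {s : ℝ} (hs : 0 < s) (A D : ℝ) (hD : 0 ≤ D) :
    ∀ᶠ m : ℕ in Filter.atTop, D * (m : ℝ) ^ A ≤ (2 : ℝ) ^ (s * (m : ℝ)) := by
  have hl : 0 < Real.log 2 := Real.log_pos (by norm_num)
  have h1 := (isLittleO_rpow_exp_pos_mul_atTop A (show 0 < s * Real.log 2 by positivity)).def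
    (show (0 : ℝ) < 1 / (D + 1) by positivity)
  have h2 := tendsto_natCast_atTop_atTop (R := ℝ).eventually h1
  filter_upwards [h2, Filter.eventually_ge_atTop 1] with m hm hm1
  have hm2 : (0 : ℝ) ≤ (m : ℝ) ^ A := by positivity
  rw [Real.norm_of_nonneg hm2, Real.norm_of_nonneg (Real.exp_pos _).le] at hm
  have h3 : (2 : ℝ) ^ (s * (m : ℝ)) = Real.exp (s * Real.log 2 * m) := by
    rw [Real.rpow_def_of_pos (by norm_num)]
    ring_nf
  rw [h3]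
  have h4 : (D + 1) * (m : ℝ) ^ A ≤ Real.exp (s * Real.log 2 * m) := by
    rw [one_div, ← div_eq_inv_mul, le_div_iff₀ (by positivity)] at hm
    linarith
  nlinarith

/-- The number of the `z` whose window contains a cell. -/
private theorem BadU_cell (m D H r : ℕ) (hH : 0 < H) :
    ((Finset.Ico (2 ^ m) (2 ^ (m + 1))).filter fun z => r ∈ Finset.Icc (2 * z / H) ((2 * z + D) / H)).card ≤
      H + D + 1 := by
  have h1 : ((Finset.Ico (2 ^ m) (2 ^ (m + 1))).filter fun z => r ∈ Finset.Icc (2 * z / H) ((2 * z + D) / H)) ⊆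
      Finset.Icc ((r * H - D) / 2) ((r * H + H) / 2) := by
    intro z hz
    rw [Finset.mem_filter, Finset.mem_Icc] at hz
    obtain ⟨-, h2, h3⟩ := hz
    have h4 : 2 * z < (r + 1) * H := by
      have := Nat.lt_mul_of_div_lt (Nat.lt_succ_of_le h2) hH
      rw [mul_comm]
      simpa [mul_comm] using this
    have h5 : r * H ≤ 2 * z + D := (Nat.le_div_iff_mul_le hH).1 h3
    rw [Finset.mem_Icc]
    have h6 : (r + 1) * H = r * H + H := by ring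
    rw [h6] at h4
    generalize r * H = x at h4 h5 ⊢
    omega
  refine (Finset.card_le_card h1).trans ?_
  rw [Nat.card_Icc]
  generalize r * H = x
  omega

/-- The double count. -/
private theorem BadU_count (m D H : ℕ) (hH : 0 < H) (P : ℕ → Prop) [DecidablePred P] (w : ℝ)
    (S : Finset ℕ) (hS : S ⊆ Finset.Ico (2 ^ m) (2 ^ (m + 1)))
    (hbad : ∀ z ∈ S, w ≤ (((Finset.Icc (2 * z / H) ((2 * z + D) / H)).filter P).card : ℝ))
    (hD : D ≤ 2 ^ (m + 3)) :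
    (S.card : ℝ) * w ≤ ((H : ℝ) + D + 1) * (((Finset.Icc (2 ^ m / H) (2 ^ (m + 4) / H)).filter P).card : ℝ) := by
  have h1 : (S.card : ℝ) * w ≤
      ∑ z ∈ S, (((Finset.Icc (2 * z / H) ((2 * z + D) / H)).filter P).card : ℝ) := by
    rw [← nsmul_eq_mul]
    exact Finset.card_nsmul_le_sum _ _ _ hbad
  refine h1.trans ?_
  set R : Finset ℕ := (Finset.Icc (2 ^ m / H) (2 ^ (m + 4) / H)).filter P with hR
  have h2 : ∀ z ∈ S, (((Finset.Icc (2 * z / H) ((2 * z + D) / H)).filter P).card : ℝ) ≤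
      ∑ r ∈ R, (if r ∈ Finset.Icc (2 * z / H) ((2 * z + D) / H) then (1 : ℝ) else 0) := by
    intro z hz
    rw [← Finset.sum_filter, Finset.sum_const, nsmul_eq_mul, mul_one]
    have h3 : ((Finset.Icc (2 * z / H) ((2 * z + D) / H)).filter P) ⊆
        R.filter fun r => r ∈ Finset.Icc (2 * z / H) ((2 * z + D) / H) := by
      intro r hr
      rw [Finset.mem_filter] at hr
      rw [Finset.mem_filter, hR, Finset.mem_filter, Finset.mem_Icc]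
      refine ⟨⟨⟨?_, ?_⟩, hr.2⟩, hr.1⟩
      · have h4 := (Finset.mem_Icc.1 hr.1).1
        have h5 := (Finset.mem_Ico.1 (hS hz)).1
        exact (Nat.div_le_div_right (by omega)).trans h4
      · have h4 := (Finset.mem_Icc.1 hr.1).2
        have h5 := (Finset.mem_Ico.1 (hS hz)).2
        refine h4.trans (Nat.div_le_div_right ?_)
        have e1 : 2 ^ (m + 1) = 2 * 2 ^ m := by ring
        have e3 : 2 ^ (m + 3) = 8 * 2 ^ m := by ring
        have e4 : 2 ^ (m + 4) = 16 * 2 ^ m := by ring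
        rw [e1] at h5
        rw [e3] at hD
        rw [e4]
        omega
    exact_mod_cast Finset.card_le_card h3
  refine (Finset.sum_le_sum h2).trans ?_
  rw [Finset.sum_comm]
  have h6 : ∀ r ∈ R, ∑ z ∈ S, (if r ∈ Finset.Icc (2 * z / H) ((2 * z + D) / H) then (1 : ℝ) else 0) ≤
      (H : ℝ) + D + 1 := by
    intro r _
    rw [← Finset.sum_filter, Finset.sum_const, nsmul_eq_mul, mul_one]
    have h7 : (S.filter fun z => r ∈ Finset.Icc (2 * z / H) ((2 * z + D) / H)).card ≤ H + D + 1 :=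
      (Finset.card_le_card (Finset.filter_subset_filter _ hS)).trans (BadU_cell m D H r hH)
    exact_mod_cast h7
  refine (Finset.sum_le_sum h6).trans ?_
  rw [Finset.sum_const, nsmul_eq_mul, mul_comm]

open Classical in
theorem kap_main {R : ℕ} (hR : 0 < R) {t K : ℝ} (ht : 1 / 2 < t) (ht' : t < 1) (hK : 1 ≤ K) :
    ∃ κ : ℝ, 0 < κ ∧ κ ≤ 1 / 8 ∧ ∀ A : ℝ, ∃ (B : Set ℕ) (m0 : ℕ), ∀ m : ℕ, m0 ≤ m →
    (((Finset.Ico (2 ^ m) (2 ^ (m + 1))).filter fun z => z ∈ B).card : ℝ) ≤ (2 : ℝ) ^ ((1 - κ) * (m : ℝ)) ∧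
    ∀ g : ℕ → ℝ, AdmK t K g → ∀ M : ℕ, M ∣ R → ∀ Φ : ℕ → ℝ, Per R Φ →
    ∀ c c' : ℕ, Nat.log 2 c = m → Nat.log 2 c' = m → c' ∉ B → c < c' →
      (2 : ℝ) ^ ((1 - κ) * (m : ℝ)) ≤ (c' : ℝ) - c →
      |∫ y, (RLC.th (RAF.TT M t g c y) * Φ (RAF.TT M t g c y) - mn R M Φ c) *
        (RLC.th (RAF.TT M t g c' y) * Φ (RAF.TT M t g c' y) - mn R M Φ c') ∂uu| ≤ (m : ℝ) ^ (-A) := by
  have ht1 := ht'
  obtain ⟨κ1, hκ1, hcells⟩ := RAF.cells hR (t1 := (t + 1 / 2) / 2) (t2 := t) (by linarith) ht'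
  obtain ⟨κ, hκdef⟩ : ∃ κ : ℝ, κ = min (min (κ1 / 8) ((t - 1 / 2) / 8)) (1 / 8) := ⟨_, rfl⟩
  have hκ0 : 0 < κ := by
    rw [hκdef]
    refine lt_min (lt_min (by linarith) (by linarith)) (by norm_num)
  have hκ8 : κ ≤ 1 / 8 := by rw [hκdef]; exact min_le_right _ _
  have hκa : κ ≤ κ1 / 8 := by rw [hκdef]; exact (min_le_left _ _).trans (min_le_left _ _)
  have hκb : κ ≤ (t - 1 / 2) / 8 := by rw [hκdef]; exact (min_le_left _ _).trans (min_le_right _ _)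
  refine ⟨κ, hκ0, hκ8, fun A => ?_⟩
  obtain ⟨mc, hmc⟩ := hcells (A + 1)
  obtain ⟨C, hC1, mf, hmf⟩ := kap_far hR ht ht' hK (t1 := (t + 1 / 2) / 2) (by linarith) κ
  obtain ⟨H, hH⟩ : ∃ H : ℕ → ℕ, ∀ m, H m = ⌈(2 : ℝ) ^ ((t - 3 * κ) * (m : ℝ))⌉₊ := ⟨_, fun _ => rfl⟩
  obtain ⟨B, hB⟩ : ∃ B : Set ℕ, B = {z : ℕ | (2 : ℝ) ^ (κ * (Nat.log 2 z : ℝ)) <
    (((RAF.Wc t K (Nat.log 2 z) (H (Nat.log 2 z)) z).filter fun r =>
      RAF.BadC R (A + 1) (H (Nat.log 2 z)) (Nat.log 2 z) r).card : ℝ)} := ⟨_, rfl⟩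
  have hev1 := BadU_big (s := 3 * κ) (by linarith) 2
  have hev2 := BadU_big (s := 1 - t) (by linarith) (6 + 4 * K)
  have hev3 := BadU_big (s := κ1 - 3 * κ) (by linarith) (8 + 4 * K)
  have hev4 := BadU_pow hκ0 A (12 * C) (by linarith)
  have hev5 : ∀ᶠ m : ℕ in Filter.atTop, 2 * C ≤ (m : ℝ) := tendsto_natCast_atTop_atTop.eventually_ge_atTop _
  obtain ⟨m0, hm0⟩ := Filter.eventually_atTop.1 (hev1.and (hev2.and (hev3.and (hev4.and
    (hev5.and ((Filter.eventually_ge_atTop mc).and ((Filter.eventually_ge_atTop mf).and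
      (Filter.eventually_ge_atTop 1))))))))
  refine ⟨B, m0, fun m hm => ?_⟩
  obtain ⟨g1, g2, g3, g4, g5, g6, g7, g8⟩ := hm0 m hm
  have hmr : (1 : ℝ) ≤ m := by exact_mod_cast g8
  have hmr0 : (0 : ℝ) < m := by linarith
  have two0 : ∀ x : ℝ, (0 : ℝ) < (2 : ℝ) ^ x := fun x => Real.rpow_pos_of_pos (by norm_num) x
  have hbase : (1 : ℝ) ≤ (2 : ℝ) ^ ((t - 3 * κ) * (m : ℝ)) := by
    apply Real.one_le_rpow (by norm_num)
    have : 0 ≤ t - 3 * κ := by linarith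
    positivity
  have hHlow : (2 : ℝ) ^ ((t - 3 * κ) * (m : ℝ)) ≤ H m := by
    rw [hH]
    exact Nat.le_ceil _
  have hHup : (H m : ℝ) ≤ 2 * (2 : ℝ) ^ ((t - 3 * κ) * (m : ℝ)) := by
    rw [hH]
    have := (Nat.ceil_lt_add_one (two0 ((t - 3 * κ) * (m : ℝ))).le).le
    linarith
  have htm : (2 : ℝ) ^ (t * (m : ℝ)) = (2 : ℝ) ^ (3 * κ * (m : ℝ)) * (2 : ℝ) ^ ((t - 3 * κ) * (m : ℝ)) := by
    rw [← Real.rpow_add (by norm_num)]
    ring_nf
  have hHt : (H m : ℝ) ≤ (2 : ℝ) ^ (t * (m : ℝ)) := by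
    rw [htm]
    refine hHup.trans ?_
    exact mul_le_mul_of_nonneg_right g1 (two0 _).le
  have hHt1 : (2 : ℝ) ^ ((t + 1 / 2) / 2 * (m : ℝ)) ≤ H m := by
    refine le_trans ?_ hHlow
    apply Real.rpow_le_rpow_of_exponent_le (by norm_num)
    apply mul_le_mul_of_nonneg_right _ hmr0.le
    linarith
  have hHpos : 0 < H m := by
    have : (0 : ℝ) < H m := lt_of_lt_of_le (two0 _) hHlow
    exact_mod_cast this
  obtain ⟨D, hD⟩ : ∃ D : ℕ, D = ⌈(5 + 4 * K) * (2 : ℝ) ^ (t * (m : ℝ))⌉₊ := ⟨_, rfl⟩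
  have htm1 : (1 : ℝ) ≤ (2 : ℝ) ^ (t * (m : ℝ)) := by
    apply Real.one_le_rpow (by norm_num)
    have : 0 ≤ t := by linarith
    positivity
  have hDup : (D : ℝ) ≤ (6 + 4 * K) * (2 : ℝ) ^ (t * (m : ℝ)) := by
    rw [hD]
    have := (Nat.ceil_lt_add_one (show (0 : ℝ) ≤ (5 + 4 * K) * (2 : ℝ) ^ (t * (m : ℝ)) by
      have := two0 (t * (m : ℝ))
      nlinarith)).le
    nlinarith
  have hD3 : D ≤ 2 ^ (m + 3) := by
    have h1 : (D : ℝ) ≤ (2 : ℝ) ^ (m : ℝ) := by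
      refine hDup.trans ?_
      have h2 : (2 : ℝ) ^ (m : ℝ) = (2 : ℝ) ^ ((1 - t) * (m : ℝ)) * (2 : ℝ) ^ (t * (m : ℝ)) := by
        rw [← Real.rpow_add (by norm_num)]
        ring_nf
      rw [h2]
      exact mul_le_mul_of_nonneg_right g2 (two0 _).le
    rw [Real.rpow_natCast] at h1
    have h3 : D ≤ 2 ^ m := by exact_mod_cast h1
    have h4 : 2 ^ (m + 3) = 8 * 2 ^ m := by ring
    rw [h4]
    omega
  constructor
  · -- the cardinality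
    obtain ⟨S, hS⟩ : ∃ S, S = (Finset.Ico (2 ^ m) (2 ^ (m + 1))).filter fun z => z ∈ B := ⟨_, rfl⟩
    rw [← hS]
    have hlog : ∀ z ∈ S, Nat.log 2 z = m := by
      intro z hz
      rw [hS, Finset.mem_filter, Finset.mem_Ico] at hz
      exact Nat.log_eq_of_pow_le_of_lt_pow hz.1.1 hz.1.2
    have h1 := BadU_count m D (H m) hHpos (fun r => RAF.BadC R (A + 1) (H m) m r) ((2 : ℝ) ^ (κ * (m : ℝ)))
      S (by rw [hS]; exact Finset.filter_subset _ _) (by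
        intro z hz
        have h2 := hlog z hz
        rw [hS, Finset.mem_filter, hB, Set.mem_setOf_eq, h2] at hz
        unfold RAF.Wc at hz
        rw [← hD] at hz
        exact hz.2.le) hD3
    have h3 := hmc m g6 (H m) hHt1 hHt
    set N : ℝ := (((Finset.Icc (2 ^ m / H m) (2 ^ (m + 4) / H m)).filter fun r => RAF.BadC R (A + 1) (H m) m r).card : ℝ)
      with hN
    have hN0 : 0 ≤ N := Nat.cast_nonneg _
    have h4 : (H m : ℝ) + D + 1 ≤ (8 + 4 * K) * (2 : ℝ) ^ (t * (m : ℝ)) := by linarith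
    have h5 : N * (2 : ℝ) ^ ((t - 3 * κ) * (m : ℝ)) ≤ (2 : ℝ) ^ ((1 - κ1) * (m : ℝ)) :=
      (mul_le_mul_of_nonneg_left hHlow hN0).trans h3
    have h6 : (S.card : ℝ) * (2 : ℝ) ^ (κ * (m : ℝ)) * (2 : ℝ) ^ ((t - 3 * κ) * (m : ℝ)) ≤
        (8 + 4 * K) * (2 : ℝ) ^ (t * (m : ℝ)) * (2 : ℝ) ^ ((1 - κ1) * (m : ℝ)) := by
      calc (S.card : ℝ) * (2 : ℝ) ^ (κ * (m : ℝ)) * (2 : ℝ) ^ ((t - 3 * κ) * (m : ℝ))
          ≤ (((H m : ℝ) + D + 1) * N) * (2 : ℝ) ^ ((t - 3 * κ) * (m : ℝ)) :=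
            mul_le_mul_of_nonneg_right h1 (two0 _).le
        _ ≤ (((8 + 4 * K) * (2 : ℝ) ^ (t * (m : ℝ))) * N) * (2 : ℝ) ^ ((t - 3 * κ) * (m : ℝ)) := by
            gcongr
        _ = ((8 + 4 * K) * (2 : ℝ) ^ (t * (m : ℝ))) * (N * (2 : ℝ) ^ ((t - 3 * κ) * (m : ℝ))) := by ring
        _ ≤ _ := by
            apply mul_le_mul_of_nonneg_left h5
            have := two0 (t * (m : ℝ))
            nlinarith
    have h7 : (8 + 4 * K) * (2 : ℝ) ^ (t * (m : ℝ)) * (2 : ℝ) ^ ((1 - κ1) * (m : ℝ)) ≤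
        (2 : ℝ) ^ ((1 - κ) * (m : ℝ)) * ((2 : ℝ) ^ (κ * (m : ℝ)) * (2 : ℝ) ^ ((t - 3 * κ) * (m : ℝ))) := by
      have e1 : (2 : ℝ) ^ ((1 - κ) * (m : ℝ)) * ((2 : ℝ) ^ (κ * (m : ℝ)) * (2 : ℝ) ^ ((t - 3 * κ) * (m : ℝ))) =
          (2 : ℝ) ^ ((κ1 - 3 * κ) * (m : ℝ)) * ((2 : ℝ) ^ (t * (m : ℝ)) * (2 : ℝ) ^ ((1 - κ1) * (m : ℝ))) := by
        rw [← Real.rpow_add (by norm_num), ← Real.rpow_add (by norm_num), ← Real.rpow_add (by norm_num),
          ← Real.rpow_add (by norm_num)]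
        ring_nf
      rw [e1, mul_assoc]
      exact mul_le_mul_of_nonneg_right g3 (mul_pos (two0 _) (two0 _)).le
    have h8 : (S.card : ℝ) * ((2 : ℝ) ^ (κ * (m : ℝ)) * (2 : ℝ) ^ ((t - 3 * κ) * (m : ℝ))) ≤
        (2 : ℝ) ^ ((1 - κ) * (m : ℝ)) * ((2 : ℝ) ^ (κ * (m : ℝ)) * (2 : ℝ) ^ ((t - 3 * κ) * (m : ℝ))) := by
      rw [← mul_assoc]
      exact h6.trans h7
    exact le_of_mul_le_mul_right h8 (mul_pos (two0 _) (two0 _))
  · intro g hg M hM Φ hΦ c c' hc hc' hcB hcc hdist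
    have h1 := hmf g hg M hM Φ hΦ m g7 (H m) hHt1 hHt (A + 1) c c' hc hc' hcc hdist
    refine h1.trans ?_
    have h2 : (((RAF.Wc t K m (H m) c').filter fun r => RAF.BadC R (A + 1) (H m) m r).card : ℝ) ≤
        (2 : ℝ) ^ (κ * (m : ℝ)) := by
      rw [hB, Set.mem_setOf_eq, hc', not_lt] at hcB
      exact hcB
    set N : ℝ := (((RAF.Wc t K m (H m) c').filter fun r => RAF.BadC R (A + 1) (H m) m r).card : ℝ) with hN
    have hN0 : 0 ≤ N := Nat.cast_nonneg _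
    have hκm : (1 : ℝ) ≤ (2 : ℝ) ^ (κ * (m : ℝ)) := by
      apply Real.one_le_rpow (by norm_num)
      positivity
    have h3 : (H m : ℝ) * (2 + N) ≤ (2 * (2 : ℝ) ^ ((t - 3 * κ) * (m : ℝ))) * (3 * (2 : ℝ) ^ (κ * (m : ℝ))) := by
      apply mul_le_mul hHup _ (by linarith) (by have := two0 ((t - 3 * κ) * (m : ℝ)); positivity)
      linarith
    have h4 : (H m : ℝ) * (2 + N) / (2 : ℝ) ^ ((t - κ) * (m : ℝ)) ≤ 6 * (2 : ℝ) ^ (-(κ * (m : ℝ))) := by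
      rw [div_le_iff₀ (two0 _)]
      refine h3.trans (le_of_eq ?_)
      have e1 : (2 : ℝ) ^ ((t - 3 * κ) * (m : ℝ)) * (2 : ℝ) ^ (κ * (m : ℝ)) =
          (2 : ℝ) ^ (-(κ * (m : ℝ))) * (2 : ℝ) ^ ((t - κ) * (m : ℝ)) := by
        rw [← Real.rpow_add (by norm_num), ← Real.rpow_add (by norm_num)]
        ring_nf
      calc 2 * (2 : ℝ) ^ ((t - 3 * κ) * (m : ℝ)) * (3 * (2 : ℝ) ^ (κ * (m : ℝ)))
          = 6 * ((2 : ℝ) ^ ((t - 3 * κ) * (m : ℝ)) * (2 : ℝ) ^ (κ * (m : ℝ))) := by ring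
        _ = 6 * ((2 : ℝ) ^ (-(κ * (m : ℝ))) * (2 : ℝ) ^ ((t - κ) * (m : ℝ))) := by rw [e1]
        _ = _ := by ring
    have h5 : C * (m : ℝ) ^ (-(A + 1)) ≤ (m : ℝ) ^ (-A) / 2 := by
      have e1 : (m : ℝ) ^ (-A) = (m : ℝ) ^ (-(A + 1)) * m := by
        conv_rhs => rw [← Real.rpow_one (m : ℝ), ← Real.rpow_mul hmr0.le, ← Real.rpow_add hmr0]
        ring_nf
      rw [e1]
      have e2 : 0 < (m : ℝ) ^ (-(A + 1)) := Real.rpow_pos_of_pos hmr0 _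
      nlinarith
    have h6 : C * (6 * (2 : ℝ) ^ (-(κ * (m : ℝ)))) ≤ (m : ℝ) ^ (-A) / 2 := by
      rw [Real.rpow_neg (by norm_num), Real.rpow_neg hmr0.le]
      have e2 : 0 < (m : ℝ) ^ A := Real.rpow_pos_of_pos hmr0 _
      have e3 := two0 (κ * (m : ℝ))
      rw [← div_eq_mul_inv, mul_div_assoc', div_le_iff₀ e3, div_mul_eq_mul_div, le_div_iff₀ (by norm_num),
        inv_mul_eq_div, le_div_iff₀ e2]
      linarith
    calc C * ((m : ℝ) ^ (-(A + 1)) + (H m : ℝ) * (2 + N) / (2 : ℝ) ^ ((t - κ) * (m : ℝ)))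
        ≤ C * ((m : ℝ) ^ (-(A + 1)) + 6 * (2 : ℝ) ^ (-(κ * (m : ℝ)))) := by gcongr
      _ = C * (m : ℝ) ^ (-(A + 1)) + C * (6 * (2 : ℝ) ^ (-(κ * (m : ℝ)))) := by ring
      _ ≤ (m : ℝ) ^ (-A) := by linarith

end RAG
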