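import Pool.Agent.RAG.Defs
import Pool.Agent.PCx.GgX

/-!
# RAG.Basic: elementary facts

PROOF. The facts about `T`, `ch`, `wt`, `wb` are proved exactly as in `Pool/Agent/RAF/Basic.lean` (copy; `T Mb t g ω q = RAF.TT (Mb (log₂ q)) t g q (ω (log₂ q))`, use `RAF.TT_ge`, `RAF.TT_log`, `RAF.TT_mod`, `RAF.TT_meas`).
`ch_add`: `Function.iterate_add_apply`. `card_class`, `mn_le`: the number of the `b < R` coprime to `R` in a class modulo `M ∣ R` is `0` or `φ(R)/φ(M)` (it is `0` unless the class is coprime to `M`; each class of `(ℤ/M)ˣ` has the same number of preimages under the surjection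
`(ℤ/R)ˣ → (ℤ/M)ˣ`: `ZMod.unitsMap_surjective`, or see `Pool/Agent/PCx/FacX.lean`, `SgdX.lean`). `gg_succ`: definition. `gg_le`: induction with `mn_le` (`gg (J+1) m q = mn R (Mb m) (gg J (m+1)) q`). `gg_mod`: `Pool.Agent.PCx.gg_mod`. `gg_per`: the quotient by `pr` is in `[0,1]`.
-/

set_option linter.all false
namespace RAG

open MeasureTheory Pool.Agent.PCx

theorem ch_zero (Mb : ℕ → ℕ) (t : ℝ) (g : ℕ → ℝ) (ω : ℕ → ℝ × ℝ) (n : ℕ) : ch Mb t g ω n 0 = n := rfl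

theorem ch_succ (Mb : ℕ → ℕ) (t : ℝ) (g : ℕ → ℝ) (ω : ℕ → ℝ × ℝ) (n i : ℕ) :
    ch Mb t g ω n (i + 1) = T Mb t g ω (ch Mb t g ω n i) := by
  exact Function.iterate_succ_apply' _ _ _

theorem ch_succ' (Mb : ℕ → ℕ) (t : ℝ) (g : ℕ → ℝ) (ω : ℕ → ℝ × ℝ) (n i : ℕ) :
    ch Mb t g ω n (i + 1) = ch Mb t g ω (T Mb t g ω n) i := by
  exact Function.iterate_succ_apply _ _ _

theorem ch_add (Mb : ℕ → ℕ) (t : ℝ) (g : ℕ → ℝ) (ω : ℕ → ℝ × ℝ) (n i j : ℕ) :
    ch Mb t g ω n (i + j) = ch Mb t g ω (ch Mb t g ω n i) j := by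
  unfold ch
  rw [add_comm, Function.iterate_add_apply]

theorem ch_pos (Mb : ℕ → ℕ) (t : ℝ) (g : ℕ → ℝ) (ω : ℕ → ℝ × ℝ) {n : ℕ} (hn : 0 < n) (i : ℕ) :
    0 < ch Mb t g ω n i := by
  induction i with
  | zero => exact hn
  | succ i ih =>
    rw [ch_succ]
    have := RAF.TT_ge (Mb (Nat.log 2 (ch Mb t g ω n i))) t g (ch Mb t g ω n i) (ω (Nat.log 2 (ch Mb t g ω n i)))
    unfold T
    omega

theorem ch_log_le (Mb : ℕ → ℕ) (t : ℝ) (g : ℕ → ℝ) (ω : ℕ → ℝ × ℝ) {n : ℕ} (hn : 0 < n) (i : ℕ) :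
    Nat.log 2 n + i ≤ Nat.log 2 (ch Mb t g ω n i) := by
  induction i with
  | zero => exact le_rfl
  | succ i ih =>
    rw [ch_succ]
    have := RAF.TT_log (Mb (Nat.log 2 (ch Mb t g ω n i))) t g (ch_pos Mb t g ω hn i) (ω (Nat.log 2 (ch Mb t g ω n i)))
    unfold T
    omega

theorem ch_ge (Mb : ℕ → ℕ) (t : ℝ) (g : ℕ → ℝ) (ω : ℕ → ℝ × ℝ) (n i : ℕ) : 2 ^ i * n ≤ ch Mb t g ω n i := by
  induction i with
  | zero => simp [ch_zero]
  | succ i ih =>
    rw [ch_succ]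
    have := RAF.TT_ge (Mb (Nat.log 2 (ch Mb t g ω n i))) t g (ch Mb t g ω n i) (ω (Nat.log 2 (ch Mb t g ω n i)))
    unfold T
    rw [pow_succ]
    nlinarith

theorem ch_meas (Mb : ℕ → ℕ) (t : ℝ) (g : ℕ → ℝ) (n i : ℕ) : Measurable fun ω => ch Mb t g ω n i := by
  induction i with
  | zero =>
    simp only [ch_zero]
    exact measurable_const
  | succ i ih =>
    have h1 : Measurable fun p : ℕ × (ℕ → ℝ × ℝ) => T Mb t g p.2 p.1 := by
      refine measurable_from_prod_countable_right fun q => ?_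
      exact (RAF.TT_meas (Mb (Nat.log 2 q)) t g q).comp (measurable_pi_apply (Nat.log 2 q))
    have h2 := h1.comp (ih.prodMk measurable_id)
    have h3 : (fun ω : ℕ → ℝ × ℝ => ch Mb t g ω n (i + 1)) =
        (fun p : ℕ × (ℕ → ℝ × ℝ) => T Mb t g p.2 p.1) ∘ fun ω => (ch Mb t g ω n i, id ω) := by
      funext ω
      simp only [ch_succ, Function.comp_apply, id_eq]
    rw [h3]
    exact h2

theorem ch_update_lt (Mb : ℕ → ℕ) (t : ℝ) (g : ℕ → ℝ) (ω : ℕ → ℝ × ℝ) {q m : ℕ} (hm : m < Nat.log 2 q) (y : ℝ × ℝ) (i : ℕ) :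
    ch Mb t g (Function.update ω m y) q i = ch Mb t g ω q i := by
  have hq : 0 < q := by
    rcases Nat.eq_zero_or_pos q with h0 | h0
    · subst h0
      simp at hm
    · exact h0
  induction i with
  | zero => rfl
  | succ i ih =>
    rw [ch_succ, ch_succ, ih]
    unfold T
    have h1 := ch_log_le Mb t g ω hq i
    rw [Function.update_of_ne (by omega)]

theorem ch_update_first (Mb : ℕ → ℕ) (t : ℝ) (g : ℕ → ℝ) (ω : ℕ → ℝ × ℝ) {n : ℕ} (hn : 0 < n) (y : ℝ × ℝ) (i : ℕ) :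
    ch Mb t g (Function.update ω (Nat.log 2 n) y) n (i + 1) =
      ch Mb t g ω (RAF.TT (Mb (Nat.log 2 n)) t g n y) i := by
  rw [ch_succ']
  have h1 : T Mb t g (Function.update ω (Nat.log 2 n) y) n = RAF.TT (Mb (Nat.log 2 n)) t g n y := by
    unfold T
    rw [Function.update_self]
  rw [h1]
  exact ch_update_lt Mb t g ω (RAF.TT_log (Mb (Nat.log 2 n)) t g hn y) y i

theorem ch_update_le (Mb : ℕ → ℕ) (t : ℝ) (g : ℕ → ℝ) (ω : ℕ → ℝ × ℝ) {n j b : ℕ} (hn : 0 < n)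
    (hb : Nat.log 2 (ch Mb t g ω n j) = b) (y : ℝ × ℝ) {i : ℕ} (hi : i ≤ j) :
    ch Mb t g (Function.update ω b y) n i = ch Mb t g ω n i := by
  have hs : StrictMono fun i => Nat.log 2 (ch Mb t g ω n i) := by
    refine strictMono_nat_of_lt_succ fun i => ?_
    rw [ch_succ]
    exact RAF.TT_log _ t g (ch_pos Mb t g ω hn i) _
  induction i with
  | zero => rfl
  | succ i ih =>
    rw [ch_succ, ch_succ, ih (by omega)]
    unfold T
    have h1 : Nat.log 2 (ch Mb t g ω n i) < Nat.log 2 (ch Mb t g ω n j) := hs (by omega)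
    rw [Function.update_of_ne (by omega)]

theorem ch_update_last (Mb : ℕ → ℕ) (t : ℝ) (g : ℕ → ℝ) (ω : ℕ → ℝ × ℝ) {n j b : ℕ} (hn : 0 < n)
    (hb : Nat.log 2 (ch Mb t g ω n j) = b) (y : ℝ × ℝ) :
    ch Mb t g (Function.update ω b y) n (j + 1) = RAF.TT (Mb b) t g (ch Mb t g ω n j) y := by
  rw [ch_succ, ch_update_le Mb t g ω hn hb y le_rfl]
  unfold T
  rw [hb, Function.update_self]

theorem wt_nonneg (Mb : ℕ → ℕ) (t : ℝ) (g : ℕ → ℝ) (n j : ℕ) (ω : ℕ → ℝ × ℝ) : 0 ≤ wt Mb t g n j ω := by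
  exact Finset.prod_nonneg fun i _ => RLC.th_nonneg _

theorem wb_nonneg (Mb : ℕ → ℕ) (t : ℝ) (g : ℕ → ℝ) (B : Set ℕ) (n j : ℕ) (ω : ℕ → ℝ × ℝ) : 0 ≤ wb Mb t g B n j ω := by
  classical
  unfold wb
  refine Finset.prod_nonneg fun i _ => ?_
  split_ifs
  · exact le_rfl
  · exact RLC.th_nonneg _

theorem wb_le_wt (Mb : ℕ → ℕ) (t : ℝ) (g : ℕ → ℝ) (B : Set ℕ) (n j : ℕ) (ω : ℕ → ℝ × ℝ) :
    wb Mb t g B n j ω ≤ wt Mb t g n j ω := by
  classical
  unfold wb wt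
  refine Finset.prod_le_prod (fun i _ => ?_) fun i _ => ?_
  · split_ifs
    · exact le_rfl
    · exact RLC.th_nonneg _
  · split_ifs
    · exact RLC.th_nonneg _
    · exact le_rfl

theorem wt_meas (Mb : ℕ → ℕ) (t : ℝ) (g : ℕ → ℝ) (n j : ℕ) : Measurable (wt Mb t g n j) := by
  unfold wt
  refine Finset.measurable_prod _ fun i _ => ?_
  exact (Measurable.of_discrete (f := RLC.th)).comp (ch_meas Mb t g n i)

theorem wb_meas (Mb : ℕ → ℕ) (t : ℝ) (g : ℕ → ℝ) (B : Set ℕ) (n j : ℕ) : Measurable (wb Mb t g B n j) := by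
  classical
  unfold wb
  refine Finset.measurable_prod _ fun i _ => ?_
  exact (Measurable.of_discrete (f := fun q : ℕ => if q ∈ B then (0 : ℝ) else RLC.th q)).comp (ch_meas Mb t g n i)

theorem wt_zero (Mb : ℕ → ℕ) (t : ℝ) (g : ℕ → ℝ) (n : ℕ) (ω : ℕ → ℝ × ℝ) : wt Mb t g n 0 ω = RLC.th n := by
  simp [wt, ch_zero]

theorem wt_succ (Mb : ℕ → ℕ) (t : ℝ) (g : ℕ → ℝ) (n j : ℕ) (ω : ℕ → ℝ × ℝ) :
    wt Mb t g n (j + 1) ω = wt Mb t g n j ω * RLC.th (ch Mb t g ω n (j + 1)) := by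
  unfold wt
  rw [Finset.prod_range_succ]

theorem wt_succ' (Mb : ℕ → ℕ) (t : ℝ) (g : ℕ → ℝ) (n j : ℕ) (ω : ℕ → ℝ × ℝ) :
    wt Mb t g n (j + 1) ω = RLC.th n * wt Mb t g (T Mb t g ω n) j ω := by
  unfold wt
  rw [Finset.prod_range_succ']
  simp only [ch_succ', ch_zero]
  rw [mul_comm]

open Classical in
theorem wb_succ (Mb : ℕ → ℕ) (t : ℝ) (g : ℕ → ℝ) (B : Set ℕ) (n j : ℕ) (ω : ℕ → ℝ × ℝ) :
    wb Mb t g B n (j + 1) ω = wb Mb t g B n j ω *
      (if ch Mb t g ω n (j + 1) ∈ B then 0 else RLC.th (ch Mb t g ω n (j + 1))) := by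
  unfold wb
  rw [Finset.prod_range_succ]

theorem wt_update_lt (Mb : ℕ → ℕ) (t : ℝ) (g : ℕ → ℝ) (ω : ℕ → ℝ × ℝ) {q m : ℕ} (hm : m < Nat.log 2 q) (y : ℝ × ℝ) (j : ℕ) :
    wt Mb t g q j (Function.update ω m y) = wt Mb t g q j ω := by
  unfold wt
  exact Finset.prod_congr rfl fun i _ => by rw [ch_update_lt Mb t g ω hm y i]

theorem wt_update (Mb : ℕ → ℕ) (t : ℝ) (g : ℕ → ℝ) (ω : ℕ → ℝ × ℝ) {n j b : ℕ} (hn : 0 < n)
    (hb : Nat.log 2 (ch Mb t g ω n j) = b) (y : ℝ × ℝ) :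
    wt Mb t g n j (Function.update ω b y) = wt Mb t g n j ω := by
  unfold wt
  refine Finset.prod_congr rfl fun i hi => ?_
  rw [ch_update_le Mb t g ω hn hb y (Nat.lt_succ_iff.1 (Finset.mem_range.1 hi))]

theorem wb_update (Mb : ℕ → ℕ) (t : ℝ) (g : ℕ → ℝ) (B : Set ℕ) (ω : ℕ → ℝ × ℝ) {n j b : ℕ} (hn : 0 < n)
    (hb : Nat.log 2 (ch Mb t g ω n j) = b) (y : ℝ × ℝ) :
    wb Mb t g B n j (Function.update ω b y) = wb Mb t g B n j ω := by
  unfold wb
  refine Finset.prod_congr rfl fun i hi => ?_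
  rw [ch_update_le Mb t g ω hn hb y (Nat.lt_succ_iff.1 (Finset.mem_range.1 hi))]

theorem mn_nonneg {R : ℕ} {Φ : ℕ → ℝ} (hΦ : Per R Φ) (M q : ℕ) : 0 ≤ mn R M Φ q := by
  unfold mn
  exact mul_nonneg (by positivity) (Finset.sum_nonneg fun b _ => hΦ.nonneg b)

/-- The number of the classes modulo `R` above one class modulo `M`. -/
theorem card_class {R M c : ℕ} (hR : 0 < R) (hM : M ∣ R) (hc : c.Coprime M) :
    ((Finset.range R).filter (fun b => Nat.Coprime b R ∧ b ≡ c [MOD M])).card * M.totient = R.totient := by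
  classical
  have hM0 : 0 < M := Nat.pos_of_dvd_of_pos hM hR
  haveI : NeZero R := ⟨hR.ne'⟩
  haveI : NeZero M := ⟨hM0.ne'⟩
  have hsurj : Function.Surjective (ZMod.unitsMap hM) := ZMod.unitsMap_surjective hM
  have h1 : ∀ y : (ZMod M)ˣ, (Finset.univ.filter fun u : (ZMod R)ˣ => ZMod.unitsMap hM u = y).card =
      (Finset.univ.filter fun u : (ZMod R)ˣ => ZMod.unitsMap hM u = ZMod.unitOfCoprime c hc).card :=
    fun y => MonoidHom.card_fiber_eq_of_mem_range (ZMod.unitsMap hM) (hsurj y) (hsurj _)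
  have h2 : Fintype.card (ZMod R)ˣ =
      ∑ y : (ZMod M)ˣ, (Finset.univ.filter fun u : (ZMod R)ˣ => ZMod.unitsMap hM u = y).card := by
    rw [← Finset.card_univ]
    exact Finset.card_eq_sum_card_fiberwise (fun _ _ => Finset.mem_coe.2 (Finset.mem_univ _))
  have h3 : ((Finset.range R).filter (fun b => Nat.Coprime b R ∧ b ≡ c [MOD M])).card =
      (Finset.univ.filter fun u : (ZMod R)ˣ => ZMod.unitsMap hM u = ZMod.unitOfCoprime c hc).card := by
    symm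
    refine Finset.card_bij (fun u _ => ((u : ZMod R)).val) ?_ ?_ ?_
    · intro u hu
      rw [Finset.mem_filter] at hu ⊢
      refine ⟨Finset.mem_range.2 (ZMod.val_lt _), ZMod.val_coe_unit_coprime u, ?_⟩
      have h4 := congrArg (fun v : (ZMod M)ˣ => (v : ZMod M)) hu.2
      simp only [ZMod.unitsMap_val, ZMod.coe_unitOfCoprime] at h4
      rw [← ZMod.natCast_eq_natCast_iff, ZMod.natCast_val]
      exact h4
    · intro u _ v _ huv
      exact Units.ext (ZMod.val_injective R huv)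
    · intro b hb
      rw [Finset.mem_filter, Finset.mem_range] at hb
      obtain ⟨hb1, hb2, hb3⟩ := hb
      have h5 : ((ZMod.unitOfCoprime b hb2 : (ZMod R)ˣ) : ZMod R).val = b := by
        rw [ZMod.coe_unitOfCoprime, ZMod.val_natCast, Nat.mod_eq_of_lt hb1]
      refine ⟨ZMod.unitOfCoprime b hb2, ?_, h5⟩
      rw [Finset.mem_filter]
      refine ⟨Finset.mem_univ _, Units.ext ?_⟩
      rw [ZMod.unitsMap_val, ← ZMod.natCast_val, h5, ZMod.coe_unitOfCoprime]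
      exact (ZMod.natCast_eq_natCast_iff _ _ _).2 hb3
  have h6 : Fintype.card (ZMod R)ˣ = Fintype.card (ZMod M)ˣ *
      (Finset.univ.filter fun u : (ZMod R)ˣ => ZMod.unitsMap hM u = ZMod.unitOfCoprime c hc).card := by
    rw [h2, Finset.sum_congr rfl fun y _ => h1 y, Finset.sum_const, smul_eq_mul, Finset.card_univ]
  rw [ZMod.card_units_eq_totient, ZMod.card_units_eq_totient] at h6
  rw [h3, h6, mul_comm]

theorem mn_le {R : ℕ} (hR : 0 < R) {Φ : ℕ → ℝ} (hΦ : Per R Φ) {M : ℕ} (hM : M ∣ R) (q : ℕ) :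
    mn R M Φ q ≤ (M : ℝ) / M.totient := by
  have hM0 : 0 < M := Nat.pos_of_dvd_of_pos hM hR
  have hφR : (0 : ℝ) < R.totient := by exact_mod_cast Nat.totient_pos.2 hR
  have hφM : (0 : ℝ) < M.totient := by exact_mod_cast Nat.totient_pos.2 hM0
  have h1 : ∑ b ∈ (Finset.range R).filter (fun b => Nat.Coprime b R ∧ b ≡ 2 * q + 1 [MOD M]), Φ b ≤
      (((Finset.range R).filter (fun b => Nat.Coprime b R ∧ b ≡ 2 * q + 1 [MOD M])).card : ℝ) := by
    have h2 := Finset.sum_le_card_nsmul ((Finset.range R).filter (fun b => Nat.Coprime b R ∧ b ≡ 2 * q + 1 [MOD M]))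
      Φ 1 fun b _ => hΦ.le b
    rwa [nsmul_eq_mul, mul_one] at h2
  have h3 : (((Finset.range R).filter (fun b => Nat.Coprime b R ∧ b ≡ 2 * q + 1 [MOD M])).card : ℝ) *
      M.totient ≤ R.totient := by
    by_cases hc : (2 * q + 1).Coprime M
    · have h4 := card_class hR hM hc
      exact_mod_cast h4.le
    · have h5 : (Finset.range R).filter (fun b => Nat.Coprime b R ∧ b ≡ 2 * q + 1 [MOD M]) = ∅ := by
        refine Finset.filter_eq_empty_iff.2 fun b _ hb => hc ?_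
        have h6 : b.Coprime M := Nat.Coprime.coprime_dvd_right hM hb.1
        unfold Nat.Coprime at h6 ⊢
        rw [← hb.2.gcd_eq]
        exact h6
      rw [h5]
      simp
  unfold mn
  rw [div_mul_eq_mul_div, div_le_div_iff₀ hφR hφM]
  calc (M : ℝ) * (∑ b ∈ (Finset.range R).filter (fun b => Nat.Coprime b R ∧ b ≡ 2 * q + 1 [MOD M]), Φ b) * M.totient
      ≤ M * (((Finset.range R).filter (fun b => Nat.Coprime b R ∧ b ≡ 2 * q + 1 [MOD M])).card : ℝ) * M.totient := by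
        gcongr
    _ = M * ((((Finset.range R).filter (fun b => Nat.Coprime b R ∧ b ≡ 2 * q + 1 [MOD M])).card : ℝ) * M.totient) := by
        ring
    _ ≤ M * R.totient := by gcongr

theorem rat_one_le {Mb : ℕ → ℕ} {m : ℕ} (h : 0 < Mb m) : 1 ≤ rat Mb m := by
  exact RAF.ratio_one_le h

theorem pr_one_le {Mb : ℕ → ℕ} (h : ∀ m, 0 < Mb m) (m J : ℕ) : 1 ≤ pr Mb m J := by
  unfold pr
  induction J with
  | zero => simp
  | succ J ih =>
    rw [Finset.prod_range_succ]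
    exact one_le_mul_of_one_le_of_one_le ih (rat_one_le (h _))

theorem pr_succ (Mb : ℕ → ℕ) (m J : ℕ) : pr Mb m (J + 1) = rat Mb m * pr Mb (m + 1) J := by
  unfold pr
  rw [Finset.prod_range_succ', mul_comm, Nat.add_zero]
  congr 1
  refine Finset.prod_congr rfl fun i _ => ?_
  rw [show m + (i + 1) = m + 1 + i by omega]

theorem pr_add (Mb : ℕ → ℕ) (m i J : ℕ) : pr Mb m (i + J) = pr Mb m i * pr Mb (m + i) J := by
  unfold pr
  rw [Finset.prod_range_add]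
  congr 1
  refine Finset.prod_congr rfl fun x _ => ?_
  rw [Nat.add_assoc]

theorem gg_zero (R : ℕ) (Mb : ℕ → ℕ) (m q : ℕ) : gg R Mb 0 m q = 1 := rfl

theorem gg_succ (R : ℕ) (Mb : ℕ → ℕ) (J m q : ℕ) :
    gg R Mb (J + 1) m q = mn R (Mb m) (gg R Mb J (m + 1)) q := rfl

theorem gg_nonneg {R : ℕ} (hR : 0 < R) {Mb : ℕ → ℕ} (h : ∀ m, Mb m ∣ R) (J m q : ℕ) : 0 ≤ gg R Mb J m q := by
  exact (Pool.Agent.PCx.gg_bd hR h J m q).1

private theorem RAGBasic_per {R : ℕ} (hR : 0 < R) {Mb : ℕ → ℕ} (h : ∀ m, Mb m ∣ R) (J m : ℕ)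
    (hle : ∀ q, gg R Mb J m q ≤ pr Mb m J) : Per R (fun q => gg R Mb J m q / pr Mb m J) := by
  have h1 : 1 ≤ pr Mb m J := pr_one_le (fun m => Nat.pos_of_dvd_of_pos (h m) hR) m J
  refine ⟨fun a b hab => ?_, fun a => ?_, fun a => ?_⟩
  · show gg R Mb J m a / pr Mb m J = gg R Mb J m b / pr Mb m J
    rw [Pool.Agent.PCx.gg_mod h J m a, Pool.Agent.PCx.gg_mod h J m b]
    have h2 : a % R = b % R := hab
    rw [h2]
  · exact div_nonneg (gg_nonneg hR h J m a) (by linarith)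
  · exact (div_le_one (by linarith)).2 (hle a)

private theorem RAGBasic_smul (R M : ℕ) (Φ : ℕ → ℝ) (a : ℝ) (q : ℕ) :
    mn R M (fun b => a * Φ b) q = a * mn R M Φ q := by
  unfold mn
  rw [← Finset.mul_sum]
  ring

theorem gg_le {R : ℕ} (hR : 0 < R) {Mb : ℕ → ℕ} (h : ∀ m, Mb m ∣ R) (J m q : ℕ) :
    gg R Mb J m q ≤ pr Mb m J := by
  induction J generalizing m q with
  | zero => simp [gg_zero, pr]
  | succ J ih =>
    have h1 : 1 ≤ pr Mb (m + 1) J := pr_one_le (fun m => Nat.pos_of_dvd_of_pos (h m) hR) (m + 1) J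
    have h2 := RAGBasic_per hR h J (m + 1) fun q => ih (m + 1) q
    have h3 := mn_le hR h2 (h m) q
    have h4 := RAGBasic_smul R (Mb m) (fun q => gg R Mb J (m + 1) q / pr Mb (m + 1) J) (pr Mb (m + 1) J) q
    have h5 : (fun b => pr Mb (m + 1) J * (gg R Mb J (m + 1) b / pr Mb (m + 1) J)) = gg R Mb J (m + 1) := by
      funext b
      exact mul_div_cancel₀ _ (by linarith)
    rw [h5] at h4
    rw [gg_succ, h4, pr_succ, mul_comm]
    exact mul_le_mul_of_nonneg_right h3 (by linarith)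

theorem gg_per {R : ℕ} (hR : 0 < R) {Mb : ℕ → ℕ} (h : ∀ m, Mb m ∣ R) (J m : ℕ) :
    Per R (fun q => gg R Mb J m q / pr Mb m J) := by
  exact RAGBasic_per hR h J m fun q => gg_le hR h J m q

theorem mn_smul (R M : ℕ) (Φ : ℕ → ℝ) (a : ℝ) (q : ℕ) : mn R M (fun b => a * Φ b) q = a * mn R M Φ q := by
  exact RAGBasic_smul R M Φ a q

theorem LL_eq (m : ℕ) : LL m = m * Real.log 2 := by
  unfold LL
  rw [Real.log_pow]

end RAG
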