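import Pool.Agent.RAG.PntI
import Pool.Agent.RAG.Basic
import Pool.Agent.PCx.Bas

/-!
# RAG.MainI: the main term in an interval

PROOF. `gg_shift`: induction on `r` (generalizing `i`, `x`). `main_int`: `∑_{Y<n≤Y'} th n gg(n)`: the primes `n > Y ≥ 2^m > R` are coprime to `R`; group by the residues `b < R`, `(b,R) = 1`; `gg R Mb J m n = gg R Mb J m b` (`Pool.Agent.PCx.gg_mod`), so the sum is
`∑_b gg(b) ∑_{n ≡ b} th n`, `0 ≤ gg(b) ≤ pr Mb m J` (`gg_nonneg`, `gg_le`), at most `R` classes, and `PntP`; the main term is `(Y'-Y)/φ(R) ∑_b gg R Mb J m b = (Y'-Y) kapL R (fun i => Mb (m+i)) J` by `gg_shift` and the definition of `kapL`.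
`gg_low`: induction on `J` (for all `m`, `q`). `J = 0`: `gg = 1`. `J + 1`: `2q + 1 ≡ -1 (mod Mb m)`; all the `b < R` coprime to `R` with `b ≡ -1 (mod Mb (m+1))` satisfy `b ≡ -1 ≡ 2q+1 (mod Mb m)`, their number is `φ(R)/φ(Mb (m+1))` (`card_class` with `c = Mb (m+1) - 1`, coprime to `Mb (m+1)`), so
`gg R Mb (J+1) m q ≥ (Mb m/φ(R)) (φ(R)/φ(Mb (m+1))) pr Mb (m+1) J φ(Mb (m+1))/φ(Mb (m+1+J)) = rat Mb m · pr Mb (m+1) J · φ(Mb m)/φ(Mb (m+J+1))` (`pr_succ`).
`kapL_low`: the `b ≡ -1 (mod Mb m)` contribute at least `(1/φ(R)) (φ(R)/φ(Mb m)) pr Mb m J φ(Mb m)/φ(Mb (m+J)) = pr Mb m J/φ(Mb (m+J)) ≥ pr Mb m J/R`. `kapL_le`: `gg_le`, and the number of the `b` is `φ(R)`.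
-/

namespace RAG

open Pool.Agent.PCx

theorem gg_shift (R : ℕ) (Mb : ℕ → ℕ) (m r i x : ℕ) :
    gg R (fun j => Mb (m + j)) r i x = gg R Mb r (m + i) x := by
  induction r generalizing i x with
  | zero => rfl
  | succ r ih =>
    unfold gg
    congr 1
    refine Finset.sum_congr rfl fun b _ => ?_
    rw [ih (i + 1) b]
    rfl

private theorem MainI_kap (R : ℕ) (Mb : ℕ → ℕ) (J m : ℕ) :
    kapL R (fun i => Mb (m + i)) J =
      1 / (R.totient : ℝ) * ∑ b ∈ (Finset.range R).filter (fun b => Nat.Coprime b R), gg R Mb J m b := by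
  unfold kapL
  congr 1
  refine Finset.sum_congr rfl fun b _ => ?_
  rw [gg_shift]
  rfl

private theorem MainI_split {R : ℕ} (hR : 0 < R) (F : ℕ → ℝ) (hF : ∀ n, F n = F (n % R)) {m : ℕ}
    (hRm : R < 2 ^ m) {Y Y' : ℕ} (hY : 2 ^ m ≤ Y) :
    ∑ n ∈ Finset.Ioc Y Y', RLC.th n * F n =
      ∑ b ∈ (Finset.range R).filter (fun b => Nat.Coprime b R),
        F b * ∑ n ∈ (Finset.Ioc Y Y').filter (fun n => n ≡ b [MOD R]), RLC.th n := by
  have h1 : ∀ n ∈ Finset.Ioc Y Y', RLC.th n * F n =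
      ∑ b ∈ (Finset.range R).filter (fun b => Nat.Coprime b R),
        if n ≡ b [MOD R] then F b * RLC.th n else 0 := by
    intro n hn
    rw [Finset.mem_Ioc] at hn
    by_cases hp : n.Prime
    · have hc : Nat.Coprime (n % R) R := by
        have h2 : Nat.Coprime n R := by
          rw [hp.coprime_iff_not_dvd]
          intro h3
          have := Nat.le_of_dvd hR h3
          omega
        have h3 : Nat.gcd (n % R) R = Nat.gcd n R := by
          rw [Nat.gcd_comm n R, Nat.gcd_rec R n]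
        unfold Nat.Coprime
        rw [h3]
        exact h2
      rw [Finset.sum_eq_single (n % R)]
      · rw [if_pos (Nat.mod_modEq n R).symm, hF n]
        ring
      · intro b hb hne
        rw [Finset.mem_filter, Finset.mem_range] at hb
        rw [if_neg]
        intro h4
        apply hne
        have h5 : n % R = b % R := h4
        rw [Nat.mod_eq_of_lt hb.1] at h5
        exact h5.symm
      · intro h4
        exfalso
        apply h4
        rw [Finset.mem_filter, Finset.mem_range]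
        exact ⟨Nat.mod_lt _ hR, hc⟩
    · have h0 : RLC.th n = 0 := by
        unfold RLC.th
        rw [if_neg hp]
      rw [h0, zero_mul]
      symm
      apply Finset.sum_eq_zero
      intro b _
      split_ifs
      · ring
      · rfl
  rw [Finset.sum_congr rfl h1, Finset.sum_comm]
  refine Finset.sum_congr rfl fun b _ => ?_
  rw [Finset.mul_sum, Finset.sum_filter]

theorem main_int {R : ℕ} (hR : 0 < R) {Mb : ℕ → ℕ} (h : ∀ m, Mb m ∣ R) {m : ℕ} {e : ℝ} (hP : PntP R m e)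
    (hRm : R < 2 ^ m) (J : ℕ) {Y Y' : ℕ} (hY : 2 ^ m ≤ Y) (hYY : Y ≤ Y') (hY' : Y' ≤ 2 ^ (m + 1)) :
    |∑ n ∈ Finset.Ioc Y Y', RLC.th n * gg R Mb J m n - kapL R (fun i => Mb (m + i)) J * ((Y' : ℝ) - Y)| ≤
      e * R * pr Mb m J * 2 ^ m := by
  have hφ : (0 : ℝ) < R.totient := by exact_mod_cast Nat.totient_pos.mpr hR
  have he : 0 ≤ e * 2 ^ m := (abs_nonneg _).trans (hP Y Y' hY hYY hY' 1 (Nat.coprime_one_left R))
  rw [MainI_split hR (fun n => gg R Mb J m n) (fun n => gg_mod h J m n) hRm hY, MainI_kap]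
  set S := (Finset.range R).filter (fun b => Nat.Coprime b R) with hS
  have h1 : ∑ b ∈ S, gg R Mb J m b * ∑ n ∈ (Finset.Ioc Y Y').filter (fun n => n ≡ b [MOD R]), RLC.th n -
      1 / (R.totient : ℝ) * ∑ b ∈ S, gg R Mb J m b * ((Y' : ℝ) - Y) =
      ∑ b ∈ S, gg R Mb J m b * (∑ n ∈ (Finset.Ioc Y Y').filter (fun n => n ≡ b [MOD R]), RLC.th n -
        ((Y' : ℝ) - Y) / (R.totient : ℝ)) := by
    rw [Finset.mul_sum, ← Finset.sum_sub_distrib]
    refine Finset.sum_congr rfl fun b _ => ?_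
    ring
  have h2 : 1 / (R.totient : ℝ) * ∑ b ∈ S, gg R Mb J m b * ((Y' : ℝ) - Y) =
      1 / (R.totient : ℝ) * (∑ b ∈ S, gg R Mb J m b) * ((Y' : ℝ) - Y) := by
    rw [← Finset.sum_mul]
    ring
  rw [← h2, h1]
  refine (Finset.abs_sum_le_sum_abs _ _).trans ?_
  have h3 : ∀ b ∈ S, |gg R Mb J m b * (∑ n ∈ (Finset.Ioc Y Y').filter (fun n => n ≡ b [MOD R]), RLC.th n -
        ((Y' : ℝ) - Y) / (R.totient : ℝ))| ≤ pr Mb m J * (e * 2 ^ m) := by
    intro b hb
    rw [hS, Finset.mem_filter] at hb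
    rw [abs_mul, abs_of_nonneg (gg_nonneg hR h J m b)]
    exact mul_le_mul (gg_le hR h J m b) (hP Y Y' hY hYY hY' b hb.2) (abs_nonneg _)
      ((gg_nonneg hR h J m b).trans (gg_le hR h J m b))
  refine (Finset.sum_le_sum h3).trans ?_
  rw [Finset.sum_const, nsmul_eq_mul]
  have h4 : (S.card : ℝ) ≤ R := by
    have : S.card ≤ (Finset.range R).card := Finset.card_filter_le _ _
    rw [Finset.card_range] at this
    exact_mod_cast this
  have h5 : 0 ≤ pr Mb m J := (gg_nonneg hR h J m 0).trans (gg_le hR h J m 0)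
  calc (S.card : ℝ) * (pr Mb m J * (e * 2 ^ m)) ≤ R * (pr Mb m J * (e * 2 ^ m)) :=
        mul_le_mul_of_nonneg_right h4 (mul_nonneg h5 he)
    _ = e * R * pr Mb m J * 2 ^ m := by ring

private theorem MainI_cop {M : ℕ} (hM : 0 < M) : (M - 1).Coprime M := by
  have h1 : M = (M - 1) + 1 := by omega
  have h2 : (M - 1).Coprime ((M - 1) + 1) := by
    rw [Nat.coprime_self_add_right]
    exact Nat.coprime_one_right _
  rw [← h1] at h2
  exact h2

private theorem MainI_neg {M b : ℕ} (hM : 0 < M) (hb : b ≡ M - 1 [MOD M]) : M ∣ b + 1 := by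
  have h1 : b + 1 ≡ (M - 1) + 1 [MOD M] := hb.add_right 1
  have h2 : (M - 1) + 1 = M := by omega
  rw [h2] at h1
  have h3 : M ≡ 0 [MOD M] := (Nat.modEq_zero_iff_dvd).mpr (dvd_refl M)
  exact (Nat.modEq_zero_iff_dvd).mp (h1.trans h3)

theorem gg_low {R : ℕ} (hR : 0 < R) {Mb : ℕ → ℕ} (h : ∀ m, Mb m ∣ R) (hc : ∀ m, Mb m ∣ Mb (m + 1)) (J m q : ℕ)
    (hq : Mb m ∣ q + 1) :
    pr Mb m J * ((Mb m).totient / (Mb (m + J)).totient) ≤ gg R Mb J m q := by
  have hpos : ∀ m, 0 < Mb m := fun m => Nat.pos_of_dvd_of_pos (h m) hR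
  have hφ : ∀ m, (0 : ℝ) < (Mb m).totient := fun m => by exact_mod_cast Nat.totient_pos.mpr (hpos m)
  have hφR : (0 : ℝ) < R.totient := by exact_mod_cast Nat.totient_pos.mpr hR
  induction J generalizing m q with
  | zero =>
    rw [gg_zero]
    have h1 : pr Mb m 0 = 1 := by
      unfold pr
      simp
    rw [h1, one_mul, Nat.add_zero, div_self (hφ m).ne']
  | succ J ih =>
    rw [gg_succ, pr_succ]
    unfold mn
    set S1 := (Finset.range R).filter (fun b => Nat.Coprime b R ∧ b ≡ 2 * q + 1 [MOD Mb m]) with hS1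
    set S2 := (Finset.range R).filter
      (fun b => Nat.Coprime b R ∧ b ≡ Mb (m + 1) - 1 [MOD Mb (m + 1)]) with hS2
    have hsub : S2 ⊆ S1 := by
      intro b hb
      rw [hS2, Finset.mem_filter] at hb
      rw [hS1, Finset.mem_filter]
      refine ⟨hb.1, hb.2.1, ?_⟩
      have h1 : Mb m ∣ b + 1 := (hc m).trans (MainI_neg (hpos (m + 1)) hb.2.2)
      have h2 : b + 1 ≡ 2 * q + 1 + 1 [MOD Mb m] := by
        have h3 : Mb m ∣ 2 * q + 1 + 1 := by
          have : 2 * q + 1 + 1 = 2 * (q + 1) := by ring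
          rw [this]
          exact Dvd.dvd.mul_left hq 2
        exact ((Nat.modEq_zero_iff_dvd).mpr h1).trans ((Nat.modEq_zero_iff_dvd).mpr h3).symm
      exact Nat.ModEq.add_right_cancel' 1 h2
    have hcard : (S2.card : ℝ) * (Mb (m + 1)).totient = R.totient := by
      have := card_class hR (h (m + 1)) (MainI_cop (hpos (m + 1)))
      exact_mod_cast this
    have hlow : ∀ b ∈ S2, pr Mb (m + 1) J * ((Mb (m + 1)).totient / (Mb (m + 1 + J)).totient) ≤
        gg R Mb J (m + 1) b := by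
      intro b hb
      rw [hS2, Finset.mem_filter] at hb
      exact ih (m + 1) b (MainI_neg (hpos (m + 1)) hb.2.2)
    have hsum : (S2.card : ℝ) * (pr Mb (m + 1) J * ((Mb (m + 1)).totient / (Mb (m + 1 + J)).totient)) ≤
        ∑ b ∈ S1, gg R Mb J (m + 1) b := by
      rw [← nsmul_eq_mul, ← Finset.sum_const]
      refine (Finset.sum_le_sum hlow).trans ?_
      exact Finset.sum_le_sum_of_subset_of_nonneg hsub fun b _ _ => gg_nonneg hR h J (m + 1) b
    have hM0 : (0 : ℝ) ≤ (Mb m : ℝ) / R.totient := by positivity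
    refine le_trans (le_of_eq ?_) (mul_le_mul_of_nonneg_left hsum hM0)
    have e1 : m + (J + 1) = m + 1 + J := by omega
    rw [e1, ← hcard]
    unfold rat
    have hS2pos : (S2.card : ℝ) ≠ 0 := by
      intro h0
      rw [h0, zero_mul] at hcard
      exact hφR.ne hcard
    have n1 := (hφ m).ne'
    have n2 := (hφ (m + 1)).ne'
    have n3 := (hφ (m + 1 + J)).ne'
    field_simp

theorem kapL_low {R : ℕ} (hR : 0 < R) {Mb : ℕ → ℕ} (h : ∀ m, Mb m ∣ R) (hc : ∀ m, Mb m ∣ Mb (m + 1)) (J m : ℕ) :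
    pr Mb m J / R ≤ kapL R (fun i => Mb (m + i)) J := by
  have hpos : ∀ m, 0 < Mb m := fun m => Nat.pos_of_dvd_of_pos (h m) hR
  have hφ : ∀ m, (0 : ℝ) < (Mb m).totient := fun m => by exact_mod_cast Nat.totient_pos.mpr (hpos m)
  have hφR : (0 : ℝ) < R.totient := by exact_mod_cast Nat.totient_pos.mpr hR
  have hRr : (0 : ℝ) < R := by exact_mod_cast hR
  rw [MainI_kap]
  set S1 := (Finset.range R).filter (fun b => Nat.Coprime b R) with hS1
  set S2 := (Finset.range R).filter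
      (fun b => Nat.Coprime b R ∧ b ≡ Mb m - 1 [MOD Mb m]) with hS2
  have hsub : S2 ⊆ S1 := by
    intro b hb
    rw [hS2, Finset.mem_filter] at hb
    rw [hS1, Finset.mem_filter]
    exact ⟨hb.1, hb.2.1⟩
  have hcard : (S2.card : ℝ) * (Mb m).totient = R.totient := by
    have := card_class hR (h m) (MainI_cop (hpos m))
    exact_mod_cast this
  have hlow : ∀ b ∈ S2, pr Mb m J * ((Mb m).totient / (Mb (m + J)).totient) ≤
      gg R Mb J m b := by
    intro b hb
    rw [hS2, Finset.mem_filter] at hb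
    exact gg_low hR h hc J m b (MainI_neg (hpos m) hb.2.2)
  have hsum : (S2.card : ℝ) * (pr Mb m J * ((Mb m).totient / (Mb (m + J)).totient)) ≤
      ∑ b ∈ S1, gg R Mb J m b := by
    rw [← nsmul_eq_mul, ← Finset.sum_const]
    refine (Finset.sum_le_sum hlow).trans ?_
    exact Finset.sum_le_sum_of_subset_of_nonneg hsub fun b _ _ => gg_nonneg hR h J m b
  have hM0 : (0 : ℝ) ≤ 1 / (R.totient : ℝ) := by positivity
  refine le_trans ?_ (mul_le_mul_of_nonneg_left hsum hM0)
  have e2 : 1 / (R.totient : ℝ) * ((S2.card : ℝ) * (pr Mb m J * ((Mb m).totient / (Mb (m + J)).totient))) =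
      pr Mb m J / (Mb (m + J)).totient := by
    rw [← hcard]
    have hS2pos : (S2.card : ℝ) ≠ 0 := by
      intro h0
      rw [h0, zero_mul] at hcard
      exact hφR.ne hcard
    have n1 := (hφ m).ne'
    have n3 := (hφ (m + J)).ne'
    field_simp
  rw [e2]
  have hp0 : 0 ≤ pr Mb m J := (gg_nonneg hR h J m 0).trans (gg_le hR h J m 0)
  apply div_le_div_of_nonneg_left hp0 (hφ (m + J))
  have h1 : (Mb (m + J)).totient ≤ Mb (m + J) := Nat.totient_le _
  have h2 : Mb (m + J) ≤ R := Nat.le_of_dvd hR (h (m + J))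
  exact_mod_cast h1.trans h2

theorem kapL_le {R : ℕ} (hR : 0 < R) {Mb : ℕ → ℕ} (h : ∀ m, Mb m ∣ R) (J m : ℕ) :
    kapL R (fun i => Mb (m + i)) J ≤ pr Mb m J := by
  have hφR : (0 : ℝ) < R.totient := by exact_mod_cast Nat.totient_pos.mpr hR
  rw [MainI_kap]
  have hcard : ((Finset.range R).filter (fun b => Nat.Coprime b R)).card = R.totient := by
    rw [Nat.totient_eq_card_coprime]
    congr 1
    apply Finset.filter_congr
    intro b _
    exact Nat.coprime_comm
  have h1 : ∑ b ∈ (Finset.range R).filter (fun b => Nat.Coprime b R), gg R Mb J m b ≤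
      (R.totient : ℝ) * pr Mb m J := by
    rw [← hcard, ← nsmul_eq_mul, ← Finset.sum_const]
    exact Finset.sum_le_sum fun b _ => gg_le hR h J m b
  calc 1 / (R.totient : ℝ) * ∑ b ∈ (Finset.range R).filter (fun b => Nat.Coprime b R), gg R Mb J m b
      ≤ 1 / (R.totient : ℝ) * ((R.totient : ℝ) * pr Mb m J) := mul_le_mul_of_nonneg_left h1 (by positivity)
    _ = pr Mb m J := by
      have := hφR.ne'
      field_simp

end RAG
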