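import Pool.Agent.RAG.AeI
import Pool.Agent.RAG.MainI

/-!
# RAG.BlkL: the lower bound for long chains in one block

PROOF. Let `m` be large, `R = MM ζ (4m)`, `Mb = Ml ζ m`, `1 ≤ k ≤ (1-ε) LL m/log (LL m)` (so `k + 1 ≤ m`, and `J = k - 1`, `J = k` satisfy `J + 1 ≤ (1-ε/2) LL m/log (LL m)`), `W = wn m 1 0 = (2^m, 2^(m+1)]`. Let `i` be fixed, `i ≥ 3`, `i ≥ 4/ε`: `R^i ≤ m` (`ZH.small`). All the moduli divide `R`; `1 ≤ pr`.
(1) `main_int` with `e = 1/((i+1) R^i) ≤ 1/(4 R^2)`, `kapL_low`, `kapL_le` (`Ml_chain`, `Ml_dvd`): `pr Mb m J 2^m (1/R - 1/(4R)) ≤ ∑_{n∈W} th n gg R Mb J m n ≤ 2 pr Mb m J 2^m`. (2) The `n ∈ W` not in `RAF.Inn t m` contribute at most `pr Mb m J 2^((1-(1-t)/8)m)` (`GoodI.bdry` with `J = 0`, `wt_zero`, `gg_le`; `2^(m+1)` is not prime).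
(3) `GoodI.var` for `J = k-1`: `∑_{n∈Inn} wt n (k-1) ≥ pr 2^m (3/(4R) - 1/m² - 2^(-((1-t)/8)m)) ≥ pr 2^m/(4R)`, `pr = pr Mb m (k-1)`. For `n ∈ Inn` `log (ch n i) ≤ (m+i+1) log 2` (`geo`), so `cnt k (block m) ≥ pr 2^m/(4R ∏_{i<k} ((m+i+1) log 2))`.
(4) `GoodI.var` for `J = k`, and `GoodI.bdry`: `∑_{n∈block} wt n k ≤ pr' 2^m (2 + 1/m²) + 2^((1-(1-t)/8)m) ≤ 4 pr' 2^m`, `pr' = pr Mb m k = pr · rat Mb (m+k-1) ≤ pr R` (`pr_add`), and if the first `k+1` members are primes then `wt n k ≥ ∏_{i≤k} ((m+i) log 2)` (`ch_log_le`): `cnt (k+1) (block m) ≤ 4 pr R 2^m/∏_{i≤k} ((m+i) log 2)`.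
(5) The quotient of the bounds (4)/(3) is `16 R² ∏_{i<k} ((m+i+1)/(m+i))/((m+k) log 2) = 16 R²/(m log 2) ≤ 1/2`. So `cnt k - cnt (k+1) ≥ pr 2^m/(8R ∏_{i<k} ((m+i+1) log 2)) ≥ 2^m/(8R (2 LL m)^k) ≥ 2^m (LL m)^(-(1+ε)k)`, as `m + i + 1 ≤ 2m`, `8R ≤ (LL m)^(ε/2)`, `2 ≤ (LL m)^(ε/2)`.
(6) The chains of `Ml ζ m` and `MM ζ` agree up to the index `k ≤ m` (`ch_loc`, `cnt_loc`).
-/

namespace RAG

open Filter Pool.Agent.PCx

private theorem BlkL_th_nonneg (n : ℕ) : 0 ≤ RLC.th n := by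
  unfold RLC.th
  split_ifs with h
  · exact Real.log_natCast_nonneg n
  · exact le_rfl

private theorem BlkL_log_lo {n : ℕ} (hn : 0 < n) : (Nat.log 2 n : ℝ) * Real.log 2 ≤ Real.log n := by
  have h1 : 2 ^ Nat.log 2 n ≤ n := Nat.pow_log_le_self 2 hn.ne'
  have h2 : ((2 : ℝ) ^ Nat.log 2 n) ≤ n := by exact_mod_cast h1
  rw [← Real.log_pow]
  exact Real.log_le_log (by positivity) h2

private theorem BlkL_log_hi {n : ℕ} (hn : 0 < n) :
    Real.log n ≤ ((Nat.log 2 n : ℝ) + 1) * Real.log 2 := by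
  have h1 : n < 2 ^ (Nat.log 2 n + 1) := Nat.lt_pow_succ_log_self (by norm_num) n
  have h2 : (n : ℝ) ≤ (2 : ℝ) ^ (Nat.log 2 n + 1) := by exact_mod_cast h1.le
  have h3 := Real.log_le_log (by exact_mod_cast hn) h2
  rw [Real.log_pow] at h3
  push_cast at h3
  exact h3

open Classical in
private theorem BlkL_wt_le (Mb : ℕ → ℕ) (t : ℝ) (g : ℕ → ℝ) (ω : ℕ → ℝ × ℝ) {n m : ℕ} (hn : 0 < n) (J : ℕ)
    (h : ∀ i, Nat.log 2 (ch Mb t g ω n i) = m + i) :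
    wt Mb t g n J ω ≤ if (∀ i < J + 1, (ch Mb t g ω n i).Prime) then
      ∏ i ∈ Finset.range (J + 1), (((m : ℝ) + i + 1) * Real.log 2) else 0 := by
  split_ifs with hp
  · unfold wt
    refine Finset.prod_le_prod (fun i _ => BlkL_th_nonneg _) fun i hi => ?_
    have h1 := BlkL_log_hi (ch_pos Mb t g ω hn i)
    rw [h i] at h1
    push_cast at h1
    unfold RLC.th
    rw [if_pos (hp i (Finset.mem_range.mp hi))]
    exact h1
  · push Not at hp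
    obtain ⟨i, hi, hi2⟩ := hp
    refine le_of_eq ?_
    unfold wt
    refine Finset.prod_eq_zero (Finset.mem_range.mpr hi) ?_
    unfold RLC.th
    rw [if_neg hi2]

private theorem BlkL_wt_ge (Mb : ℕ → ℕ) (t : ℝ) (g : ℕ → ℝ) (ω : ℕ → ℝ × ℝ) {n : ℕ} (hn : 0 < n) (J : ℕ)
    (hp : ∀ i < J + 1, (ch Mb t g ω n i).Prime) :
    ∏ i ∈ Finset.range (J + 1), (((Nat.log 2 n : ℝ) + i) * Real.log 2) ≤ wt Mb t g n J ω := by
  unfold wt
  have hl : (0 : ℝ) < Real.log 2 := Real.log_pos (by norm_num)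
  refine Finset.prod_le_prod (fun i _ => by positivity) fun i hi => ?_
  have h1 := BlkL_log_lo (ch_pos Mb t g ω hn i)
  have h2 : ((Nat.log 2 n : ℝ) + i) ≤ (Nat.log 2 (ch Mb t g ω n i) : ℝ) := by
    exact_mod_cast ch_log_le Mb t g ω hn i
  unfold RLC.th
  rw [if_pos (hp i (Finset.mem_range.mp hi))]
  exact (mul_le_mul_of_nonneg_right h2 hl.le).trans h1

private theorem BlkL_cnt_lo (Mb : ℕ → ℕ) (t : ℝ) (g : ℕ → ℝ) (ω : ℕ → ℝ × ℝ) {m : ℕ} (J : ℕ) (S : Finset ℕ)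
    (hS : ∀ n ∈ S, 0 < n ∧ ∀ i, Nat.log 2 (ch Mb t g ω n i) = m + i) :
    ∑ n ∈ S, wt Mb t g n J ω ≤
      (cnt Mb t g ω (J + 1) S : ℝ) * ∏ i ∈ Finset.range (J + 1), (((m : ℝ) + i + 1) * Real.log 2) := by
  classical
  calc ∑ n ∈ S, wt Mb t g n J ω
      ≤ ∑ n ∈ S, (if (∀ i < J + 1, (ch Mb t g ω n i).Prime) then
        ∏ i ∈ Finset.range (J + 1), (((m : ℝ) + i + 1) * Real.log 2) else 0) :=
        Finset.sum_le_sum fun n hn => BlkL_wt_le Mb t g ω (hS n hn).1 J (hS n hn).2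
    _ = _ := by
        rw [← Finset.sum_filter, Finset.sum_const, nsmul_eq_mul]
        rfl

private theorem BlkL_cnt_hi (Mb : ℕ → ℕ) (t : ℝ) (g : ℕ → ℝ) (ω : ℕ → ℝ × ℝ) {m : ℕ} (J : ℕ) (S : Finset ℕ)
    (hS : ∀ n ∈ S, 0 < n ∧ Nat.log 2 n = m) :
    (cnt Mb t g ω (J + 1) S : ℝ) * ∏ i ∈ Finset.range (J + 1), (((m : ℝ) + i) * Real.log 2) ≤
      ∑ n ∈ S, wt Mb t g n J ω := by
  classical
  have h1 : (cnt Mb t g ω (J + 1) S : ℝ) * ∏ i ∈ Finset.range (J + 1), (((m : ℝ) + i) * Real.log 2) =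
      ∑ n ∈ S.filter (fun n => ∀ i < J + 1, (ch Mb t g ω n i).Prime),
        ∏ i ∈ Finset.range (J + 1), (((m : ℝ) + i) * Real.log 2) := by
    rw [Finset.sum_const, nsmul_eq_mul]
    rfl
  rw [h1]
  calc ∑ n ∈ S.filter (fun n => ∀ i < J + 1, (ch Mb t g ω n i).Prime),
        ∏ i ∈ Finset.range (J + 1), (((m : ℝ) + i) * Real.log 2)
      ≤ ∑ n ∈ S.filter (fun n => ∀ i < J + 1, (ch Mb t g ω n i).Prime), wt Mb t g n J ω := by
        refine Finset.sum_le_sum fun n hn => ?_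
        have h2 := Finset.mem_filter.mp hn
        have h3 := BlkL_wt_ge Mb t g ω (hS n h2.1).1 J h2.2
        rw [(hS n h2.1).2] at h3
        exact h3
    _ ≤ _ := Finset.sum_le_sum_of_subset_of_nonneg (Finset.filter_subset _ _)
        fun n _ _ => wt_nonneg Mb t g n J ω

private theorem BlkL_cnt_mono (Mb : ℕ → ℕ) (t : ℝ) (g : ℕ → ℝ) (ω : ℕ → ℝ × ℝ) (k : ℕ) {S S' : Finset ℕ}
    (h : S ⊆ S') : cnt Mb t g ω k S ≤ cnt Mb t g ω k S' := by
  classical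
  unfold cnt
  exact Finset.card_le_card (Finset.filter_subset_filter _ h)

open Classical in
/-- The number of exact length `k` is a difference. -/
private theorem BlkL_exact (Mb : ℕ → ℕ) (t : ℝ) (g : ℕ → ℝ) (ω : ℕ → ℝ × ℝ) (k : ℕ) (S : Finset ℕ) :
    ((S.filter fun p => (∀ i < k, (ch Mb t g ω p i).Prime) ∧ ¬ (ch Mb t g ω p k).Prime).card : ℝ) =
      (cnt Mb t g ω k S : ℝ) - cnt Mb t g ω (k + 1) S := by
  have h1 : cnt Mb t g ω (k + 1) S +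
      (S.filter fun p => (∀ i < k, (ch Mb t g ω p i).Prime) ∧ ¬ (ch Mb t g ω p k).Prime).card =
      cnt Mb t g ω k S := by
    unfold cnt
    have h2 : (S.filter fun n => ∀ i < k + 1, (ch Mb t g ω n i).Prime) =
        (S.filter fun n => ∀ i < k, (ch Mb t g ω n i).Prime).filter
          (fun n => (ch Mb t g ω n k).Prime) := by
      rw [Finset.filter_filter]
      refine Finset.filter_congr fun n _ => ?_
      constructor
      · intro h
        exact ⟨fun i hi => h i (by omega), h k (by omega)⟩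
      · rintro ⟨h3, h4⟩ i hi
        rcases Nat.lt_succ_iff_lt_or_eq.mp hi with h5 | h5
        · exact h3 i h5
        · rw [h5]; exact h4
    have h3 : (S.filter fun p => (∀ i < k, (ch Mb t g ω p i).Prime) ∧ ¬ (ch Mb t g ω p k).Prime) =
        (S.filter fun n => ∀ i < k, (ch Mb t g ω n i).Prime).filter
          (fun n => ¬ (ch Mb t g ω n k).Prime) := by
      rw [Finset.filter_filter]
    rw [h2, h3]
    exact Finset.card_filter_add_card_filter_not (fun n => (ch Mb t g ω n k).Prime)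
  rw [← h1]
  push_cast
  ring


private theorem BlkL_wn (m : ℕ) : wn m 1 0 = Finset.Ioc (2 ^ m) (2 ^ (m + 1)) := by
  unfold wn
  have h1 : 2 ^ m + 2 ^ m * 0 / 1 = 2 ^ m := by simp
  have h2 : 2 ^ m + 2 ^ m * (0 + 1) / 1 = 2 ^ (m + 1) := by
    rw [pow_succ]
    simp
    ring
  rw [h1, h2]

private theorem BlkL_th_two {m : ℕ} (hm : 2 ≤ m) : RLC.th (2 ^ m) = 0 := by
  unfold RLC.th
  rw [if_neg (Nat.Prime.not_prime_pow hm)]

/-- The main terms (1). -/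
private theorem BlkL_main {ζ : ℕ → ℕ} {m i : ℕ} (hi : 3 ≤ i) (hRm : MM ζ (4 * m) < 2 ^ m)
    (hP : PntP (MM ζ (4 * m)) m (1 / (((i : ℝ) + 1) * (MM ζ (4 * m) : ℝ) ^ i))) (J : ℕ) :
    pr (Ml ζ m) m J * 2 ^ m * (3 * (1 / (4 * (MM ζ (4 * m) : ℝ)))) ≤
      ∑ n ∈ wn m 1 0, RLC.th n * gg (MM ζ (4 * m)) (Ml ζ m) J m n ∧
    ∑ n ∈ wn m 1 0, RLC.th n * gg (MM ζ (4 * m)) (Ml ζ m) J m n ≤ pr (Ml ζ m) m J * 2 ^ m * 2 := by
  have hR : 0 < MM ζ (4 * m) := MM_pos ζ _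
  have hd := Ml_dvd ζ m
  have hr1 : (1 : ℝ) ≤ (MM ζ (4 * m) : ℝ) := by exact_mod_cast hR
  have h1 := main_int hR hd hP hRm J (le_refl (2 ^ m))
    (Nat.pow_le_pow_right (by norm_num) (Nat.le_succ m)) (le_refl (2 ^ (m + 1)))
  rw [← BlkL_wn m] at h1
  have hX : (((2 ^ (m + 1) : ℕ) : ℝ) - ((2 ^ m : ℕ) : ℝ)) = 2 ^ m := by
    push_cast
    rw [pow_succ]
    ring
  rw [hX] at h1
  have hpr : 1 ≤ pr (Ml ζ m) m J := pr_one_le (fun b => Nat.pos_of_dvd_of_pos (hd b) hR) m J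
  have hlow := kapL_low hR hd (Ml_chain ζ m) J m
  have hup := kapL_le hR hd J m
  set r : ℝ := (MM ζ (4 * m) : ℝ) with hr
  set P : ℝ := pr (Ml ζ m) m J with hPd
  set X : ℝ := (2 : ℝ) ^ m with hXd
  have hX0 : 0 < X := by positivity
  have hr0 : 0 < r := by linarith
  have he : 1 / (((i : ℝ) + 1) * r ^ i) * r ≤ 1 / (4 * r) := by
    have h2 : r ^ 2 ≤ r ^ i := pow_le_pow_right₀ hr1 (by omega)
    have h3 : (4 : ℝ) ≤ (i : ℝ) + 1 := by
      have : (3 : ℝ) ≤ i := by exact_mod_cast hi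
      linarith
    have h4 : 4 * r ^ 2 ≤ ((i : ℝ) + 1) * r ^ i :=
      mul_le_mul h3 h2 (by positivity) (by linarith)
    have h5 : 1 / (((i : ℝ) + 1) * r ^ i) ≤ 1 / (4 * r ^ 2) :=
      one_div_le_one_div_of_le (by positivity) h4
    calc 1 / (((i : ℝ) + 1) * r ^ i) * r ≤ 1 / (4 * r ^ 2) * r :=
          mul_le_mul_of_nonneg_right h5 hr0.le
      _ = 1 / (4 * r) := by
          field_simp
  have he2 : 1 / (((i : ℝ) + 1) * r ^ i) * r * P * X ≤ P * X * (1 / (4 * r)) := by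
    have h6 : 0 ≤ P * X := by positivity
    nlinarith [mul_le_mul_of_nonneg_right he h6]
  have h7 := abs_le.mp (h1.trans he2)
  have h8 : P / r * X ≤ kapL (MM ζ (4 * m)) (fun i => Ml ζ m (m + i)) J * X :=
    mul_le_mul_of_nonneg_right hlow hX0.le
  have h9 : kapL (MM ζ (4 * m)) (fun i => Ml ζ m (m + i)) J * X ≤ P * X :=
    mul_le_mul_of_nonneg_right hup hX0.le
  have h10 : P / r * X = P * X * (4 * (1 / (4 * r))) := by
    field_simp
  have h11 : 1 / (4 * r) ≤ 1 := by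
    rw [div_le_one (by positivity)]
    linarith
  have h12 : P * X * (1 / (4 * r)) ≤ P * X * 1 := mul_le_mul_of_nonneg_left h11 (by positivity)
  constructor
  · have h13 : P * X * (3 * (1 / (4 * r))) = P * X * (4 * (1 / (4 * r))) - P * X * (1 / (4 * r)) := by
      ring
    rw [h13, ← h10]
    linarith [h7.1]
  · linarith [h7.2]

/-- The part of the main term outside the interior (2). -/
private theorem BlkL_out (t : ℝ) (g : ℕ → ℝ) (ζ : ℕ → ℕ) (ω : ℕ → ℝ × ℝ) {m : ℕ} (hm : 2 ≤ m) (J : ℕ) :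
    ∑ n ∈ (wn m 1 0).filter (fun n => n ∉ RAF.Inn t m),
        RLC.th n * gg (MM ζ (4 * m)) (Ml ζ m) J m n ≤
      pr (Ml ζ m) m J * ∑ n ∈ (Finset.Ico (2 ^ m) (2 ^ (m + 1))).filter (fun n => n ∉ RAF.Inn t m),
        wt (Ml ζ m) t g n 0 ω := by
  have hR : 0 < MM ζ (4 * m) := MM_pos ζ _
  have hd := Ml_dvd ζ m
  have hpr : 1 ≤ pr (Ml ζ m) m J := pr_one_le (fun b => Nat.pos_of_dvd_of_pos (hd b) hR) m J
  have hth : RLC.th (2 ^ (m + 1)) * gg (MM ζ (4 * m)) (Ml ζ m) J m (2 ^ (m + 1)) = 0 := by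
    rw [BlkL_th_two (by omega), zero_mul]
  rw [Finset.mul_sum, ← Finset.sum_erase (f := fun n => RLC.th n * gg (MM ζ (4 * m)) (Ml ζ m) J m n)
    ((wn m 1 0).filter (fun n => n ∉ RAF.Inn t m)) hth]
  calc ∑ n ∈ ((wn m 1 0).filter (fun n => n ∉ RAF.Inn t m)).erase (2 ^ (m + 1)),
        RLC.th n * gg (MM ζ (4 * m)) (Ml ζ m) J m n
      ≤ ∑ n ∈ ((wn m 1 0).filter (fun n => n ∉ RAF.Inn t m)).erase (2 ^ (m + 1)),
        pr (Ml ζ m) m J * wt (Ml ζ m) t g n 0 ω := by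
        refine Finset.sum_le_sum fun n _ => ?_
        rw [wt_zero, mul_comm]
        exact mul_le_mul_of_nonneg_right (gg_le hR hd J m n) (BlkL_th_nonneg n)
    _ ≤ _ := by
        refine Finset.sum_le_sum_of_subset_of_nonneg ?_ fun n _ _ =>
          mul_nonneg (by linarith) (wt_nonneg _ _ _ _ _ _)
        intro n hn
        rw [Finset.mem_erase, Finset.mem_filter, BlkL_wn, Finset.mem_Ioc] at hn
        rw [Finset.mem_filter, Finset.mem_Ico]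
        refine ⟨⟨hn.2.1.1.le, lt_of_le_of_ne hn.2.1.2 hn.1⟩, hn.2.2⟩

/-- The lower bound (3). -/
private theorem BlkL_low {t : ℝ} {g : ℕ → ℝ} {ζ : ℕ → ℕ} {ω : ℕ → ℝ × ℝ} {m i : ℕ} (hm : 2 ≤ m)
    (hi : 3 ≤ i) (hRm : MM ζ (4 * m) < 2 ^ m)
    (hP : PntP (MM ζ (4 * m)) m (1 / (((i : ℝ) + 1) * (MM ζ (4 * m) : ℝ) ^ i))) (J : ℕ)
    (hv : |∑ n ∈ (wn m 1 0).filter (fun n => n ∈ RAF.Inn t m),
      (wt (Ml ζ m) t g n J ω - RLC.th n * gg (MM ζ (4 * m)) (Ml ζ m) J m n)| ≤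
      pr (Ml ζ m) m J * (2 ^ m / (m : ℝ) ^ 2))
    (hb : ∑ n ∈ (Finset.Ico (2 ^ m) (2 ^ (m + 1))).filter (fun n => n ∉ RAF.Inn t m),
      wt (Ml ζ m) t g n 0 ω ≤ (2 : ℝ) ^ ((1 - (1 - t) / 8) * (m : ℝ)))
    (h1 : 1 / (m : ℝ) ^ 2 ≤ 1 / (4 * (MM ζ (4 * m) : ℝ)))
    (h2 : (2 : ℝ) ^ ((1 - (1 - t) / 8) * (m : ℝ)) ≤ 2 ^ m * (1 / (4 * (MM ζ (4 * m) : ℝ)))) :
    pr (Ml ζ m) m J * 2 ^ m * (1 / (4 * (MM ζ (4 * m) : ℝ))) ≤
      ∑ n ∈ (wn m 1 0).filter (fun n => n ∈ RAF.Inn t m), wt (Ml ζ m) t g n J ω := by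
  have hR : 0 < MM ζ (4 * m) := MM_pos ζ _
  have hpr : 1 ≤ pr (Ml ζ m) m J :=
    pr_one_le (fun b => Nat.pos_of_dvd_of_pos (Ml_dvd ζ m b) hR) m J
  have h3 := (BlkL_main hi hRm hP J).1
  have h4 := BlkL_out t g ζ ω hm J
  have h5 := Finset.sum_filter_add_sum_filter_not (wn m 1 0) (fun n => n ∈ RAF.Inn t m)
    (fun n => RLC.th n * gg (MM ζ (4 * m)) (Ml ζ m) J m n)
  rw [Finset.sum_sub_distrib] at hv
  have h6 := (abs_le.mp hv).1
  have h7 : pr (Ml ζ m) m J * (2 ^ m / (m : ℝ) ^ 2) ≤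
      pr (Ml ζ m) m J * 2 ^ m * (1 / (4 * (MM ζ (4 * m) : ℝ))) := by
    have h8 : pr (Ml ζ m) m J * (2 ^ m / (m : ℝ) ^ 2) =
        pr (Ml ζ m) m J * 2 ^ m * (1 / (m : ℝ) ^ 2) := by ring
    rw [h8]
    exact mul_le_mul_of_nonneg_left h1 (by positivity)
  have h9 : pr (Ml ζ m) m J * ∑ n ∈ (Finset.Ico (2 ^ m) (2 ^ (m + 1))).filter
      (fun n => n ∉ RAF.Inn t m), wt (Ml ζ m) t g n 0 ω ≤
      pr (Ml ζ m) m J * 2 ^ m * (1 / (4 * (MM ζ (4 * m) : ℝ))) := by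
    rw [mul_assoc]
    exact mul_le_mul_of_nonneg_left (hb.trans h2) (by linarith)
  have h10 : pr (Ml ζ m) m J * 2 ^ m * (3 * (1 / (4 * (MM ζ (4 * m) : ℝ)))) =
      3 * (pr (Ml ζ m) m J * 2 ^ m * (1 / (4 * (MM ζ (4 * m) : ℝ)))) := by ring
  rw [h10] at h3
  linarith

/-- The upper bound (4). -/
private theorem BlkL_up {t : ℝ} {g : ℕ → ℝ} {ζ : ℕ → ℕ} {ω : ℕ → ℝ × ℝ} {m i : ℕ} (hm : 2 ≤ m)
    (hi : 3 ≤ i) (hRm : MM ζ (4 * m) < 2 ^ m)
    (hP : PntP (MM ζ (4 * m)) m (1 / (((i : ℝ) + 1) * (MM ζ (4 * m) : ℝ) ^ i))) (J : ℕ)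
    (hv : |∑ n ∈ (wn m 1 0).filter (fun n => n ∈ RAF.Inn t m),
      (wt (Ml ζ m) t g n J ω - RLC.th n * gg (MM ζ (4 * m)) (Ml ζ m) J m n)| ≤
      pr (Ml ζ m) m J * (2 ^ m / (m : ℝ) ^ 2))
    (hb : ∑ n ∈ (Finset.Ico (2 ^ m) (2 ^ (m + 1))).filter (fun n => n ∉ RAF.Inn t m),
      wt (Ml ζ m) t g n J ω ≤ (2 : ℝ) ^ ((1 - (1 - t) / 8) * (m : ℝ)))
    (h1 : 1 / (m : ℝ) ^ 2 ≤ 1 / (4 * (MM ζ (4 * m) : ℝ)))
    (h2 : (2 : ℝ) ^ ((1 - (1 - t) / 8) * (m : ℝ)) ≤ 2 ^ m * (1 / (4 * (MM ζ (4 * m) : ℝ)))) :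
    ∑ n ∈ Finset.Ico (2 ^ m) (2 ^ (m + 1)), wt (Ml ζ m) t g n J ω ≤
      4 * (pr (Ml ζ m) m J * 2 ^ m) := by
  have hR : 0 < MM ζ (4 * m) := MM_pos ζ _
  have hd := Ml_dvd ζ m
  have hr1 : (1 : ℝ) ≤ (MM ζ (4 * m) : ℝ) := by exact_mod_cast hR
  have hpr : 1 ≤ pr (Ml ζ m) m J :=
    pr_one_le (fun b => Nat.pos_of_dvd_of_pos (hd b) hR) m J
  have h3 := (BlkL_main hi hRm hP J).2
  have h11 : 1 / (4 * (MM ζ (4 * m) : ℝ)) ≤ 1 := by
    rw [div_le_one (by positivity)]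
    linarith
  have hX0 : (0 : ℝ) < 2 ^ m := by positivity
  have hPX : (2 : ℝ) ^ m ≤ pr (Ml ζ m) m J * 2 ^ m := le_mul_of_one_le_left hX0.le hpr
  have h4 : ∑ n ∈ (wn m 1 0).filter (fun n => n ∈ RAF.Inn t m),
      RLC.th n * gg (MM ζ (4 * m)) (Ml ζ m) J m n ≤
      ∑ n ∈ wn m 1 0, RLC.th n * gg (MM ζ (4 * m)) (Ml ζ m) J m n :=
    Finset.sum_le_sum_of_subset_of_nonneg (Finset.filter_subset _ _)
      fun n _ _ => mul_nonneg (BlkL_th_nonneg n) (gg_nonneg hR hd J m n)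
  have h5 := Finset.sum_filter_add_sum_filter_not (Finset.Ico (2 ^ m) (2 ^ (m + 1)))
    (fun n => n ∈ RAF.Inn t m) (fun n => wt (Ml ζ m) t g n J ω)
  rw [Finset.sum_sub_distrib] at hv
  have h6 := (abs_le.mp hv).2
  have h7 : pr (Ml ζ m) m J * (2 ^ m / (m : ℝ) ^ 2) ≤ pr (Ml ζ m) m J * 2 ^ m * 1 := by
    have h8 : pr (Ml ζ m) m J * (2 ^ m / (m : ℝ) ^ 2) =
        pr (Ml ζ m) m J * 2 ^ m * (1 / (m : ℝ) ^ 2) := by ring
    rw [h8]
    exact mul_le_mul_of_nonneg_left (h1.trans h11) (by positivity)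
  have h9 : (2 : ℝ) ^ ((1 - (1 - t) / 8) * (m : ℝ)) ≤ 2 ^ m * 1 :=
    h2.trans (mul_le_mul_of_nonneg_left h11 hX0.le)
  have h10 : ∑ n ∈ (Finset.Ico (2 ^ m) (2 ^ (m + 1))).filter (fun n => n ∈ RAF.Inn t m),
      wt (Ml ζ m) t g n J ω =
      ∑ n ∈ (wn m 1 0).filter (fun n => n ∈ RAF.Inn t m), wt (Ml ζ m) t g n J ω := by
    symm
    refine Finset.sum_subset ?_ ?_
    · intro n hn
      rw [Finset.mem_filter] at hn ⊢
      refine ⟨?_, hn.2⟩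
      have h12 := hn.2
      unfold RAF.Inn at h12
      exact (Finset.mem_filter.mp h12).1
    · intro n hn hn2
      rw [Finset.mem_filter, Finset.mem_Ico] at hn
      rw [Finset.mem_filter, BlkL_wn, Finset.mem_Ioc] at hn2
      have h13 : n = 2 ^ m := by
        by_contra h14
        exact hn2 ⟨⟨lt_of_le_of_ne hn.1.1 (Ne.symm h14), hn.1.2.le⟩, hn.2⟩
      unfold wt
      refine Finset.prod_eq_zero (Finset.mem_range.mpr (Nat.succ_pos J)) ?_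
      rw [ch_zero, h13]
      exact BlkL_th_two hm
  rw [h10] at h5
  linarith

/-- The numerical facts about the modulus for large `m`. -/
private theorem BlkL_num {t : ℝ} (ht' : t < 1) {ε : ℝ} (hε : 0 < ε) {i : ℕ} (hi : 4 ≤ i)
    (hiε : 4 / ε ≤ i) :
    ∀ᶠ m : ℕ in atTop, ∀ R : ℕ, 0 < R → R ^ i ≤ m →
      R < 2 ^ m ∧ 1 / (m : ℝ) ^ 2 ≤ 1 / (4 * (R : ℝ)) ∧
      (2 : ℝ) ^ ((1 - (1 - t) / 8) * (m : ℝ)) ≤ 2 ^ m * (1 / (4 * (R : ℝ))) ∧
      32 * (R : ℝ) ^ 2 ≤ m * Real.log 2 ∧ 8 * (R : ℝ) ≤ LL m ^ (ε / 2) := by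
  have hl : (0 : ℝ) < Real.log 2 := Real.log_pos (by norm_num)
  have hl2 : (0.69 : ℝ) < Real.log 2 := by linarith [Real.log_two_gt_d9]
  have hc : (1 : ℝ) < (2 : ℝ) ^ ((1 - t) / 8) :=
    Real.one_lt_rpow (by norm_num) (by linarith)
  have e1 := (isLittleO_pow_const_const_pow_of_one_lt (R := ℝ) 1 hc).bound
    (show (0 : ℝ) < 1 / 4 by norm_num)
  have e2 := ((tendsto_rpow_atTop (show (0 : ℝ) < ε / 4 by positivity)).comp
    tendsto_natCast_atTop_atTop).eventually_ge_atTop (8 / Real.log 2 ^ (ε / 2))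
  filter_upwards [e1, e2, eventually_ge_atTop 2000] with m h1 h2 hm R hR hRi
  have hm0 : (0 : ℝ) < m := by
    have : (2000 : ℝ) ≤ m := by exact_mod_cast hm
    linarith
  have hm1 : (2000 : ℝ) ≤ m := by exact_mod_cast hm
  have hRm : R ≤ m := (Nat.le_self_pow (by omega) R).trans hRi
  have hR0 : (0 : ℝ) < R := by exact_mod_cast hR
  have hR1 : (1 : ℝ) ≤ R := by exact_mod_cast hR
  have hRm' : (R : ℝ) ≤ m := by exact_mod_cast hRm
  have hRi' : (R : ℝ) ^ i ≤ m := by exact_mod_cast hRi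
  refine ⟨lt_of_le_of_lt hRm Nat.lt_two_pow_self, ?_, ?_, ?_, ?_⟩
  · refine one_div_le_one_div_of_le (by positivity) ?_
    nlinarith
  · have h3 : (2 : ℝ) ^ ((1 - (1 - t) / 8) * (m : ℝ)) =
        2 ^ m * (1 / ((2 : ℝ) ^ ((1 - t) / 8)) ^ m) := by
      rw [← Real.rpow_natCast ((2 : ℝ) ^ ((1 - t) / 8)) m, ← Real.rpow_mul (by norm_num),
        ← Real.rpow_natCast 2 m, one_div, ← Real.rpow_neg (by norm_num),
        ← Real.rpow_add (by norm_num)]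
      congr 1
      ring
    rw [h3]
    refine mul_le_mul_of_nonneg_left ?_ (by positivity)
    refine one_div_le_one_div_of_le (by positivity) ?_
    simp only [pow_one, Real.norm_eq_abs] at h1
    rw [abs_of_pos hm0, abs_of_pos (by positivity)] at h1
    linarith
  · have h4 : (R : ℝ) ^ 4 ≤ m := (pow_le_pow_right₀ hR1 hi).trans hRi'
    by_cases h5 : R ≤ 6
    · have h6 : (R : ℝ) ≤ 6 := by exact_mod_cast h5
      have h7 : (R : ℝ) ^ 2 ≤ 36 := by nlinarith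
      nlinarith
    · have h6 : (7 : ℝ) ≤ R := by
        have : 7 ≤ R := by omega
        exact_mod_cast this
      have h7 : (49 : ℝ) ≤ (R : ℝ) ^ 2 := by nlinarith
      have h8 : 32 * (R : ℝ) ^ 2 ≤ (R : ℝ) ^ 4 * Real.log 2 := by
        have h9 : (R : ℝ) ^ 4 = (R : ℝ) ^ 2 * (R : ℝ) ^ 2 := by ring
        rw [h9]
        nlinarith [mul_pos (show (0 : ℝ) < (R : ℝ) ^ 2 by positivity) hl]
      exact h8.trans (mul_le_mul_of_nonneg_right h4 hl.le)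
  · have h3 : (R : ℝ) ≤ (m : ℝ) ^ (ε / 4) := by
      have h4 : (R : ℝ) = ((R : ℝ) ^ i) ^ ((1 : ℝ) / i) := by
        rw [← Real.rpow_natCast, ← Real.rpow_mul hR0.le, mul_one_div_cancel, Real.rpow_one]
        have : (0 : ℝ) < i := by
          have : 0 < i := by omega
          exact_mod_cast this
        exact this.ne'
      rw [h4]
      refine (Real.rpow_le_rpow (by positivity) hRi' (by positivity)).trans ?_
      refine Real.rpow_le_rpow_of_exponent_le (by linarith) ?_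
      have h5 : (0 : ℝ) < 4 / ε := by positivity
      have h6 := one_div_le_one_div_of_le h5 hiε
      rw [one_div_div] at h6
      exact h6
    have h7 : LL m ^ (ε / 2) = (m : ℝ) ^ (ε / 4) * ((m : ℝ) ^ (ε / 4) * Real.log 2 ^ (ε / 2)) := by
      rw [LL_eq, Real.mul_rpow hm0.le hl.le, ← mul_assoc, ← Real.rpow_add hm0]
      congr 2
      ring
    have h8 : 8 ≤ (m : ℝ) ^ (ε / 4) * Real.log 2 ^ (ε / 2) := by
      have h9 : 8 / Real.log 2 ^ (ε / 2) ≤ (m : ℝ) ^ (ε / 4) := h2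
      rwa [div_le_iff₀ (by positivity)] at h9
    rw [h7, mul_comm 8]
    exact mul_le_mul h3 h8 (by norm_num) (by positivity)

private theorem BlkL_num2 {ε : ℝ} (hε : 0 < ε) : ∀ᶠ m : ℕ in atTop,
    1 ≤ (ε / 2) * (LL m / Real.log (LL m)) ∧ 0 < LL m / Real.log (LL m) ∧
      LL m / Real.log (LL m) + 1 ≤ m ∧ 0 < LL m := by
  have hl : (0 : ℝ) < Real.log 2 := Real.log_pos (by norm_num)
  have hl2 : Real.log 2 < 0.7 := by linarith [Real.log_two_lt_d9]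
  have hLL : Tendsto (fun m : ℕ => LL m) atTop atTop := by
    simp only [LL_eq]
    exact Tendsto.atTop_mul_const hl tendsto_natCast_atTop_atTop
  have e1 := hLL.eventually (Real.isLittleO_log_id_atTop.bound (show (0 : ℝ) < ε / 2 by positivity))
  have e2 := (Real.tendsto_log_atTop.comp hLL).eventually_ge_atTop 1
  filter_upwards [e1, e2, hLL.eventually_ge_atTop 1, eventually_ge_atTop 4] with m h1 h2 h3 hm
  have h2' : 1 ≤ Real.log (LL m) := h2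
  have h4 : 0 < Real.log (LL m) := by linarith
  have h5 : (0 : ℝ) < LL m := by linarith
  simp only [id, Real.norm_eq_abs] at h1
  rw [abs_of_pos h4, abs_of_pos h5] at h1
  refine ⟨?_, by positivity, ?_, h5⟩
  · rw [← mul_div_assoc, le_div_iff₀ h4]
    linarith
  · have h6 : LL m / Real.log (LL m) ≤ LL m := div_le_self h5.le h2'
    have h7 : LL m = m * Real.log 2 := LL_eq m
    have hm' : (4 : ℝ) ≤ m := by exact_mod_cast hm
    have h8 : (m : ℝ) * Real.log 2 ≤ m * 0.7 := mul_le_mul_of_nonneg_left hl2.le (by linarith)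
    linarith

open Classical in
theorem blk_low {t K : ℝ} {g : ℕ → ℝ} (h : AdmK t K g) {ζ : ℕ → ℕ} (hζ : ZH t ζ) {ω : ℕ → ℝ × ℝ} (hω : GoodI t g ζ ω)
    {ε : ℝ} (hε : 0 < ε) (hε1 : ε < 1) : ∀ᶠ m : ℕ in atTop, ∀ k : ℕ, 1 ≤ k →
    ((k : ℝ) ≤ (1 - ε) * (LL m / Real.log (LL m))) →
    2 ^ m * LL m ^ (-((1 + ε) * (k : ℝ))) ≤
      (((Finset.Ico (2 ^ m) (2 ^ (m + 1))).filter fun p =>
        (∀ i < k, (ch (MM ζ) t g ω p i).Prime) ∧ ¬ (ch (MM ζ) t g ω p k).Prime).card : ℝ) := by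
  have hl : (0 : ℝ) < Real.log 2 := Real.log_pos (by norm_num)
  obtain ⟨i, hi⟩ := exists_nat_ge (max 4 (4 / ε))
  have hi4 : 4 ≤ i := by exact_mod_cast (le_max_left _ _).trans hi
  have hiε : 4 / ε ≤ i := (le_max_right _ _).trans hi
  obtain ⟨mg, hmg⟩ := geo t K
  obtain ⟨mc, hmc⟩ := cnt_loc t K
  filter_upwards [hω.var (ε / 2) (by positivity) (by linarith) 1 le_rfl, hω.bdry, hζ.small i,
    hζ.pnt i, BlkL_num h.ht1 hε hi4 hiε, BlkL_num2 hε, eventually_ge_atTop mg,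
    eventually_ge_atTop mc, eventually_ge_atTop 2] with m hv hb hs hp hn hn2 hmg1 hmc1 hm2 k hk1 hk2
  have hR : 0 < MM ζ (4 * m) := MM_pos ζ _
  obtain ⟨hn21, hn22, hn23, hLL0⟩ := hn2
  obtain ⟨ha, hb1, hb2, hb3, hb4⟩ := hn (MM ζ (4 * m)) hR hs
  set Q : ℝ := LL m / Real.log (LL m) with hQ
  obtain ⟨J, rfl⟩ : ∃ J, k = J + 1 := ⟨k - 1, by omega⟩
  have hkQ : ((J + 1 : ℕ) : ℝ) ≤ Q := by nlinarith
  have hkm : J + 1 + 1 ≤ m := by
    have h1 : ((J + 1 + 1 : ℕ) : ℝ) ≤ m := by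
      push_cast at hkQ ⊢
      linarith
    exact_mod_cast h1
  rw [BlkL_exact, hmc ζ g h m hmc1 ω hω.mem _ (Finset.Subset.refl _) (J + 1) (by omega),
    hmc ζ g h m hmc1 ω hω.mem _ (Finset.Subset.refl _) (J + 1 + 1) (by omega)]
  have hd := Ml_dvd ζ m
  have hadm : AdmG (MM ζ (4 * m)) (Ml ζ m) t K g := Ml_adm h ζ m
  have hJ1 : ((J : ℝ) + 1 ≤ (1 - ε / 2) * Q) := by
    push_cast at hk2
    nlinarith
  have hJ2 : (((J + 1 : ℕ) : ℝ) + 1 ≤ (1 - ε / 2) * Q) := by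
    nlinarith
  have hpr : 1 ≤ pr (Ml ζ m) m J :=
    pr_one_le (fun b => Nat.pos_of_dvd_of_pos (hd b) hR) m J
  -- the lower bound for the chains of length `J + 1`
  have hblow := hb 0 (by push_cast; positivity)
  have hlow := BlkL_low (t := t) (g := g) (ω := ω) hm2 (show 3 ≤ i by omega) ha hp J
    (hv 0 (by norm_num) J hJ1) hblow hb1 hb2
  have hgeo := hmg (MM ζ (4 * m)) (Ml ζ m) g hadm m hmg1 ω hω.mem
  have hlow2 := BlkL_cnt_lo (Ml ζ m) t g ω (m := m) J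
    ((wn m 1 0).filter (fun n => n ∈ RAF.Inn t m)) (by
      intro n hn
      have h1 := (Finset.mem_filter.mp hn).2
      refine ⟨?_, fun i => ((hgeo n h1).1 i).1⟩
      unfold RAF.Inn at h1
      have h2 := (Finset.mem_Ico.mp (Finset.mem_filter.mp h1).1).1
      exact lt_of_lt_of_le (by positivity) h2)
  have hmono : cnt (Ml ζ m) t g ω (J + 1) ((wn m 1 0).filter (fun n => n ∈ RAF.Inn t m)) ≤
      cnt (Ml ζ m) t g ω (J + 1) (Finset.Ico (2 ^ m) (2 ^ (m + 1))) := by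
    refine BlkL_cnt_mono _ _ _ _ _ ?_
    intro n hn
    have h1 := (Finset.mem_filter.mp hn).2
    unfold RAF.Inn at h1
    exact (Finset.mem_filter.mp h1).1
  -- the upper bound for the chains of length `J + 2`
  have hbup := hb (J + 1) (by linarith)
  have hup := BlkL_up (t := t) (g := g) (ω := ω) hm2 (show 3 ≤ i by omega) ha hp (J + 1)
    (hv 0 (by norm_num) (J + 1) hJ2) hbup hb1 hb2
  have hup2 := BlkL_cnt_hi (Ml ζ m) t g ω (m := m) (J + 1) (Finset.Ico (2 ^ m) (2 ^ (m + 1))) (by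
    intro n hn
    rw [Finset.mem_Ico] at hn
    have h1 : 0 < n := lt_of_lt_of_le (by positivity) hn.1
    refine ⟨h1, ?_⟩
    exact Nat.log_eq_of_pow_le_of_lt_pow hn.1 hn.2)
  have hpr2 : pr (Ml ζ m) m (J + 1) ≤ pr (Ml ζ m) m J * (MM ζ (4 * m) : ℝ) := by
    rw [pr_add]
    refine mul_le_mul_of_nonneg_left ?_ (by linarith)
    unfold pr
    rw [Finset.prod_range_one]
    unfold rat
    have h1 : 0 < Ml ζ m (m + J + 0) := Nat.pos_of_dvd_of_pos (hd _) hR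
    have h2 : (1 : ℝ) ≤ ((Ml ζ m (m + J + 0)).totient : ℝ) := by
      exact_mod_cast Nat.totient_pos.mpr h1
    have h3 : ((Ml ζ m (m + J + 0)) : ℝ) ≤ (MM ζ (4 * m) : ℝ) := by
      exact_mod_cast Nat.le_of_dvd hR (hd _)
    exact (div_le_self (by positivity) h2).trans h3
  -- the products
  have hprod : ∏ i ∈ Finset.range (J + 1 + 1), (((m : ℝ) + i) * Real.log 2) =
      (m * Real.log 2) * ∏ i ∈ Finset.range (J + 1), (((m : ℝ) + i + 1) * Real.log 2) := by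
    rw [Finset.prod_range_succ', mul_comm]
    congr 1
    · push_cast
      ring
    · refine Finset.prod_congr rfl fun i _ => ?_
      push_cast
      ring
  have hm0 : (0 : ℝ) < m := by
    have : 0 < m := by omega
    exact_mod_cast this
  have hP0 : 0 < ∏ i ∈ Finset.range (J + 1), (((m : ℝ) + i + 1) * Real.log 2) :=
    Finset.prod_pos fun i _ => by positivity
  have hPle : ∏ i ∈ Finset.range (J + 1), (((m : ℝ) + i + 1) * Real.log 2) ≤
      (2 * LL m) ^ (J + 1) := by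
    have h1 : ∏ i ∈ Finset.range (J + 1), (((m : ℝ) + i + 1) * Real.log 2) ≤
        ∏ _i ∈ Finset.range (J + 1), (2 * LL m) := by
      refine Finset.prod_le_prod (fun i _ => by positivity) fun i hi => ?_
      have h2 : i + 1 ≤ m := by
        have := Finset.mem_range.mp hi
        omega
      have h3 : ((i : ℝ) + 1) ≤ m := by exact_mod_cast h2
      rw [LL_eq]
      nlinarith
    rwa [Finset.prod_const, Finset.card_range] at h1
  rw [hprod] at hup2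
  set L : ℝ := ∏ i ∈ Finset.range (J + 1), (((m : ℝ) + i + 1) * Real.log 2) with hL
  set P : ℝ := pr (Ml ζ m) m J with hPd
  set r : ℝ := (MM ζ (4 * m) : ℝ) with hr
  set X : ℝ := (2 : ℝ) ^ m with hX
  set c1 : ℝ := (cnt (Ml ζ m) t g ω (J + 1) (Finset.Ico (2 ^ m) (2 ^ (m + 1))) : ℝ) with hc1
  set c2 : ℝ := (cnt (Ml ζ m) t g ω (J + 1 + 1) (Finset.Ico (2 ^ m) (2 ^ (m + 1))) : ℝ) with hc2
  have hX0 : 0 < X := by positivity
  have hr0 : 0 < r := by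
    rw [hr]
    exact_mod_cast hR
  have g1 : P * X * (1 / (4 * r)) ≤ c1 * L := by
    refine (hlow.trans hlow2).trans (mul_le_mul_of_nonneg_right ?_ hP0.le)
    rw [hc1]
    exact_mod_cast hmono
  have g2 : c2 * (m * Real.log 2 * L) ≤ 4 * (P * r * X) := by
    refine (hup2.trans hup).trans ?_
    have h1 : pr (Ml ζ m) m (J + 1) * X ≤ P * r * X := mul_le_mul_of_nonneg_right hpr2 hX0.le
    linarith
  have g3 : P * X * (1 / (8 * r)) ≤ (c1 - c2) * L := by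
    have hml : 0 < (m : ℝ) * Real.log 2 := by positivity
    have h1 : c2 * L ≤ P * X * (1 / (8 * r)) := by
      have h2 : c2 * L * (m * Real.log 2) ≤ P * X * (1 / (8 * r)) * (m * Real.log 2) := by
        have h3 : P * X * (1 / (8 * r)) * (32 * r ^ 2) = 4 * (P * r * X) := by
          field_simp
          ring
        have h4 : P * X * (1 / (8 * r)) * (32 * r ^ 2) ≤ P * X * (1 / (8 * r)) * (m * Real.log 2) :=
          mul_le_mul_of_nonneg_left hb3 (by positivity)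
        calc c2 * L * (m * Real.log 2) = c2 * (m * Real.log 2 * L) := by ring
          _ ≤ 4 * (P * r * X) := g2
          _ ≤ _ := by rw [← h3]; exact h4
      exact le_of_mul_le_mul_right h2 hml
    have h5 : P * X * (1 / (4 * r)) = P * X * (1 / (8 * r)) + P * X * (1 / (8 * r)) := by
      field_simp
      ring
    rw [h5] at g1
    linarith
  have g4 : X * (1 / (8 * r)) ≤ (c1 - c2) * (2 * LL m) ^ (J + 1) := by
    have h1 : X * (1 / (8 * r)) ≤ P * X * (1 / (8 * r)) := by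
      refine mul_le_mul_of_nonneg_right ?_ (by positivity)
      exact le_mul_of_one_le_left hX0.le hpr
    have h2 : 0 ≤ c1 - c2 := by
      have h3 : 0 ≤ (c1 - c2) * L := le_trans (by positivity) g3
      exact nonneg_of_mul_nonneg_left h3 hP0
    exact (h1.trans g3).trans (mul_le_mul_of_nonneg_left hPle h2)
  have g5 : (8 * r) * (2 * LL m) ^ (J + 1) ≤ LL m ^ ((1 + ε) * ((J + 1 : ℕ) : ℝ)) := by
    have hr1 : (1 : ℝ) ≤ r := by
      rw [hr]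
      exact_mod_cast hR
    have h1 : (2 : ℝ) ≤ LL m ^ (ε / 2) := by linarith
    have h2 : (2 : ℝ) ^ (J + 1) ≤ (LL m ^ (ε / 2)) ^ (J + 1) :=
      pow_le_pow_left₀ (by norm_num) h1 _
    have h3 : LL m ^ (ε / 2) ≤ (LL m ^ (ε / 2)) ^ (J + 1) :=
      le_self_pow₀ (by linarith) (by omega)
    have h4 : LL m ^ ((1 + ε) * ((J + 1 : ℕ) : ℝ)) =
        (LL m ^ (ε / 2)) ^ (J + 1) * ((LL m ^ (ε / 2)) ^ (J + 1) * LL m ^ (J + 1)) := by
      rw [← Real.rpow_natCast (LL m ^ (ε / 2)) (J + 1), ← Real.rpow_mul hLL0.le,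
        ← Real.rpow_natCast (LL m) (J + 1), ← Real.rpow_add hLL0, ← Real.rpow_add hLL0]
      congr 1
      ring
    rw [h4, mul_pow]
    refine mul_le_mul (hb4.trans h3) ?_ (by positivity) (by positivity)
    exact mul_le_mul_of_nonneg_right h2 (by positivity)
  have h6 : 0 < (2 * LL m) ^ (J + 1) := by positivity
  rw [Real.rpow_neg hLL0.le, ← div_eq_mul_inv]
  calc X / LL m ^ ((1 + ε) * ((J + 1 : ℕ) : ℝ)) ≤ X / ((8 * r) * (2 * LL m) ^ (J + 1)) :=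
        div_le_div_of_nonneg_left hX0.le (by positivity) g5
    _ = X * (1 / (8 * r)) / (2 * LL m) ^ (J + 1) := by
        field_simp
    _ ≤ c1 - c2 := by
        rw [div_le_iff₀ h6]
        exact g4

end RAG
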