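import Pool.Agent.RAG.Mom1
import Pool.Agent.RAF.Bdry

/-!
# RAG.FirstM: first moments: the boundary of a block, and the number of chains of length `k`

PROOF. `bdry_e`: `mom_one` (the integral is at most `th n C^J ≤ (m+1) C^J`), the number of the `n` in the block which are not in `RAF.Inn t m` is at most `2 · 2^((1-(1-t)/2)m)` (`Bdry_card` in `Pool/Agent/RAF/Bdry.lean`, copy; see also `Bdry_real` there), and
`C^J = 2^(o(m))` for `J ≤ 2 LL m/log (LL m)`. `cnt_e`: if the first `k ≥ 1` members of the chain of `n` are primes then `wt n (k-1) = ∏_{i<k} log (ch n i) ≥ (LL m)^k` (`ch_ge`), so `cnt · (LL m)^k ≤ ∑_n wt n (k-1)`; by `mom_one` the expectation of `cnt` is at most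
`2^m (m+1) C^(k-1) (LL m)^(-k) ≤ 2^m m² (C/LL m)^k` and `C ≤ (LL m)^ε` for large `m`.
-/

namespace RAG

open MeasureTheory Filter
open RAF (uu Pm)

private theorem FirstM_real {C c : ℝ} (hC : 1 ≤ C) (hc : 0 < c) : ∀ᶠ b : ℕ in atTop,
    3 * ((b : ℝ) + 1) * (((⌊2 * (Real.log (2 ^ b) / Real.log (Real.log (2 ^ b)))⌋₊ : ℝ) + 1) *
      C ^ ⌊2 * (Real.log (2 ^ b) / Real.log (Real.log (2 ^ b)))⌋₊) ≤ (2 : ℝ) ^ (c / 2 * (b : ℝ)) := by
  have hl2 : 0 < Real.log 2 := Real.log_pos (by norm_num)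
  have hlt : Tendsto (fun b : ℕ => Real.log ((2 : ℝ) ^ b)) atTop atTop := by
    simp_rw [Real.log_pow]
    exact tendsto_natCast_atTop_atTop.atTop_mul_const hl2
  have e1 : ∀ᶠ L : ℝ in atTop, 1 + 8 * Real.log C / c ≤ Real.log L :=
    Real.tendsto_log_atTop.eventually_ge_atTop _
  have e2 : ∀ᶠ L : ℝ in atTop, 27 * L ^ 2 ≤ Real.exp (c / 4 * L) := by
    have h2 := Real.tendsto_exp_div_pow_atTop 2
    have h3 : Tendsto (fun L : ℝ => c / 4 * L) atTop atTop := tendsto_id.const_mul_atTop (by positivity)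
    have h4 := h2.comp h3
    filter_upwards [h4.eventually_ge_atTop (27 / (c / 4) ^ 2), eventually_gt_atTop 0] with L hL hL0
    simp only [Function.comp] at hL
    rw [le_div_iff₀ (by positivity)] at hL
    have h5 : 27 / (c / 4) ^ 2 * (c / 4 * L) ^ 2 = 27 * L ^ 2 := by
      field_simp
    linarith
  filter_upwards [hlt.eventually e1, hlt.eventually e2, hlt.eventually_ge_atTop 1] with b h1 h2 h3
  set L := Real.log ((2 : ℝ) ^ b) with hL
  have hLb : L = b * Real.log 2 := by rw [hL, Real.log_pow]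
  set j := ⌊2 * (L / Real.log L)⌋₊ with hj
  have hlC : 0 ≤ Real.log C := Real.log_nonneg hC
  have hq : 0 ≤ 8 * Real.log C / c := by positivity
  have hlL : 1 ≤ Real.log L := by linarith
  have hL0 : 0 < L := by linarith
  have hjle : (j : ℝ) ≤ 2 * (L / Real.log L) := Nat.floor_le (by positivity)
  have hjL : (j : ℝ) ≤ 2 * L := by
    refine hjle.trans ?_
    have : L / Real.log L ≤ L := div_le_self hL0.le hlL
    linarith
  have hb : (b : ℝ) ≤ 2 * L := by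
    have := Real.log_two_gt_d9
    have hb0 : (0 : ℝ) ≤ b := Nat.cast_nonneg b
    nlinarith
  have hC0 : 0 < C := by linarith
  have hCj : C ^ j ≤ Real.exp (c / 4 * L) := by
    have h4 : C ^ j = Real.exp (j * Real.log C) := by
      rw [Real.exp_nat_mul, Real.exp_log hC0]
    rw [h4]
    apply Real.exp_le_exp.2
    have h5 : Real.log C ≤ c / 8 * Real.log L := by
      have h6 : 8 * Real.log C / c ≤ Real.log L := by linarith
      rw [div_le_iff₀ hc] at h6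
      linarith
    calc (j : ℝ) * Real.log C ≤ 2 * (L / Real.log L) * (c / 8 * Real.log L) :=
          mul_le_mul hjle h5 hlC (by positivity)
      _ = c / 4 * L := by
        have : Real.log L ≠ 0 := by linarith
        field_simp
        ring
  have hpoly : 3 * ((b : ℝ) + 1) * ((j : ℝ) + 1) ≤ Real.exp (c / 4 * L) := by
    refine le_trans ?_ h2
    have hj0 : (0 : ℝ) ≤ j := Nat.cast_nonneg j
    have hb0 : (0 : ℝ) ≤ b := Nat.cast_nonneg b
    calc 3 * ((b : ℝ) + 1) * ((j : ℝ) + 1) ≤ 3 * (3 * L) * (3 * L) := by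
          apply mul_le_mul _ (by linarith) (by positivity) (by positivity)
          linarith
      _ = 27 * L ^ 2 := by ring
  calc 3 * ((b : ℝ) + 1) * (((j : ℝ) + 1) * C ^ j) = 3 * ((b : ℝ) + 1) * ((j : ℝ) + 1) * C ^ j := by ring
    _ ≤ Real.exp (c / 4 * L) * Real.exp (c / 4 * L) :=
        mul_le_mul hpoly hCj (by positivity) (Real.exp_pos _).le
    _ = (2 : ℝ) ^ (c / 2 * (b : ℝ)) := by
        rw [← Real.exp_add, Real.rpow_def_of_pos (by norm_num), hLb]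
        congr 1
        ring

private theorem FirstM_card (t : ℝ) (b : ℕ) (S : Finset ℕ)
    (hS : ∀ n ∈ S, n ∈ Finset.Ico (2 ^ b) (2 ^ (b + 1)) ∧ n ∉ RAF.Inn t b) :
    (S.card : ℝ) ≤ 2 * (2 : ℝ) ^ ((1 - (1 - t) / 2) * (b : ℝ)) := by
  set D : ℝ := 2 ^ (b + 1) * (2 : ℝ) ^ (-((1 - t) / 2) * (b : ℝ)) with hD
  have hDe : D = 2 * (2 : ℝ) ^ ((1 - (1 - t) / 2) * (b : ℝ)) := by
    rw [hD, show (1 - (1 - t) / 2) * (b : ℝ) = (b : ℝ) + -((1 - t) / 2) * (b : ℝ) by ring,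
      Real.rpow_add (by norm_num), Real.rpow_natCast]
    ring
  have hD0 : 0 ≤ D := by positivity
  set N0 : ℕ := ⌈(2 : ℝ) ^ (b + 1) - D⌉₊ with hN0
  have hsub : S ⊆ Finset.Ico N0 (2 ^ (b + 1)) := by
    intro n hn
    obtain ⟨h1, h2⟩ := hS n hn
    rw [RAF.Inn, Finset.mem_filter, not_and] at h2
    have h3 := h2 h1
    rw [Finset.mem_Ico] at h1 ⊢
    refine ⟨?_, h1.2⟩
    rw [hN0, Nat.ceil_le]
    push Not at h3
    rw [mul_sub, mul_one, ← hD] at h3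
    exact h3.le
  rw [← hDe]
  refine le_trans (Nat.cast_le.2 (Finset.card_le_card hsub)) ?_
  rw [Nat.card_Ico]
  rcases le_total N0 (2 ^ (b + 1)) with h | h
  · rw [Nat.cast_sub h]
    have := Nat.le_ceil ((2 : ℝ) ^ (b + 1) - D)
    push_cast
    linarith
  · rw [Nat.sub_eq_zero_of_le h, Nat.cast_zero]
    exact hD0

private theorem FirstM_th {m n : ℕ} (h : n ∈ Finset.Ico (2 ^ m) (2 ^ (m + 1))) : RLC.th n ≤ (m : ℝ) + 1 := by
  rw [Finset.mem_Ico] at h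
  have hn0 : 0 < n := lt_of_lt_of_le (by positivity) h.1
  have hlog : Real.log n ≤ (m : ℝ) + 1 := by
    have h5 : (n : ℝ) ≤ 2 ^ (m + 1) := by exact_mod_cast h.2.le
    have h6 := Real.log_le_log (by exact_mod_cast hn0) h5
    rw [Real.log_pow] at h6
    have h7 := Real.log_two_lt_d9
    push_cast at h6
    have h8 : (0 : ℝ) ≤ m := Nat.cast_nonneg m
    nlinarith
  unfold RLC.th
  split_ifs
  · exact hlog
  · positivity

theorem bdry_e {R : ℕ} (hR : 0 < R) {t K : ℝ} (ht' : t < 1) : ∃ m1 : ℕ, ∀ (Mb : ℕ → ℕ) (g : ℕ → ℝ),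
    AdmG R Mb t K g → ∀ m : ℕ, m1 ≤ m → ∀ J : ℕ, ((J : ℝ) ≤ 2 * (LL m / Real.log (LL m))) →
    ∑ n ∈ (Finset.Ico (2 ^ m) (2 ^ (m + 1))).filter (fun n => n ∉ RAF.Inn t m),
      ∫⁻ ω, ENNReal.ofReal (wt Mb t g n J ω) ∂Pm ≤
      ENNReal.ofReal ((2 : ℝ) ^ ((1 - (1 - t) / 4) * (m : ℝ))) := by
  obtain ⟨C, hC, hmom⟩ := mom_one hR t K
  set c : ℝ := (1 - t) / 2 with hc
  have hc0 : 0 < c := by rw [hc]; linarith
  obtain ⟨b0, hb0⟩ := eventually_atTop.1 (FirstM_real hC hc0)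
  refine ⟨b0, fun Mb g hA m hm J hJ => ?_⟩
  have hr := hb0 m hm
  unfold LL at hJ
  set j : ℕ := ⌊2 * (Real.log (2 ^ m) / Real.log (Real.log (2 ^ m)))⌋₊ with hj
  have hJj : J ≤ j := Nat.le_floor hJ
  set S : Finset ℕ := (Finset.Ico (2 ^ m) (2 ^ (m + 1))).filter (fun n => n ∉ RAF.Inn t m) with hS
  have h4 : ∀ n ∈ S, ∫⁻ ω, ENNReal.ofReal (wt Mb t g n J ω) ∂Pm ≤
      ENNReal.ofReal (((m : ℝ) + 1) * C ^ j) := by
    intro n hn
    rw [hS, Finset.mem_filter] at hn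
    have hn0 : 0 < n := lt_of_lt_of_le (by positivity) (Finset.mem_Ico.1 hn.1).1
    refine (hmom Mb g hA n hn0 J).trans (ENNReal.ofReal_le_ofReal ?_)
    exact mul_le_mul (FirstM_th hn.1) (pow_le_pow_right₀ hC hJj) (by positivity) (by positivity)
  refine (Finset.sum_le_sum h4).trans ?_
  rw [Finset.sum_const, nsmul_eq_mul, ← ENNReal.ofReal_natCast, ← ENNReal.ofReal_mul (Nat.cast_nonneg _)]
  apply ENNReal.ofReal_le_ofReal
  have hcard := FirstM_card t m S (fun n hn => by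
    rw [hS, Finset.mem_filter] at hn
    exact hn)
  have h5 : (2 : ℝ) ^ ((1 - (1 - t) / 4) * (m : ℝ)) =
      (2 : ℝ) ^ ((1 - (1 - t) / 2) * (m : ℝ)) * (2 : ℝ) ^ (c / 2 * (m : ℝ)) := by
    rw [← Real.rpow_add (by norm_num), hc]
    congr 1
    ring
  have h6 : 0 < (2 : ℝ) ^ ((1 - (1 - t) / 2) * (m : ℝ)) := by positivity
  have hCj : 0 < C ^ j := by positivity
  have hm0 : (0 : ℝ) ≤ m := Nat.cast_nonneg m
  have hj0 : (0 : ℝ) ≤ j := Nat.cast_nonneg j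
  calc (S.card : ℝ) * (((m : ℝ) + 1) * C ^ j)
      ≤ 2 * (2 : ℝ) ^ ((1 - (1 - t) / 2) * (m : ℝ)) * (((m : ℝ) + 1) * C ^ j) :=
        mul_le_mul_of_nonneg_right hcard (by positivity)
    _ = (2 : ℝ) ^ ((1 - (1 - t) / 2) * (m : ℝ)) * (2 * ((m : ℝ) + 1) * (1 * C ^ j)) := by ring
    _ ≤ (2 : ℝ) ^ ((1 - (1 - t) / 2) * (m : ℝ)) * (3 * ((m : ℝ) + 1) * (((j : ℝ) + 1) * C ^ j)) := by
        apply mul_le_mul_of_nonneg_left _ h6.le
        apply mul_le_mul (by linarith) _ (by positivity) (by positivity)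
        exact mul_le_mul_of_nonneg_right (by linarith) hCj.le
    _ ≤ _ := by
        rw [h5]
        exact mul_le_mul_of_nonneg_left hr h6.le

private theorem FirstM_pt (Mb : ℕ → ℕ) (t : ℝ) (g : ℕ → ℝ) (ω : ℕ → ℝ × ℝ) {m k : ℕ} (hk : 1 ≤ k) :
    (cnt Mb t g ω k (Finset.Ico (2 ^ m) (2 ^ (m + 1))) : ℝ) * LL m ^ k ≤
      ∑ n ∈ Finset.Ico (2 ^ m) (2 ^ (m + 1)), wt Mb t g n (k - 1) ω := by
  classical
  have h0 : 0 ≤ LL m := Real.log_nonneg (one_le_pow₀ (by norm_num))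
  have hcnt : (cnt Mb t g ω k (Finset.Ico (2 ^ m) (2 ^ (m + 1))) : ℝ) * LL m ^ k =
      ∑ n ∈ (Finset.Ico (2 ^ m) (2 ^ (m + 1))).filter (fun n => ∀ i < k, (ch Mb t g ω n i).Prime), LL m ^ k := by
    rw [Finset.sum_const, nsmul_eq_mul]
    unfold cnt
    congr 2
  rw [hcnt]
  refine le_trans (Finset.sum_le_sum (g := fun n => wt Mb t g n (k - 1) ω) ?_)
    (Finset.sum_le_sum_of_subset_of_nonneg (Finset.filter_subset _ _) (fun n _ _ => wt_nonneg Mb t g n (k - 1) ω))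
  intro n hn
  rw [Finset.mem_filter, Finset.mem_Ico] at hn
  have hkk : k - 1 + 1 = k := by omega
  simp only [wt, hkk]
  have hc : LL m ^ k = ∏ i ∈ Finset.range k, LL m := by rw [Finset.prod_const, Finset.card_range]
  rw [hc]
  refine Finset.prod_le_prod (fun i _ => h0) (fun i hi => ?_)
  have hp := hn.2 i (Finset.mem_range.1 hi)
  rw [RLC.th, if_pos hp]
  unfold LL
  apply Real.log_le_log (by positivity)
  have h1 := ch_ge Mb t g ω n i
  have h2 : 2 ^ m ≤ ch Mb t g ω n i := le_trans hn.1.1 (le_trans (Nat.le_mul_of_pos_left n (by positivity)) h1)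
  exact_mod_cast h2

theorem cnt_e {R : ℕ} (hR : 0 < R) (t K : ℝ) {ε : ℝ} (hε : 0 < ε) : ∃ m1 : ℕ, ∀ (Mb : ℕ → ℕ) (g : ℕ → ℝ),
    AdmG R Mb t K g → ∀ m : ℕ, m1 ≤ m → ∀ k : ℕ, 1 ≤ k →
    ∫⁻ ω, (cnt Mb t g ω k (Finset.Ico (2 ^ m) (2 ^ (m + 1))) : ENNReal) ∂Pm ≤
      ENNReal.ofReal (2 ^ m * (m : ℝ) ^ 2 * LL m ^ (-((1 - ε) * (k : ℝ)))) := by
  obtain ⟨C, hC, hmom⟩ := mom_one hR t K
  have hl2 : 0 < Real.log 2 := Real.log_pos (by norm_num)
  have hlt : Tendsto (fun b : ℕ => LL b) atTop atTop := by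
    simp_rw [LL_eq]
    exact tendsto_natCast_atTop_atTop.atTop_mul_const hl2
  obtain ⟨m1, hm1⟩ := eventually_atTop.1 ((((tendsto_rpow_atTop hε).comp hlt).eventually_ge_atTop C).and
    ((hlt.eventually_ge_atTop 1).and (eventually_ge_atTop 2)))
  refine ⟨m1, fun Mb g hA m hm k hk => ?_⟩
  obtain ⟨hC1, hL1, hm2⟩ := hm1 m hm
  simp only [Function.comp] at hC1
  have hL0 : 0 < LL m := by linarith
  have hLk : 0 < LL m ^ k := by positivity
  have hpt : ∀ ω, (cnt Mb t g ω k (Finset.Ico (2 ^ m) (2 ^ (m + 1))) : ENNReal) ≤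
      ENNReal.ofReal ((LL m ^ k)⁻¹) *
        ∑ n ∈ Finset.Ico (2 ^ m) (2 ^ (m + 1)), ENNReal.ofReal (wt Mb t g n (k - 1) ω) := by
    intro ω
    rw [← ENNReal.ofReal_sum_of_nonneg (fun n _ => wt_nonneg Mb t g n (k - 1) ω),
      ← ENNReal.ofReal_mul (by positivity), ← ENNReal.ofReal_natCast]
    apply ENNReal.ofReal_le_ofReal
    rw [inv_mul_eq_div, le_div_iff₀ hLk]
    exact FirstM_pt Mb t g ω hk
  refine (lintegral_mono hpt).trans ?_
  rw [lintegral_const_mul _ (Finset.measurable_sum _ fun n _ => (wt_meas Mb t g n (k - 1)).ennreal_ofReal),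
    lintegral_finsetSum _ (fun n _ => (wt_meas Mb t g n (k - 1)).ennreal_ofReal)]
  have h4 : ∀ n ∈ Finset.Ico (2 ^ m) (2 ^ (m + 1)), ∫⁻ ω, ENNReal.ofReal (wt Mb t g n (k - 1) ω) ∂Pm ≤
      ENNReal.ofReal (((m : ℝ) + 1) * C ^ k) := by
    intro n hn
    have hn0 : 0 < n := lt_of_lt_of_le (by positivity) (Finset.mem_Ico.1 hn).1
    refine (hmom Mb g hA n hn0 (k - 1)).trans (ENNReal.ofReal_le_ofReal ?_)
    exact mul_le_mul (FirstM_th hn) (pow_le_pow_right₀ hC (Nat.sub_le k 1)) (by positivity) (by positivity)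
  refine (mul_le_mul_right (Finset.sum_le_sum h4) _).trans ?_
  rw [Finset.sum_const, nsmul_eq_mul, Nat.card_Ico, ← ENNReal.ofReal_natCast, ← ENNReal.ofReal_mul (Nat.cast_nonneg _),
    ← ENNReal.ofReal_mul (by positivity)]
  apply ENNReal.ofReal_le_ofReal
  have hcard : (((2 ^ (m + 1) - 2 ^ m : ℕ)) : ℝ) = 2 ^ m := by
    have : 2 ^ (m + 1) - 2 ^ m = 2 ^ m := by
      rw [pow_succ]; omega
    rw [this]
    push_cast
    ring
  rw [hcard]
  have hCk : C ^ k ≤ LL m ^ (ε * (k : ℝ)) := by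
    rw [Real.rpow_mul hL0.le, Real.rpow_natCast]
    exact pow_le_pow_left₀ (by linarith) hC1 k
  have hm2' : (m : ℝ) + 1 ≤ (m : ℝ) ^ 2 := by
    have : (2 : ℝ) ≤ m := by exact_mod_cast hm2
    nlinarith
  have hsplit : LL m ^ (-((1 - ε) * (k : ℝ))) = (LL m ^ k)⁻¹ * LL m ^ (ε * (k : ℝ)) := by
    rw [← Real.rpow_natCast, ← Real.rpow_neg hL0.le, ← Real.rpow_add hL0]
    congr 1
    ring
  rw [hsplit]
  have hC0 : (0 : ℝ) ≤ C ^ k := by positivity
  calc (LL m ^ k)⁻¹ * (2 ^ m * (((m : ℝ) + 1) * C ^ k))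
      = 2 ^ m * ((m : ℝ) + 1) * (LL m ^ k)⁻¹ * C ^ k := by ring
    _ ≤ 2 ^ m * (m : ℝ) ^ 2 * (LL m ^ k)⁻¹ * LL m ^ (ε * (k : ℝ)) := by
        apply mul_le_mul _ hCk hC0 (by positivity)
        apply mul_le_mul_of_nonneg_right _ (by positivity)
        exact mul_le_mul_of_nonneg_left hm2' (by positivity)
    _ = _ := by ring

end RAG
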