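import Pool.Agent.RAG.Vari
import Pool.Agent.RAG.FirstM

/-!
# RAG.BndD: what is known about the expectations in the block `m`, if all the moduli divide `R`

PROOF. `variance` with `A = 10`, `bdry_e`, `cnt_e`; `Bnd.mono`: `AdmG R Mb t K' g → AdmG R Mb t K g` for `K' ≤ K` (`1 ≤ K' `), and `1 - ε ≤ 1 - ε'` (for `J`: `LL m/log (LL m) ≥ 0`; `m ≥ 6` makes `1 ≤ LL m`,
`log (LL m) ≥ 0`). For `cnt`: `LL m ≥ 1`, so `LL m ^ (-((1-ε')k)) ≤ LL m ^ (-((1-ε)k))` for `ε' ≤ ε`.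
-/

namespace RAG

open MeasureTheory Filter Pool.Agent.PCx
open RAF (uu Pm)

structure Bnd (R : ℕ) (t K ε : ℝ) (m : ℕ) : Prop where
  var : ∀ (Mb : ℕ → ℕ) (g : ℕ → ℝ), AdmG R Mb t K g → ∀ I ⊆ RAF.Inn t m, ∀ J : ℕ,
    ((J : ℝ) + 1 ≤ (1 - ε) * (LL m / Real.log (LL m))) →
    ∫⁻ ω, ENNReal.ofReal |∑ n ∈ I, (wt Mb t g n J ω - RLC.th n * gg R Mb J m n)| ∂Pm ≤
      ENNReal.ofReal (pr Mb m J * 2 ^ m * (m : ℝ) ^ (-(10 : ℝ)))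
  bdry : ∀ (Mb : ℕ → ℕ) (g : ℕ → ℝ), AdmG R Mb t K g → ∀ J : ℕ, ((J : ℝ) ≤ 2 * (LL m / Real.log (LL m))) →
    ∑ n ∈ (Finset.Ico (2 ^ m) (2 ^ (m + 1))).filter (fun n => n ∉ RAF.Inn t m),
      ∫⁻ ω, ENNReal.ofReal (wt Mb t g n J ω) ∂Pm ≤
      ENNReal.ofReal ((2 : ℝ) ^ ((1 - (1 - t) / 4) * (m : ℝ)))
  cnt : ∀ (Mb : ℕ → ℕ) (g : ℕ → ℝ), AdmG R Mb t K g → ∀ k : ℕ, 1 ≤ k →
    ∫⁻ ω, (cnt Mb t g ω k (Finset.Ico (2 ^ m) (2 ^ (m + 1))) : ENNReal) ∂Pm ≤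
      ENNReal.ofReal (2 ^ m * (m : ℝ) ^ 2 * LL m ^ (-((1 - ε) * (k : ℝ))))

theorem bnd_ev {R : ℕ} (hR : 0 < R) {t K ε : ℝ} (ht : 1 / 2 < t) (ht' : t < 1) (hK : 1 ≤ K) (hε : 0 < ε) (hε1 : ε < 1) :
    ∀ᶠ m : ℕ in atTop, Bnd R t K ε m := by
  obtain ⟨m1, h1⟩ := variance (A := 10) hR ht ht' hK hε hε1 (by norm_num)
  obtain ⟨m2, h2⟩ := bdry_e (K := K) hR ht'
  obtain ⟨m3, h3⟩ := cnt_e hR t K hε
  filter_upwards [eventually_ge_atTop m1, eventually_ge_atTop m2, eventually_ge_atTop m3] with m hm1 hm2 hm3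
  exact ⟨fun Mb g hA I hI J hJ => h1 Mb g hA m hm1 I hI J hJ,
    fun Mb g hA J hJ => h2 Mb g hA m hm2 J hJ,
    fun Mb g hA k hk => h3 Mb g hA m hm3 k hk⟩

private theorem BndD_LL {m : ℕ} (hm : 6 ≤ m) : 1 ≤ LL m := by
  unfold LL
  rw [Real.log_pow]
  have h1 := Real.log_two_gt_d9
  have h2 : (6 : ℝ) ≤ m := by exact_mod_cast hm
  nlinarith

theorem Bnd.mono {R : ℕ} {t K K' ε ε' : ℝ} {m : ℕ} (h : Bnd R t K ε m) (hK : K' ≤ K) (hK1 : 1 ≤ K) (hε : ε ≤ ε')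
    (hm : 6 ≤ m) : Bnd R t K' ε' m := by
  have hL := BndD_LL hm
  have hlog : 0 ≤ Real.log (LL m) := Real.log_nonneg hL
  have hq : 0 ≤ LL m / Real.log (LL m) := div_nonneg (by linarith) hlog
  have hadm : ∀ (Mb : ℕ → ℕ) (g : ℕ → ℝ), AdmG R Mb t K' g → AdmG R Mb t K g := by
    intro Mb g hA
    refine ⟨hA.hR, hA.dvd, hA.ht, hA.ht1, hK1, hA.mono, hA.nonneg, fun q => ?_⟩
    refine (hA.le q).trans (mul_le_mul_of_nonneg_right hK ?_)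
    have : (0 : ℝ) ≤ (q : ℝ) ^ t := Real.rpow_nonneg (Nat.cast_nonneg q) t
    linarith
  refine ⟨fun Mb g hA I hI J hJ => ?_, fun Mb g hA J hJ => ?_, fun Mb g hA k hk => ?_⟩
  · refine h.var Mb g (hadm Mb g hA) I hI J (hJ.trans ?_)
    exact mul_le_mul_of_nonneg_right (by linarith) hq
  · exact h.bdry Mb g (hadm Mb g hA) J hJ
  · refine (h.cnt Mb g (hadm Mb g hA) k hk).trans (ENNReal.ofReal_le_ofReal ?_)
    refine mul_le_mul_of_nonneg_left ?_ (by positivity)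
    refine Real.rpow_le_rpow_of_exponent_le hL ?_
    have hk0 : (0 : ℝ) ≤ k := Nat.cast_nonneg k
    nlinarith [mul_le_mul_of_nonneg_right hε hk0]

end RAG
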