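import Pool.Agent.RAF.Basic
import Pool.Agent.PCx.Defs

/-!
# RAG: Cunningham chains for maps close to `q ↦ 2q+1` which agree with `2q+1` modulo every fixed `d` for large `q`.  Definitions

`1/2 < t < 1`. THEOREM: there is a slowly growing `M : ℕ → ℕ` (every `d` divides `M q` for all large `q`) such that for every nondecreasing `g` with `0 ≤ g q ≤ K (q^t + 1)` and for
independent pairs `(u, v) = ω m`, `m = 0, 1, ...`, uniform in `[0,1]²`, the map
`T q = 2q + 1 + M q ⌊(2^((t-1)m) u q + 2^(tm) v + g q)/M q⌋`, `2^m ≤ q < 2^(m+1)`, has almost surely: (1) for every `k` the number of the primes `p ≤ X` which start a chain of exact length `k`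
is `~ C_k X/(log X)^k`, `C_k` the Bateman-Horn constant of the Cunningham chains of length `k`; (2) for every `ε > 0` and all large `X` this number is between `X/(log X)^((1+ε)k)` and
`X/(log X)^((1-ε)k)` for all `k ≤ (1-ε) log X/log log X`, and there is no `p ≤ X` for which the first `k` members of the chain are primes, for any `k > (1+ε) log X/log log X`.

METHOD: as project RAF (`Pool/Agent/RAF/Defs.lean`), where `M` is constant; most modules are adaptations of finished modules there. Here the modulus is `Mb m`, `m = log₂ q` (block), all the moduli in the blocks which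
a chain visits divide one number `R`, and residues are taken modulo `R`. The main term of the remaining `J` steps from `q` in the block `m` is
`gg R Mb J m q` (`Pool.Agent.PCx.gg`, defined recursively: `gg (J+1) m q = (Mb m/φ(R)) ∑_{b < R, (b,R)=1, b ≡ 2q+1 (Mb m)} gg J (m+1) b`), because `T q ≡ 2q+1` modulo `Mb m` and is otherwise equidistributed. All the constants are uniform in `Mb`
and `g`; the thresholds may depend on `R`. In the end the modulus is changed so rarely (at the blocks `ζ 0 < ζ 1 < ...`) that the thresholds do not matter; the chains which start in one block see at most two moduli.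
-/

namespace RAG

open MeasureTheory Pool.Agent.PCx

/-- The data; `R` is a common multiple of the moduli. -/
structure AdmG (R : ℕ) (Mb : ℕ → ℕ) (t K : ℝ) (g : ℕ → ℝ) : Prop where
  hR : 0 < R
  dvd : ∀ m, Mb m ∣ R
  ht : 1 / 2 < t
  ht1 : t < 1
  hK : 1 ≤ K
  mono : Monotone g
  nonneg : ∀ q, 0 ≤ g q
  le : ∀ q : ℕ, g q ≤ K * ((q : ℝ) ^ t + 1)

/-- The assumptions on the parameters and on `g` only. -/
structure AdmK (t K : ℝ) (g : ℕ → ℝ) : Prop where
  ht : 1 / 2 < t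
  ht1 : t < 1
  hK : 1 ≤ K
  mono : Monotone g
  nonneg : ∀ q, 0 ≤ g q
  le : ∀ q : ℕ, g q ≤ K * ((q : ℝ) ^ t + 1)

theorem AdmG.admK {R : ℕ} {Mb : ℕ → ℕ} {t K : ℝ} {g : ℕ → ℝ} (h : AdmG R Mb t K g) : AdmK t K g :=
  ⟨h.ht, h.ht1, h.hK, h.mono, h.nonneg, h.le⟩

theorem AdmG.pos {R : ℕ} {Mb : ℕ → ℕ} {t K : ℝ} {g : ℕ → ℝ} (h : AdmG R Mb t K g) (m : ℕ) : 0 < Mb m :=
  Nat.pos_of_dvd_of_pos (h.dvd m) h.hR

theorem AdmK.adm {t K : ℝ} {g : ℕ → ℝ} (h : AdmK t K g) {M : ℕ} (hM : 0 < M) : RAF.Adm M t K g :=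
  ⟨hM, h.ht, h.ht1, h.hK, h.mono, h.nonneg, h.le⟩

/-- The map; the modulus is that of the block of `q`. -/
noncomputable def T (Mb : ℕ → ℕ) (t : ℝ) (g : ℕ → ℝ) (ω : ℕ → ℝ × ℝ) (q : ℕ) : ℕ :=
  RAF.TT (Mb (Nat.log 2 q)) t g q (ω (Nat.log 2 q))

/-- The chain of `n`. -/
noncomputable def ch (Mb : ℕ → ℕ) (t : ℝ) (g : ℕ → ℝ) (ω : ℕ → ℝ × ℝ) (n i : ℕ) : ℕ := (T Mb t g ω)^[i] n

/-- `∏_{i≤j} θ(c i)`. -/
noncomputable def wt (Mb : ℕ → ℕ) (t : ℝ) (g : ℕ → ℝ) (n j : ℕ) (ω : ℕ → ℝ × ℝ) : ℝ :=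
  ∏ i ∈ Finset.range (j + 1), RLC.th (ch Mb t g ω n i)

open Classical in
/-- The same for chains which avoid `B`. -/
noncomputable def wb (Mb : ℕ → ℕ) (t : ℝ) (g : ℕ → ℝ) (B : Set ℕ) (n j : ℕ) (ω : ℕ → ℝ × ℝ) : ℝ :=
  ∏ i ∈ Finset.range (j + 1), (if ch Mb t g ω n i ∈ B then 0 else RLC.th (ch Mb t g ω n i))

/-- A function of the residue modulo `R` with values in `[0, 1]`. -/
structure Per (R : ℕ) (Φ : ℕ → ℝ) : Prop where
  mod : ∀ a b : ℕ, a ≡ b [MOD R] → Φ a = Φ b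
  nonneg : ∀ a, 0 ≤ Φ a
  le : ∀ a, Φ a ≤ 1

/-- The mean value of `θ(T q) Φ(T q)` if the modulus is `M`. -/
noncomputable def mn (R M : ℕ) (Φ : ℕ → ℝ) (q : ℕ) : ℝ :=
  (M : ℝ) / R.totient *
    ∑ b ∈ (Finset.range R).filter (fun b => Nat.Coprime b R ∧ b ≡ 2 * q + 1 [MOD M]), Φ b

/-- `M/φ(M)` for the modulus of the block `m`. -/
noncomputable def rat (Mb : ℕ → ℕ) (m : ℕ) : ℝ := (Mb m : ℝ) / (Mb m).totient

/-- Their product over `J` blocks. -/
noncomputable def pr (Mb : ℕ → ℕ) (m J : ℕ) : ℝ := ∏ i ∈ Finset.range J, rat Mb (m + i)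

open Classical in
/-- The number of the `n ∈ S` for which the first `k` members of the chain are primes. -/
noncomputable def cnt (Mb : ℕ → ℕ) (t : ℝ) (g : ℕ → ℝ) (ω : ℕ → ℝ × ℝ) (k : ℕ) (S : Finset ℕ) : ℕ :=
  (S.filter fun n => ∀ i < k, (ch Mb t g ω n i).Prime).card

/-- `log(2^m)`. -/
noncomputable def LL (m : ℕ) : ℝ := Real.log (2 ^ m)

end RAG
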