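import Mathlib

/-!
# RAG.SumW: from the windows to all `n ≤ X`

PROOF. `F m = #{n ∈ (2^m, 2^(m+1)] : P n}` is the sum over `s < N` of the windows (any `N`, e.g. `N = 1`), so `F m (m log 2)^k/2^m → c`. `A Y = #{n ∈ [1, Y] : P n}`, `A (2^m) = 1_{P 1} + ∑_{i<m} F i`, and `A (2^m) (m log 2)^k/2^m → c`: given `δ > 0`, `|F i - c 2^i/(i log 2)^k| ≤ δ 2^i/(i log 2)^k` for `i ≥ i0`,
`∑_{i<i0} F i = O(1)`, and `∑_{i0≤i<m} 2^i/i^k = (1+o(1)) 2^m/m^k` (the terms with `i ≤ m/2` contribute `O(2^(m/2))`; or: `∑_{i<m} 2^(i-m) (m/i)^k → ∑_{j≥1} 2^(-j) = 1` by dominated convergence, `tendsto_tsum_of_dominated_convergence`, with `m/i ≤ 1 + (m - i)`; or by induction).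
For `X ∈ (2^m, 2^(m+1)]` choose `s < N` with `2^m + ⌊2^m s/N⌋ < X ≤ 2^m + ⌊2^m (s+1)/N⌋`: `A (2^m) + ∑_{s'<s} W_s' ≤ A X ≤ A (2^m) + ∑_{s'≤s} W_s'`, so for large `m` `(1 + s/N) c - δ ≤ A X (m log 2)^k/2^m ≤ (1 + (s+1)/N) c + δ` (finitely many `s`), and `X/2^m ∈ [1 + s/N - 2^(-m), 1 + (s+1)/N]`:
`|A X (m log 2)^k/X - c| ≤ c/N + 2δ`, and `(log X/(m log 2))^k → 1` as `m log 2 < log X ≤ (m+1) log 2`. `N` is arbitrary.
-/

namespace RAG

open Filter Topology

private theorem sumw_rec {z e : ℕ → ℝ} (hz : ∀ m, 0 ≤ z m) (he : Tendsto e atTop (𝓝 0))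
    (h : ∀ᶠ m in atTop, z (m + 1) ≤ 3 / 4 * z m + e m) : Tendsto z atTop (𝓝 0) := by
  rw [Metric.tendsto_atTop]
  intro ε hε
  have h1 : ∀ᶠ m in atTop, e m < ε / 8 := he.eventually_lt_const (by linarith)
  obtain ⟨m0, hm0⟩ := eventually_atTop.mp (h.and h1)
  have h2 : ∀ j, z (m0 + j) ≤ (3 / 4) ^ j * z m0 + ε / 2 := by
    intro j
    induction j with
    | zero =>
      rw [pow_zero, one_mul, add_zero]
      linarith
    | succ j ih =>
      have h3 := (hm0 (m0 + j) (by omega)).1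
      have h4 := (hm0 (m0 + j) (by omega)).2
      rw [← add_assoc, pow_succ]
      nlinarith
  have h5 : Tendsto (fun j : ℕ => (3 / 4 : ℝ) ^ j * z m0) atTop (𝓝 0) := by
    have h6 := (tendsto_pow_atTop_nhds_zero_of_lt_one (by norm_num : (0 : ℝ) ≤ 3 / 4) (by norm_num)).mul_const (z m0)
    rwa [zero_mul] at h6
  obtain ⟨j0, hj0⟩ := eventually_atTop.mp (h5.eventually_lt_const (show (0 : ℝ) < ε / 2 by linarith))
  refine ⟨m0 + j0, fun m hm => ?_⟩
  obtain ⟨j, rfl⟩ := Nat.exists_eq_add_of_le (show m0 ≤ m by omega)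
  rw [Real.dist_eq, sub_zero, abs_of_nonneg (hz _)]
  have h7 := h2 j
  have h8 := hj0 j (by omega)
  linarith

private theorem sumw_lin {x f r : ℕ → ℝ} {c : ℝ} (hf : Tendsto f atTop (𝓝 c)) (hr : Tendsto r atTop (𝓝 (1 / 2)))
    (hr0 : ∀ m, 0 ≤ r m) (h : ∀ᶠ m in atTop, x (m + 1) = r m * (x m + f m)) : Tendsto x atTop (𝓝 c) := by
  have h1 : Tendsto (fun m => |x m - c|) atTop (𝓝 0) := by
    apply sumw_rec (e := fun m => |r m * (f m + c) - c|) (fun m => abs_nonneg _)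
    · have h2 : Tendsto (fun m => |r m * (f m + c) - c|) atTop (𝓝 |1 / 2 * (c + c) - c|) :=
        ((hr.mul (hf.add_const c)).sub_const c).abs
      have h3 : |1 / 2 * (c + c) - c| = 0 := by
        rw [abs_eq_zero]
        ring
      rwa [h3] at h2
    · have h2 : ∀ᶠ m in atTop, r m < 3 / 4 := hr.eventually_lt_const (by norm_num)
      filter_upwards [h, h2] with m hm hrm
      have h3 : x (m + 1) - c = r m * (x m - c) + (r m * (f m + c) - c) := by
        rw [hm]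
        ring
      rw [h3]
      refine le_trans (abs_add_le _ _) ?_
      rw [abs_mul, abs_of_nonneg (hr0 m)]
      have h4 : r m * |x m - c| ≤ 3 / 4 * |x m - c| := mul_le_mul_of_nonneg_right hrm.le (abs_nonneg _)
      linarith
  have h2 := tendsto_zero_iff_abs_tendsto_zero (fun m => x m - c) |>.mpr h1
  have h3 := h2.add_const c
  simpa using h3

/-- The counting function. -/
private noncomputable def sumwA (P : ℕ → Prop) [DecidablePred P] (X : ℕ) : ℝ := ((Finset.Icc 1 X).filter P).card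

private theorem sumw_split (P : ℕ → Prop) [DecidablePred P] {a b : ℕ} (hab : a ≤ b) :
    sumwA P b = sumwA P a + (((Finset.Ioc a b).filter P).card : ℝ) := by
  unfold sumwA
  rw [← Nat.cast_add, ← Finset.card_union_of_disjoint]
  · congr 2
    rw [← Finset.filter_union]
    congr 1
    ext n
    simp only [Finset.mem_Icc, Finset.mem_union, Finset.mem_Ioc]
    omega
  · apply Finset.disjoint_filter_filter
    rw [Finset.disjoint_left]
    intro n h1 h2
    rw [Finset.mem_Icc] at h1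
    rw [Finset.mem_Ioc] at h2
    omega

private theorem sumw_mono (P : ℕ → Prop) [DecidablePred P] {a b : ℕ} (hab : a ≤ b) : sumwA P a ≤ sumwA P b := by
  rw [sumw_split P hab]
  have h1 : (0 : ℝ) ≤ (((Finset.Ioc a b).filter P).card : ℝ) := Nat.cast_nonneg _
  linarith

private theorem sumw_nonneg (P : ℕ → Prop) [DecidablePred P] (a : ℕ) : 0 ≤ sumwA P a := Nat.cast_nonneg _

private theorem sumw_base (P : ℕ → Prop) [DecidablePred P] (k : ℕ) {c : ℝ}
    (h : Tendsto (fun m : ℕ => (((Finset.Ioc (2 ^ m) (2 ^ m + 2 ^ m)).filter P).card : ℝ) *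
        ((m : ℝ) * Real.log 2) ^ k / 2 ^ m) atTop (𝓝 c)) :
    Tendsto (fun m : ℕ => sumwA P (2 ^ m) * ((m : ℝ) * Real.log 2) ^ k / 2 ^ m) atTop (𝓝 c) := by
  apply sumw_lin (r := fun m => (1 + 1 / (m : ℝ)) ^ k / 2) h
  · have h1 : Tendsto (fun m : ℕ => (1 + 1 / (m : ℝ)) ^ k / 2) atTop (𝓝 ((1 + 0) ^ k / 2)) :=
      ((tendsto_one_div_atTop_nhds_zero_nat.const_add 1).pow k).div_const 2
    rw [add_zero, one_pow] at h1
    exact h1
  · intro m
    positivity
  · filter_upwards [eventually_ge_atTop 1] with m hm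
    have hm0 : (0 : ℝ) < m := Nat.cast_pos.mpr hm
    have h1 : (2 : ℕ) ^ (m + 1) = 2 ^ m + 2 ^ m := by ring
    rw [h1, sumw_split P (Nat.le_add_left (2 ^ m) (2 ^ m))]
    have h2 : (((m + 1 : ℕ) : ℝ) * Real.log 2) ^ k = (1 + 1 / (m : ℝ)) ^ k * ((m : ℝ) * Real.log 2) ^ k := by
      rw [← mul_pow]
      congr 1
      push_cast
      field_simp
    rw [h2, pow_succ]
    field_simp

private theorem sumw_pts (P : ℕ → Prop) [DecidablePred P] (k : ℕ) {c : ℝ}
    (h : ∀ N : ℕ, 1 ≤ N → ∀ s < N, Tendsto (fun m : ℕ =>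
      (((Finset.Ioc (2 ^ m + 2 ^ m * s / N) (2 ^ m + 2 ^ m * (s + 1) / N)).filter P).card : ℝ) *
        ((m : ℝ) * Real.log 2) ^ k / 2 ^ m) atTop (𝓝 (c / N))) {N : ℕ} (hN : 1 ≤ N) :
    ∀ s ≤ N, Tendsto (fun m : ℕ => sumwA P (2 ^ m + 2 ^ m * s / N) * ((m : ℝ) * Real.log 2) ^ k / 2 ^ m) atTop
      (𝓝 (c * (1 + s / N))) := by
  intro s
  induction s with
  | zero =>
    intro _
    have h1 := h 1 le_rfl 0 one_pos
    simp only [mul_zero, add_zero, zero_add, mul_one, Nat.div_one, Nat.cast_one, div_one] at h1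
    have h2 := sumw_base P k h1
    simpa using h2
  | succ s ih =>
    intro hs
    have h1 := (ih (by omega)).add (h N hN s (by omega))
    have h2 : c * (1 + (s : ℝ) / N) + c / N = c * (1 + ((s + 1 : ℕ) : ℝ) / N) := by
      push_cast
      ring
    rw [h2] at h1
    refine h1.congr fun m => ?_
    have h3 : 2 ^ m + 2 ^ m * s / N ≤ 2 ^ m + 2 ^ m * (s + 1) / N :=
      Nat.add_le_add_left (Nat.div_le_div_right (Nat.mul_le_mul_left _ (Nat.le_succ s))) _
    rw [sumw_split P h3]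
    ring

theorem sum_win (P : ℕ → Prop) [DecidablePred P] (k : ℕ) {c : ℝ} (hc : 0 ≤ c)
    (h : ∀ N : ℕ, 1 ≤ N → ∀ s < N, Tendsto (fun m : ℕ =>
      (((Finset.Ioc (2 ^ m + 2 ^ m * s / N) (2 ^ m + 2 ^ m * (s + 1) / N)).filter P).card : ℝ) *
        ((m : ℝ) * Real.log 2) ^ k / 2 ^ m) atTop (𝓝 (c / N))) :
    Tendsto (fun X : ℕ => (((Finset.Icc 1 X).filter P).card : ℝ) * Real.log X ^ k / X) atTop (𝓝 c) := by
  have hl2 : 0 < Real.log 2 := Real.log_pos one_lt_two
  -- the index of the block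
  have hblk : ∀ X : ℕ, 2 ≤ X → 2 ^ Nat.log 2 (X - 1) < X ∧ X ≤ 2 ^ (Nat.log 2 (X - 1) + 1) := by
    intro X hX
    have h1 : 2 ^ Nat.log 2 (X - 1) ≤ X - 1 := Nat.pow_log_le_self 2 (by omega)
    have h2 : X - 1 < 2 ^ (Nat.log 2 (X - 1) + 1) := Nat.lt_pow_succ_log_self one_lt_two _
    omega
  have hmt : Tendsto (fun X : ℕ => Nat.log 2 (X - 1)) atTop atTop := by
    rw [tendsto_atTop]
    intro b
    filter_upwards [eventually_ge_atTop (2 ^ b + 1)] with X hX
    have h1 : 2 ^ b ≤ X - 1 := by omega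
    exact Nat.le_log_of_pow_le one_lt_two h1
  -- with the logarithm of the block
  have hmain : Tendsto (fun X : ℕ => sumwA P X * ((Nat.log 2 (X - 1) : ℝ) * Real.log 2) ^ k / X) atTop (𝓝 c) := by
    rw [Metric.tendsto_atTop]
    intro ε hε
    obtain ⟨N, hN⟩ := exists_nat_gt (2 * c / ε)
    have hN1 : 1 ≤ N := by
      have h1 : (0 : ℝ) ≤ 2 * c / ε := by positivity
      exact Nat.cast_pos.mp (lt_of_le_of_lt h1 hN)
    have hNR : (0 : ℝ) < N := Nat.cast_pos.mpr hN1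
    have hcN : c / N < ε / 2 := by
      rw [div_lt_iff₀ hε] at hN
      rw [div_lt_iff₀ hNR]
      linarith
    have h1 : ∀ᶠ m : ℕ in atTop, ∀ s ∈ Finset.range (N + 1),
        |sumwA P (2 ^ m + 2 ^ m * s / N) * ((m : ℝ) * Real.log 2) ^ k / 2 ^ m - c * (1 + s / N)| < ε / 2 := by
      rw [Filter.eventually_all_finset]
      intro s hs
      have h2 := sumw_pts P k h hN1 s (by rw [Finset.mem_range] at hs; omega)
      have h3 := (Metric.tendsto_nhds.mp h2) (ε / 2) (by linarith)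
      simpa only [Real.dist_eq] using h3
    have h2 := hmt.eventually h1
    obtain ⟨X0, hX0⟩ := eventually_atTop.mp (h2.and (eventually_ge_atTop 3))
    refine ⟨X0, fun X hX => ?_⟩
    obtain ⟨h3, h4⟩ := hX0 X hX
    set m := Nat.log 2 (X - 1) with hm
    obtain ⟨h5, h6⟩ := hblk X (by omega)
    rw [← hm] at h5 h6
    have hXR : (0 : ℝ) < X := Nat.cast_pos.mpr (by omega)
    -- the window
    have hex : ∃ s, s < N ∧ X ≤ 2 ^ m + 2 ^ m * (s + 1) / N := by
      refine ⟨N - 1, by omega, ?_⟩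
      have h7 : N - 1 + 1 = N := by omega
      rw [h7, Nat.mul_div_cancel _ hN1]
      have h8 : (2 : ℕ) ^ (m + 1) = 2 ^ m + 2 ^ m := by ring
      omega
    classical
    set s := Nat.find hex with hs
    obtain ⟨hsN, hsX⟩ := Nat.find_spec hex
    rw [← hs] at hsN hsX
    have hsX' : 2 ^ m + 2 ^ m * s / N < X := by
      rcases Nat.eq_zero_or_pos s with h7 | h7
      · rw [h7, mul_zero, Nat.zero_div, add_zero]
        exact h5
      · by_contra hcon
        have h8 := Nat.find_min hex (m := s - 1) (by omega)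
        apply h8
        refine ⟨by omega, ?_⟩
        have h9 : s - 1 + 1 = s := by omega
        rw [h9]
        omega
    have h2m : (0 : ℝ) < 2 ^ m := by positivity
    -- the bounds for `X`
    have hXl : (2 : ℝ) ^ m * (1 + s / N) ≤ X := by
      have h7 : 2 ^ m * s < N * (2 ^ m * s / N + 1) := Nat.lt_mul_div_succ _ hN1
      have h8 : N * (2 ^ m * s / N + 1) ≤ N * (X - 2 ^ m) := Nat.mul_le_mul_left N (by omega)
      have h9 : 2 ^ m * s + N * 2 ^ m ≤ N * X := by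
        have h10 : N * (X - 2 ^ m) = N * X - N * 2 ^ m := Nat.mul_sub _ _ _
        have h11 : N * 2 ^ m ≤ N * X := Nat.mul_le_mul_left N (by omega)
        omega
      have h12 : ((2 ^ m * s + N * 2 ^ m : ℕ) : ℝ) ≤ ((N * X : ℕ) : ℝ) := Nat.cast_le.mpr h9
      push_cast at h12
      have h13 : (2 : ℝ) ^ m * (1 + s / N) = (2 ^ m * s + N * 2 ^ m) / N := by
        field_simp
        ring
      rw [h13, div_le_iff₀ hNR]
      linarith
    have hXu : (X : ℝ) ≤ (2 : ℝ) ^ m * (1 + (s + 1) / N) := by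
      have h7 : N * (2 ^ m * (s + 1) / N) ≤ 2 ^ m * (s + 1) := Nat.mul_div_le _ _
      have h8 : N * X ≤ N * (2 ^ m + 2 ^ m * (s + 1) / N) := Nat.mul_le_mul_left N hsX
      rw [mul_add] at h8
      have h9 : N * X ≤ N * 2 ^ m + 2 ^ m * (s + 1) := by omega
      have h12 : ((N * X : ℕ) : ℝ) ≤ ((N * 2 ^ m + 2 ^ m * (s + 1) : ℕ) : ℝ) := Nat.cast_le.mpr h9
      push_cast at h12
      have h13 : (2 : ℝ) ^ m * (1 + (s + 1) / N) = (N * 2 ^ m + 2 ^ m * (s + 1)) / N := by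
        field_simp
      rw [h13, le_div_iff₀ hNR]
      linarith
    -- the values
    set l : ℝ := ((m : ℝ) * Real.log 2) ^ k with hl
    have hl0 : 0 ≤ l := by positivity
    have hv1 := (abs_lt.mp (h3 s (Finset.mem_range.mpr (by omega)))).1
    have hv2 := (abs_lt.mp (h3 (s + 1) (Finset.mem_range.mpr (by omega)))).2
    have hA1 : sumwA P (2 ^ m + 2 ^ m * s / N) ≤ sumwA P X := sumw_mono P hsX'.le
    have hA2 : sumwA P X ≤ sumwA P (2 ^ m + 2 ^ m * (s + 1) / N) := sumw_mono P hsX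
    have hA1' : sumwA P (2 ^ m + 2 ^ m * s / N) * l / 2 ^ m ≤ sumwA P X * l / 2 ^ m :=
      div_le_div_of_nonneg_right (mul_le_mul_of_nonneg_right hA1 hl0) h2m.le
    have hA2' : sumwA P X * l / 2 ^ m ≤ sumwA P (2 ^ m + 2 ^ m * (s + 1) / N) * l / 2 ^ m :=
      div_le_div_of_nonneg_right (mul_le_mul_of_nonneg_right hA2 hl0) h2m.le
    rw [div_le_div_iff_of_pos_right h2m] at hA1' hA2'
    set a : ℝ := sumwA P X * l with ha
    have ha1 : (c * (1 + s / N) - ε / 2) * 2 ^ m ≤ a := by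
      have h7 : (c * (1 + s / N) - ε / 2) ≤ sumwA P (2 ^ m + 2 ^ m * s / N) * l / 2 ^ m := by linarith
      rw [le_div_iff₀ h2m] at h7
      linarith
    have ha2 : a ≤ (c * (1 + (s + 1) / N) + ε / 2) * 2 ^ m := by
      have h7 : sumwA P (2 ^ m + 2 ^ m * (s + 1) / N) * l / 2 ^ m ≤ (c * (1 + (s + 1) / N) + ε / 2) := by
        push_cast at hv2
        linarith
      rw [div_le_iff₀ h2m] at h7
      linarith
    have hsn : (0 : ℝ) ≤ (s : ℝ) / N := by positivity
    have hu : (0 : ℝ) ≤ 1 / (N : ℝ) := by positivity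
    have hsplit : ((s : ℝ) + 1) / N = s / N + 1 / N := by ring
    have hcN' : c * (1 / N) < ε / 2 := by
      rw [mul_one_div]
      exact hcN
    rw [hsplit] at hXu ha2
    have h2X : (2 : ℝ) ^ m ≤ X := by nlinarith
    rw [Real.dist_eq, abs_lt]
    constructor
    · rw [lt_sub_iff_add_lt, lt_div_iff₀ hXR]
      -- `(c - ε) X < a`
      have h7 : c * X ≤ c * (2 ^ m * (1 + (s / N + 1 / N))) := mul_le_mul_of_nonneg_left hXu hc
      have h8 : c * (2 ^ m * (1 + (s / N + 1 / N))) = c * (1 + s / N) * 2 ^ m + (c * (1 / N)) * 2 ^ m := by ring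
      have h9 : (c * (1 / N)) * 2 ^ m < ε / 2 * 2 ^ m := mul_lt_mul_of_pos_right hcN' h2m
      have h10 : ε * 2 ^ m ≤ ε * X := mul_le_mul_of_nonneg_left h2X hε.le
      nlinarith
    · rw [sub_lt_iff_lt_add, div_lt_iff₀ hXR]
      have h7 : c * (2 ^ m * (1 + s / N)) ≤ c * X := mul_le_mul_of_nonneg_left hXl hc
      have h9 : (c * (1 / N)) * 2 ^ m < ε / 2 * 2 ^ m := mul_lt_mul_of_pos_right hcN' h2m
      have h10 : ε * 2 ^ m ≤ ε * X := mul_le_mul_of_nonneg_left h2X hε.le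
      nlinarith
  -- replace the logarithm
  have hrat : Tendsto (fun X : ℕ => Real.log X / ((Nat.log 2 (X - 1) : ℝ) * Real.log 2)) atTop (𝓝 1) := by
    have h1 : Tendsto (fun X : ℕ => 1 + 1 / ((Nat.log 2 (X - 1) : ℕ) : ℝ)) atTop (𝓝 (1 + 0)) :=
      (tendsto_one_div_atTop_nhds_zero_nat.comp hmt).const_add 1
    rw [add_zero] at h1
    apply tendsto_of_tendsto_of_tendsto_of_le_of_le' tendsto_const_nhds h1
    · filter_upwards [eventually_ge_atTop 3] with X hX
      obtain ⟨h5, h6⟩ := hblk X (by omega)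
      have hm1 : 1 ≤ Nat.log 2 (X - 1) := Nat.log_pos one_lt_two (by omega)
      have hm1' : (0 : ℝ) < (Nat.log 2 (X - 1) : ℝ) := Nat.cast_pos.mpr hm1
      rw [le_div_iff₀ (by positivity), one_mul, ← Real.log_pow]
      apply Real.log_le_log (by positivity)
      have h7 : ((2 ^ Nat.log 2 (X - 1) : ℕ) : ℝ) ≤ X := Nat.cast_le.mpr h5.le
      push_cast at h7
      exact h7
    · filter_upwards [eventually_ge_atTop 3] with X hX
      obtain ⟨h5, h6⟩ := hblk X (by omega)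
      have hm1 : 1 ≤ Nat.log 2 (X - 1) := Nat.log_pos one_lt_two (by omega)
      have hm1' : (0 : ℝ) < (Nat.log 2 (X - 1) : ℝ) := Nat.cast_pos.mpr hm1
      rw [div_le_iff₀ (by positivity)]
      have h8 : (1 + 1 / (Nat.log 2 (X - 1) : ℝ)) * ((Nat.log 2 (X - 1) : ℝ) * Real.log 2) =
          ((Nat.log 2 (X - 1) + 1 : ℕ) : ℝ) * Real.log 2 := by
        push_cast
        field_simp
      rw [h8, ← Real.log_pow]
      apply Real.log_le_log (Nat.cast_pos.mpr (by omega))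
      have h7 : (X : ℝ) ≤ ((2 ^ (Nat.log 2 (X - 1) + 1) : ℕ) : ℝ) := Nat.cast_le.mpr h6
      push_cast at h7
      exact h7
  have hfin := hmain.mul (hrat.pow k)
  rw [one_pow, mul_one] at hfin
  refine hfin.congr' ?_
  filter_upwards [eventually_ge_atTop 3] with X hX
  have hm1 : 1 ≤ Nat.log 2 (X - 1) := Nat.log_pos one_lt_two (by omega)
  have hm1' : (0 : ℝ) < (Nat.log 2 (X - 1) : ℝ) := Nat.cast_pos.mpr hm1
  have hne : ((Nat.log 2 (X - 1) : ℝ) * Real.log 2) ^ k ≠ 0 := by positivity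
  rw [div_pow]
  unfold sumwA
  field_simp

end RAG
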