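import Pool.Agent.RAG.WinK
import Pool.Agent.RAG.SumW

/-!
# RAG.FixK: the asymptotic formula for a fixed length

PROOF. `cnt_fix`: `sum_win` for `P n = ` the first `k` members of the chain (of `MM ζ`) are primes, `c = BH (k-1)`. Window `W = wn m N s`, `m` large, `J = k - 1`. For `n` in the block `m` the first `k` members of the chains for `MM ζ` and `Ml ζ m` are the same (`ch_loc`, `ω` is in the cube by `GoodI.mem`) and
`m ≤ log₂ (ch n i) ≤ m + 2i` for `i ≤ J` (`ch_log_le`, `ch_block`), so `m log 2 ≤ log (ch n i) ≤ (m+2k+1) log 2`. If the first `k` are primes then `wt n J = ∏_{i<k} log (ch n i) ∈ [(m log 2)^k, ((m+2k+1) log 2)^k]`, otherwise `wt n J = 0`; the number `2^(m+1)` (which may be in `W`) is not a prime, both are `0`. So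
`cnt (m log 2)^k ≤ ∑_{n∈W} wt n J ≤ cnt ((m+2k+1) log 2)^k` and `∑_{n∈W} wt n J/2^m → BH (k-1)/N` (`win_k`), `((m+2k+1)/m)^k → 1`.
`exact_fix`: the number of exact length `k` is `cnt k - cnt (k+1)`, and `cnt (k+1) (log X)^k/X = (cnt (k+1) (log X)^(k+1)/X)/log X → 0`.
-/

namespace RAG

open Filter Topology Pool.Agent.PCx

/-- the members of the chain of length `k` -/
private def FxP (ζ : ℕ → ℕ) (t : ℝ) (g : ℕ → ℝ) (ω : ℕ → ℝ × ℝ) (k n : ℕ) : Prop :=
  ∀ i < k, (ch (MM ζ) t g ω n i).Prime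

private theorem fixk_wn {m N s n : ℕ} (hs : s < N) (hn : n ∈ wn m N s) : 2 ^ m < n ∧ n ≤ 2 ^ (m + 1) := by
  unfold wn at hn
  rw [Finset.mem_Ioc] at hn
  refine ⟨lt_of_le_of_lt (Nat.le_add_right _ _) hn.1, le_trans hn.2 ?_⟩
  have : 2 ^ m * (s + 1) / N ≤ 2 ^ m := by
    apply Nat.div_le_of_le_mul
    rw [mul_comm N]
    exact Nat.mul_le_mul_left _ hs
  rw [pow_succ]
  omega

private theorem fixk_not_prime {m : ℕ} (hm : 1 ≤ m) : ¬ (2 ^ (m + 1)).Prime := by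
  apply Nat.Prime.not_prime_pow
  omega

private theorem fixk_term {t K : ℝ} {g : ℕ → ℝ} (h : AdmK t K g) (ζ : ℕ → ℕ) {ω : ℕ → ℝ × ℝ}
    (hω : ∀ i, ω i ∈ Set.Icc (0 : ℝ) 1 ×ˢ Set.Icc (0 : ℝ) 1) {k : ℕ} (hk : 1 ≤ k) :
    ∃ m0 : ℕ, ∀ m : ℕ, m0 ≤ m → ∀ N : ℕ, 1 ≤ N → ∀ s < N, ∀ n ∈ wn m N s,
      (FxP ζ t g ω k n → ((m : ℝ) * Real.log 2) ^ k ≤ wt (Ml ζ m) t g n (k - 1) ω ∧
        wt (Ml ζ m) t g n (k - 1) ω ≤ (((m : ℝ) + 2 * k + 1) * Real.log 2) ^ k) ∧
      (¬ FxP ζ t g ω k n → wt (Ml ζ m) t g n (k - 1) ω = 0) := by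
  obtain ⟨m1, hm1⟩ := ch_loc t K
  obtain ⟨m2, hm2⟩ := ch_block t K
  refine ⟨max (max m1 m2) (k + 1), fun m hm N hN s hs n hn => ?_⟩
  have hm1' : m1 ≤ m := le_trans (le_trans (le_max_left _ _) (le_max_left _ _)) hm
  have hm2' : m2 ≤ m := le_trans (le_trans (le_max_right _ _) (le_max_left _ _)) hm
  have hmk : k + 1 ≤ m := le_trans (le_max_right _ _) hm
  obtain ⟨hn1, hn2⟩ := fixk_wn hs hn
  have hk1 : k - 1 + 1 = k := by omega
  have hwt : wt (Ml ζ m) t g n (k - 1) ω = ∏ i ∈ Finset.range k, RLC.th (ch (Ml ζ m) t g ω n i) := by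
    unfold wt
    rw [hk1]
  rcases Nat.eq_or_lt_of_le hn2 with he | hlt
  · -- n = 2^(m+1)
    have hnp : ¬ n.Prime := by rw [he]; exact fixk_not_prime (by omega)
    constructor
    · intro hP
      exact absurd (hP 0 (by omega)) hnp
    · intro _
      rw [hwt]
      apply Finset.prod_eq_zero (i := 0) (Finset.mem_range.mpr (by omega))
      rw [ch_zero]
      unfold RLC.th
      rw [if_neg hnp]
  · have hlog : Nat.log 2 n = m := by
      rw [Nat.log_eq_iff]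
      · exact ⟨hn1.le, hlt⟩
      · right
        exact ⟨by norm_num, by omega⟩
    have hloc : ∀ i < k, ch (MM ζ) t g ω n i = ch (Ml ζ m) t g ω n i := fun i hi =>
      hm1 ζ g h m hm1' ω hω n hlog i (by omega)
    have hb : ∀ i < k, Nat.log 2 (ch (Ml ζ m) t g ω n i) ≤ m + 2 * i := fun i _ =>
      hm2 (MM ζ (4 * m)) (Ml ζ m) g (Ml_adm h ζ m) m hm2' ω hω n hlog i
    have hn0 : 0 < n := by omega
    have hl : ∀ i < k, m + i ≤ Nat.log 2 (ch (Ml ζ m) t g ω n i) := fun i _ => by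
      have := ch_log_le (Ml ζ m) t g ω hn0 i
      rw [hlog] at this
      exact this
    have hc0 : ∀ i, 0 < ch (Ml ζ m) t g ω n i := fun i => ch_pos _ _ _ _ hn0 i
    have hlo : ∀ i < k, (m : ℝ) * Real.log 2 ≤ Real.log (ch (Ml ζ m) t g ω n i) := by
      intro i hi
      have h1 : 2 ^ m ≤ ch (Ml ζ m) t g ω n i := by
        refine le_trans (Nat.pow_le_pow_right (by norm_num) (le_trans (Nat.le_add_right m i) (hl i hi))) ?_
        exact Nat.pow_log_le_self 2 (hc0 i).ne'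
      have h2 : ((2 : ℝ) ^ m) ≤ (ch (Ml ζ m) t g ω n i : ℝ) := by exact_mod_cast h1
      have h3 := Real.log_le_log (by positivity) h2
      rwa [Real.log_pow] at h3
    have hup : ∀ i < k, Real.log (ch (Ml ζ m) t g ω n i) ≤ ((m : ℝ) + 2 * k + 1) * Real.log 2 := by
      intro i hi
      have h1 : ch (Ml ζ m) t g ω n i < 2 ^ (m + 2 * k + 1) := by
        refine lt_of_lt_of_le (Nat.lt_pow_succ_log_self (b := 2) (by norm_num) _) ?_
        refine Nat.pow_le_pow_right (by norm_num) ?_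
        have := hb i hi
        omega
      have h2 : (ch (Ml ζ m) t g ω n i : ℝ) ≤ (2 : ℝ) ^ (m + 2 * k + 1) := by exact_mod_cast h1.le
      have h3 := Real.log_le_log (by exact_mod_cast hc0 i) h2
      rw [Real.log_pow] at h3
      push_cast at h3
      exact h3
    have hm0 : (0 : ℝ) ≤ (m : ℝ) * Real.log 2 := mul_nonneg (Nat.cast_nonneg _) (Real.log_nonneg (by norm_num))
    constructor
    · intro hP
      have hth : ∀ i ∈ Finset.range k, RLC.th (ch (Ml ζ m) t g ω n i) = Real.log (ch (Ml ζ m) t g ω n i) := by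
        intro i hi
        have hi' := Finset.mem_range.mp hi
        unfold RLC.th
        rw [if_pos]
        rw [← hloc i hi']
        exact hP i hi'
      rw [hwt, Finset.prod_congr rfl hth]
      constructor
      · calc ((m : ℝ) * Real.log 2) ^ k = ∏ _i ∈ Finset.range k, ((m : ℝ) * Real.log 2) := by
              rw [Finset.prod_const, Finset.card_range]
          _ ≤ _ := Finset.prod_le_prod (fun _ _ => hm0) fun i hi => hlo i (Finset.mem_range.mp hi)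
      · calc _ ≤ ∏ _i ∈ Finset.range k, (((m : ℝ) + 2 * k + 1) * Real.log 2) :=
              Finset.prod_le_prod (fun i hi => le_trans hm0 (hlo i (Finset.mem_range.mp hi)))
                fun i hi => hup i (Finset.mem_range.mp hi)
          _ = _ := by rw [Finset.prod_const, Finset.card_range]
    · intro hP
      unfold FxP at hP
      push Not at hP
      obtain ⟨i, hi, hnp⟩ := hP
      rw [hwt]
      apply Finset.prod_eq_zero (i := i) (Finset.mem_range.mpr hi)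
      unfold RLC.th
      rw [if_neg]
      rw [← hloc i hi]
      exact hnp

open Classical in
private theorem fixk_sandwich {t K : ℝ} {g : ℕ → ℝ} (h : AdmK t K g) (ζ : ℕ → ℕ) {ω : ℕ → ℝ × ℝ}
    (hω : ∀ i, ω i ∈ Set.Icc (0 : ℝ) 1 ×ˢ Set.Icc (0 : ℝ) 1) {k : ℕ} (hk : 1 ≤ k) :
    ∃ m0 : ℕ, ∀ m : ℕ, m0 ≤ m → ∀ N : ℕ, 1 ≤ N → ∀ s < N,
      (((wn m N s).filter (FxP ζ t g ω k)).card : ℝ) * ((m : ℝ) * Real.log 2) ^ k ≤
        ∑ n ∈ wn m N s, wt (Ml ζ m) t g n (k - 1) ω ∧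
      ∑ n ∈ wn m N s, wt (Ml ζ m) t g n (k - 1) ω ≤
        (((wn m N s).filter (FxP ζ t g ω k)).card : ℝ) * (((m : ℝ) + 2 * k + 1) * Real.log 2) ^ k := by
  obtain ⟨m0, hm0⟩ := fixk_term h ζ hω hk
  refine ⟨m0, fun m hm N hN s hs => ?_⟩
  have hs1 : ∑ n ∈ wn m N s, wt (Ml ζ m) t g n (k - 1) ω =
      ∑ n ∈ (wn m N s).filter (FxP ζ t g ω k), wt (Ml ζ m) t g n (k - 1) ω := by
    rw [Finset.sum_filter]
    refine Finset.sum_congr rfl fun n hn => ?_
    split_ifs with hP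
    · rfl
    · exact (hm0 m hm N hN s hs n hn).2 hP
  rw [hs1]
  constructor
  · rw [← nsmul_eq_mul]
    refine Finset.card_nsmul_le_sum _ _ _ fun n hn => ?_
    rw [Finset.mem_filter] at hn
    exact ((hm0 m hm N hN s hs n hn.1).1 hn.2).1
  · rw [← nsmul_eq_mul]
    refine Finset.sum_le_card_nsmul _ _ _ fun n hn => ?_
    rw [Finset.mem_filter] at hn
    exact ((hm0 m hm N hN s hs n hn.1).1 hn.2).2

private theorem fixk_ratio (k : ℕ) : Tendsto (fun m : ℕ => ((m : ℝ) / ((m : ℝ) + 2 * k + 1)) ^ k) atTop (𝓝 1) := by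
  have h1 : Tendsto (fun m : ℕ => (m : ℝ) / ((m : ℝ) + 2 * k + 1)) atTop (𝓝 1) := by
    have h2 : Tendsto (fun m : ℕ => 1 - (2 * k + 1 : ℝ) / ((m : ℝ) + 2 * k + 1)) atTop (𝓝 (1 - 0)) := by
      refine Tendsto.sub tendsto_const_nhds ?_
      refine Tendsto.div_atTop tendsto_const_nhds ?_
      refine tendsto_atTop_mono (fun m => ?_) tendsto_natCast_atTop_atTop
      have : (0 : ℝ) ≤ k := Nat.cast_nonneg k
      linarith
    rw [sub_zero] at h2
    refine h2.congr fun m => ?_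
    have : (0 : ℝ) ≤ k := Nat.cast_nonneg k
    have h3 : (m : ℝ) + 2 * k + 1 ≠ 0 := by positivity
    field_simp
    ring
  simpa using h1.pow k

open Classical in
private theorem fixk_win {t K : ℝ} {g : ℕ → ℝ} (h : AdmK t K g) {ζ : ℕ → ℕ} (hζ : ZH t ζ) {ω : ℕ → ℝ × ℝ}
    (hω : GoodI t g ζ ω) {k : ℕ} (hk : 1 ≤ k) {N : ℕ} (hN : 1 ≤ N) {s : ℕ} (hs : s < N) :
    Tendsto (fun m : ℕ => (((wn m N s).filter (FxP ζ t g ω k)).card : ℝ) *
        ((m : ℝ) * Real.log 2) ^ k / 2 ^ m) atTop (𝓝 (BH (k - 1) / N)) := by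
  set A : ℕ → ℝ := fun m => ∑ n ∈ wn m N s, wt (Ml ζ m) t g n (k - 1) ω with hA
  have hN0 : (0 : ℝ) < N := by exact_mod_cast hN
  have hAlim : Tendsto (fun m : ℕ => A m / 2 ^ m) atTop (𝓝 (BH (k - 1) / N)) := by
    rw [Metric.tendsto_atTop]
    intro e he
    obtain ⟨m0, hm0⟩ := eventually_atTop.mp (win_k h hζ hω (k - 1) hN s hs (half_pos he))
    refine ⟨m0, fun m hm => ?_⟩
    have h1 := hm0 m hm
    have h2 : (0 : ℝ) < 2 ^ m := by positivity
    rw [Real.dist_eq]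
    have h3 : A m / 2 ^ m - BH (k - 1) / N = (A m - BH (k - 1) * (2 ^ m / N)) / 2 ^ m := by
      field_simp
    rw [h3, abs_div, abs_of_pos h2, div_lt_iff₀ h2]
    calc |A m - BH (k - 1) * (2 ^ m / N)| ≤ e / 2 * 2 ^ m := h1
      _ < e * 2 ^ m := by
        apply mul_lt_mul_of_pos_right _ h2
        linarith
  obtain ⟨m0, hm0⟩ := fixk_sandwich h ζ hω.mem hk
  have hlow : Tendsto (fun m : ℕ => A m / 2 ^ m * ((m : ℝ) / ((m : ℝ) + 2 * k + 1)) ^ k) atTop (𝓝 (BH (k - 1) / N)) := by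
    have := hAlim.mul (fixk_ratio k)
    rwa [mul_one] at this
  have hl2 : 0 < Real.log 2 := Real.log_pos (by norm_num)
  refine tendsto_of_tendsto_of_tendsto_of_le_of_le' hlow hAlim ?_ ?_
  · filter_upwards [eventually_ge_atTop m0] with m hm
    have h1 := (hm0 m hm N hN s hs).2
    have h2 : (0 : ℝ) < 2 ^ m := by positivity
    have hk0 : (0 : ℝ) ≤ k := Nat.cast_nonneg k
    have h3 : (0 : ℝ) < (m : ℝ) + 2 * k + 1 := by positivity
    have h5 : A m / 2 ^ m * ((m : ℝ) / ((m : ℝ) + 2 * k + 1)) ^ k =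
        (A m * ((m : ℝ) / ((m : ℝ) + 2 * k + 1)) ^ k) / 2 ^ m := by ring
    rw [h5]
    apply div_le_div_of_nonneg_right _ h2.le
    have h6 : (0 : ℝ) ≤ ((m : ℝ) / ((m : ℝ) + 2 * k + 1)) ^ k := by positivity
    calc A m * ((m : ℝ) / ((m : ℝ) + 2 * k + 1)) ^ k
        ≤ ((((wn m N s).filter (FxP ζ t g ω k)).card : ℝ) * (((m : ℝ) + 2 * k + 1) * Real.log 2) ^ k) *
          ((m : ℝ) / ((m : ℝ) + 2 * k + 1)) ^ k := mul_le_mul_of_nonneg_right h1 h6
      _ = (((wn m N s).filter (FxP ζ t g ω k)).card : ℝ) *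
          ((((m : ℝ) + 2 * k + 1) * Real.log 2) * ((m : ℝ) / ((m : ℝ) + 2 * k + 1))) ^ k := by
          rw [mul_pow ((((m : ℝ) + 2 * k + 1) * Real.log 2))]; ring
      _ = (((wn m N s).filter (FxP ζ t g ω k)).card : ℝ) * ((m : ℝ) * Real.log 2) ^ k := by
          congr 2
          field_simp
  · filter_upwards [eventually_ge_atTop m0] with m hm
    have h1 := (hm0 m hm N hN s hs).1
    have h2 : (0 : ℝ) < 2 ^ m := by positivity
    exact div_le_div_of_nonneg_right h1 h2.le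

theorem cnt_fix {t K : ℝ} {g : ℕ → ℝ} (h : AdmK t K g) {ζ : ℕ → ℕ} (hζ : ZH t ζ) {ω : ℕ → ℝ × ℝ} (hω : GoodI t g ζ ω)
    {k : ℕ} (hk : 1 ≤ k) :
    Tendsto (fun X : ℕ => (cnt (MM ζ) t g ω k (Finset.Icc 1 X) : ℝ) * Real.log X ^ k / X) atTop (𝓝 (BH (k - 1))) := by
  classical
  have h1 := sum_win (FxP ζ t g ω k) k (BH_pos (k - 1)).le (fun N hN s hs => fixk_win h hζ hω hk hN hs)
  refine h1.congr fun X => ?_
  congr 3
  unfold cnt FxP
  congr

open Classical in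
theorem exact_fix {t K : ℝ} {g : ℕ → ℝ} (h : AdmK t K g) {ζ : ℕ → ℕ} (hζ : ZH t ζ) {ω : ℕ → ℝ × ℝ} (hω : GoodI t g ζ ω)
    {k : ℕ} (hk : 1 ≤ k) :
    Tendsto (fun X : ℕ => (((Finset.Icc 1 X).filter fun p =>
        (∀ i < k, (ch (MM ζ) t g ω p i).Prime) ∧ ¬ (ch (MM ζ) t g ω p k).Prime).card : ℝ) * Real.log X ^ k / X)
      atTop (𝓝 (BH (k - 1))) := by
  have h1 := cnt_fix h hζ hω hk
  have h2 := cnt_fix h hζ hω (k := k + 1) (by omega)
  have hlog : Tendsto (fun X : ℕ => Real.log (X : ℝ)) atTop atTop :=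
    Real.tendsto_log_atTop.comp tendsto_natCast_atTop_atTop
  have h3 : Tendsto (fun X : ℕ => ((cnt (MM ζ) t g ω (k + 1) (Finset.Icc 1 X) : ℝ) * Real.log X ^ (k + 1) / X) /
      Real.log X) atTop (𝓝 0) := h2.div_atTop hlog
  have h4 := h1.sub h3
  rw [sub_zero] at h4
  refine h4.congr' ?_
  filter_upwards [hlog.eventually_gt_atTop 0] with X hX
  have hcard : (((Finset.Icc 1 X).filter fun p =>
        (∀ i < k, (ch (MM ζ) t g ω p i).Prime) ∧ ¬ (ch (MM ζ) t g ω p k).Prime).card : ℝ) =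
      (cnt (MM ζ) t g ω k (Finset.Icc 1 X) : ℝ) - cnt (MM ζ) t g ω (k + 1) (Finset.Icc 1 X) := by
    rw [eq_sub_iff_add_eq]
    unfold cnt
    rw [← Nat.cast_add]
    congr 1
    rw [← Finset.card_union_of_disjoint]
    · congr 1
      ext p
      simp only [Finset.mem_union, Finset.mem_filter]
      constructor
      · rintro (⟨ha, hb, _⟩ | ⟨ha, hb⟩)
        · exact ⟨ha, hb⟩
        · exact ⟨ha, fun i hi => hb i (by omega)⟩
      · rintro ⟨ha, hb⟩
        by_cases hp : (ch (MM ζ) t g ω p k).Prime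
        · right
          refine ⟨ha, fun i hi => ?_⟩
          rcases Nat.lt_succ_iff_lt_or_eq.mp hi with h | h
          · exact hb i h
          · rw [h]; exact hp
        · left
          exact ⟨ha, hb, hp⟩
    · rw [Finset.disjoint_left]
      intro p hp1 hp2
      simp only [Finset.mem_filter] at hp1 hp2
      exact hp1.2.2 (hp2.2 k (by omega))
  rw [hcard]
  have hX' : Real.log (X : ℝ) ≠ 0 := hX.ne'
  rw [pow_succ]
  field_simp

end RAG
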