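import Pool.Agent.RAG.Basic
import Pool.Agent.RAF.Geo

/-!
# RAG.Geo: chains which start in the interior of a block

PROOF. As `Pool/Agent/RAF/Geo.lean` (copy): `m0` there depends on `t` and `K` only. `ch_block`: for `n` in the block `m`, `m` large: `log₂ (ch n i) ≤ m + 2i`, as `RAF.TT_le` gives `TT q ≤ 2q + (4+3K) 2^(t m') ≤ 4q` for `q` in the block `m' ≥ m0`, so `log₂ (TT q) ≤ log₂ q + 2`.
-/

namespace RAG

private theorem Geo_T (Mb : ℕ → ℕ) (t : ℝ) (g : ℕ → ℝ) (ω : ℕ → ℝ × ℝ) (n i b : ℕ)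
    (hl : Nat.log 2 (ch Mb t g ω n i) = b) :
    ch Mb t g ω n (i + 1) = RAF.TT (Mb b) t g (ch Mb t g ω n i) (ω b) := by
  rw [ch_succ]
  unfold T
  rw [hl]

private theorem Geo_step {R : ℕ} {Mb : ℕ → ℕ} {t K : ℝ} {g : ℕ → ℝ} (h : AdmG R Mb t K g) {ω : ℕ → ℝ × ℝ}
    (hω : ∀ i, ω i ∈ Set.Icc (0 : ℝ) 1 ×ˢ Set.Icc (0 : ℝ) 1) {n i b : ℕ} (hn : 0 < n)
    (hl : Nat.log 2 (ch Mb t g ω n i) = b) :
    (ch Mb t g ω n (i + 1) : ℝ) ≤ 2 * ch Mb t g ω n i +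
      (4 + 3 * K) * (2 : ℝ) ^ (t * (b : ℝ)) := by
  have h1 := RAF.TT_le (h.admK.adm (h.pos b)) (ch_pos Mb t g ω hn i) (hω b)
  rw [hl] at h1
  rw [Geo_T Mb t g ω n i b hl]
  exact h1

theorem geo (t K : ℝ) : ∃ m0 : ℕ, ∀ (R : ℕ) (Mb : ℕ → ℕ) (g : ℕ → ℝ), AdmG R Mb t K g →
    ∀ m : ℕ, m0 ≤ m → ∀ ω : ℕ → ℝ × ℝ, (∀ i, ω i ∈ Set.Icc (0 : ℝ) 1 ×ˢ Set.Icc (0 : ℝ) 1) → ∀ n ∈ RAF.Inn t m,
    (∀ i : ℕ, Nat.log 2 (ch Mb t g ω n i) = m + i ∧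
      (ch Mb t g ω n i : ℝ) ≤ 2 ^ i * n * (1 + (2 : ℝ) ^ (-((1 - t) / 2) * (m : ℝ)))) ∧
    (∀ n' ∈ RAF.Inn t m, n ≤ n' → ∀ i : ℕ, ch Mb t g ω n i + 2 ^ i * (n' - n) ≤ ch Mb t g ω n' i) := by
  by_cases ht1 : t < 1
  swap
  · exact ⟨0, fun R Mb g h => absurd h.ht1 ht1⟩
  by_cases hK1 : 1 ≤ K
  swap
  · exact ⟨0, fun R Mb g h => absurd h.hK hK1⟩
  have h2t : (2 : ℝ) ^ t < 2 := by
    calc (2 : ℝ) ^ t < (2 : ℝ) ^ (1 : ℝ) := Real.rpow_lt_rpow_of_exponent_lt (by norm_num) ht1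
      _ = 2 := Real.rpow_one 2
  set C1 : ℝ := (4 + 3 * K) / (2 - (2 : ℝ) ^ t) with hC1
  have hC1e : C1 * (2 - (2 : ℝ) ^ t) = 4 + 3 * K := by
    rw [hC1]
    exact div_mul_cancel₀ _ (by linarith)
  have hC10 : 0 < C1 := by
    rw [hC1]
    exact div_pos (by linarith) (by linarith)
  have hbase : (1 : ℝ) < (2 : ℝ) ^ ((1 - t) / 2) := Real.one_lt_rpow (by norm_num) (by linarith)
  obtain ⟨m0, hm0⟩ := pow_unbounded_of_one_lt C1 hbase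
  refine ⟨m0, ?_⟩
  intro R Mb g h m hm ω hω
  have hbig : C1 ≤ (2 : ℝ) ^ ((1 - t) / 2 * (m : ℝ)) := by
    rw [Real.rpow_mul (by norm_num), Real.rpow_natCast]
    exact hm0.le.trans (pow_le_pow_right₀ hbase.le hm)
  have htm0 : (0 : ℝ) < (2 : ℝ) ^ (t * (m : ℝ)) := by positivity
  have heq : (2 : ℝ) ^ ((1 - t) / 2 * (m : ℝ)) * (2 : ℝ) ^ (t * (m : ℝ)) =
      2 ^ m * (2 : ℝ) ^ (-((1 - t) / 2) * (m : ℝ)) := by
    rw [← Real.rpow_natCast 2 m, ← Real.rpow_add (by norm_num), ← Real.rpow_add (by norm_num)]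
    congr 1
    ring
  have hC1tm : C1 * (2 : ℝ) ^ (t * (m : ℝ)) ≤ 2 ^ m * (2 : ℝ) ^ (-((1 - t) / 2) * (m : ℝ)) := by
    rw [← heq]
    exact mul_le_mul_of_nonneg_right hbig htm0.le
  -- the claim
  have key : ∀ n ∈ RAF.Inn t m, ∀ i : ℕ, Nat.log 2 (ch Mb t g ω n i) = m + i ∧
      (ch Mb t g ω n i : ℝ) ≤ 2 ^ i * n + C1 * (2 ^ i - (2 : ℝ) ^ (t * (i : ℝ))) * (2 : ℝ) ^ (t * (m : ℝ)) := by
    intro n hn
    have hnp := RAF.Inn_pos hn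
    unfold RAF.Inn at hn
    rw [Finset.mem_filter, Finset.mem_Ico] at hn
    obtain ⟨⟨hn1, hn2⟩, hn3⟩ := hn
    have hlog : ∀ i : ℕ, (ch Mb t g ω n i : ℝ) ≤ 2 ^ i * n +
        C1 * (2 ^ i - (2 : ℝ) ^ (t * (i : ℝ))) * (2 : ℝ) ^ (t * (m : ℝ)) →
        Nat.log 2 (ch Mb t g ω n i) = m + i := by
      intro i hi
      have h2m : (0 : ℝ) < 2 ^ m := by positivity
      have hx : (0 : ℝ) < (2 : ℝ) ^ (-((1 - t) / 2) * (m : ℝ)) := by positivity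
      have h1 : (n : ℝ) + C1 * (2 : ℝ) ^ (t * (m : ℝ)) < 2 ^ (m + 1) := by
        have e : (2 : ℝ) ^ (m + 1) * (1 - (2 : ℝ) ^ (-((1 - t) / 2) * (m : ℝ))) =
          2 ^ (m + 1) - 2 * (2 ^ m * (2 : ℝ) ^ (-((1 - t) / 2) * (m : ℝ))) := by ring
        rw [e] at hn3
        have := mul_pos h2m hx
        linarith
      have h2 : (ch Mb t g ω n i : ℝ) < 2 ^ (m + i + 1) := by
        have h2i : (0 : ℝ) < 2 ^ i := by positivity
        have hti : (0 : ℝ) < (2 : ℝ) ^ (t * (i : ℝ)) := by positivity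
        calc (ch Mb t g ω n i : ℝ) ≤ 2 ^ i * n + C1 * (2 ^ i - (2 : ℝ) ^ (t * (i : ℝ))) * (2 : ℝ) ^ (t * (m : ℝ)) := hi
          _ ≤ 2 ^ i * n + C1 * 2 ^ i * (2 : ℝ) ^ (t * (m : ℝ)) := by
              gcongr
              linarith
          _ = 2 ^ i * (n + C1 * (2 : ℝ) ^ (t * (m : ℝ))) := by ring
          _ < 2 ^ i * 2 ^ (m + 1) := by gcongr
          _ = 2 ^ (m + i + 1) := by ring
      have h3 : ch Mb t g ω n i < 2 ^ (m + i + 1) := by exact_mod_cast h2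
      have h4 : 2 ^ (m + i) ≤ ch Mb t g ω n i := by
        calc 2 ^ (m + i) = 2 ^ i * 2 ^ m := by ring
          _ ≤ 2 ^ i * n := Nat.mul_le_mul_left _ hn1
          _ ≤ _ := ch_ge Mb t g ω n i
      exact Nat.log_eq_of_pow_le_of_lt_pow h4 h3
    intro i
    induction i with
    | zero =>
      have h0 : (ch Mb t g ω n 0 : ℝ) ≤ 2 ^ 0 * n +
          C1 * (2 ^ 0 - (2 : ℝ) ^ (t * ((0 : ℕ) : ℝ))) * (2 : ℝ) ^ (t * (m : ℝ)) := by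
        rw [ch_zero]
        simp
      exact ⟨hlog 0 h0, h0⟩
    | succ i ih =>
      obtain ⟨ih1, ih2⟩ := ih
      have hs0 := Geo_step h hω hnp.1 ih1
      have hs : (ch Mb t g ω n (i + 1) : ℝ) ≤ 2 * ch Mb t g ω n i +
          (4 + 3 * K) * ((2 : ℝ) ^ (t * (m : ℝ)) * (2 : ℝ) ^ (t * (i : ℝ))) := by
        refine hs0.trans (le_of_eq ?_)
        rw [← Real.rpow_add (by norm_num)]
        congr 3
        push_cast
        ring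
      have h1 : (ch Mb t g ω n (i + 1) : ℝ) ≤ 2 ^ (i + 1) * n +
          C1 * (2 ^ (i + 1) - (2 : ℝ) ^ (t * ((i + 1 : ℕ) : ℝ))) * (2 : ℝ) ^ (t * (m : ℝ)) := by
        refine hs.trans ?_
        have e1 : (2 : ℝ) ^ (t * ((i + 1 : ℕ) : ℝ)) = (2 : ℝ) ^ (t * (i : ℝ)) * (2 : ℝ) ^ t := by
          rw [← Real.rpow_add (by norm_num)]
          congr 1
          push_cast
          ring
        rw [e1, ← hC1e]
        calc 2 * (ch Mb t g ω n i : ℝ) + C1 * (2 - (2 : ℝ) ^ t) * ((2 : ℝ) ^ (t * (m : ℝ)) * (2 : ℝ) ^ (t * (i : ℝ)))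
            ≤ 2 * (2 ^ i * n + C1 * (2 ^ i - (2 : ℝ) ^ (t * (i : ℝ))) * (2 : ℝ) ^ (t * (m : ℝ))) +
              C1 * (2 - (2 : ℝ) ^ t) * ((2 : ℝ) ^ (t * (m : ℝ)) * (2 : ℝ) ^ (t * (i : ℝ))) := by linarith
          _ = _ := by ring
      exact ⟨hlog (i + 1) h1, h1⟩
  intro n hn
  refine ⟨fun i => ⟨(key n hn i).1, ?_⟩, ?_⟩
  · have hnp := RAF.Inn_pos hn
    have hn' := hn
    unfold RAF.Inn at hn'
    rw [Finset.mem_filter, Finset.mem_Ico] at hn'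
    obtain ⟨⟨hn1, -⟩, -⟩ := hn'
    have hn1' : (2 : ℝ) ^ m ≤ n := by exact_mod_cast hn1
    have hti : (0 : ℝ) < (2 : ℝ) ^ (t * (i : ℝ)) := by positivity
    have hx : (0 : ℝ) < (2 : ℝ) ^ (-((1 - t) / 2) * (m : ℝ)) := by positivity
    calc (ch Mb t g ω n i : ℝ) ≤ 2 ^ i * n + C1 * (2 ^ i - (2 : ℝ) ^ (t * (i : ℝ))) * (2 : ℝ) ^ (t * (m : ℝ)) :=
          (key n hn i).2
      _ ≤ 2 ^ i * n + C1 * 2 ^ i * (2 : ℝ) ^ (t * (m : ℝ)) := by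
          gcongr
          linarith
      _ = 2 ^ i * n + 2 ^ i * (C1 * (2 : ℝ) ^ (t * (m : ℝ))) := by ring
      _ ≤ 2 ^ i * n + 2 ^ i * (2 ^ m * (2 : ℝ) ^ (-((1 - t) / 2) * (m : ℝ))) := by gcongr
      _ ≤ 2 ^ i * n + 2 ^ i * (n * (2 : ℝ) ^ (-((1 - t) / 2) * (m : ℝ))) := by gcongr
      _ = _ := by ring
  · intro n' hn' hnn i
    induction i with
    | zero =>
      rw [ch_zero, ch_zero]
      omega
    | succ i ih =>
      have l1 := (key n hn i).1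
      have l2 := (key n' hn' i).1
      have hle : ch Mb t g ω n i ≤ ch Mb t g ω n' i := by omega
      have h1 := RAF.TT_mono (h.admK.adm (h.pos (m + i))) hle (l1.trans l2.symm) (hω (m + i))
      have e1 := Geo_T Mb t g ω n i (m + i) l1
      have e2 := Geo_T Mb t g ω n' i (m + i) l2
      rw [e1, e2]
      have h3 : 2 ^ (i + 1) * (n' - n) = 2 * (2 ^ i * (n' - n)) := by ring
      rw [h3]
      omega

theorem ch_block (t K : ℝ) : ∃ m0 : ℕ, ∀ (R : ℕ) (Mb : ℕ → ℕ) (g : ℕ → ℝ), AdmG R Mb t K g →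
    ∀ m : ℕ, m0 ≤ m → ∀ ω : ℕ → ℝ × ℝ, (∀ i, ω i ∈ Set.Icc (0 : ℝ) 1 ×ˢ Set.Icc (0 : ℝ) 1) → ∀ n : ℕ, Nat.log 2 n = m →
    ∀ i : ℕ, Nat.log 2 (ch Mb t g ω n i) ≤ m + 2 * i := by
  by_cases ht1 : t < 1
  swap
  · exact ⟨0, fun R Mb g h => absurd h.ht1 ht1⟩
  have hbase : (1 : ℝ) < (2 : ℝ) ^ (1 - t) := Real.one_lt_rpow (by norm_num) (by linarith)
  obtain ⟨m0, hm0⟩ := pow_unbounded_of_one_lt (4 + 3 * K) hbase
  refine ⟨m0 + 1, ?_⟩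
  intro R Mb g h m hm ω hω n hn i
  have hnp : 0 < n := by
    rcases Nat.eq_zero_or_pos n with h0 | h0
    · rw [h0, Nat.log_zero_right] at hn
      omega
    · exact h0
  induction i with
  | zero =>
    rw [ch_zero, hn]
    omega
  | succ i ih =>
    obtain ⟨b, hb⟩ : ∃ b, Nat.log 2 (ch Mb t g ω n i) = b := ⟨_, rfl⟩
    have hbm : m0 ≤ b := by
      have h1 := ch_log_le Mb t g ω hnp i
      omega
    have hs := Geo_step h hω hnp hb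
    have hlt : ch Mb t g ω n i < 2 ^ (b + 1) := by
      rw [← hb]
      exact Nat.lt_pow_succ_log_self (by norm_num) _
    have hlt' : (ch Mb t g ω n i : ℝ) < 2 ^ (b + 1) := by exact_mod_cast hlt
    have hbig : (4 + 3 * K) * (2 : ℝ) ^ (t * (b : ℝ)) ≤ 2 ^ b := by
      have h1 : 4 + 3 * K ≤ ((2 : ℝ) ^ (1 - t)) ^ b := hm0.le.trans (pow_le_pow_right₀ hbase.le hbm)
      have h2 : ((2 : ℝ) ^ (1 - t)) ^ b * (2 : ℝ) ^ (t * (b : ℝ)) = 2 ^ b := by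
        rw [← Real.rpow_natCast ((2 : ℝ) ^ (1 - t)) b, ← Real.rpow_mul (by norm_num),
          ← Real.rpow_add (by norm_num), ← Real.rpow_natCast 2 b]
        congr 1
        ring
      rw [← h2]
      exact mul_le_mul_of_nonneg_right h1 (by positivity)
    have h3 : (ch Mb t g ω n (i + 1) : ℝ) < 2 ^ (b + 3) := by
      have e : (2 : ℝ) ^ (b + 3) = 2 * 2 ^ (b + 1) + 2 ^ b + 3 * 2 ^ b := by ring
      have e0 : (0 : ℝ) < 2 ^ b := by positivity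
      rw [e]
      linarith
    have h4 : ch Mb t g ω n (i + 1) < 2 ^ (b + 3) := by exact_mod_cast h3
    have h5 : Nat.log 2 (ch Mb t g ω n (i + 1)) < b + 3 :=
      Nat.log_lt_of_lt_pow (ch_pos Mb t g ω hnp (i + 1)).ne' h4
    omega

end RAG
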