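import Pool.Agent.RAG.WinU
import Pool.Agent.RAF.KapA

/-!
# RAG.KapU: two distant numbers in a block have almost independent images, with weights

PROOF. As `Pool/Agent/RAF/KapA.lean` (copy), with `th (TT c y) Φ (TT c y) - mn R M Φ c` in place of `th (TT c y) - rho M c`, `win_int` of `WinU.lean`, and the order of the quantifiers changed (the constants do not depend on `g`); `0 ≤ Φ ≤ 1`, `mn_le`.
-/

namespace RAG

open MeasureTheory
open RAF (uu Pm)

private theorem KapU_chg (f : ℝ → ℝ) {c d a b : ℝ} (hc : 0 < c) (hab : a ≤ b) :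
    ∫ x in Set.Icc a b, f (c * x + d) = c⁻¹ * ∫ x in Set.Icc (c * a + d) (c * b + d), f x := by
  have h1 : c * a + d ≤ c * b + d := by nlinarith
  rw [integral_Icc_eq_integral_Ioc, integral_Icc_eq_integral_Ioc,
    ← intervalIntegral.integral_of_le hab, ← intervalIntegral.integral_of_le h1,
    intervalIntegral.integral_comp_mul_add f hc.ne' d]
  rfl

private theorem KapU_dbl {P Q : ℝ → ℝ} (hP : Measurable P) (hQ : Measurable Q) {B : ℝ}
    (hPB : ∀ x, |P x| ≤ B) (hQB : ∀ x, |Q x| ≤ B) {α β α' g0 γ E L : ℝ} (hα : 0 < α) (hβ : 0 < β) (hα' : 0 < α')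
    (hE : 0 ≤ E) (hL : ∀ a, a ∉ Set.Icc 0 L → P a = 0)
    (hw : ∀ a ∈ Set.Icc (0 : ℝ) L, ∀ u0 u1 : ℝ, 0 ≤ u0 → u0 ≤ u1 → u1 ≤ 1 → a - g0 - β ≤ α * u0 → α * u1 ≤ a - g0 →
      |∫ x in Set.Icc (α' * u0 + (a + γ)) (α' * u1 + (a + γ)), Q x| ≤ α' * E) :
    |∫ y, P (β * y.2 + (α * y.1 + g0)) * Q (β * y.2 + (α * y.1 + g0) + (α' * y.1 + γ)) ∂uu| ≤
      E * (β⁻¹ * ∫ a in Set.Icc 0 L, |P a|) := by
  have hB : 0 ≤ B := le_trans (abs_nonneg _) (hPB 0)
  have huu : uu = (volume.restrict (Set.Icc (0 : ℝ) 1)).prod (volume.restrict (Set.Icc (0 : ℝ) 1)) := by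
    unfold RAF.uu
    rw [Measure.volume_eq_prod, Measure.prod_restrict]
  have hPQ : Measurable fun y : ℝ × ℝ => P (β * y.2 + (α * y.1 + g0)) * Q (β * y.2 + (α * y.1 + g0) + (α' * y.1 + γ)) := by
    apply Measurable.mul
    · apply hP.comp
      fun_prop
    · apply hQ.comp
      fun_prop
  have hint : Integrable (fun y : ℝ × ℝ => P (β * y.2 + (α * y.1 + g0)) * Q (β * y.2 + (α * y.1 + g0) + (α' * y.1 + γ)))
      ((volume.restrict (Set.Icc (0 : ℝ) 1)).prod (volume.restrict (Set.Icc (0 : ℝ) 1))) := by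
    apply Integrable.of_bound hPQ.aestronglyMeasurable (B * B)
    refine Filter.Eventually.of_forall fun y => ?_
    rw [Real.norm_eq_abs, abs_mul]
    exact mul_le_mul (hPB _) (hQB _) (abs_nonneg _) hB
  rw [huu, integral_prod _ hint]
  -- the inner integral
  set G : ℝ → ℝ → ℝ := fun u a => (Set.Icc (α * u + g0) (α * u + g0 + β)).indicator
    (fun a => P a * Q (a + (α' * u + γ))) a with hG
  have hin : ∀ u : ℝ, ∫ v in Set.Icc (0 : ℝ) 1, P (β * v + (α * u + g0)) * Q (β * v + (α * u + g0) + (α' * u + γ)) =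
      β⁻¹ * ∫ a in Set.Icc 0 L, G u a := by
    intro u
    have h1 := KapU_chg (fun a => P a * Q (a + (α' * u + γ))) (d := α * u + g0) hβ (zero_le_one' ℝ)
    rw [h1, mul_zero, mul_one, zero_add, add_comm β]
    congr 1
    rw [← integral_indicator measurableSet_Icc]
    symm
    apply setIntegral_eq_integral_of_forall_compl_eq_zero
    intro a ha
    simp only [hG, Set.indicator_apply, hL a ha, zero_mul, ite_self]
  simp only [hin]
  rw [integral_const_mul]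
  -- the exchange
  have hGm : Measurable (Function.uncurry G) := by
    have h1 : Function.uncurry G = Set.indicator {p : ℝ × ℝ | α * p.1 + g0 ≤ p.2 ∧ p.2 ≤ α * p.1 + g0 + β}
        (fun p => P p.2 * Q (p.2 + (α' * p.1 + γ))) := by
      funext p
      simp only [Function.uncurry, hG, Set.indicator_apply, Set.mem_Icc, Set.mem_ofPred_eq]
    rw [h1]
    apply Measurable.indicator
    · apply Measurable.mul
      · exact hP.comp measurable_snd
      · apply hQ.comp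
        fun_prop
    · have h2 : MeasurableSet {p : ℝ × ℝ | α * p.1 + g0 ≤ p.2} := measurableSet_le (by fun_prop) (by fun_prop)
      have h3 : MeasurableSet {p : ℝ × ℝ | p.2 ≤ α * p.1 + g0 + β} := measurableSet_le (by fun_prop) (by fun_prop)
      exact h2.inter h3
  have hGB : ∀ u a, |G u a| ≤ B * B := by
    intro u a
    simp only [hG, Set.indicator_apply]
    split_ifs
    · rw [abs_mul]
      exact mul_le_mul (hPB _) (hQB _) (abs_nonneg _) hB
    · rw [abs_zero]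
      exact mul_nonneg hB hB
  have hGi : Integrable (Function.uncurry G) ((volume.restrict (Set.Icc (0 : ℝ) 1)).prod (volume.restrict (Set.Icc 0 L))) := by
    apply Integrable.of_bound hGm.aestronglyMeasurable (B * B)
    refine Filter.Eventually.of_forall fun y => ?_
    rw [Real.norm_eq_abs]
    exact hGB _ _
  rw [integral_integral_swap hGi]
  -- the bound for fixed `a`
  have hfix : ∀ a ∈ Set.Icc (0 : ℝ) L, |∫ u in Set.Icc (0 : ℝ) 1, G u a| ≤ |P a| * E := by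
    intro a ha
    have h1 : ∀ u, G u a = {u : ℝ | α * u + g0 ≤ a ∧ a ≤ α * u + g0 + β}.indicator
        (fun u => P a * Q (α' * u + (a + γ))) u := by
      intro u
      simp only [hG, Set.indicator_apply, Set.mem_Icc, Set.mem_ofPred_eq]
      have h2 : a + (α' * u + γ) = α' * u + (a + γ) := by ring
      rw [h2]
    simp only [h1]
    have hms : MeasurableSet {u : ℝ | α * u + g0 ≤ a ∧ a ≤ α * u + g0 + β} := by
      have h2 : MeasurableSet {u : ℝ | α * u + g0 ≤ a} := measurableSet_le (by fun_prop) (by fun_prop)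
      have h3 : MeasurableSet {u : ℝ | a ≤ α * u + g0 + β} := measurableSet_le (by fun_prop) (by fun_prop)
      exact h2.inter h3
    rw [setIntegral_indicator hms]
    have hset : Set.Icc (0 : ℝ) 1 ∩ {u : ℝ | α * u + g0 ≤ a ∧ a ≤ α * u + g0 + β} =
        Set.Icc (max 0 ((a - g0 - β) / α)) (min 1 ((a - g0) / α)) := by
      ext u
      simp only [Set.mem_inter_iff, Set.mem_Icc, Set.mem_ofPred_eq, sup_le_iff, le_inf_iff, div_le_iff₀ hα, le_div_iff₀ hα]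
      constructor
      · rintro ⟨⟨h2, h3⟩, h4, h5⟩
        exact ⟨⟨h2, by linarith⟩, h3, by linarith⟩
      · rintro ⟨⟨h2, h3⟩, h4, h5⟩
        exact ⟨⟨h2, h4⟩, by linarith, by linarith⟩
    rw [hset, integral_const_mul, abs_mul]
    apply mul_le_mul_of_nonneg_left _ (abs_nonneg _)
    set u0 := max 0 ((a - g0 - β) / α) with hu0
    set u1 := min 1 ((a - g0) / α) with hu1
    rcases le_or_gt u0 u1 with h2 | h2
    · rw [KapU_chg Q hα' h2, abs_mul, abs_of_pos (inv_pos.mpr hα')]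
      have h3 := hw a ha u0 u1 (le_max_left _ _) h2 (min_le_left _ _) (by
        have h4 : (a - g0 - β) / α ≤ u0 := le_max_right _ _
        rw [div_le_iff₀ hα] at h4
        linarith) (by
        have h4 : u1 ≤ (a - g0) / α := min_le_right _ _
        rw [le_div_iff₀ hα] at h4
        linarith)
      calc α'⁻¹ * |∫ x in Set.Icc (α' * u0 + (a + γ)) (α' * u1 + (a + γ)), Q x| ≤ α'⁻¹ * (α' * E) :=
            mul_le_mul_of_nonneg_left h3 (inv_pos.mpr hα').le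
        _ = E := by
            rw [← mul_assoc, inv_mul_cancel₀ hα'.ne', one_mul]
    · rw [Set.Icc_eq_empty (not_le.mpr h2), setIntegral_empty, abs_zero]
      exact hE
  have hPi : Integrable (fun a => |P a| * E) (volume.restrict (Set.Icc 0 L)) := by
    apply Integrable.of_bound (hP.abs.mul_const E).aestronglyMeasurable (B * E)
    refine Filter.Eventually.of_forall fun y => ?_
    rw [Real.norm_eq_abs, abs_mul, abs_abs, abs_of_nonneg hE]
    exact mul_le_mul_of_nonneg_right (hPB _) hE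
  have hfin := norm_integral_le_of_norm_le hPi (f := fun a => ∫ u in Set.Icc (0 : ℝ) 1, G u a)
    ((ae_restrict_iff' measurableSet_Icc).mpr (Filter.Eventually.of_forall fun a ha => by
      rw [Real.norm_eq_abs]
      exact hfix a ha))
  rw [Real.norm_eq_abs, integral_mul_const] at hfin
  rw [abs_mul, abs_of_pos (inv_pos.mpr hβ)]
  calc β⁻¹ * |∫ a in Set.Icc 0 L, ∫ u in Set.Icc (0 : ℝ) 1, G u a| ≤ β⁻¹ * ((∫ a in Set.Icc 0 L, |P a|) * E) :=
        mul_le_mul_of_nonneg_left hfin (inv_pos.mpr hβ).le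
    _ = E * (β⁻¹ * ∫ a in Set.Icc 0 L, |P a|) := by ring

private theorem KapU_Phi_meas (R M : ℕ) (Φ : ℕ → ℝ) (c : ℕ) : Measurable fun a : ℝ => RLC.th (2 * c + 1 + M * ⌊a / M⌋₊) * Φ (2 * c + 1 + M * ⌊a / M⌋₊) - mn R M Φ c := by
  have h1 : Measurable fun a : ℝ => ⌊a / M⌋₊ := Nat.measurable_floor.comp (measurable_id.div_const (M : ℝ))
  have h2 : Measurable fun k : ℕ => RLC.th (2 * c + 1 + M * k) * Φ (2 * c + 1 + M * k) - mn R M Φ c := measurable_from_nat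
  exact h2.comp h1

private theorem KapU_thPhi {R : ℕ} {Φ : ℕ → ℝ} (hΦ : Per R Φ) (n : ℕ) :
    0 ≤ RLC.th n * Φ n ∧ RLC.th n * Φ n ≤ RLC.th n :=
  ⟨mul_nonneg (RLC.th_nonneg n) (hΦ.nonneg n), mul_le_of_le_one_right (RLC.th_nonneg n) (hΦ.le n)⟩

private theorem KapU_mn_le {R : ℕ} (hR : 0 < R) {Φ : ℕ → ℝ} (hΦ : Per R Φ) {M : ℕ} (hM : M ∣ R) (q : ℕ) :
    mn R M Φ q ≤ R := by
  have hM0 : 0 < M := Nat.pos_of_dvd_of_pos hM hR
  have h1 : (1 : ℝ) ≤ M.totient := by exact_mod_cast Nat.totient_pos.2 hM0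
  have h2 : (M : ℝ) ≤ R := by exact_mod_cast Nat.le_of_dvd hR hM
  have h3 : (M : ℝ) / M.totient ≤ M := div_le_self (Nat.cast_nonneg _) h1
  exact (mn_le hR hΦ hM q).trans (h3.trans h2)

private theorem KapU_Phi_bd {R : ℕ} {Φ : ℕ → ℝ} (hΦ : Per R Φ) (M c : ℕ) (L : ℝ) : ∃ B : ℝ, ∀ a ≤ L,
    |RLC.th (2 * c + 1 + M * ⌊a / M⌋₊) * Φ (2 * c + 1 + M * ⌊a / M⌋₊) - mn R M Φ c| ≤ B := by
  refine ⟨Real.log ((2 * c + 1 + M * ⌊L / M⌋₊ : ℕ) : ℝ) + mn R M Φ c, fun a ha => ?_⟩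
  have h1 : 2 * c + 1 + M * ⌊a / M⌋₊ ≤ 2 * c + 1 + M * ⌊L / M⌋₊ := by
    have h2 : ⌊a / M⌋₊ ≤ ⌊L / M⌋₊ := Nat.floor_le_floor (div_le_div_of_nonneg_right ha (Nat.cast_nonneg M))
    have := Nat.mul_le_mul_left M h2
    omega
  have h2 : RLC.th (2 * c + 1 + M * ⌊a / M⌋₊) ≤ Real.log ((2 * c + 1 + M * ⌊L / M⌋₊ : ℕ) : ℝ) := by
    refine le_trans (RLC.th_le_log _) (Real.log_le_log ?_ (Nat.cast_le.mpr h1))
    exact Nat.cast_pos.mpr (by omega)
  have h3 := KapU_thPhi hΦ (2 * c + 1 + M * ⌊a / M⌋₊)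
  have h4 := mn_nonneg hΦ M c
  rw [abs_le]
  constructor
  · linarith [h3.1, RLC.th_nonneg (2 * c + 1 + M * ⌊a / M⌋₊)]
  · linarith [h3.2]

open Classical in
private theorem KapU_mass {R : ℕ} (hR : 0 < R) {t K : ℝ} {M : ℕ} (hM : M ∣ R) {Φ : ℕ → ℝ} (hΦ : Per R Φ)
    {C1 : ℝ} (hC1 : 1 ≤ C1) (hK : 1 ≤ K) {m H c : ℕ} (hH : 0 < H)
    (hHt : (H : ℝ) ≤ (2 : ℝ) ^ (t * (m : ℝ))) (hβ1 : 1 ≤ (2 : ℝ) ^ (t * (m : ℝ)))
    (hw : |∫ x in Set.Icc 0 ((3 + 3 * K) * (2 : ℝ) ^ (t * (m : ℝ))), (RLC.th (2 * c + 1 + M * ⌊x / M⌋₊) * Φ (2 * c + 1 + M * ⌊x / M⌋₊) - mn R M Φ c)| ≤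
      C1 * (((3 + 3 * K) * (2 : ℝ) ^ (t * (m : ℝ)) - 0) * (m : ℝ) ^ (-(0 : ℝ)) +
        H * (2 + ((RAF.Wc t K m H c).filter fun r => RAF.BadC R 0 H m r).card))) :
    ∫ x in Set.Icc 0 ((3 + 3 * K) * (2 : ℝ) ^ (t * (m : ℝ))), |RLC.th (2 * c + 1 + M * ⌊x / M⌋₊) * Φ (2 * c + 1 + M * ⌊x / M⌋₊) - mn R M Φ c| ≤
      (C1 * (13 + 7 * K) + 2 * (R : ℝ) * (3 + 3 * K)) * (2 : ℝ) ^ (t * (m : ℝ)) := by
  set β : ℝ := (2 : ℝ) ^ (t * (m : ℝ)) with hβ
  set L : ℝ := (3 + 3 * K) * β with hL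
  have hβ0 : 0 < β := lt_of_lt_of_le one_pos hβ1
  have hL0 : 0 ≤ L := by positivity
  -- the number of cells
  have hcard : (H : ℝ) * (2 + ((RAF.Wc t K m H c).filter fun r => RAF.BadC R 0 H m r).card) ≤ (10 + 4 * K) * β := by
    set N : ℕ := ⌈(5 + 4 * K) * β⌉₊ with hN
    have h1 : ((RAF.Wc t K m H c).filter fun r => RAF.BadC R 0 H m r).card ≤ (2 * c + N) / H + 1 - 2 * c / H := by
      refine le_trans (Finset.card_filter_le _ _) ?_
      unfold RAF.Wc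
      rw [Nat.card_Icc]
    have h2 : H * (((RAF.Wc t K m H c).filter fun r => RAF.BadC R 0 H m r).card) ≤ N + 2 * H := by
      have h3 := Nat.mul_le_mul_left H h1
      have h4 : H * ((2 * c + N) / H) ≤ 2 * c + N := Nat.mul_div_le _ _
      have h5 : 2 * c < H * (2 * c / H) + H := by
        have h6 := Nat.lt_mul_div_succ (2 * c) hH
        rw [mul_add, mul_one] at h6
        exact h6
      have h7 : H * ((2 * c + N) / H + 1 - 2 * c / H) = H * ((2 * c + N) / H) + H - H * (2 * c / H) := by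
        rw [Nat.mul_sub, mul_add, mul_one]
      omega
    have h3 : ((H * (((RAF.Wc t K m H c).filter fun r => RAF.BadC R 0 H m r).card) : ℕ) : ℝ) ≤ ((N + 2 * H : ℕ) : ℝ) :=
      Nat.cast_le.mpr h2
    push_cast at h3
    have h4 : (N : ℝ) ≤ (5 + 4 * K) * β + 1 := (Nat.ceil_lt_add_one (by positivity)).le
    nlinarith
  have hmeas := KapU_Phi_meas R M Φ c
  obtain ⟨B, hB⟩ := KapU_Phi_bd hΦ M c L
  have hint : Integrable (fun x : ℝ => RLC.th (2 * c + 1 + M * ⌊x / M⌋₊) * Φ (2 * c + 1 + M * ⌊x / M⌋₊) - mn R M Φ c) (volume.restrict (Set.Icc 0 L)) := by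
    apply Integrable.of_bound hmeas.aestronglyMeasurable B
    rw [ae_restrict_iff' measurableSet_Icc]
    refine Filter.Eventually.of_forall fun x hx => ?_
    rw [Real.norm_eq_abs]
    exact hB x hx.2
  have h1 : ∫ x in Set.Icc 0 L, |RLC.th (2 * c + 1 + M * ⌊x / M⌋₊) * Φ (2 * c + 1 + M * ⌊x / M⌋₊) - mn R M Φ c| ≤
      ∫ x in Set.Icc 0 L, ((RLC.th (2 * c + 1 + M * ⌊x / M⌋₊) * Φ (2 * c + 1 + M * ⌊x / M⌋₊) - mn R M Φ c) + 2 * mn R M Φ c) := by
    apply integral_mono hint.abs (hint.add (integrable_const _))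
    intro x
    have h3 := (KapU_thPhi hΦ (2 * c + 1 + M * ⌊x / M⌋₊)).1
    have h4 := mn_nonneg hΦ M c
    show |RLC.th (2 * c + 1 + M * ⌊x / M⌋₊) * Φ (2 * c + 1 + M * ⌊x / M⌋₊) - mn R M Φ c| ≤ (RLC.th (2 * c + 1 + M * ⌊x / M⌋₊) * Φ (2 * c + 1 + M * ⌊x / M⌋₊) - mn R M Φ c) + 2 * mn R M Φ c
    rw [abs_le]
    constructor
    · linarith
    · linarith
  rw [integral_add hint (integrable_const _), setIntegral_const, Real.volume_real_Icc_of_le hL0, smul_eq_mul] at h1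
  have h2 := le_trans (le_abs_self _) hw
  have h3 : ((m : ℝ)) ^ (-(0 : ℝ)) = 1 := by
    rw [neg_zero, Real.rpow_zero]
  rw [h3, mul_one, sub_zero] at h2
  have h4 := KapU_mn_le hR hΦ hM c
  have h5 : C1 * (L + H * (2 + ((RAF.Wc t K m H c).filter fun r => RAF.BadC R 0 H m r).card)) ≤ C1 * (L + (10 + 4 * K) * β) :=
    mul_le_mul_of_nonneg_left (by linarith) (by linarith)
  have h6 : (L - 0) * (2 * mn R M Φ c) ≤ L * (2 * (R : ℝ)) := by
    rw [sub_zero]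
    exact mul_le_mul_of_nonneg_left (by linarith) hL0
  calc ∫ x in Set.Icc 0 L, |RLC.th (2 * c + 1 + M * ⌊x / M⌋₊) * Φ (2 * c + 1 + M * ⌊x / M⌋₊) - mn R M Φ c| ≤
        C1 * (L + (10 + 4 * K) * β) + L * (2 * (R : ℝ)) := by linarith
    _ = (C1 * (13 + 7 * K) + 2 * (R : ℝ) * (3 + 3 * K)) * β := by
        rw [hL]
        ring

open Classical in
theorem kap_far {R : ℕ} (hR : 0 < R) {t K t1 : ℝ} (ht : 1 / 2 < t) (ht' : t < 1) (hK : 1 ≤ K) (ht1 : 0 < t1) (κ0 : ℝ) :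
    ∃ C : ℝ, 1 ≤ C ∧ ∃ m0 : ℕ, ∀ g : ℕ → ℝ, AdmK t K g → ∀ M : ℕ, M ∣ R → ∀ Φ : ℕ → ℝ, Per R Φ → ∀ m : ℕ, m0 ≤ m →
    ∀ H : ℕ, (2 : ℝ) ^ (t1 * (m : ℝ)) ≤ H → (H : ℝ) ≤ (2 : ℝ) ^ (t * (m : ℝ)) → ∀ (A : ℝ) (c c' : ℕ),
    Nat.log 2 c = m → Nat.log 2 c' = m → c < c' → (2 : ℝ) ^ ((1 - κ0) * (m : ℝ)) ≤ (c' : ℝ) - c →
    |∫ y, (RLC.th (RAF.TT M t g c y) * Φ (RAF.TT M t g c y) - mn R M Φ c) *
        (RLC.th (RAF.TT M t g c' y) * Φ (RAF.TT M t g c' y) - mn R M Φ c') ∂uu| ≤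
      C * ((m : ℝ) ^ (-A) + H * (2 + ((RAF.Wc t K m H c').filter fun r => RAF.BadC R A H m r).card) /
        (2 : ℝ) ^ ((t - κ0) * (m : ℝ))) := by
  have ht0 : 0 < t := by linarith
  obtain ⟨C1, hC1, m1, hw⟩ := win_int hR (K := K) ht0 ht' hK ht1
  have hR0 : (0 : ℝ) < R := Nat.cast_pos.mpr hR
  set C2 : ℝ := C1 * (13 + 7 * K) + 2 * (R : ℝ) * (3 + 3 * K) with hC2
  have hC2' : 1 ≤ C2 := by
    have h1 : 0 ≤ 2 * (R : ℝ) * (3 + 3 * K) := by positivity
    nlinarith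
  refine ⟨C1 * C2, one_le_mul_of_one_le_of_one_le hC1 hC2', max m1 1, ?_⟩
  intro g hg M hMR Φ hΦ m hm H hH1 hH2 A c c' hlc hlc' hcc hdist
  have hM : 0 < M := Nat.pos_of_dvd_of_pos hMR hR
  have h : RAF.Adm M t K g := hg.adm hM
  have hm1 : m1 ≤ m := le_trans (le_max_left _ _) hm
  have hm2 : 1 ≤ m := le_trans (le_max_right _ _) hm
  have hmR : (0 : ℝ) ≤ m := Nat.cast_nonneg m
  have hHpos : 0 < H := by
    have h1 : (0 : ℝ) < (2 : ℝ) ^ (t1 * (m : ℝ)) := Real.rpow_pos_of_pos two_pos _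
    exact Nat.cast_pos.mp (lt_of_lt_of_le h1 hH1)
  have hc0 : 0 < c := by
    rcases Nat.eq_zero_or_pos c with h1 | h1
    · rw [h1, Nat.log_zero_right] at hlc
      omega
    · exact h1
  have hc0' : 0 < c' := lt_trans hc0 hcc
  have hβ1 : 1 ≤ (2 : ℝ) ^ (t * (m : ℝ)) := Real.one_le_rpow one_le_two (by positivity)
  set β : ℝ := (2 : ℝ) ^ (t * (m : ℝ)) with hβ
  have hβ0 : 0 < β := lt_of_lt_of_le one_pos hβ1
  set s : ℝ := (2 : ℝ) ^ ((t - 1) * (m : ℝ)) with hs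
  have hs0 : 0 < s := Real.rpow_pos_of_pos two_pos _
  set α : ℝ := s * c with hα
  have hα0 : 0 < α := mul_pos hs0 (Nat.cast_pos.mpr hc0)
  set α' : ℝ := s * ((c' : ℝ) - c) with hα'
  have hcc' : (0 : ℝ) < (c' : ℝ) - c := sub_pos.mpr (Nat.cast_lt.mpr hcc)
  have hα0' : 0 < α' := mul_pos hs0 hcc'
  have hγ : 0 ≤ g c' - g c := sub_nonneg.mpr (h.mono hcc.le)
  set δ : ℝ := (2 : ℝ) ^ ((t - κ0) * (m : ℝ)) with hδ
  have hδ0 : 0 < δ := Real.rpow_pos_of_pos two_pos _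
  have hδα : δ ≤ α' := by
    have h1 : δ = s * (2 : ℝ) ^ ((1 - κ0) * (m : ℝ)) := by
      rw [hδ, hs, ← Real.rpow_add two_pos]
      congr 1
      ring
    rw [h1, hα']
    exact mul_le_mul_of_nonneg_left hdist hs0.le
  set nb : ℝ := H * (2 + ((RAF.Wc t K m H c').filter fun r => RAF.BadC R A H m r).card) with hnb
  have hnb0 : 0 ≤ nb := by positivity
  have hmA : 0 ≤ (m : ℝ) ^ (-A) := Real.rpow_nonneg hmR _
  set L : ℝ := (3 + 3 * K) * β with hL
  set P : ℝ → ℝ := (Set.Icc 0 L).indicator fun a => RLC.th (2 * c + 1 + M * ⌊a / M⌋₊) * Φ (2 * c + 1 + M * ⌊a / M⌋₊) - mn R M Φ c with hP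
  set Q : ℝ → ℝ := (Set.Icc 0 L).indicator fun a => RLC.th (2 * c' + 1 + M * ⌊a / M⌋₊) * Φ (2 * c' + 1 + M * ⌊a / M⌋₊) - mn R M Φ c' with hQ
  obtain ⟨B1, hB1⟩ := KapU_Phi_bd hΦ M c L
  obtain ⟨B2, hB2⟩ := KapU_Phi_bd hΦ M c' L
  have hPm : Measurable P := (KapU_Phi_meas R M Φ c).indicator measurableSet_Icc
  have hQm : Measurable Q := (KapU_Phi_meas R M Φ c').indicator measurableSet_Icc
  have hPB : ∀ x, |P x| ≤ max (max B1 B2) 0 := by
    intro x
    rw [hP, Set.indicator_apply]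
    split_ifs with h1
    · exact le_trans (hB1 x h1.2) (le_trans (le_max_left _ _) (le_max_left _ _))
    · rw [abs_zero]
      exact le_max_right _ _
  have hQB : ∀ x, |Q x| ≤ max (max B1 B2) 0 := by
    intro x
    rw [hQ, Set.indicator_apply]
    split_ifs with h1
    · exact le_trans (hB2 x h1.2) (le_trans (le_max_right _ _) (le_max_left _ _))
    · rw [abs_zero]
      exact le_max_right _ _
  -- the arguments
  have harg : ∀ y : ℝ × ℝ, RAF.arg t g c y = β * y.2 + (α * y.1 + g c) := by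
    intro y
    unfold RAF.arg
    rw [hlc, ← hβ, ← hs, hα]
    ring
  have harg' : ∀ y : ℝ × ℝ, RAF.arg t g c' y = β * y.2 + (α * y.1 + g c) + (α' * y.1 + (g c' - g c)) := by
    intro y
    unfold RAF.arg
    rw [hlc', ← hβ, ← hs, hα, hα']
    ring
  have hle : ∀ y ∈ Set.Icc (0 : ℝ) 1 ×ˢ Set.Icc (0 : ℝ) 1, RAF.arg t g c y ∈ Set.Icc 0 L := by
    intro y hy
    have h1 := RAF.arg_le h hc0 hy
    rw [hlc] at h1
    exact ⟨RAF.arg_nonneg h c hy, h1⟩
  have hle' : ∀ y ∈ Set.Icc (0 : ℝ) 1 ×ˢ Set.Icc (0 : ℝ) 1, RAF.arg t g c' y ∈ Set.Icc 0 L := by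
    intro y hy
    have h1 := RAF.arg_le h hc0' hy
    rw [hlc'] at h1
    exact ⟨RAF.arg_nonneg h c' hy, h1⟩
  have heq : ∫ y, (RLC.th (RAF.TT M t g c y) * Φ (RAF.TT M t g c y) - mn R M Φ c) * (RLC.th (RAF.TT M t g c' y) * Φ (RAF.TT M t g c' y) - mn R M Φ c') ∂uu =
      ∫ y, P (β * y.2 + (α * y.1 + g c)) * Q (β * y.2 + (α * y.1 + g c) + (α' * y.1 + (g c' - g c))) ∂uu := by
    unfold RAF.uu
    apply setIntegral_congr_fun (measurableSet_Icc.prod measurableSet_Icc)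
    intro y hy
    have h1 := hle y hy
    have h2 := hle' y hy
    show (RLC.th (RAF.TT M t g c y) * Φ (RAF.TT M t g c y) - mn R M Φ c) * (RLC.th (RAF.TT M t g c' y) * Φ (RAF.TT M t g c' y) - mn R M Φ c') =
      P (β * y.2 + (α * y.1 + g c)) * Q (β * y.2 + (α * y.1 + g c) + (α' * y.1 + (g c' - g c)))
    rw [← harg', ← harg, hP, hQ, Set.indicator_of_mem h1, Set.indicator_of_mem h2]
    rfl
  rw [heq]
  have hkey := KapU_dbl hPm hQm hPB hQB (g0 := g c) (γ := g c' - g c) (E := C1 * ((m : ℝ) ^ (-A) + nb / δ)) (L := L)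
    hα0 hβ0 hα0' (by positivity) (fun a ha => by rw [hP, Set.indicator_of_notMem ha]) (by
      intro a ha u0 u1 hu0 hu01 hu1 h1 h2
      have hu0' : u0 ≤ 1 := le_trans hu01 hu1
      have hu1' : 0 ≤ u1 := le_trans hu0 hu01
      have hx0 : 0 ≤ α' * u0 + (a + (g c' - g c)) := by
        have h3 := mul_nonneg hα0'.le hu0
        linarith [ha.1]
      have hx01 : α' * u0 + (a + (g c' - g c)) ≤ α' * u1 + (a + (g c' - g c)) := by
        have h3 := mul_le_mul_of_nonneg_left hu01 hα0'.le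
        linarith
      have hx1 : α' * u1 + (a + (g c' - g c)) ≤ L := by
        have h3 : ((u1, (a - g c - α * u1) / β) : ℝ × ℝ) ∈ Set.Icc (0 : ℝ) 1 ×ˢ Set.Icc (0 : ℝ) 1 := by
          refine ⟨⟨hu1', hu1⟩, ?_, ?_⟩
          · apply div_nonneg _ hβ0.le
            linarith
          · rw [div_le_one hβ0]
            have h4 := mul_le_mul_of_nonneg_left hu01 hα0.le
            linarith
        have h4 := (hle' _ h3).2
        rw [harg'] at h4
        simp only at h4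
        rw [mul_div_cancel₀ _ hβ0.ne'] at h4
        linarith
      have h5 := hw M hMR Φ hΦ m hm1 H hH1 hH2 A c' hlc' _ _ hx0 hx01 hx1
      have h6 : ∫ x in Set.Icc (α' * u0 + (a + (g c' - g c))) (α' * u1 + (a + (g c' - g c))), Q x =
          ∫ x in Set.Icc (α' * u0 + (a + (g c' - g c))) (α' * u1 + (a + (g c' - g c))),
            (RLC.th (2 * c' + 1 + M * ⌊x / M⌋₊) * Φ (2 * c' + 1 + M * ⌊x / M⌋₊) - mn R M Φ c') := by
        apply setIntegral_congr_fun measurableSet_Icc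
        intro x hx
        have h7 : x ∈ Set.Icc 0 L := ⟨le_trans hx0 hx.1, le_trans hx.2 hx1⟩
        show Q x = _
        rw [hQ, Set.indicator_of_mem h7]
      rw [h6]
      refine le_trans h5 ?_
      have h7 : (α' * u1 + (a + (g c' - g c)) - (α' * u0 + (a + (g c' - g c)))) * (m : ℝ) ^ (-A) ≤ α' * (m : ℝ) ^ (-A) := by
        apply mul_le_mul_of_nonneg_right _ hmA
        have h8 : α' * (u1 - u0) ≤ α' * 1 := mul_le_mul_of_nonneg_left (by linarith) hα0'.le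
        linarith
      have h8 : nb ≤ α' * (nb / δ) := by
        rw [← mul_div_assoc, le_div_iff₀ hδ0, mul_comm]
        exact mul_le_mul_of_nonneg_right hδα hnb0
      calc C1 * ((α' * u1 + (a + (g c' - g c)) - (α' * u0 + (a + (g c' - g c)))) * (m : ℝ) ^ (-A) + nb) ≤
            C1 * (α' * (m : ℝ) ^ (-A) + α' * (nb / δ)) := mul_le_mul_of_nonneg_left (add_le_add h7 h8) (by linarith)
        _ = α' * (C1 * ((m : ℝ) ^ (-A) + nb / δ)) := by ring)
  refine le_trans hkey ?_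
  have hmass : ∫ a in Set.Icc 0 L, |P a| ≤ C2 * β := by
    have h1 : ∫ a in Set.Icc 0 L, |P a| = ∫ x in Set.Icc 0 L, |RLC.th (2 * c + 1 + M * ⌊x / M⌋₊) * Φ (2 * c + 1 + M * ⌊x / M⌋₊) - mn R M Φ c| := by
      apply setIntegral_congr_fun measurableSet_Icc
      intro x hx
      show |P x| = _
      rw [hP, Set.indicator_of_mem hx]
    rw [h1]
    exact KapU_mass hR hMR hΦ hC1 hK hHpos hH2 hβ1 (hw M hMR Φ hΦ m hm1 H hH1 hH2 0 c hlc 0 L le_rfl (by positivity) le_rfl)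
  have hE0 : 0 ≤ C1 * ((m : ℝ) ^ (-A) + nb / δ) := by positivity
  calc C1 * ((m : ℝ) ^ (-A) + nb / δ) * (β⁻¹ * ∫ a in Set.Icc 0 L, |P a|) ≤
        C1 * ((m : ℝ) ^ (-A) + nb / δ) * (β⁻¹ * (C2 * β)) :=
        mul_le_mul_of_nonneg_left (mul_le_mul_of_nonneg_left hmass (inv_pos.mpr hβ0).le) hE0
    _ = C1 * C2 * ((m : ℝ) ^ (-A) + nb / δ) := by
        field_simp

end RAG
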