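import Pool.Agent.RAG.BlkL

/-!
# RAG.LongL: the lower bound for long chains

PROOF. `X` large, `2^(m+1) ≤ X < 2^(m+2)`: the block `m` is contained in `[1, X]`; `blk_low` with `ε/2`: `LL m = m log 2 ≤ log X ≤ LL m + 2 log 2`, so `k ≤ (1-ε) log X/log log X ≤ (1-ε/2) LL m/log (LL m)` for large `X` (`log X/log log X ≤ log X/log (LL m)`), and
`2^m (LL m)^(-(1+ε/2)k) ≥ (X/4) (log X)^(-(1+ε/2)k) ≥ X/(log X)^((1+ε)k)` as `(log X)^((ε/2)k) ≥ 4`.
-/

namespace RAG

open Filter Pool.Agent.PCx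

private theorem LongL_LL (m : ℕ) : LL m = (m : ℝ) * Real.log 2 := by
  unfold LL
  rw [Real.log_pow]

open Classical in
theorem long_low {t K : ℝ} {g : ℕ → ℝ} (h : AdmK t K g) {ζ : ℕ → ℕ} (hζ : ZH t ζ) {ω : ℕ → ℝ × ℝ} (hω : GoodI t g ζ ω)
    {ε : ℝ} (hε : 0 < ε) (hε1 : ε < 1) : ∀ᶠ X : ℕ in atTop, ∀ k : ℕ, 1 ≤ k →
    ((k : ℝ) ≤ (1 - ε) * (Real.log X / Real.log (Real.log X))) →
    (X : ℝ) / Real.log X ^ ((1 + ε) * (k : ℝ)) ≤
      (((Finset.Icc 1 X).filter fun p =>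
        (∀ i < k, (ch (MM ζ) t g ω p i).Prime) ∧ ¬ (ch (MM ζ) t g ω p k).Prime).card : ℝ) := by
  obtain ⟨m0, hm0⟩ := eventually_atTop.1
    (blk_low h hζ hω (ε := ε / 2) (by positivity) (by linarith))
  set A : ℝ := max (max 3 (4 / ε)) ((4 : ℝ) ^ (2 / ε)) with hA
  obtain ⟨m1, hm1⟩ := exists_nat_ge (A / Real.log 2)
  filter_upwards [eventually_ge_atTop (2 ^ (max m0 m1 + 1))] with X hX k hk hkX
  have hX0 : X ≠ 0 := by
    have : 0 < 2 ^ (max m0 m1 + 1) := by positivity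
    omega
  have hXp : (0 : ℝ) < (X : ℝ) := by exact_mod_cast Nat.pos_of_ne_zero hX0
  have hlog : max m0 m1 + 1 ≤ Nat.log 2 X := Nat.le_log_of_pow_le (by norm_num) hX
  obtain ⟨m, hm3⟩ : ∃ m, m + 1 = Nat.log 2 X := ⟨Nat.log 2 X - 1, by omega⟩
  have hm2 : max m0 m1 ≤ m := by omega
  have hX1 : 2 ^ (m + 1) ≤ X := by rw [hm3]; exact Nat.pow_log_le_self 2 hX0
  have hX2 : X < 2 ^ (m + 2) := by
    have h0 : X < 2 ^ (Nat.log 2 X + 1) := Nat.lt_pow_succ_log_self (by norm_num) X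
    rw [← hm3] at h0
    exact h0
  have hlog2 : 0 < Real.log 2 := Real.log_pos (by norm_num)
  have hLL : A ≤ LL m := by
    rw [LongL_LL]
    have h1 : A / Real.log 2 ≤ (m : ℝ) :=
      hm1.trans (by exact_mod_cast (le_max_right m0 m1).trans hm2)
    exact (div_le_iff₀ hlog2).1 h1
  have h3 : 3 ≤ LL m := ((le_max_left _ _).trans (le_max_left _ _)).trans hLL
  have h4 : 4 / ε ≤ LL m := ((le_max_right _ _).trans (le_max_left _ _)).trans hLL
  have h5 : (4 : ℝ) ^ (2 / ε) ≤ LL m := (le_max_right _ _).trans hLL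
  have hL1 : LL m ≤ Real.log X := by
    unfold LL
    apply Real.log_le_log (by positivity)
    have : 2 ^ m ≤ X := (Nat.pow_le_pow_right (by norm_num) (by omega)).trans hX1
    exact_mod_cast this
  have hL2 : Real.log X ≤ LL m + 2 * Real.log 2 := by
    have h6 : (X : ℝ) ≤ 2 ^ (m + 2) := by exact_mod_cast hX2.le
    have h7 : Real.log X ≤ Real.log (2 ^ (m + 2)) := Real.log_le_log hXp h6
    rw [Real.log_pow] at h7
    rw [LongL_LL]
    push_cast at h7
    linarith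
  have hlogLL : 0 < Real.log (LL m) := Real.log_pos (by linarith)
  have hloglog : Real.log (LL m) ≤ Real.log (Real.log X) := Real.log_le_log (by linarith) hL1
  have hk2 : (k : ℝ) ≤ (1 - ε / 2) * (LL m / Real.log (LL m)) := by
    refine hkX.trans ?_
    have h8 : Real.log X / Real.log (Real.log X) ≤ (LL m + 2 * Real.log 2) / Real.log (LL m) :=
      div_le_div₀ (by positivity) hL2 hlogLL hloglog
    have h9 : (1 - ε) * (LL m + 2 * Real.log 2) ≤ (1 - ε / 2) * LL m := by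
      have h11 : 2 * Real.log 2 ≤ 2 := by
        have := Real.log_two_lt_d9
        linarith
      have h10 : 4 ≤ LL m * ε := by rwa [div_le_iff₀ hε] at h4
      have h12 : (1 - ε) * (2 * Real.log 2) ≤ 1 * 2 :=
        mul_le_mul (by linarith) h11 (by positivity) (by norm_num)
      nlinarith
    calc (1 - ε) * (Real.log X / Real.log (Real.log X))
        ≤ (1 - ε) * ((LL m + 2 * Real.log 2) / Real.log (LL m)) :=
          mul_le_mul_of_nonneg_left h8 (by linarith)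
      _ = (1 - ε) * (LL m + 2 * Real.log 2) / Real.log (LL m) := by ring
      _ ≤ (1 - ε / 2) * LL m / Real.log (LL m) := div_le_div_of_nonneg_right h9 hlogLL.le
      _ = _ := by ring
  have hb := hm0 m ((le_max_left _ _).trans hm2) k hk hk2
  refine le_trans ?_ (hb.trans ?_)
  · have hLp : 0 < LL m := by linarith
    have hlX : 1 ≤ Real.log X := by linarith
    have hlX0 : 0 < Real.log X := by linarith
    have hk1 : (1 : ℝ) ≤ k := by exact_mod_cast hk
    have e1 : Real.log X ^ ((1 + ε) * (k : ℝ)) =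
        Real.log X ^ ((1 + ε / 2) * (k : ℝ)) * Real.log X ^ (ε / 2 * (k : ℝ)) := by
      rw [← Real.rpow_add hlX0]
      congr 1
      ring
    have e2 : LL m ^ ((1 + ε / 2) * (k : ℝ)) ≤ Real.log X ^ ((1 + ε / 2) * (k : ℝ)) :=
      Real.rpow_le_rpow hLp.le hL1 (by positivity)
    have e3 : (4 : ℝ) ≤ Real.log X ^ (ε / 2 * (k : ℝ)) := by
      calc (4 : ℝ) = ((4 : ℝ) ^ (2 / ε)) ^ (ε / 2) := by
            rw [← Real.rpow_mul (by norm_num)]
            have : 2 / ε * (ε / 2) = 1 := by field_simp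
            rw [this, Real.rpow_one]
        _ ≤ Real.log X ^ (ε / 2) :=
            Real.rpow_le_rpow (by positivity) (h5.trans hL1) (by positivity)
        _ ≤ Real.log X ^ (ε / 2 * (k : ℝ)) := by
            apply Real.rpow_le_rpow_of_exponent_le hlX
            nlinarith
    have e4 : (X : ℝ) ≤ 4 * 2 ^ m := by
      have h6 : (X : ℝ) ≤ 2 ^ (m + 2) := by exact_mod_cast hX2.le
      calc (X : ℝ) ≤ 2 ^ (m + 2) := h6
        _ = 4 * 2 ^ m := by ring
    have e5 : 0 < LL m ^ ((1 + ε / 2) * (k : ℝ)) := Real.rpow_pos_of_pos hLp _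
    have e6 : 0 < Real.log X ^ ((1 + ε / 2) * (k : ℝ)) := Real.rpow_pos_of_pos hlX0 _
    have e7 : 0 < Real.log X ^ (ε / 2 * (k : ℝ)) := Real.rpow_pos_of_pos hlX0 _
    rw [Real.rpow_neg hLp.le, ← div_eq_mul_inv, e1, div_le_div_iff₀ (by positivity) e5]
    calc (X : ℝ) * LL m ^ ((1 + ε / 2) * (k : ℝ))
        ≤ (4 * 2 ^ m) * Real.log X ^ ((1 + ε / 2) * (k : ℝ)) :=
          mul_le_mul e4 e2 e5.le (by positivity)
      _ = 2 ^ m * (Real.log X ^ ((1 + ε / 2) * (k : ℝ)) * 4) := by ring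
      _ ≤ 2 ^ m * (Real.log X ^ ((1 + ε / 2) * (k : ℝ)) * Real.log X ^ (ε / 2 * (k : ℝ))) := by
          apply mul_le_mul_of_nonneg_left _ (by positivity)
          exact mul_le_mul_of_nonneg_left e3 e6.le
  · have hsub : (Finset.Ico (2 ^ m) (2 ^ (m + 1))).filter (fun p =>
        (∀ i < k, (ch (MM ζ) t g ω p i).Prime) ∧ ¬ (ch (MM ζ) t g ω p k).Prime) ⊆
        (Finset.Icc 1 X).filter (fun p =>
        (∀ i < k, (ch (MM ζ) t g ω p i).Prime) ∧ ¬ (ch (MM ζ) t g ω p k).Prime) := by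
      intro p hp
      rw [Finset.mem_filter, Finset.mem_Ico] at hp
      rw [Finset.mem_filter, Finset.mem_Icc]
      refine ⟨⟨Nat.one_le_two_pow.trans hp.1.1, ?_⟩, hp.2⟩
      exact hp.1.2.le.trans hX1
    exact_mod_cast Finset.card_le_card hsub

end RAG
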