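import Pool.Agent.RAG.FixK

/-!
# RAG.LongU: the upper bound for long chains

PROOF. Let `k0` be a fixed number `≥ 24/ε + 1`. For each of the finitely many `k ≤ k0`: `cnt_fix` gives `cnt k (Icc 1 X) ≤ (BH (k-1) + 1) X/(log X)^k ≤ X/(log X)^((1-ε)k)` for large `X`. Let `k > k0`, `L = ⌊log₂ X⌋`, `m1 = ⌊(ε/2) L⌋`. `[1, X] ⊆ [1, 2^m1) ∪ ⋃_{m1≤m≤L} [2^m, 2^(m+1))`. For `m1 ≤ m ≤ L`: `k ≤ log X/log log X ≤ m1 ≤ m`
for large `X`, `cnt_loc` and `GoodI.up` with `ε/2`: `cnt k (block m) ≤ 2^m m^5 (LL m)^(-(1-ε/2)k) ≤ 2^m (L+1)^5 ((ε/4) log X)^(-(1-ε/2)k)` (`LL m ≥ m1 log 2 ≥ (ε/4) log X`), sum over `m`: `≤ 2^(L+1) (L+1)^5 (4/ε)^k (log X)^(-(1-ε/2)k) ≤ (1/2) X (log X)^(-(1-ε)k)`, because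
`4 (L+1)^5 ≤ (log X)^6 ≤ (log X)^((ε/4)k)` and `(4/ε)^k ≤ (log X)^((ε/4)k)` for large `X`. The `n < 2^m1`: at most `2^m1 ≤ X^(ε/2) ≤ (1/2) X^ε ≤ (1/2) X/(log X)^((1-ε)k)`, as `(log X)^((1-ε)k) ≤ exp((1-ε)² log X) ≤ X^(1-ε)`.
-/

namespace RAG

open Filter Pool.Agent.PCx

section aux

variable (Mb : ℕ → ℕ) (t : ℝ) (g : ℕ → ℝ) (ω : ℕ → ℝ × ℝ) (k : ℕ)

private lemma longU_cnt_mono {S T : Finset ℕ} (h : S ⊆ T) : cnt Mb t g ω k S ≤ cnt Mb t g ω k T := by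
  classical
  unfold cnt
  exact Finset.card_le_card (Finset.filter_subset_filter _ h)

private lemma longU_cnt_le_card (S : Finset ℕ) : cnt Mb t g ω k S ≤ S.card := by
  classical
  unfold cnt
  exact Finset.card_filter_le _ _

private lemma longU_cnt_union (S T : Finset ℕ) :
    cnt Mb t g ω k (S ∪ T) ≤ cnt Mb t g ω k S + cnt Mb t g ω k T := by
  classical
  unfold cnt
  rw [Finset.filter_union]
  exact Finset.card_union_le _ _

private lemma longU_cnt_biUnion (s : Finset ℕ) (f : ℕ → Finset ℕ) :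
    cnt Mb t g ω k (s.biUnion f) ≤ ∑ i ∈ s, cnt Mb t g ω k (f i) := by
  classical
  unfold cnt
  rw [Finset.filter_biUnion]
  exact Finset.card_biUnion_le

private lemma longU_cover (X m1 : ℕ) : Finset.Icc 1 X ⊆ Finset.range (2 ^ m1) ∪
    (Finset.Icc m1 (Nat.log 2 X)).biUnion (fun m => Finset.Ico (2 ^ m) (2 ^ (m + 1))) := by
  intro n hn
  rw [Finset.mem_Icc] at hn
  rw [Finset.mem_union, Finset.mem_range, Finset.mem_biUnion]
  by_cases hm : Nat.log 2 n < m1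
  · left
    calc n < 2 ^ (Nat.log 2 n + 1) := Nat.lt_pow_succ_log_self (by norm_num) n
      _ ≤ 2 ^ m1 := Nat.pow_le_pow_right (by norm_num) hm
  · right
    refine ⟨Nat.log 2 n, Finset.mem_Icc.2 ⟨not_lt.1 hm, Nat.log_mono_right hn.2⟩, ?_⟩
    rw [Finset.mem_Ico]
    exact ⟨Nat.pow_log_le_self 2 (by omega), Nat.lt_pow_succ_log_self (by norm_num) n⟩

private lemma longU_cnt_split (X m1 : ℕ) : cnt Mb t g ω k (Finset.Icc 1 X) ≤ 2 ^ m1 +
    ∑ m ∈ Finset.Icc m1 (Nat.log 2 X), cnt Mb t g ω k (Finset.Ico (2 ^ m) (2 ^ (m + 1))) := by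
  refine (longU_cnt_mono Mb t g ω k (longU_cover X m1)).trans ?_
  refine (longU_cnt_union Mb t g ω k _ _).trans ?_
  refine Nat.add_le_add ?_ (longU_cnt_biUnion Mb t g ω k _ _)
  refine (longU_cnt_le_card Mb t g ω k _).trans ?_
  rw [Finset.card_range]

end aux

private lemma longU_sum_pow (a L : ℕ) : ∑ m ∈ Finset.Icc a L, (2 : ℝ) ^ m ≤ 2 ^ (L + 1) := by
  have h1 : ∑ m ∈ Finset.Icc a L, (2 : ℝ) ^ m ≤ ∑ m ∈ Finset.range (L + 1), (2 : ℝ) ^ m := by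
    refine Finset.sum_le_sum_of_subset_of_nonneg ?_ (fun _ _ _ => by positivity)
    intro m hm
    rw [Finset.mem_Icc] at hm
    rw [Finset.mem_range]
    omega
  refine h1.trans ?_
  have h2 := geom_sum_eq (x := (2 : ℝ)) (by norm_num) (L + 1)
  rw [h2]
  have : (2 : ℝ) - 1 = 1 := by norm_num
  rw [this, div_one]
  linarith

/-- The analytic part of the bound for the blocks. -/
private lemma longU_num {ε y : ℝ} (hε : 0 < ε) (hε1 : ε < 1) (hy : 128 ≤ y) (hy2 : (8 / ε) ^ (4 / ε) ≤ y)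
    {k : ℝ} (hk : 24 / ε ≤ k) :
    128 * y ^ (5 : ℕ) * (8 / ε) ^ k * y ^ (-((1 - ε / 2) * k)) ≤ y ^ (-((1 - ε) * k)) := by
  have hy0 : 0 < y := by linarith
  have hy1 : 1 ≤ y := by linarith
  have hk0 : 0 ≤ k := le_trans (by positivity) hk
  have h8 : 0 < 8 / ε := by positivity
  have e1 : (8 / ε) ^ k ≤ y ^ (ε / 4 * k) := by
    have : (8 / ε) ^ k = ((8 / ε) ^ (4 / ε)) ^ (ε / 4 * k) := by
      rw [← Real.rpow_mul h8.le]
      congr 1
      field_simp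
    rw [this]
    exact Real.rpow_le_rpow (by positivity) hy2 (by positivity)
  have e2 : 128 * y ^ (5 : ℕ) ≤ y ^ (ε / 4 * k) := by
    have h6 : (6 : ℝ) ≤ ε / 4 * k := by
      have := (div_le_iff₀ hε).1 hk
      linarith
    calc 128 * y ^ (5 : ℕ) ≤ y * y ^ (5 : ℕ) := by gcongr
      _ = y ^ (6 : ℝ) := by
        rw [show (6 : ℝ) = ((6 : ℕ) : ℝ) by norm_num, Real.rpow_natCast]; ring
      _ ≤ y ^ (ε / 4 * k) := Real.rpow_le_rpow_of_exponent_le hy1 h6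
  calc 128 * y ^ (5 : ℕ) * (8 / ε) ^ k * y ^ (-((1 - ε / 2) * k))
      ≤ y ^ (ε / 4 * k) * y ^ (ε / 4 * k) * y ^ (-((1 - ε / 2) * k)) := by
        gcongr
    _ = y ^ (-((1 - ε) * k)) := by
        rw [← Real.rpow_add hy0, ← Real.rpow_add hy0]
        congr 1
        ring

theorem long_up {t K : ℝ} {g : ℕ → ℝ} (h : AdmK t K g) {ζ : ℕ → ℕ} (hζ : ZH t ζ) {ω : ℕ → ℝ × ℝ} (hω : GoodI t g ζ ω)
    {ε : ℝ} (hε : 0 < ε) (hε1 : ε < 1) : ∀ᶠ X : ℕ in atTop, ∀ k : ℕ, 1 ≤ k →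
    ((k : ℝ) ≤ (1 - ε) * (Real.log X / Real.log (Real.log X))) →
    (cnt (MM ζ) t g ω k (Finset.Icc 1 X) : ℝ) ≤ (X : ℝ) / Real.log X ^ ((1 - ε) * (k : ℝ)) := by
  -- the small lengths
  obtain ⟨k0, hk0⟩ : ∃ k0 : ℕ, 24 / ε ≤ k0 := exists_nat_ge _
  have hlogT : Tendsto (fun X : ℕ => Real.log (X : ℝ)) atTop atTop :=
    Real.tendsto_log_atTop.comp tendsto_natCast_atTop_atTop
  have hsmall : ∀ᶠ X : ℕ in atTop, ∀ k ∈ Finset.Icc 1 k0,
      (cnt (MM ζ) t g ω k (Finset.Icc 1 X) : ℝ) ≤ (X : ℝ) / Real.log X ^ ((1 - ε) * (k : ℝ)) := by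
    rw [Filter.eventually_all_finset]
    intro k hk
    rw [Finset.mem_Icc] at hk
    have h1 := (cnt_fix h hζ hω hk.1).eventually (eventually_le_nhds (show BH (k - 1) < BH (k - 1) + 1 by linarith))
    have hpow : Tendsto (fun X : ℕ => Real.log (X : ℝ) ^ (ε * (k : ℝ))) atTop atTop := by
      have hk' : 0 < ε * (k : ℝ) := by
        have : (1 : ℝ) ≤ k := by exact_mod_cast hk.1
        positivity
      exact (tendsto_rpow_atTop hk').comp hlogT
    filter_upwards [h1, hpow.eventually_ge_atTop (BH (k - 1) + 1), hlogT.eventually_ge_atTop 1,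
      eventually_ge_atTop 1] with X hX1 hX2 hX3 hX4
    have hl : 0 < Real.log (X : ℝ) := by linarith
    have hXp : (0 : ℝ) < X := by exact_mod_cast hX4
    rw [le_div_iff₀ (by positivity)]
    rw [div_le_iff₀ hXp] at hX1
    have hsplit : Real.log (X : ℝ) ^ k = Real.log (X : ℝ) ^ ((1 - ε) * (k : ℝ)) * Real.log (X : ℝ) ^ (ε * (k : ℝ)) := by
      rw [← Real.rpow_add hl, ← Real.rpow_natCast]
      congr 1
      ring
    have hc : (cnt (MM ζ) t g ω k (Finset.Icc 1 X) : ℝ) * Real.log (X : ℝ) ^ ((1 - ε) * (k : ℝ)) *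
        Real.log (X : ℝ) ^ (ε * (k : ℝ)) ≤ Real.log (X : ℝ) ^ (ε * (k : ℝ)) * X := by
      calc _ = (cnt (MM ζ) t g ω k (Finset.Icc 1 X) : ℝ) * Real.log (X : ℝ) ^ k := by rw [hsplit]; ring
        _ ≤ (BH (k - 1) + 1) * X := hX1
        _ ≤ _ := by gcongr
    have hpos : 0 < Real.log (X : ℝ) ^ (ε * (k : ℝ)) := by positivity
    by_contra hcon
    push Not at hcon
    have := mul_lt_mul_of_pos_right hcon hpos
    linarith
  -- the thresholds for the blocks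
  obtain ⟨m0, hm0⟩ := cnt_loc t K
  obtain ⟨m2, hm2⟩ := eventually_atTop.1 (hω.up (ε / 2) (by positivity) (by linarith))
  -- large X
  have hA : ∀ᶠ X : ℕ in atTop, ((max m0 m2 : ℕ) : ℝ) + 1 ≤ ε / 4 * Real.log X := by
    have : Tendsto (fun X : ℕ => ε / 4 * Real.log (X : ℝ)) atTop atTop :=
      hlogT.const_mul_atTop (by positivity)
    exact this.eventually_ge_atTop _
  have hB : ∀ᶠ X : ℕ in atTop, 8 / ε ≤ Real.log (Real.log X) := by
    exact (Real.tendsto_log_atTop.comp hlogT).eventually_ge_atTop _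
  have hC : ∀ᶠ X : ℕ in atTop, (8 / ε) ^ (4 / ε) ≤ Real.log X := hlogT.eventually_ge_atTop _
  have hD : ∀ᶠ X : ℕ in atTop, (128 : ℝ) ≤ Real.log X := hlogT.eventually_ge_atTop _
  have hE : ∀ᶠ X : ℕ in atTop, 16 / ε ≤ Real.log X := hlogT.eventually_ge_atTop _
  filter_upwards [hsmall, hA, hB, hC, hD, hE, eventually_ge_atTop 2] with X hXs hXA hXB hXC hXD hXE hX2
  intro k hk1 hk
  by_cases hkk : k ≤ k0
  · exact hXs k (Finset.mem_Icc.2 ⟨hk1, hkk⟩)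
  push Not at hkk
  have hXp : (0 : ℝ) < X := by exact_mod_cast (by omega : 0 < X)
  set y : ℝ := Real.log X with hy
  have hy0 : 0 < y := by linarith
  have hlly : 0 < Real.log y := lt_of_lt_of_le (by positivity) hXB
  set L : ℕ := Nat.log 2 X with hL
  set m1 : ℕ := ⌊ε / 2 * (L : ℝ)⌋₊ with hm1
  have hlog2 : 0 < Real.log 2 := Real.log_pos (by norm_num)
  have hlog2' : Real.log 2 ≤ 1 := by
    have := Real.log_two_lt_d9; linarith
  have hlog2'' : 1 / 2 ≤ Real.log 2 := by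
    have := Real.log_two_gt_d9; linarith
  -- L against y
  have hpowL : (2 : ℝ) ^ L ≤ X := by
    exact_mod_cast Nat.pow_log_le_self 2 (by omega : X ≠ 0)
  have hpowL2 : (X : ℝ) ≤ 2 ^ (L + 1) := by
    exact_mod_cast (Nat.lt_pow_succ_log_self (by norm_num : 1 < 2) X).le
  have hL1 : (L : ℝ) * Real.log 2 ≤ y := by
    have := Real.log_le_log (by positivity) hpowL
    rwa [Real.log_pow] at this
  have hL2 : y ≤ ((L : ℝ) + 1) * Real.log 2 := by
    have := Real.log_le_log hXp hpowL2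
    rw [Real.log_pow] at this
    push_cast at this
    exact this
  have hLy : (L : ℝ) ≤ 2 * y := by nlinarith [Nat.cast_nonneg (α := ℝ) L]
  have hLy2 : y - 1 ≤ (L : ℝ) := by nlinarith [Nat.cast_nonneg (α := ℝ) L]
  have hkr : (0 : ℝ) ≤ k := Nat.cast_nonneg k
  have hm1a : (m1 : ℝ) ≤ ε / 2 * (L : ℝ) := Nat.floor_le (by positivity)
  have hm1b : ε / 2 * (L : ℝ) < (m1 : ℝ) + 1 := Nat.lt_floor_add_one _
  have hey : 16 ≤ ε * y := by
    have := (div_le_iff₀ hε).1 hXE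
    linarith
  have hm1c : ε / 4 * y ≤ (m1 : ℝ) := by nlinarith
  -- k ≤ m1
  have hkm1 : k ≤ m1 := by
    have h1 : (k : ℝ) ≤ y / Real.log y := by
      refine hk.trans ?_
      have : 0 ≤ y / Real.log y := by positivity
      nlinarith
    have h2 : y / Real.log y ≤ ε / 8 * y := by
      rw [div_le_iff₀ hlly]
      have : 1 ≤ ε / 8 * Real.log y := by
        have := (div_le_iff₀ hε).1 hXB
        linarith
      nlinarith
    have h3 : (k : ℝ) ≤ (m1 : ℝ) := by nlinarith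
    exact_mod_cast h3
  have hkreal : (24 / ε : ℝ) ≤ k := hk0.trans (by exact_mod_cast hkk.le)
  -- the value of the bound
  have hfin : (X : ℝ) / y ^ ((1 - ε) * (k : ℝ)) = X * y ^ (-((1 - ε) * (k : ℝ))) := by
    rw [Real.rpow_neg hy0.le, div_eq_mul_inv]
  -- the blocks
  have hblock : ∀ m ∈ Finset.Icc m1 L, (cnt (MM ζ) t g ω k (Finset.Ico (2 ^ m) (2 ^ (m + 1))) : ℝ) ≤
      2 ^ m * (32 * y ^ (5 : ℕ) * (8 / ε) ^ (k : ℝ) * y ^ (-((1 - ε / 2) * (k : ℝ)))) := by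
    intro m hm
    rw [Finset.mem_Icc] at hm
    have hmm : max m0 m2 ≤ m := by
      have : ((max m0 m2 : ℕ) : ℝ) ≤ (m1 : ℝ) := by linarith
      exact (by exact_mod_cast this : max m0 m2 ≤ m1).trans hm.1
    have hma : m0 ≤ m := le_trans (le_max_left _ _) hmm
    have hmb : m2 ≤ m := le_trans (le_max_right _ _) hmm
    have hkm : k ≤ m := hkm1.trans hm.1
    rw [hm0 ζ g h m hma ω hω.mem _ (Finset.Subset.refl _) k (by omega)]
    refine (hm2 m hmb k hk1 hkm).trans ?_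
    have hLLm : ε / 8 * y ≤ LL m := by
      rw [LL_eq]
      have : (m1 : ℝ) ≤ m := by exact_mod_cast hm.1
      nlinarith
    have hmL : (m : ℝ) ≤ 2 * y := le_trans (by exact_mod_cast hm.2) hLy
    have hLLpos : 0 < LL m := lt_of_lt_of_le (by positivity) hLLm
    have hβ : 0 ≤ (1 - ε / 2) * (k : ℝ) := by
      have : 0 ≤ 1 - ε / 2 := by linarith
      positivity
    have e1 : LL m ^ (-((1 - ε / 2) * (k : ℝ))) ≤ (8 / ε) ^ (k : ℝ) * y ^ (-((1 - ε / 2) * (k : ℝ))) := by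
      have a1 : LL m ^ (-((1 - ε / 2) * (k : ℝ))) ≤ (ε / 8 * y) ^ (-((1 - ε / 2) * (k : ℝ))) :=
        Real.rpow_le_rpow_of_nonpos (by positivity) hLLm (by linarith)
      refine a1.trans ?_
      rw [Real.mul_rpow (by positivity) hy0.le]
      have a2 : (ε / 8) ^ (-((1 - ε / 2) * (k : ℝ))) ≤ (8 / ε) ^ (k : ℝ) := by
        rw [Real.rpow_neg (by positivity), ← Real.inv_rpow (by positivity), inv_div]
        refine Real.rpow_le_rpow_of_exponent_le ?_ ?_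
        · rw [le_div_iff₀ hε]; linarith
        · nlinarith
      gcongr
    have e2 : (m : ℝ) ^ 5 ≤ 32 * y ^ (5 : ℕ) := by
      calc (m : ℝ) ^ 5 ≤ (2 * y) ^ 5 := by gcongr
        _ = 32 * y ^ (5 : ℕ) := by ring
    calc 2 ^ m * (m : ℝ) ^ 5 * LL m ^ (-((1 - ε / 2) * (k : ℝ)))
        ≤ 2 ^ m * (32 * y ^ (5 : ℕ)) * ((8 / ε) ^ (k : ℝ) * y ^ (-((1 - ε / 2) * (k : ℝ)))) := by
          gcongr
      _ = _ := by ring
  have hsplit := longU_cnt_split (MM ζ) t g ω k X m1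
  have hsplit' : (cnt (MM ζ) t g ω k (Finset.Icc 1 X) : ℝ) ≤ 2 ^ m1 +
      ∑ m ∈ Finset.Icc m1 L, (cnt (MM ζ) t g ω k (Finset.Ico (2 ^ m) (2 ^ (m + 1))) : ℝ) := by
    exact_mod_cast hsplit
  have hsum : ∑ m ∈ Finset.Icc m1 L, (cnt (MM ζ) t g ω k (Finset.Ico (2 ^ m) (2 ^ (m + 1))) : ℝ) ≤
      1 / 2 * (X * y ^ (-((1 - ε) * (k : ℝ)))) := by
    refine (Finset.sum_le_sum hblock).trans ?_
    rw [← Finset.sum_mul]
    have h1 := longU_sum_pow m1 L
    have h2 : (2 : ℝ) ^ (L + 1) ≤ 2 * X := by rw [pow_succ]; linarith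
    have h3 := longU_num hε hε1 hXD hXC hkreal
    have h4 : 0 ≤ 32 * y ^ (5 : ℕ) * (8 / ε) ^ (k : ℝ) * y ^ (-((1 - ε / 2) * (k : ℝ))) := by positivity
    calc (∑ m ∈ Finset.Icc m1 L, (2 : ℝ) ^ m) * (32 * y ^ (5 : ℕ) * (8 / ε) ^ (k : ℝ) * y ^ (-((1 - ε / 2) * (k : ℝ))))
        ≤ (2 * X) * (32 * y ^ (5 : ℕ) * (8 / ε) ^ (k : ℝ) * y ^ (-((1 - ε / 2) * (k : ℝ)))) := by
          gcongr
          exact h1.trans h2
      _ = 1 / 2 * (X * (128 * y ^ (5 : ℕ) * (8 / ε) ^ (k : ℝ) * y ^ (-((1 - ε / 2) * (k : ℝ))))) := by ring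
      _ ≤ _ := by gcongr
  have hfirst : (2 : ℝ) ^ m1 ≤ 1 / 2 * (X * y ^ (-((1 - ε) * (k : ℝ)))) := by
    have hXe : (X : ℝ) = Real.exp y := by rw [hy, Real.exp_log hXp]
    have h1 : (2 : ℝ) ^ m1 ≤ Real.exp (ε / 2 * y) := by
      have : (2 : ℝ) ^ m1 = Real.exp ((m1 : ℝ) * Real.log 2) := by
        rw [← Real.log_pow, Real.exp_log (by positivity)]
      rw [this]
      refine Real.exp_le_exp.2 ?_
      calc (m1 : ℝ) * Real.log 2 ≤ ε / 2 * (L : ℝ) * Real.log 2 := by gcongr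
        _ = ε / 2 * ((L : ℝ) * Real.log 2) := by ring
        _ ≤ ε / 2 * y := by gcongr
    have h2 : y ^ ((1 - ε) * (k : ℝ)) ≤ Real.exp ((1 - ε) * y) := by
      rw [Real.rpow_def_of_pos hy0]
      refine Real.exp_le_exp.2 ?_
      have hkl : (k : ℝ) * Real.log y ≤ (1 - ε) * y := by
        have := mul_le_mul_of_nonneg_right hk hlly.le
        calc (k : ℝ) * Real.log y ≤ (1 - ε) * (y / Real.log y) * Real.log y := this
          _ = (1 - ε) * y := by field_simp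
      have h1e : 0 < 1 - ε := by linarith
      nlinarith
    have h3 : Real.exp (-((1 - ε) * y)) ≤ y ^ (-((1 - ε) * (k : ℝ))) := by
      rw [Real.rpow_neg hy0.le, Real.exp_neg]
      exact inv_anti₀ (by positivity) h2
    have h4 : Real.exp (ε / 2 * y) ≤ 1 / 2 * Real.exp (ε * y) := by
      have : Real.exp (ε * y) = Real.exp (ε / 2 * y) * Real.exp (ε / 2 * y) := by
        rw [← Real.exp_add]; congr 1; ring
      rw [this]
      have h5 : 2 ≤ Real.exp (ε / 2 * y) := by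
        have := Real.add_one_le_exp (ε / 2 * y)
        linarith
      nlinarith [Real.exp_pos (ε / 2 * y)]
    calc (2 : ℝ) ^ m1 ≤ Real.exp (ε / 2 * y) := h1
      _ ≤ 1 / 2 * Real.exp (ε * y) := h4
      _ = 1 / 2 * (Real.exp y * Real.exp (-((1 - ε) * y))) := by
          rw [← Real.exp_add]; congr 2; ring
      _ ≤ 1 / 2 * (X * y ^ (-((1 - ε) * (k : ℝ)))) := by
          rw [← hXe]; gcongr
  rw [hfin]
  linarith

end RAG
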