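import Pool.Agent.RAG.AeI

/-!
# RAG.NoLong: there are no longer chains

PROOF. Let `k_m = ⌈(1+ε/2) LL m/log (LL m)⌉₊ ≤ m` (`m` large). `GoodI.up` with `ε/6`: `cnt k_m (block m) ≤ 2^m m^5 (LL m)^(-(1-ε/6) k_m) ≤ 2^m m^5 2^(-(1-ε/6)(1+ε/2) m) < 1` for `m ≥ m0` (`(1-ε/6)(1+ε/2) ≥ 1 + ε/4` for `0 < ε < 1`; `(LL m)^(LL m/log (LL m)) = exp (LL m) = 2^m`), so it is `0`; the same for `MM ζ` (`cnt_loc`): no chain which
starts in a block `m ≥ m0` has the first `k_m` members all prime. For `p ≤ X` in a block `m ≥ m0`: `k < k_m ≤ (1+ε/2) LL m/log (LL m) + 1 ≤ (1+ε) log X/log log X` for large `X` (`x/log x` is increasing for `x ≥ e`; for `m` small compared to `X` trivially). For the finitely many `p < 2^m0`: the member `q = ch p m0` is in a block `m ≥ m0`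
(`ch_log_le`), so one of `ch q i = ch p (m0 + i)` (`ch_add`), `i < k_m`, is not prime: `k ≤ m0 + k_m = O(1)` for this `ω`; there are finitely many such `p`, so `k ≤ C ≤ (1+ε) log X/log log X` for large `X`.
-/

namespace RAG

open Filter Pool.Agent.PCx

private theorem NoLong_mono {a b : ℝ} (ha : Real.exp 1 ≤ a) (hab : a ≤ b) :
    a / Real.log a ≤ b / Real.log b := by
  have he : (1 : ℝ) < Real.exp 1 := by
    have := Real.add_one_lt_exp (x := 1) (by norm_num)
    linarith
  have ha0 : 0 < a := lt_of_lt_of_le (Real.exp_pos 1) ha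
  have hb0 : 0 < b := lt_of_lt_of_le ha0 hab
  have hla : 0 < Real.log a := Real.log_pos (lt_of_lt_of_le he ha)
  have hlb : 0 < Real.log b := Real.log_pos (lt_of_lt_of_le he (ha.trans hab))
  have h := Real.log_div_self_antitoneOn (Set.mem_setOf_eq ▸ ha) (Set.mem_setOf_eq ▸ ha.trans hab) hab
  simp only at h
  rw [div_le_div_iff₀ hb0 ha0] at h
  rw [div_le_div_iff₀ hla hlb]
  linarith

private theorem NoLong_LL : Tendsto (fun m : ℕ => LL m) atTop atTop := by
  have h : (fun m : ℕ => LL m) = fun m : ℕ => (m : ℝ) * Real.log 2 := by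
    funext m; exact LL_eq m
  rw [h]
  exact Tendsto.atTop_mul_const (Real.log_pos (by norm_num)) tendsto_natCast_atTop_atTop

private theorem NoLong_logdiv : Tendsto (fun x : ℝ => x / Real.log x) atTop atTop := by
  have h1 : Tendsto (fun x : ℝ => Real.exp x / x ^ 1) atTop atTop := Real.tendsto_exp_div_pow_atTop 1
  have h2 := h1.comp Real.tendsto_log_atTop
  refine h2.congr' ?_
  filter_upwards [eventually_gt_atTop 0] with x hx
  simp only [Function.comp_apply, pow_one]
  rw [Real.exp_log hx]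

private theorem NoLong_pow {c : ℝ} (hc : 0 < c) :
    ∀ᶠ m : ℕ in atTop, (m : ℝ) ^ 5 * Real.exp (-(c * m)) < 1 := by
  have h1 : Tendsto (fun m : ℕ => c * (m : ℝ)) atTop atTop :=
    Tendsto.const_mul_atTop hc tendsto_natCast_atTop_atTop
  have h2 := (Real.tendsto_pow_mul_exp_neg_atTop_nhds_zero 5).comp h1
  have h3 : ∀ᶠ m : ℕ in atTop, (c * (m : ℝ)) ^ 5 * Real.exp (-(c * m)) < c ^ 5 :=
    h2.eventually (gt_mem_nhds (pow_pos hc 5))
  filter_upwards [h3] with m hm
  have hc5 : 0 < c ^ 5 := pow_pos hc 5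
  have h4 : (c * (m : ℝ)) ^ 5 * Real.exp (-(c * m)) = c ^ 5 * ((m : ℝ) ^ 5 * Real.exp (-(c * m))) := by ring
  rw [h4] at hm
  by_contra hcon
  push Not at hcon
  nlinarith

/-- the length which does not occur in the block `m` -/
private noncomputable def NoLong_k (ε : ℝ) (m : ℕ) : ℕ := ⌈(1 + ε / 2) * (LL m / Real.log (LL m))⌉₊

private theorem NoLong_block {t K : ℝ} {g : ℕ → ℝ} (h : AdmK t K g) {ζ : ℕ → ℕ} {ω : ℕ → ℝ × ℝ}
    (hω : GoodI t g ζ ω) {ε : ℝ} (hε : 0 < ε) (hε1 : ε < 1) :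
    ∀ᶠ m : ℕ in atTop, ∀ n : ℕ, Nat.log 2 n = m →
      ¬ ∀ i < NoLong_k ε m, (ch (MM ζ) t g ω n i).Prime := by
  obtain ⟨m1, hm1⟩ := cnt_loc t K
  have hl2 : 0 < Real.log 2 := Real.log_pos (by norm_num)
  have hl2' : Real.log 2 ≤ 7 / 10 := by
    have := Real.log_two_lt_d9
    linarith
  have hc : 0 < ε / 4 * Real.log 2 := by positivity
  filter_upwards [hω.up (ε / 6) (by positivity) (by linarith), NoLong_LL.eventually_ge_atTop (Real.exp 2),
    NoLong_pow hc, eventually_ge_atTop m1, eventually_ge_atTop 10] with m hup hLL hpow hmm1 hm10 n hn hall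
  have hm10' : (10 : ℝ) ≤ m := by exact_mod_cast hm10
  have hLLpos : 0 < LL m := lt_of_lt_of_le (Real.exp_pos 2) hLL
  have hlog2 : 2 ≤ Real.log (LL m) := by
    rw [Real.le_log_iff_exp_le hLLpos]; exact hLL
  have hlogpos : 0 < Real.log (LL m) := by linarith
  have hLm : LL m = m * Real.log 2 := LL_eq m
  have hq0 : 0 < LL m / Real.log (LL m) := div_pos hLLpos hlogpos
  -- the size of `k`
  have hk1 : 1 ≤ NoLong_k ε m := by
    unfold NoLong_k
    exact Nat.one_le_ceil_iff.mpr (by positivity)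
  have hkm : NoLong_k ε m ≤ m := by
    unfold NoLong_k
    rw [Nat.ceil_le]
    have h1 : LL m / Real.log (LL m) ≤ LL m / 2 := div_le_div_of_nonneg_left hLLpos.le (by norm_num) hlog2
    have h2 : LL m / 2 ≤ 7 / 20 * m := by
      rw [hLm]
      nlinarith
    calc (1 + ε / 2) * (LL m / Real.log (LL m)) ≤ (3 / 2) * (7 / 20 * m) := by
          apply mul_le_mul (by linarith) (h1.trans h2) hq0.le (by norm_num)
      _ ≤ m := by nlinarith
  have hkge : (1 + ε / 2) * (LL m / Real.log (LL m)) ≤ NoLong_k ε m := Nat.le_ceil _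
  have hcnt := hup (NoLong_k ε m) hk1 hkm
  have hexp : LL m ^ (-((1 - ε / 6) * (NoLong_k ε m : ℝ))) ≤ Real.exp (-((1 + ε / 4) * LL m)) := by
    rw [Real.rpow_def_of_pos hLLpos]
    apply Real.exp_le_exp.mpr
    have h1 : (1 + ε / 2) * LL m ≤ Real.log (LL m) * NoLong_k ε m := by
      have h2 := mul_le_mul_of_nonneg_left hkge hlogpos.le
      have h3 : Real.log (LL m) * ((1 + ε / 2) * (LL m / Real.log (LL m))) = (1 + ε / 2) * LL m := by
        field_simp
      linarith
    have h4 : (1 + ε / 4) * LL m ≤ (1 - ε / 6) * ((1 + ε / 2) * LL m) := by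
      have h5 : 1 + ε / 4 ≤ (1 - ε / 6) * (1 + ε / 2) := by nlinarith
      nlinarith
    have h6 : (1 - ε / 6) * ((1 + ε / 2) * LL m) ≤ (1 - ε / 6) * (Real.log (LL m) * NoLong_k ε m) :=
      mul_le_mul_of_nonneg_left h1 (by linarith)
    linarith
  have h2m : (2 : ℝ) ^ m = Real.exp (LL m) := by
    unfold LL
    rw [Real.exp_log (by positivity)]
  have hlt : (cnt (Ml ζ m) t g ω (NoLong_k ε m) (Finset.Ico (2 ^ m) (2 ^ (m + 1))) : ℝ) < 1 := by
    refine lt_of_le_of_lt hcnt ?_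
    calc (2 : ℝ) ^ m * (m : ℝ) ^ 5 * LL m ^ (-((1 - ε / 6) * (NoLong_k ε m : ℝ)))
        ≤ Real.exp (LL m) * (m : ℝ) ^ 5 * Real.exp (-((1 + ε / 4) * LL m)) := by
          rw [h2m]
          exact mul_le_mul_of_nonneg_left hexp (by positivity)
      _ = (m : ℝ) ^ 5 * Real.exp (-(ε / 4 * Real.log 2 * m)) := by
          have h1 : Real.exp (-(ε / 4 * Real.log 2 * m)) =
              Real.exp (LL m) * Real.exp (-((1 + ε / 4) * LL m)) := by
            rw [← Real.exp_add]
            congr 1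
            rw [hLm]; ring
          rw [h1]; ring
      _ < 1 := hpow
  have hloc := hm1 ζ g h m hmm1 ω hω.mem (Finset.Ico (2 ^ m) (2 ^ (m + 1))) (Finset.Subset.refl _)
    (NoLong_k ε m) (by omega)
  rw [← hloc] at hlt
  have hzero : cnt (MM ζ) t g ω (NoLong_k ε m) (Finset.Ico (2 ^ m) (2 ^ (m + 1))) = 0 := by
    have : cnt (MM ζ) t g ω (NoLong_k ε m) (Finset.Ico (2 ^ m) (2 ^ (m + 1))) < 1 := by exact_mod_cast hlt
    omega
  unfold cnt at hzero
  rw [Finset.card_eq_zero] at hzero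
  have hmem : n ∈ Finset.Ico (2 ^ m) (2 ^ (m + 1)) := by
    rw [Finset.mem_Ico]
    have hn0 : n ≠ 0 := by
      rintro rfl
      simp at hn
      omega
    exact (Nat.log_eq_iff (Or.inr ⟨by norm_num, hn0⟩)).mp hn
  have hmem2 : n ∈ (Finset.Ico (2 ^ m) (2 ^ (m + 1))).filter
      fun n => ∀ i < NoLong_k ε m, (ch (MM ζ) t g ω n i).Prime := Finset.mem_filter.mpr ⟨hmem, hall⟩
  rw [hzero] at hmem2
  exact absurd hmem2 (Finset.notMem_empty n)

theorem no_long {t K : ℝ} {g : ℕ → ℝ} (h : AdmK t K g) {ζ : ℕ → ℕ} (hζ : ZH t ζ) {ω : ℕ → ℝ × ℝ} (hω : GoodI t g ζ ω)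
    {ε : ℝ} (hε : 0 < ε) (hε1 : ε < 1) : ∀ᶠ X : ℕ in atTop, ∀ p ∈ Finset.Icc 1 X, ∀ k : ℕ,
    (∀ i < k, (ch (MM ζ) t g ω p i).Prime) → (k : ℝ) ≤ (1 + ε) * (Real.log X / Real.log (Real.log X)) := by
  obtain ⟨m0, hm0⟩ := eventually_atTop.mp
    ((NoLong_block h hω hε hε1).and (NoLong_LL.eventually_ge_atTop (Real.exp 1)))
  have hlogX : Tendsto (fun X : ℕ => Real.log (X : ℝ)) atTop atTop :=
    Real.tendsto_log_atTop.comp tendsto_natCast_atTop_atTop
  have hquot : Tendsto (fun X : ℕ => Real.log (X : ℝ) / Real.log (Real.log (X : ℝ))) atTop atTop :=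
    NoLong_logdiv.comp hlogX
  set C : ℕ := ∑ p ∈ Finset.range (2 ^ m0), (m0 + NoLong_k ε (Nat.log 2 (ch (MM ζ) t g ω p m0))) with hC
  filter_upwards [hquot.eventually_ge_atTop (C : ℝ), eventually_ge_atTop 1] with X hX hX1 p hp k hall
  rw [Finset.mem_Icc] at hp
  have hq0 : 0 ≤ Real.log X / Real.log (Real.log X) := le_trans (Nat.cast_nonneg C) hX
  by_cases hpm : m0 ≤ Nat.log 2 p
  · -- a large block
    set m := Nat.log 2 p with hm
    have hkk : k < NoLong_k ε m := by
      by_contra hcon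
      push Not at hcon
      exact (hm0 m hpm).1 p hm.symm fun i hi => hall i (by omega)
    have hLLe := (hm0 m hpm).2
    have hLLX : LL m ≤ Real.log X := by
      unfold LL
      apply Real.log_le_log (by positivity)
      have h1 : 2 ^ m ≤ p := Nat.pow_log_le_self 2 (by omega)
      exact_mod_cast h1.trans hp.2
    have hklt : (k : ℝ) < (1 + ε / 2) * (LL m / Real.log (LL m)) := by
      unfold NoLong_k at hkk
      exact Nat.lt_ceil.mp hkk
    have hmono := NoLong_mono hLLe hLLX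
    have h1 : (1 + ε / 2) * (LL m / Real.log (LL m)) ≤
        (1 + ε / 2) * (Real.log X / Real.log (Real.log X)) := mul_le_mul_of_nonneg_left hmono (by linarith)
    have h2 : (1 + ε / 2) * (Real.log X / Real.log (Real.log X)) ≤
        (1 + ε) * (Real.log X / Real.log (Real.log X)) := mul_le_mul_of_nonneg_right (by linarith) hq0
    linarith
  · -- a small prime
    push Not at hpm
    have hp2 : p < 2 ^ m0 := Nat.lt_pow_of_log_lt (by norm_num) hpm
    set q := ch (MM ζ) t g ω p m0 with hq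
    have hlogq : m0 ≤ Nat.log 2 q := by
      have h0 := ch_log_le (MM ζ) t g ω (n := p) (by omega) m0
      rw [← hq] at h0
      omega
    have hkk : k < m0 + NoLong_k ε (Nat.log 2 q) := by
      by_contra hcon
      push Not at hcon
      refine (hm0 _ hlogq).1 q rfl fun i hi => ?_
      rw [hq, ← ch_add]
      exact hall (m0 + i) (by omega)
    have hkC : m0 + NoLong_k ε (Nat.log 2 q) ≤ C := by
      rw [hC]
      exact Finset.single_le_sum (f := fun p => m0 + NoLong_k ε (Nat.log 2 (ch (MM ζ) t g ω p m0)))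
        (fun _ _ => Nat.zero_le _) (Finset.mem_range.mpr hp2)
    have h1 : (k : ℝ) ≤ C := by exact_mod_cast (hkk.le.trans hkC)
    have h2 : Real.log X / Real.log (Real.log X) ≤ (1 + ε) * (Real.log X / Real.log (Real.log X)) := by
      nlinarith
    linarith

end RAG
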