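import Pool.Agent.RAG.LongL
import Pool.Agent.RAG.LongU
import Pool.Agent.RAG.NoLong

/-!
# RAG.Main: the theorem

PROOF. `ζ` from `exists_ZH`, `ae_good`, `exact_fix`, `long_low`, `long_up` (the number of exact length `k` is at most `cnt k`), `no_long`. `M q ≤ log q`: `M q = MM ζ (log₂ q) ∣ MM ζ (4 log₂ q)`, and `(MM ζ (4m))^2 ≤ m` for large `m`, so `M q ≤ √m ≤ m log 2 ≤ log q`. `d ∣ M q`: `Pool.Agent.PCx.MM_dvd` and `log₂ q → ∞`.
-/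

namespace RAG

open MeasureTheory Filter Topology Pool.Agent.PCx
open RAF (uu Pm)

private theorem Main_log (m0 : ℕ) : ∀ᶠ q : ℕ in atTop, m0 ≤ Nat.log 2 q := by
  filter_upwards [eventually_ge_atTop (2 ^ m0)] with q hq
  exact Nat.le_log_of_pow_le (by norm_num) hq

private theorem Main_le {t : ℝ} {ζ : ℕ → ℕ} (hζ : ZH t ζ) :
    ∀ᶠ q : ℕ in atTop, (MM ζ (Nat.log 2 q) : ℝ) ≤ Real.log q := by
  obtain ⟨m0, hm0⟩ := eventually_atTop.1 (hζ.small 2)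
  filter_upwards [Main_log m0, Main_log 2, eventually_gt_atTop 0] with q hq hq2 hq0
  set m := Nat.log 2 q with hm
  have h1 : MM ζ m ≤ MM ζ (4 * m) := Nat.le_of_dvd (MM_pos ζ _) (MM_chain ζ (by omega))
  have h2 : (MM ζ (4 * m)) ^ 2 ≤ m := hm0 m hq
  have h3 : 2 * MM ζ m ≤ m := by
    rcases Nat.lt_or_ge (MM ζ m) 2 with h4 | h4
    · omega
    · have h5 : (MM ζ m) ^ 2 ≤ (MM ζ (4 * m)) ^ 2 := Nat.pow_le_pow_left h1 2
      nlinarith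
  have h4 : (2 : ℝ) * (MM ζ m : ℝ) ≤ (m : ℝ) := by exact_mod_cast h3
  have h5 : (m : ℝ) * Real.log 2 ≤ Real.log q := by
    have h6 : ((2 : ℝ) ^ m) ≤ (q : ℝ) := by
      exact_mod_cast (Nat.pow_log_le_self 2 hq0.ne')
    have h7 := Real.log_le_log (by positivity) h6
    rwa [Real.log_pow] at h7
  have h6 := Real.log_two_gt_d9
  have h7 : (0 : ℝ) ≤ m := Nat.cast_nonneg m
  nlinarith

open Classical in
theorem main {t : ℝ} (ht : 1 / 2 < t) (ht' : t < 1) : ∃ Mb : ℕ → ℕ, (∀ m, 0 < Mb m) ∧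
    (∀ d : ℕ, 0 < d → ∀ᶠ q : ℕ in atTop, d ∣ Mb (Nat.log 2 q)) ∧
    (∀ᶠ q : ℕ in atTop, (Mb (Nat.log 2 q) : ℝ) ≤ Real.log q) ∧
    ∀ (K : ℝ) (g : ℕ → ℝ), AdmK t K g → ∀ᵐ ω ∂Pm,
      (∀ k : ℕ, 1 ≤ k → Tendsto (fun X : ℕ => (((Finset.Icc 1 X).filter fun p =>
        (∀ i < k, (ch Mb t g ω p i).Prime) ∧ ¬ (ch Mb t g ω p k).Prime).card : ℝ) * Real.log X ^ k / X)
        atTop (𝓝 (BH (k - 1)))) ∧
      ∀ ε : ℝ, 0 < ε → ε < 1 → ∀ᶠ X : ℕ in atTop,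
        (∀ k : ℕ, 1 ≤ k → ((k : ℝ) ≤ (1 - ε) * (Real.log X / Real.log (Real.log X))) →
          (X : ℝ) / Real.log X ^ ((1 + ε) * (k : ℝ)) ≤
            (((Finset.Icc 1 X).filter fun p =>
              (∀ i < k, (ch Mb t g ω p i).Prime) ∧ ¬ (ch Mb t g ω p k).Prime).card : ℝ) ∧
          (((Finset.Icc 1 X).filter fun p =>
              (∀ i < k, (ch Mb t g ω p i).Prime) ∧ ¬ (ch Mb t g ω p k).Prime).card : ℝ) ≤
            (X : ℝ) / Real.log X ^ ((1 - ε) * (k : ℝ))) ∧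
        ∀ p ∈ Finset.Icc 1 X, ∀ k : ℕ, (∀ i < k, (ch Mb t g ω p i).Prime) →
          (k : ℝ) ≤ (1 + ε) * (Real.log X / Real.log (Real.log X)) := by
  obtain ⟨ζ, hζ⟩ := exists_ZH ht ht'
  refine ⟨MM ζ, fun m => MM_pos ζ m, ?_, Main_le hζ, ?_⟩
  · intro d hd
    obtain ⟨m0, hm0⟩ := eventually_atTop.1 (MM_dvd hζ.grow hd)
    filter_upwards [Main_log m0] with q hq
    exact hm0 _ hq
  · intro K g hg
    filter_upwards [ae_good hg hζ] with ω hω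
    refine ⟨fun k hk => exact_fix hg hζ hω hk, fun ε hε hε1 => ?_⟩
    filter_upwards [long_low hg hζ hω hε hε1, long_up hg hζ hω hε hε1, no_long hg hζ hω hε hε1] with X h1 h2 h3
    refine ⟨fun k hk hkX => ⟨h1 k hk hkX, ?_⟩, h3⟩
    refine le_trans ?_ (h2 k hk hkX)
    unfold cnt
    exact_mod_cast Finset.card_le_card (fun p hp => by
      rw [Finset.mem_filter] at hp ⊢
      exact ⟨hp.1, hp.2.1⟩)

end RAG
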