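import Pool.Agent.RAG.Diag
import Pool.Agent.PCx.BHX

/-!
# RAG.MbF: the constants converge to the Bateman-Horn constants

PROOF. Let `m` be large, in particular `n ≤ 3m`, so that `min (m+i) (4m) = m + i` for `i < n`, and `JJ ζ (4m) = j + 1`, `j` large. `ζ j ≤ 4m < ζ (j+1)` (`JJ_succ`), and `ζ (j-1) ≤ ζ j/2^9 ≤ m`, so `JJ ζ (m+i) ∈ {j, j+1}` for all `i < n` (`JJ_mono`), increasing in `i`: there is
`i1 ≤ n` with `MM ζ (m+i) = QQ j` for `i < i1` and `= QQ (j+1)` for `i1 ≤ i < n` (`i1` = the number of the `i < n` with `m + i < ζ j`, i.e. `min n (ζ j - m)`). `kapL_lim`. (`j → ∞` as `m → ∞`: `JJ_mono` and `JJ_succ`.)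
-/

set_option linter.all false
namespace RAG

open Filter Pool.Agent.PCx

theorem kap_lim {ζ : ℕ → ℕ} (hζ : ∀ j, 2 ^ (j + 10) * (ζ j + 1) ≤ ζ (j + 1)) (n : ℕ) {δ : ℝ} (hδ : 0 < δ) :
    ∀ᶠ m : ℕ in atTop, |kapL (MM ζ (4 * m)) (fun i => MM ζ (min (m + i) (4 * m))) n - BH n| ≤ δ := by
  obtain ⟨j0, hj0⟩ := kapL_lim n δ hδ
  filter_upwards [eventually_ge_atTop (n + ζ (j0 + 1))] with m hm
  -- the index of `4m`
  have h1 : JJ ζ (ζ (j0 + 1)) = j0 + 1 + 1 := by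
    rw [JJ_succ hζ]
    refine ⟨le_rfl, ?_⟩
    have h2 := hζ (j0 + 1)
    have h3 : 1 * (ζ (j0 + 1) + 1) ≤ 2 ^ (j0 + 1 + 10) * (ζ (j0 + 1) + 1) :=
      Nat.mul_le_mul_right _ Nat.one_le_two_pow
    omega
  have h4 : j0 + 2 ≤ JJ ζ (4 * m) := by
    have h5 := JJ_mono ζ (show ζ (j0 + 1) ≤ 4 * m by omega)
    rw [h1] at h5
    exact h5
  obtain ⟨j, hj⟩ : ∃ j, JJ ζ (4 * m) = j + 1 + 1 := ⟨JJ ζ (4 * m) - 2, by omega⟩
  have hjj : j0 ≤ j := by omega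
  obtain ⟨h6, h7⟩ := (JJ_succ hζ (j + 1) (4 * m)).1 hj
  have h8 : ζ j ≤ m := by
    have h9 := hζ j
    have h10 : 2 ^ 2 * (ζ j + 1) ≤ 2 ^ (j + 10) * (ζ j + 1) :=
      Nat.mul_le_mul_right _ (Nat.pow_le_pow_right (by norm_num) (by omega))
    omega
  have hM : MM ζ (4 * m) = QQ (j + 1 + 1) := by
    unfold MM
    rw [hj]
  rw [hM]
  refine hj0 (j + 1) (by omega) _ (min n (ζ (j + 1) - m)) (min_le_left _ _) ?_
  intro i hi
  have h11 : min (m + i) (4 * m) = m + i := min_eq_left (by omega)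
  show MM ζ (min (m + i) (4 * m)) = _
  rw [h11]
  unfold MM
  by_cases hc : i < min n (ζ (j + 1) - m)
  · rw [if_pos hc]
    have h12 : i < ζ (j + 1) - m := lt_of_lt_of_le hc (min_le_right _ _)
    have h13 : JJ ζ (m + i) = j + 1 := (JJ_succ hζ j (m + i)).2 ⟨by omega, by omega⟩
    rw [h13]
  · rw [if_neg hc]
    have h14 : ζ (j + 1) - m ≤ i := by
      by_contra h15
      exact hc (lt_min hi (by omega))
    have h16 : JJ ζ (m + i) = j + 1 + 1 := (JJ_succ hζ (j + 1) (m + i)).2 ⟨by omega, by omega⟩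
    rw [h16]

end RAG
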