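import Pool.Agent.RAG.Res
import Pool.Agent.RAF.One

/-!
# RAG.OneU: the distribution of one step, uniformly in `g` and in the modulus `M ∣ R`

PROOF. As `Pool/Agent/RAF/One.lean` (`one_step`, `dens_step`; copy the private lemmas): the constants there depend on `M`, `t`, `K` only, not on `g` (only the order of the quantifiers has to be changed), and there are finitely many
`M ∣ R` (`M ≤ R`, so simply estimate `M ≤ R` everywhere). `RAF.uu_point`.
-/

namespace RAG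

open MeasureTheory
open RAF (uu Pm)

variable {M : ℕ} {t K : ℝ} {g : ℕ → ℝ}

private theorem OneU_q_lt (q : ℕ) (hq : 0 < q) :
    (2 : ℝ) ^ (Nat.log 2 q : ℝ) ≤ q ∧ (q : ℝ) < 2 * (2 : ℝ) ^ (Nat.log 2 q : ℝ) := by
  have h1 : 2 ^ Nat.log 2 q ≤ q := Nat.pow_log_le_self 2 hq.ne'
  have h2 : q < 2 ^ (Nat.log 2 q + 1) := Nat.lt_pow_succ_log_self (by norm_num) q
  rw [Real.rpow_natCast]
  constructor
  · exact_mod_cast h1
  · have h3 : (q : ℝ) < (2 : ℝ) ^ (Nat.log 2 q + 1) := by exact_mod_cast h2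
    rw [pow_succ] at h3
    linarith

private theorem OneU_rpow_mul (t : ℝ) (q : ℕ) :
    (2 : ℝ) ^ (t * (Nat.log 2 q : ℝ)) = ((2 : ℝ) ^ (Nat.log 2 q : ℝ)) ^ t := by
  rw [← Real.rpow_mul (by norm_num), mul_comm]

private theorem OneU_qt (h : RAF.Adm M t K g) (q : ℕ) (hq : 0 < q) :
    (2 : ℝ) ^ (t * (Nat.log 2 q : ℝ)) ≤ (q : ℝ) ^ t ∧
      (q : ℝ) ^ t ≤ 2 * (2 : ℝ) ^ (t * (Nat.log 2 q : ℝ)) ∧ 1 ≤ (2 : ℝ) ^ (t * (Nat.log 2 q : ℝ)) := by
  obtain ⟨h1, h2⟩ := OneU_q_lt q hq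
  have ht0 : 0 < t := by linarith [h.ht]
  rw [OneU_rpow_mul]
  have h0 : (1 : ℝ) ≤ (2 : ℝ) ^ (Nat.log 2 q : ℝ) :=
    Real.one_le_rpow (by norm_num) (Nat.cast_nonneg _)
  refine ⟨Real.rpow_le_rpow (by positivity) h1 ht0.le, ?_, Real.one_le_rpow h0 ht0.le⟩
  calc (q : ℝ) ^ t ≤ (2 * (2 : ℝ) ^ (Nat.log 2 q : ℝ)) ^ t :=
        Real.rpow_le_rpow (by positivity) h2.le ht0.le
    _ = (2 : ℝ) ^ t * ((2 : ℝ) ^ (Nat.log 2 q : ℝ)) ^ t := by
        rw [Real.mul_rpow (by norm_num) (by positivity)]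
    _ ≤ 2 * ((2 : ℝ) ^ (Nat.log 2 q : ℝ)) ^ t := by
        refine mul_le_mul_of_nonneg_right ?_ (by positivity)
        calc (2 : ℝ) ^ t ≤ (2 : ℝ) ^ (1 : ℝ) :=
              Real.rpow_le_rpow_of_exponent_le (by norm_num) h.ht1.le
          _ = 2 := Real.rpow_one 2

private theorem OneU_one (h : RAF.Adm M t K g) {R : ℕ} (hMR : M ≤ R) {C0 : ℝ} (hC0 : 1 ≤ C0) {x0 : ℕ}
    (hbt : ∀ x H : ℕ, x0 ≤ H → (x : ℝ) ^ t ≤ H → ∑ n ∈ Finset.Ioc x (x + H), RLC.th n ≤ C0 * H)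
    (q : ℕ) (hq : 0 < q) :
    ∫⁻ y, ENNReal.ofReal (RLC.th (RAF.TT M t g q y)) ∂uu ≤ ENNReal.ofReal (R * (C0 * (x0 + 5 + 3 * K))) := by
  have ht0 : 0 < t := by linarith [h.ht]
  have hK := h.hK
  have hM : (1 : ℝ) ≤ M := by exact_mod_cast h.hM
  have hMR' : (M : ℝ) ≤ R := by exact_mod_cast hMR
  obtain ⟨h1, h2, h3⟩ := OneU_qt h q hq
  have ha0 : 0 < (2 : ℝ) ^ (t * (Nat.log 2 q : ℝ)) := by positivity
  have hmeq : (2 : ℝ) ^ (-(t * (Nat.log 2 q : ℝ))) = ((2 : ℝ) ^ (t * (Nat.log 2 q : ℝ)))⁻¹ :=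
    Real.rpow_neg (by norm_num) _
  set a := (2 : ℝ) ^ (t * (Nat.log 2 q : ℝ)) with ha
  set H : ℕ := ⌈(4 + 3 * K) * a⌉₊ + x0 with hH
  have hH1 : (4 + 3 * K) * a ≤ H := by
    have h4 := Nat.le_ceil ((4 + 3 * K) * a)
    have h5 : (0 : ℝ) ≤ x0 := Nat.cast_nonneg _
    rw [hH]
    push_cast
    linarith
  have hH2 : (H : ℝ) ≤ (x0 + 5 + 3 * K) * a := by
    have h4 := Nat.ceil_lt_add_one (a := (4 + 3 * K) * a) (by positivity)
    have h5 : (0 : ℝ) ≤ x0 := Nat.cast_nonneg _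
    rw [hH]
    push_cast
    nlinarith
  have hsum : ∑ n ∈ Finset.Ioc (2 * q) (2 * q + H), RLC.th n ≤ C0 * H := by
    apply hbt
    · rw [hH]
      omega
    · push_cast
      rw [Real.mul_rpow (by norm_num) (by positivity)]
      have h6 : (2 : ℝ) ^ t ≤ 2 := by
        calc (2 : ℝ) ^ t ≤ (2 : ℝ) ^ (1 : ℝ) :=
              Real.rpow_le_rpow_of_exponent_le (by norm_num) h.ht1.le
          _ = 2 := Real.rpow_one 2
      have h7 : (0 : ℝ) ≤ (q : ℝ) ^ t := by positivity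
      nlinarith
  have hae : ∀ᵐ y ∂uu, ENNReal.ofReal (RLC.th (RAF.TT M t g q y)) ≤
      ∑ z ∈ Finset.Ioc (2 * q) (2 * q + H), ENNReal.ofReal (RLC.th z) *
        Set.indicator {y | RAF.TT M t g q y = z} (fun _ => (1 : ENNReal)) y := by
    filter_upwards [RAF.uu_ae] with y hy
    have h4 := RAF.TT_ge M t g q y
    have h5 := RAF.TT_le h hq hy
    rw [← ha] at h5
    have h6 : RAF.TT M t g q y ∈ Finset.Ioc (2 * q) (2 * q + H) := by
      rw [Finset.mem_Ioc]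
      refine ⟨by omega, ?_⟩
      have h7 : (RAF.TT M t g q y : ℝ) ≤ ((2 * q + H : ℕ) : ℝ) := by
        push_cast
        linarith
      exact_mod_cast h7
    refine le_trans (le_of_eq ?_) (Finset.single_le_sum (f := fun z => ENNReal.ofReal (RLC.th z) *
        Set.indicator {y | RAF.TT M t g q y = z} (fun _ => (1 : ENNReal)) y) (fun _ _ => zero_le) h6)
    simp
  refine (lintegral_mono_ae hae).trans ?_
  have hmeas : ∀ z : ℕ, MeasurableSet {y : ℝ × ℝ | RAF.TT M t g q y = z} := fun z =>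
    (RAF.TT_meas M t g q) (measurableSet_singleton z)
  rw [lintegral_finsetSum _ (fun z _ => (measurable_const.indicator (hmeas z)).const_mul _)]
  calc ∑ z ∈ Finset.Ioc (2 * q) (2 * q + H), ∫⁻ y, ENNReal.ofReal (RLC.th z) *
        Set.indicator {y | RAF.TT M t g q y = z} (fun _ => (1 : ENNReal)) y ∂uu
      ≤ ∑ z ∈ Finset.Ioc (2 * q) (2 * q + H), ENNReal.ofReal (RLC.th z * (M * a⁻¹)) := by
        refine Finset.sum_le_sum fun z _ => ?_
        rw [lintegral_const_mul _ (measurable_const.indicator (hmeas z)),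
          lintegral_indicator (hmeas z), setLIntegral_const, one_mul,
          ENNReal.ofReal_mul (RLC.th_nonneg z)]
        refine mul_le_mul_right ?_ _
        rw [← hmeq]
        exact RAF.uu_point h q z
    _ = ENNReal.ofReal ((∑ z ∈ Finset.Ioc (2 * q) (2 * q + H), RLC.th z) * (M * a⁻¹)) := by
        rw [← ENNReal.ofReal_sum_of_nonneg fun z _ =>
          mul_nonneg (RLC.th_nonneg z) (by positivity), Finset.sum_mul]
    _ ≤ ENNReal.ofReal (R * (C0 * (x0 + 5 + 3 * K))) := by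
        apply ENNReal.ofReal_le_ofReal
        calc (∑ z ∈ Finset.Ioc (2 * q) (2 * q + H), RLC.th z) * (M * a⁻¹)
            ≤ (C0 * ((x0 + 5 + 3 * K) * a)) * (M * a⁻¹) := by
              refine mul_le_mul_of_nonneg_right (hsum.trans ?_) (by positivity)
              exact mul_le_mul_of_nonneg_left hH2 (by linarith)
          _ = M * (C0 * (x0 + 5 + 3 * K)) := by
              field_simp
          _ ≤ R * (C0 * (x0 + 5 + 3 * K)) := by
              refine mul_le_mul_of_nonneg_right hMR' ?_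
              have : (0 : ℝ) ≤ x0 := Nat.cast_nonneg _
              positivity

theorem one_step {R : ℕ} (hR : 0 < R) (t K : ℝ) : ∃ C : ℝ, 1 ≤ C ∧ ∀ g : ℕ → ℝ, AdmK t K g → ∀ M : ℕ, M ∣ R →
    ∀ q : ℕ, 0 < q → ∫⁻ y, ENNReal.ofReal (RLC.th (RAF.TT M t g q y)) ∂uu ≤ ENNReal.ofReal C := by
  by_cases hpar : 1 / 2 < t ∧ 1 ≤ K
  · obtain ⟨ht, hK⟩ := hpar
    obtain ⟨C0, hC0, x0, hbt⟩ := RAF.bt (t := t) (by linarith)
    have hR1 : (1 : ℝ) ≤ R := by exact_mod_cast hR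
    refine ⟨R * (C0 * (x0 + 5 + 3 * K)), ?_, ?_⟩
    · have h1 : (1 : ℝ) ≤ x0 + 5 + 3 * K := by
        have : (0 : ℝ) ≤ x0 := Nat.cast_nonneg _
        linarith
      have h2 : (1 : ℝ) ≤ C0 * (x0 + 5 + 3 * K) := by nlinarith
      nlinarith
    · intro g hg M hM q hq
      exact OneU_one (hg.adm (Nat.pos_of_dvd_of_pos hM hR)) (Nat.le_of_dvd hR hM) hC0 hbt q hq
  · refine ⟨1, le_rfl, fun g hg => ?_⟩
    exact absurd ⟨hg.ht, hg.hK⟩ hpar

private theorem OneU_key (h : AdmK t K g) {R : ℕ} (hR : 0 < R) {Mb : ℕ → ℕ} (hMb : ∀ m, Mb m ∣ R)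
    {C0 : ℝ} (hC0 : 1 ≤ C0) {x0 : ℕ}
    (hbt : ∀ x H : ℕ, x0 ≤ H → (x : ℝ) ^ t ≤ H → ∑ n ∈ Finset.Ioc x (x + H), RLC.th n ≤ C0 * H)
    (z : ℕ) (hz : 0 < z) :
    ∑' q : ℕ, (if 0 < q then ENNReal.ofReal (RLC.th q) *
      uu {y | RAF.TT (Mb (Nat.log 2 q)) t g q y = z} else 0) ≤
      ENNReal.ofReal (R * ((8 + 3 * K) * (C0 * (x0 + 7 + 3 * K)))) := by
  have ht0 : 0 < t := by linarith [h.ht]
  have hK := h.hK
  have hA : ∀ q : ℕ, RAF.Adm (Mb (Nat.log 2 q)) t K g := fun q =>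
    h.adm (Nat.pos_of_dvd_of_pos (hMb _) hR)
  have hMR : ∀ m, (Mb m : ℝ) ≤ R := fun m => by exact_mod_cast Nat.le_of_dvd hR (hMb m)
  have hR1 : (1 : ℝ) ≤ R := by exact_mod_cast hR
  have hz1 : (1 : ℝ) ≤ z := by exact_mod_cast hz
  have hzt : (1 : ℝ) ≤ (z : ℝ) ^ t := Real.one_le_rpow hz1 ht0.le
  set H1 : ℕ := ⌈(4 + 3 * K) * (z : ℝ) ^ t⌉₊ with hH1
  have hH1a : (4 + 3 * K) * (z : ℝ) ^ t ≤ H1 := Nat.le_ceil _
  have hH1b : (H1 : ℝ) < (4 + 3 * K) * (z : ℝ) ^ t + 1 := Nat.ceil_lt_add_one (by positivity)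
  set x : ℕ := (z - H1) / 2 - 1 with hx
  set H : ℕ := H1 + 2 + x0 with hH
  have hHb : (H : ℝ) ≤ (x0 + 7 + 3 * K) * (z : ℝ) ^ t := by
    have h5 : (0 : ℝ) ≤ x0 := Nat.cast_nonneg _
    rw [hH]
    push_cast
    nlinarith
  have hsum : ∑ n ∈ Finset.Ioc x (x + H), RLC.th n ≤ C0 * H := by
    apply hbt
    · rw [hH]
      omega
    · have h1 : (x : ℝ) ≤ z := by
        have : x ≤ z := by omega
        exact_mod_cast this
      have h2 : (x : ℝ) ^ t ≤ (z : ℝ) ^ t := Real.rpow_le_rpow (Nat.cast_nonneg _) h1 ht0.le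
      have h3 : (H1 : ℝ) ≤ H := by
        have : H1 ≤ H := by omega
        exact_mod_cast this
      nlinarith
  -- the positive terms
  have hterm : ∀ q : ℕ, 0 < q → uu {y | RAF.TT (Mb (Nat.log 2 q)) t g q y = z} ≠ 0 →
      q ∈ Finset.Ioc x (x + H) ∧
        (2 : ℝ) ^ (-(t * (Nat.log 2 q : ℝ))) ≤ (8 + 3 * K) * ((z : ℝ) ^ t)⁻¹ := by
    intro q hq hne
    obtain ⟨y, hy, hyz⟩ : ∃ y : ℝ × ℝ, y ∈ Set.Icc (0 : ℝ) 1 ×ˢ Set.Icc (0 : ℝ) 1 ∧
        RAF.TT (Mb (Nat.log 2 q)) t g q y = z := by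
      by_contra hcon
      push Not at hcon
      apply hne
      have h1 : ∀ᵐ y ∂uu, ¬ (RAF.TT (Mb (Nat.log 2 q)) t g q y = z) := by
        filter_upwards [RAF.uu_ae] with y hy
        exact hcon y hy
      exact (ae_iff.mp h1).symm ▸ by simp
    obtain ⟨h1, h2, h3⟩ := OneU_qt (hA q) q hq
    obtain ⟨h1', h2'⟩ := OneU_q_lt q hq
    have h4 := RAF.TT_ge (Mb (Nat.log 2 q)) t g q y
    have h5 := RAF.TT_le (hA q) hq hy
    rw [hyz] at h4 h5
    have hqz : (q : ℝ) ≤ z := by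
      have : q ≤ z := by omega
      exact_mod_cast this
    have h6 : (q : ℝ) ^ t ≤ (z : ℝ) ^ t := Real.rpow_le_rpow (Nat.cast_nonneg _) hqz ht0.le
    constructor
    · have h7 : z ≤ 2 * q + H1 := by
        have h8 : (z : ℝ) ≤ ((2 * q + H1 : ℕ) : ℝ) := by
          push_cast
          have h9 : (4 + 3 * K) * (2 : ℝ) ^ (t * (Nat.log 2 q : ℝ)) ≤ (4 + 3 * K) * (z : ℝ) ^ t :=
            mul_le_mul_of_nonneg_left (h1.trans h6) (by linarith)
          linarith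
        exact_mod_cast h8
      rw [Finset.mem_Ioc]
      omega
    · set b := (2 : ℝ) ^ (Nat.log 2 q : ℝ) with hb
      have hb1 : (1 : ℝ) ≤ b := Real.one_le_rpow (by norm_num) (Nat.cast_nonneg _)
      have h7 : (z : ℝ) ≤ (8 + 3 * K) * b := by
        have h8 : (2 : ℝ) ^ (t * (Nat.log 2 q : ℝ)) ≤ b := by
          rw [hb]
          refine Real.rpow_le_rpow_of_exponent_le (by norm_num) ?_
          have h9 : (0 : ℝ) ≤ (Nat.log 2 q : ℝ) := Nat.cast_nonneg _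
          nlinarith [h.ht1]
        have h9 : (4 + 3 * K) * (2 : ℝ) ^ (t * (Nat.log 2 q : ℝ)) ≤ (4 + 3 * K) * b :=
          mul_le_mul_of_nonneg_left h8 (by linarith)
        linarith
      have h8 : (z : ℝ) ^ t ≤ (8 + 3 * K) * (2 : ℝ) ^ (t * (Nat.log 2 q : ℝ)) := by
        calc (z : ℝ) ^ t ≤ ((8 + 3 * K) * b) ^ t :=
              Real.rpow_le_rpow (Nat.cast_nonneg _) h7 ht0.le
          _ = (8 + 3 * K) ^ t * b ^ t := by
              rw [Real.mul_rpow (by linarith) (by positivity)]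
          _ ≤ (8 + 3 * K) * b ^ t := by
              refine mul_le_mul_of_nonneg_right ?_ (by positivity)
              calc (8 + 3 * K) ^ t ≤ (8 + 3 * K) ^ (1 : ℝ) :=
                    Real.rpow_le_rpow_of_exponent_le (by linarith) h.ht1.le
                _ = 8 + 3 * K := Real.rpow_one _
          _ = (8 + 3 * K) * (2 : ℝ) ^ (t * (Nat.log 2 q : ℝ)) := by
              rw [OneU_rpow_mul]
      rw [Real.rpow_neg (by norm_num)]
      have h9 : 0 < (2 : ℝ) ^ (t * (Nat.log 2 q : ℝ)) := by positivity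
      rw [← div_eq_mul_inv, le_div_iff₀ (by positivity), ← div_eq_inv_mul, div_le_iff₀ h9]
      exact h8
  rw [tsum_eq_sum (s := Finset.Ioc x (x + H))]
  · calc ∑ q ∈ Finset.Ioc x (x + H),
        (if 0 < q then ENNReal.ofReal (RLC.th q) * uu {y | RAF.TT (Mb (Nat.log 2 q)) t g q y = z} else 0)
        ≤ ∑ q ∈ Finset.Ioc x (x + H),
          ENNReal.ofReal (RLC.th q * (R * ((8 + 3 * K) * ((z : ℝ) ^ t)⁻¹))) := by
          refine Finset.sum_le_sum fun q _ => ?_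
          split_ifs with hq
          · by_cases hne : uu {y | RAF.TT (Mb (Nat.log 2 q)) t g q y = z} = 0
            · rw [hne, mul_zero]
              exact zero_le
            · rw [ENNReal.ofReal_mul (RLC.th_nonneg q)]
              refine mul_le_mul_right ((RAF.uu_point (hA q) q z).trans ?_) _
              apply ENNReal.ofReal_le_ofReal
              exact mul_le_mul (hMR _) (hterm q hq hne).2 (by positivity) (by positivity)
          · exact zero_le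
      _ = ENNReal.ofReal ((∑ q ∈ Finset.Ioc x (x + H), RLC.th q) *
          (R * ((8 + 3 * K) * ((z : ℝ) ^ t)⁻¹))) := by
          rw [← ENNReal.ofReal_sum_of_nonneg fun q _ =>
            mul_nonneg (RLC.th_nonneg q) (by positivity), Finset.sum_mul]
      _ ≤ ENNReal.ofReal (R * ((8 + 3 * K) * (C0 * (x0 + 7 + 3 * K)))) := by
          apply ENNReal.ofReal_le_ofReal
          calc (∑ q ∈ Finset.Ioc x (x + H), RLC.th q) * (R * ((8 + 3 * K) * ((z : ℝ) ^ t)⁻¹))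
              ≤ (C0 * ((x0 + 7 + 3 * K) * (z : ℝ) ^ t)) *
                (R * ((8 + 3 * K) * ((z : ℝ) ^ t)⁻¹)) := by
                refine mul_le_mul_of_nonneg_right (hsum.trans ?_) (by positivity)
                exact mul_le_mul_of_nonneg_left hHb (by linarith)
            _ = R * ((8 + 3 * K) * (C0 * (x0 + 7 + 3 * K))) := by
                field_simp
  · intro q hq
    split_ifs with hq0
    · by_cases hne : uu {y | RAF.TT (Mb (Nat.log 2 q)) t g q y = z} = 0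
      · rw [hne, mul_zero]
      · exact absurd (hterm q hq0 hne).1 hq
    · rfl

private theorem OneU_dens (g : ℕ → ℝ) (Mb : ℕ → ℕ) {C : ℝ}
    (hkey : ∀ z : ℕ, 0 < z → ∑' q : ℕ, (if 0 < q then ENNReal.ofReal (RLC.th q) *
      uu {y | RAF.TT (Mb (Nat.log 2 q)) t g q y = z} else 0) ≤ ENNReal.ofReal C)
    (F : ℕ → ENNReal) (m : ℕ) :
    ∑' q : ℕ, (if 0 < q ∧ m ≤ Nat.log 2 q then
      ENNReal.ofReal (RLC.th q) * ∫⁻ y, F (RAF.TT (Mb (Nat.log 2 q)) t g q y) ∂uu else 0) ≤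
    ENNReal.ofReal C * ∑' z : ℕ, (if 0 < z ∧ m + 1 ≤ Nat.log 2 z then F z else 0) := by
  have hint : ∀ q : ℕ, ∫⁻ y, F (RAF.TT (Mb (Nat.log 2 q)) t g q y) ∂uu = ∑' z : ℕ, F z * uu {y | RAF.TT (Mb (Nat.log 2 q)) t g q y = z} := by
    intro q
    have h1 : ∫⁻ y, F (RAF.TT (Mb (Nat.log 2 q)) t g q y) ∂uu = ∫⁻ z, F z ∂(uu.map (RAF.TT (Mb (Nat.log 2 q)) t g q)) :=
      (lintegral_map (measurable_of_countable F) (RAF.TT_meas (Mb (Nat.log 2 q)) t g q)).symm
    rw [h1, lintegral_countable']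
    refine tsum_congr fun z => ?_
    rw [Measure.map_apply (RAF.TT_meas (Mb (Nat.log 2 q)) t g q) (measurableSet_singleton z)]
    rfl
  calc ∑' q : ℕ, (if 0 < q ∧ m ≤ Nat.log 2 q then
      ENNReal.ofReal (RLC.th q) * ∫⁻ y, F (RAF.TT (Mb (Nat.log 2 q)) t g q y) ∂uu else 0)
      = ∑' q : ℕ, ∑' z : ℕ, (if 0 < q ∧ m ≤ Nat.log 2 q then
        ENNReal.ofReal (RLC.th q) * (F z * uu {y | RAF.TT (Mb (Nat.log 2 q)) t g q y = z}) else 0) := by
        refine tsum_congr fun q => ?_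
        split_ifs with hq
        · rw [hint, ENNReal.tsum_mul_left]
        · simp
    _ = ∑' z : ℕ, ∑' q : ℕ, (if 0 < q ∧ m ≤ Nat.log 2 q then
        ENNReal.ofReal (RLC.th q) * (F z * uu {y | RAF.TT (Mb (Nat.log 2 q)) t g q y = z}) else 0) := ENNReal.tsum_comm
    _ ≤ ∑' z : ℕ, ENNReal.ofReal C * (if 0 < z ∧ m + 1 ≤ Nat.log 2 z then F z else 0) := by
        refine ENNReal.tsum_le_tsum fun z => ?_
        split_ifs with hz
        · calc ∑' q : ℕ, (if 0 < q ∧ m ≤ Nat.log 2 q then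
              ENNReal.ofReal (RLC.th q) * (F z * uu {y | RAF.TT (Mb (Nat.log 2 q)) t g q y = z}) else 0)
              ≤ ∑' q : ℕ, F z * (if 0 < q then
                ENNReal.ofReal (RLC.th q) * uu {y | RAF.TT (Mb (Nat.log 2 q)) t g q y = z} else 0) := by
                refine ENNReal.tsum_le_tsum fun q => ?_
                by_cases hq : 0 < q
                · by_cases hm : m ≤ Nat.log 2 q
                  · rw [if_pos ⟨hq, hm⟩, if_pos hq]
                    apply le_of_eq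
                    ring
                  · rw [if_neg (fun hh => hm hh.2)]
                    exact zero_le
                · rw [if_neg (fun hh => hq hh.1)]
                  exact zero_le
            _ = F z * ∑' q : ℕ, (if 0 < q then
                ENNReal.ofReal (RLC.th q) * uu {y | RAF.TT (Mb (Nat.log 2 q)) t g q y = z} else 0) :=
                ENNReal.tsum_mul_left
            _ ≤ F z * ENNReal.ofReal C := mul_le_mul_right (hkey z hz.1) _
            _ = ENNReal.ofReal C * F z := mul_comm _ _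
        · rw [mul_zero]
          refine le_of_eq (ENNReal.tsum_eq_zero.mpr fun q => ?_)
          split_ifs with hq
          · have h1 : {y : ℝ × ℝ | RAF.TT (Mb (Nat.log 2 q)) t g q y = z} = ∅ := by
              ext y
              simp only [Set.mem_ofPred_eq, Set.mem_empty_iff_false, iff_false]
              intro hyz
              apply hz
              have h2 := RAF.TT_ge (Mb (Nat.log 2 q)) t g q y
              have h3 := RAF.TT_log (Mb (Nat.log 2 q)) t g hq.1 y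
              rw [hyz] at h2 h3
              omega
            rw [h1]
            simp
          · rfl
    _ = ENNReal.ofReal C * ∑' z : ℕ, (if 0 < z ∧ m + 1 ≤ Nat.log 2 z then F z else 0) :=
        ENNReal.tsum_mul_left

theorem dens_step {R : ℕ} (hR : 0 < R) (t K : ℝ) : ∃ C : ℝ, 1 ≤ C ∧ ∀ g : ℕ → ℝ, AdmK t K g →
    ∀ Mb : ℕ → ℕ, (∀ m, Mb m ∣ R) → ∀ (F : ℕ → ENNReal) (m : ℕ),
    ∑' q : ℕ, (if 0 < q ∧ m ≤ Nat.log 2 q then
      ENNReal.ofReal (RLC.th q) * ∫⁻ y, F (RAF.TT (Mb (Nat.log 2 q)) t g q y) ∂uu else 0) ≤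
    ENNReal.ofReal C * ∑' z : ℕ, (if 0 < z ∧ m + 1 ≤ Nat.log 2 z then F z else 0) := by
  by_cases hpar : 1 / 2 < t ∧ 1 ≤ K
  · obtain ⟨ht, hK⟩ := hpar
    obtain ⟨C0, hC0, x0, hbt⟩ := RAF.bt (t := t) (by linarith)
    have hR1 : (1 : ℝ) ≤ R := by exact_mod_cast hR
    refine ⟨R * ((8 + 3 * K) * (C0 * (x0 + 7 + 3 * K))), ?_, ?_⟩
    · have h1 : (1 : ℝ) ≤ x0 + 7 + 3 * K := by
        have : (0 : ℝ) ≤ x0 := Nat.cast_nonneg _
        linarith
      have h2 : (1 : ℝ) ≤ C0 * (x0 + 7 + 3 * K) := by nlinarith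
      have h3 : (1 : ℝ) ≤ (8 + 3 * K) * (C0 * (x0 + 7 + 3 * K)) := by nlinarith
      nlinarith
    · intro g hg Mb hMb F m
      exact OneU_dens g Mb (fun z hz => OneU_key hg hR hMb hC0 hbt z hz) F m
  · refine ⟨1, le_rfl, fun g hg => ?_⟩
    exact absurd ⟨hg.ht, hg.hK⟩ hpar

end RAG
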