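import Pool.Agent.RAG.Defs
import Pool.Agent.RAF.Two

/-!
# RAG.TwoU: pairs in one block, uniformly in `g` and in the modulus `M ∣ R`

PROOF. As `Pool/Agent/RAF/Two.lean` (copy): `m0` there depends on `M`, `t`, `K`, `κ` only, not on `g` (change the order of the quantifiers), and `M ≤ R`.
-/

namespace RAG

open MeasureTheory
open RAF (uu Pm)

open RAF (Adm TT arg arg_nonneg TT_meas TT_ge TT_le arg_le pair_sieve)

variable {M : ℕ} {t K : ℝ} {g : ℕ → ℝ}

private theorem TwoU_prod :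
    uu = (volume.restrict (Set.Icc (0 : ℝ) 1)).prod (volume.restrict (Set.Icc (0 : ℝ) 1)) := by
  unfold uu
  rw [Measure.prod_restrict, Measure.volume_eq_prod]

private theorem TwoU_slice (h : Adm M t K g) (q z : ℕ) {u : ℝ} (hu : u ∈ Set.Icc (0 : ℝ) 1) :
    (volume.restrict (Set.Icc (0 : ℝ) 1)) {v : ℝ | TT M t g q (u, v) = z} ≤
      ENNReal.ofReal (M * (2 : ℝ) ^ (-(t * (Nat.log 2 q : ℝ)))) := by
  have hM : (0 : ℝ) < M := by exact_mod_cast h.hM
  rw [Measure.restrict_apply' measurableSet_Icc]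
  rcases Set.eq_empty_or_nonempty ({v : ℝ | TT M t g q (u, v) = z} ∩ Set.Icc (0 : ℝ) 1)
    with he | ⟨v0, hv0, hv0'⟩
  · rw [he]
    simp
  · have ha0 : 0 < (2 : ℝ) ^ (t * (Nat.log 2 q : ℝ)) := by positivity
    set a := (2 : ℝ) ^ (t * (Nat.log 2 q : ℝ)) with ha
    set A := (2 : ℝ) ^ ((t - 1) * (Nat.log 2 q : ℝ)) * u * q + g q with hA
    have harg : ∀ v, arg t g q (u, v) = A + a * v := by
      intro v
      unfold arg
      simp only [hA, ha]
      ring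
    set k := ⌊arg t g q (u, v0) / M⌋₊ with hk
    have hsub : {v : ℝ | TT M t g q (u, v) = z} ∩ Set.Icc (0 : ℝ) 1 ⊆
        Set.Ico ((k * M - A) / a) (((k + 1) * M - A) / a) := by
      rintro v ⟨hv, hv'⟩
      have h1 : TT M t g q (u, v) = z := hv
      have h2 : TT M t g q (u, v0) = z := hv0
      unfold TT at h1 h2
      rw [← hk] at h2
      have h3 : ⌊arg t g q (u, v) / M⌋₊ = k := by
        have h8 : M * ⌊arg t g q (u, v) / M⌋₊ = M * k := by omega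
        exact Nat.eq_of_mul_eq_mul_left h.hM h8
      have h4 : 0 ≤ arg t g q (u, v) / M := div_nonneg (arg_nonneg h q ⟨hu, hv'⟩) hM.le
      have h5 := (Nat.floor_eq_iff h4).mp h3
      rw [harg] at h5
      obtain ⟨h6, h7⟩ := h5
      rw [le_div_iff₀ hM] at h6
      rw [div_lt_iff₀ hM] at h7
      constructor
      · rw [div_le_iff₀ ha0]
        linarith
      · rw [lt_div_iff₀ ha0]
        linarith
    refine (measure_mono hsub).trans ?_
    rw [Real.volume_Ico]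
    apply ENNReal.ofReal_le_ofReal
    rw [Real.rpow_neg (by norm_num), ← ha]
    apply le_of_eq
    field_simp
    ring

/-- The mean over `v` of a function of `TT q`. -/
private theorem TwoU_int (h : Adm M t K g) {q : ℕ} (hq : 0 < q) (H : ℕ)
    (hH : (4 + 3 * K) * (2 : ℝ) ^ (t * (Nat.log 2 q : ℝ)) ≤ H) (F : ℕ → ℝ) (hF : ∀ z, 0 ≤ F z)
    {u : ℝ} (hu : u ∈ Set.Icc (0 : ℝ) 1) :
    ∫⁻ v in Set.Icc (0 : ℝ) 1, ENNReal.ofReal (F (TT M t g q (u, v))) ≤
      ENNReal.ofReal ((∑ z ∈ Finset.Ioc (2 * q) (2 * q + H), F z) *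
        (M * (2 : ℝ) ^ (-(t * (Nat.log 2 q : ℝ))))) := by
  have hmu : ∀ z : ℕ, MeasurableSet {v : ℝ | TT M t g q (u, v) = z} := fun z =>
    ((TT_meas M t g q).comp measurable_prodMk_left) (measurableSet_singleton z)
  have hpt : ∀ v ∈ Set.Icc (0 : ℝ) 1, ENNReal.ofReal (F (TT M t g q (u, v))) ≤
      ∑ z ∈ Finset.Ioc (2 * q) (2 * q + H), ENNReal.ofReal (F z) *
        Set.indicator {v | TT M t g q (u, v) = z} (fun _ => (1 : ENNReal)) v := by
    intro v hv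
    have h4 := TT_ge M t g q (u, v)
    have h5 := TT_le h hq (y := (u, v)) ⟨hu, hv⟩
    have h6 : TT M t g q (u, v) ∈ Finset.Ioc (2 * q) (2 * q + H) := by
      rw [Finset.mem_Ioc]
      refine ⟨by omega, ?_⟩
      have h7 : (TT M t g q (u, v) : ℝ) ≤ ((2 * q + H : ℕ) : ℝ) := by
        push_cast
        linarith
      exact_mod_cast h7
    refine le_trans (le_of_eq ?_) (Finset.single_le_sum (f := fun z => ENNReal.ofReal (F z) *
        Set.indicator {v | TT M t g q (u, v) = z} (fun _ => (1 : ENNReal)) v) (fun _ _ => zero_le) h6)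
    simp
  refine (setLIntegral_mono' measurableSet_Icc hpt).trans ?_
  rw [lintegral_finsetSum _ (fun z _ => (measurable_const.indicator (hmu z)).const_mul _)]
  calc ∑ z ∈ Finset.Ioc (2 * q) (2 * q + H), ∫⁻ v in Set.Icc (0 : ℝ) 1, ENNReal.ofReal (F z) *
        Set.indicator {v | TT M t g q (u, v) = z} (fun _ => (1 : ENNReal)) v
      ≤ ∑ z ∈ Finset.Ioc (2 * q) (2 * q + H),
          ENNReal.ofReal (F z * (M * (2 : ℝ) ^ (-(t * (Nat.log 2 q : ℝ))))) := by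
        refine Finset.sum_le_sum fun z _ => ?_
        rw [lintegral_const_mul _ (measurable_const.indicator (hmu z)),
          lintegral_indicator (hmu z), setLIntegral_const, one_mul,
          ENNReal.ofReal_mul (hF z)]
        refine mul_le_mul_right ?_ _
        exact TwoU_slice h q z hu
    _ = _ := by
        rw [← ENNReal.ofReal_sum_of_nonneg fun z _ => mul_nonneg (hF z) (by positivity),
          Finset.sum_mul]

private theorem TwoU_floor {a δ : ℝ} (ha : 0 ≤ a) (hδ : 0 ≤ δ) :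
    ⌊a + δ⌋₊ = ⌊a⌋₊ + ⌊δ⌋₊ ∨ ⌊a + δ⌋₊ = ⌊a⌋₊ + ⌊δ⌋₊ + 1 := by
  have h1 := Nat.floor_le ha
  have h2 := Nat.floor_le hδ
  have h3 := Nat.lt_floor_add_one a
  have h4 := Nat.lt_floor_add_one δ
  have h5 : ⌊a⌋₊ + ⌊δ⌋₊ ≤ ⌊a + δ⌋₊ := by
    apply Nat.le_floor
    push_cast
    linarith
  have h6 : ⌊a + δ⌋₊ < ⌊a⌋₊ + ⌊δ⌋₊ + 2 := by
    rw [Nat.floor_lt (by linarith)]
    push_cast
    linarith
  omega

/-- The difference of the arguments. -/
private theorem TwoU_shift (h : Adm M t K g) {c c' : ℕ} (hcc : c < c')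
    (hl : Nat.log 2 c = Nat.log 2 c') {u : ℝ} (hu : u ∈ Set.Icc (0 : ℝ) 1) :
    ∃ e : ℕ, (∀ v ∈ Set.Icc (0 : ℝ) 1,
      (TT M t g c' (u, v) = TT M t g c (u, v) + (2 * (c' - c) + M * e) ∨
        TT M t g c' (u, v) = TT M t g c (u, v) + (2 * (c' - c) + M * e + M))) ∧
      (M : ℝ) * e ≤ (3 + 3 * K) * (2 : ℝ) ^ (t * (Nat.log 2 c' : ℝ)) := by
  have hM : (0 : ℝ) < M := by exact_mod_cast h.hM
  set Δ : ℝ := (2 : ℝ) ^ ((t - 1) * (Nat.log 2 c' : ℝ)) * u * (c' - c) + (g c' - g c) with hΔ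
  have hcr : (c : ℝ) ≤ c' := by exact_mod_cast hcc.le
  have hΔ0 : 0 ≤ Δ := by
    have h1 : 0 ≤ (2 : ℝ) ^ ((t - 1) * (Nat.log 2 c' : ℝ)) * u * ((c' : ℝ) - c) :=
      mul_nonneg (mul_nonneg (by positivity) hu.1) (by linarith)
    have h2 := h.mono hcc.le
    rw [hΔ]
    linarith
  have harg : ∀ v, arg t g c' (u, v) = arg t g c (u, v) + Δ := by
    intro v
    unfold arg
    rw [hl, hΔ]
    ring
  refine ⟨⌊Δ / M⌋₊, ?_, ?_⟩
  · intro v hv
    have h1 : 0 ≤ arg t g c (u, v) / M := div_nonneg (arg_nonneg h c ⟨hu, hv⟩) hM.le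
    have h2 : 0 ≤ Δ / M := div_nonneg hΔ0 hM.le
    have h3 : arg t g c' (u, v) / M = arg t g c (u, v) / M + Δ / M := by
      rw [harg, add_div]
    unfold TT
    rw [h3]
    rcases TwoU_floor h1 h2 with h4 | h4
    · left
      rw [h4, Nat.mul_add]
      omega
    · right
      rw [h4, Nat.mul_add, Nat.mul_add, Nat.mul_one]
      omega
  · have h1 : (⌊Δ / M⌋₊ : ℝ) ≤ Δ / M := Nat.floor_le (div_nonneg hΔ0 hM.le)
    have h2 : (M : ℝ) * ⌊Δ / M⌋₊ ≤ Δ := by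
      rw [le_div_iff₀ hM] at h1
      linarith
    have h3 := arg_nonneg h c (y := (u, 0)) ⟨hu, ⟨le_rfl, zero_le_one⟩⟩
    have h4 := arg_le h (q := c') (by omega) (y := (u, 0)) ⟨hu, ⟨le_rfl, zero_le_one⟩⟩
    rw [harg] at h4
    linarith

/-- The case `c < c'`. -/
private theorem TwoU_lt {R : ℕ} (t K : ℝ) (ht0' : 1 / 2 < t) (ht1 : t < 1) (hK : 1 ≤ K) {κ : ℝ} (hκ : 0 < κ) :
    ∃ m0 : ℕ, ∀ g : ℕ → ℝ, ∀ M : ℕ, M ≤ R → Adm M t K g → ∀ m : ℕ, m0 ≤ m →
    ∀ c c' : ℕ, Nat.log 2 c = m → Nat.log 2 c' = m → c < c' →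
    ∫⁻ y, ENNReal.ofReal (RLC.th (TT M t g c y) * RLC.th (TT M t g c' y)) ∂uu ≤
      ENNReal.ofReal ((m : ℝ) ^ κ) := by
  have ht0 : 0 < t := by linarith
  obtain ⟨x0, hx0⟩ := pair_sieve (t := t / 2) (κ := κ / 2) (by linarith) (by linarith)
  -- large `m`
  have hE1 : ∀ᶠ m : ℕ in Filter.atTop, 5 + 3 * K + R ≤ (2 : ℝ) ^ ((1 - t) * (m : ℝ)) := by
    have h1 : Filter.Tendsto (fun m : ℕ => (2 : ℝ) ^ ((1 - t) * (m : ℝ))) Filter.atTop Filter.atTop := by
      have h2 : Filter.Tendsto (fun m : ℕ => (1 - t) * (m : ℝ)) Filter.atTop Filter.atTop :=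
        Filter.Tendsto.const_mul_atTop (by linarith) tendsto_natCast_atTop_atTop
      exact (tendsto_rpow_atTop_of_base_gt_one 2 (by norm_num)).comp h2
    exact h1.eventually_ge_atTop _
  have hE2 : ∀ᶠ m : ℕ in Filter.atTop, (x0 : ℝ) ≤ (2 : ℝ) ^ (t * (m : ℝ)) := by
    have h1 : Filter.Tendsto (fun m : ℕ => (2 : ℝ) ^ (t * (m : ℝ))) Filter.atTop Filter.atTop := by
      have h2 : Filter.Tendsto (fun m : ℕ => t * (m : ℝ)) Filter.atTop Filter.atTop :=
        Filter.Tendsto.const_mul_atTop ht0 tendsto_natCast_atTop_atTop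
      exact (tendsto_rpow_atTop_of_base_gt_one 2 (by norm_num)).comp h2
    exact h1.eventually_ge_atTop _
  have hE3 : ∀ᶠ m : ℕ in Filter.atTop, 2 * R * (5 + 3 * K) ≤ (m : ℝ) ^ (κ / 2) := by
    have h1 : Filter.Tendsto (fun m : ℕ => (m : ℝ) ^ (κ / 2)) Filter.atTop Filter.atTop :=
      (tendsto_rpow_atTop (by linarith)).comp tendsto_natCast_atTop_atTop
    exact h1.eventually_ge_atTop _
  obtain ⟨m0, hm0⟩ := Filter.eventually_atTop.mp (hE1.and (hE2.and hE3))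
  refine ⟨max m0 3, fun g M hMR h m hm c c' hc hc' hcc => ?_⟩
  have hMn := h.hM
  have hM : (1 : ℝ) ≤ M := by exact_mod_cast hMn
  have hMRr : (M : ℝ) ≤ R := by exact_mod_cast hMR
  obtain ⟨hm1', hm2, hm3'⟩ := hm0 m ((le_max_left _ _).trans hm)
  have hm1 : 5 + 3 * K + M ≤ (2 : ℝ) ^ ((1 - t) * (m : ℝ)) := by linarith
  have hm3 : 2 * M * (5 + 3 * K) ≤ (m : ℝ) ^ (κ / 2) := by
    refine le_trans ?_ hm3'
    exact mul_le_mul_of_nonneg_right (by linarith) (by linarith)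
  have hm4 : 3 ≤ m := (le_max_right _ _).trans hm
  have hmr : (3 : ℝ) ≤ m := by exact_mod_cast hm4
  have hc0 : 0 < c := by
    rcases Nat.eq_zero_or_pos c with h0 | h0
    · subst h0
      simp at hc
      omega
    · exact h0
  -- sizes
  set a : ℝ := (2 : ℝ) ^ (t * (m : ℝ)) with ha
  have ha1 : 1 ≤ a := Real.one_le_rpow (by norm_num) (by positivity)
  have haη : a * (2 : ℝ) ^ ((1 - t) * (m : ℝ)) = (2 : ℝ) ^ m := by
    rw [ha, ← Real.rpow_add (by norm_num), ← Real.rpow_natCast]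
    congr 1
    ring
  have haM : a * (5 + 3 * K + M) ≤ (2 : ℝ) ^ m := by
    rw [← haη]
    exact mul_le_mul_of_nonneg_left hm1 (by linarith)
  set H : ℕ := ⌈(4 + 3 * K) * a⌉₊ with hH
  have hHl : (4 + 3 * K) * a ≤ H := Nat.le_ceil _
  have hHu : (H : ℝ) ≤ (5 + 3 * K) * a := by
    have h4 := Nat.ceil_lt_add_one (a := (4 + 3 * K) * a) (by positivity)
    rw [hH]
    nlinarith
  have hcl : (2 : ℝ) ^ m ≤ c := by
    have h1 : 2 ^ Nat.log 2 c ≤ c := Nat.pow_log_le_self 2 hc0.ne'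
    rw [hc] at h1
    exact_mod_cast h1
  have hcu : (c : ℝ) ≤ 2 * (2 : ℝ) ^ m := by
    have h1 : c < 2 ^ (Nat.log 2 c + 1) := Nat.lt_pow_succ_log_self (by norm_num) c
    rw [hc, pow_succ] at h1
    have h2 : (c : ℝ) < 2 ^ m * 2 := by exact_mod_cast h1
    linarith
  have hcu' : (c' : ℝ) ≤ 2 * (2 : ℝ) ^ m := by
    have h1 : c' < 2 ^ (Nat.log 2 c' + 1) := Nat.lt_pow_succ_log_self (by norm_num) c'
    rw [hc', pow_succ] at h1
    have h2 : (c' : ℝ) < 2 ^ m * 2 := by exact_mod_cast h1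
    linarith
  have hp0 : (0 : ℝ) < 2 ^ m := by positivity
  have hH1 : x0 ≤ H := by
    have : (x0 : ℝ) ≤ H := by nlinarith
    exact_mod_cast this
  have hH2 : ((2 * c : ℕ) : ℝ) ^ (t / 2) ≤ H := by
    have h1 : ((2 * c : ℕ) : ℝ) ≤ (2 : ℝ) ^ ((m : ℝ) + 2) := by
      rw [Real.rpow_add (by norm_num), Real.rpow_natCast]
      push_cast
      norm_num
      linarith
    have h2 : ((2 * c : ℕ) : ℝ) ^ (t / 2) ≤ ((2 : ℝ) ^ ((m : ℝ) + 2)) ^ (t / 2) :=
      Real.rpow_le_rpow (Nat.cast_nonneg _) h1 (by linarith)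
    have h3 : ((2 : ℝ) ^ ((m : ℝ) + 2)) ^ (t / 2) ≤ a := by
      rw [← Real.rpow_mul (by norm_num), ha]
      apply Real.rpow_le_rpow_of_exponent_le (by norm_num)
      nlinarith
    nlinarith
  have hH3 : H ≤ 2 * c := by
    have : (H : ℝ) ≤ ((2 * c : ℕ) : ℝ) := by
      push_cast
      nlinarith
    exact_mod_cast this
  -- the logarithm of `H`
  have hHpos : (0 : ℝ) < H := by nlinarith
  have hlogH : Real.log H ≤ m := by
    have h1 : (H : ℝ) ≤ 2 ^ m := by nlinarith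
    have h2 : Real.log H ≤ Real.log ((2 : ℝ) ^ m) := Real.log_le_log hHpos h1
    rw [Real.log_pow] at h2
    have h3 := Real.log_two_lt_d9
    nlinarith
  have hlogH0 : 0 ≤ Real.log H := Real.log_natCast_nonneg H
  -- the sum
  have hsum : ∀ d : ℕ, 1 ≤ d → d ≤ 4 * (2 * c) →
      ∑ n ∈ Finset.Ioc (2 * c) (2 * c + H), RLC.th n * RLC.th (n + d) ≤ H * (m : ℝ) ^ (κ / 2) := by
    intro d hd1 hd2
    refine (hx0 (2 * c) H d hH1 hH2 hH3 hd1 hd2).trans ?_
    exact mul_le_mul_of_nonneg_left (Real.rpow_le_rpow hlogH0 hlogH (by linarith)) hHpos.le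
  have hmain : ∀ u ∈ Set.Icc (0 : ℝ) 1, ∫⁻ v in Set.Icc (0 : ℝ) 1,
      ENNReal.ofReal (RLC.th (TT M t g c (u, v)) * RLC.th (TT M t g c' (u, v))) ≤
      ENNReal.ofReal ((m : ℝ) ^ κ) := by
    intro u hu
    obtain ⟨e, he1, he2⟩ := TwoU_shift h hcc (hc.trans hc'.symm) hu
    rw [hc', ← ha] at he2
    set D : ℕ := 2 * (c' - c) + M * e with hD
    have hDM : D + M ≤ 4 * (2 * c) := by
      have h1 : ((D + M : ℕ) : ℝ) ≤ ((4 * (2 * c) : ℕ) : ℝ) := by
        rw [hD]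
        push_cast [Nat.cast_sub hcc.le]
        nlinarith
      exact_mod_cast h1
    have hD1 : 1 ≤ D := by omega
    set F : ℕ → ℝ := fun z => RLC.th z * RLC.th (z + D) + RLC.th z * RLC.th (z + (D + M)) with hF
    have hF0 : ∀ z, 0 ≤ F z := fun z =>
      add_nonneg (mul_nonneg (RLC.th_nonneg _) (RLC.th_nonneg _))
        (mul_nonneg (RLC.th_nonneg _) (RLC.th_nonneg _))
    have hpt : ∀ v ∈ Set.Icc (0 : ℝ) 1,
        ENNReal.ofReal (RLC.th (TT M t g c (u, v)) * RLC.th (TT M t g c' (u, v))) ≤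
        ENNReal.ofReal (F (TT M t g c (u, v))) := by
      intro v hv
      apply ENNReal.ofReal_le_ofReal
      have p1 : 0 ≤ RLC.th (TT M t g c (u, v)) * RLC.th (TT M t g c (u, v) + D) :=
        mul_nonneg (RLC.th_nonneg _) (RLC.th_nonneg _)
      have p2 : 0 ≤ RLC.th (TT M t g c (u, v)) * RLC.th (TT M t g c (u, v) + (D + M)) :=
        mul_nonneg (RLC.th_nonneg _) (RLC.th_nonneg _)
      simp only [hF]
      rcases he1 v hv with h1 | h1
      · rw [h1]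
        linarith
      · rw [h1]
        linarith
    refine (setLIntegral_mono' measurableSet_Icc hpt).trans ?_
    have hHl' : (4 + 3 * K) * (2 : ℝ) ^ (t * (Nat.log 2 c : ℝ)) ≤ H := by
      rw [hc]
      exact hHl
    refine (TwoU_int h hc0 H hHl' F hF0 hu).trans ?_
    apply ENNReal.ofReal_le_ofReal
    rw [hc, Real.rpow_neg (by norm_num), ← ha]
    have hs1 := hsum D hD1 (by omega)
    have hs2 := hsum (D + M) (by omega) hDM
    have hs3 : ∑ z ∈ Finset.Ioc (2 * c) (2 * c + H), F z ≤ 2 * (H * (m : ℝ) ^ (κ / 2)) := by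
      simp only [hF]
      rw [Finset.sum_add_distrib]
      linarith
    have hpk : 0 < (m : ℝ) ^ (κ / 2) := Real.rpow_pos_of_pos (by linarith) _
    have hkk : (m : ℝ) ^ κ = (m : ℝ) ^ (κ / 2) * (m : ℝ) ^ (κ / 2) := by
      rw [← Real.rpow_add (by linarith)]
      congr 1
      ring
    have ha0 : 0 < a := by linarith
    calc (∑ z ∈ Finset.Ioc (2 * c) (2 * c + H), F z) * (M * a⁻¹)
        ≤ (2 * (((5 + 3 * K) * a) * (m : ℝ) ^ (κ / 2))) * (M * a⁻¹) := by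
          refine mul_le_mul_of_nonneg_right (hs3.trans ?_) (by positivity)
          have := mul_le_mul_of_nonneg_right hHu hpk.le
          linarith
      _ = (2 * M * (5 + 3 * K)) * (m : ℝ) ^ (κ / 2) := by
          field_simp
      _ ≤ (m : ℝ) ^ κ := by
          rw [hkk]
          exact mul_le_mul_of_nonneg_right hm3 hpk.le
  -- integrate over `u`
  have hth : Measurable RLC.th := measurable_of_countable _
  have hmeas : Measurable fun y : ℝ × ℝ =>
      ENNReal.ofReal (RLC.th (TT M t g c y) * RLC.th (TT M t g c' y)) :=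
    ((hth.comp (TT_meas M t g c)).mul (hth.comp (TT_meas M t g c'))).ennreal_ofReal
  rw [TwoU_prod, lintegral_prod _ hmeas.aemeasurable]
  calc ∫⁻ u in Set.Icc (0 : ℝ) 1, ∫⁻ v in Set.Icc (0 : ℝ) 1,
        ENNReal.ofReal (RLC.th (TT M t g c (u, v)) * RLC.th (TT M t g c' (u, v)))
      ≤ ∫⁻ _u in Set.Icc (0 : ℝ) 1, ENNReal.ofReal ((m : ℝ) ^ κ) :=
        setLIntegral_mono' measurableSet_Icc hmain
    _ = ENNReal.ofReal ((m : ℝ) ^ κ) := by
        rw [lintegral_const]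
        simp

theorem two_step {R : ℕ} (hR : 0 < R) (t K : ℝ) {κ : ℝ} (hκ : 0 < κ) : ∃ m0 : ℕ, ∀ g : ℕ → ℝ, AdmK t K g →
    ∀ M : ℕ, M ∣ R → ∀ m : ℕ, m0 ≤ m → ∀ c c' : ℕ, Nat.log 2 c = m → Nat.log 2 c' = m → c ≠ c' →
    ∫⁻ y, ENNReal.ofReal (RLC.th (RAF.TT M t g c y) * RLC.th (RAF.TT M t g c' y)) ∂uu ≤
      ENNReal.ofReal ((m : ℝ) ^ κ) := by
  by_cases hh : 1 / 2 < t ∧ t < 1 ∧ 1 ≤ K
  · obtain ⟨m0, hm0⟩ := TwoU_lt (R := R) t K hh.1 hh.2.1 hh.2.2 hκ
    refine ⟨m0, fun g hg M hM m hm c c' hc hc' hne => ?_⟩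
    have hM0 : 0 < M := Nat.pos_of_dvd_of_pos hM hR
    have hMR : M ≤ R := Nat.le_of_dvd hR hM
    have h := hg.adm hM0
    rcases Nat.lt_or_gt_of_ne hne with hlt | hlt
    · exact hm0 g M hMR h m hm c c' hc hc' hlt
    · have h1 := hm0 g M hMR h m hm c' c hc' hc hlt
      simpa only [mul_comm] using h1
  · refine ⟨0, fun g hg => ?_⟩
    exact absurd ⟨hg.ht, hg.ht1, hg.hK⟩ hh

end RAG
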