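import Pool.Agent.RAG.BadU
import Pool.Agent.RAG.TwoU
import Pool.Agent.RAG.OneU
import Pool.Agent.RAF.StepV

/-!
# RAG.StepV: the mean square of one step

PROOF. As `Pool/Agent/RAF/StepV.lean` (copy), with `kap_main` of `BadU.lean`, `two_step` of `TwoU.lean`, `one_step` of `OneU.lean` and `mn_le` (`M/φ(M) ≤ M ≤ R`), `0 ≤ Φ ≤ 1`.
-/

namespace RAG

open MeasureTheory
open RAF (uu Pm)

open Classical in
/-- What is known about one step. -/
structure SVG (R : ℕ) (t K κ κ' A : ℝ) (B : Set ℕ) (m0 : ℕ) : Prop where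
  card : ∀ m : ℕ, m0 ≤ m →
    (((Finset.Ico (2 ^ m) (2 ^ (m + 1))).filter fun z => z ∈ B).card : ℝ) ≤ (2 : ℝ) ^ ((1 - κ) * (m : ℝ))
  two : ∀ g : ℕ → ℝ, AdmK t K g → ∀ M : ℕ, M ∣ R → ∀ m : ℕ, m0 ≤ m → ∀ c c' : ℕ, Nat.log 2 c = m →
    Nat.log 2 c' = m → c ≠ c' →
    ∫⁻ y, ENNReal.ofReal (RLC.th (RAF.TT M t g c y) * RLC.th (RAF.TT M t g c' y)) ∂uu ≤
      ENNReal.ofReal ((m : ℝ) ^ κ')
  step : ∀ g : ℕ → ℝ, AdmK t K g → ∀ M : ℕ, M ∣ R → ∀ Φ : ℕ → ℝ, Per R Φ → ∀ m : ℕ, m0 ≤ m →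
    ∀ (I : Finset ℕ) (c : ℕ → ℕ) (om : ℕ → ℝ),
    (∀ i ∈ I, Nat.log 2 (c i) = m ∧ c i ∉ B) → (∀ i ∈ I, 0 ≤ om i) →
    ∫⁻ y, ENNReal.ofReal ((∑ i ∈ I, om i *
        (RLC.th (RAF.TT M t g (c i) y) * Φ (RAF.TT M t g (c i) y) - mn R M Φ (c i))) ^ 2) ∂uu ≤
      ENNReal.ofReal ((m : ℝ) ^ (-A) * (∑ i ∈ I, om i) ^ 2 +
        ∑ i ∈ I, ∑ i' ∈ I, om i * om i' * RAF.bd κ κ' m (c i) (c i'))

/-- The weighted function. -/
private noncomputable def StepV_F (M : ℕ) (t : ℝ) (g : ℕ → ℝ) (Φ : ℕ → ℝ) (c : ℕ) (y : ℝ × ℝ) : ℝ :=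
  RLC.th (RAF.TT M t g c y) * Φ (RAF.TT M t g c y)

variable {R M : ℕ} {t K : ℝ} {g : ℕ → ℝ} {Φ : ℕ → ℝ}

private theorem StepV_F_nonneg (hΦ : Per R Φ) (M : ℕ) (t : ℝ) (g : ℕ → ℝ) (c : ℕ) (y : ℝ × ℝ) :
    0 ≤ StepV_F M t g Φ c y := mul_nonneg (RLC.th_nonneg _) (hΦ.nonneg _)

private theorem StepV_F_le (hΦ : Per R Φ) (M : ℕ) (t : ℝ) (g : ℕ → ℝ) (c : ℕ) (y : ℝ × ℝ) :
    StepV_F M t g Φ c y ≤ RLC.th (RAF.TT M t g c y) :=
  mul_le_of_le_one_right (RLC.th_nonneg _) (hΦ.le _)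

private theorem StepV_int_le {f : ℝ × ℝ → ℝ} (hm : Measurable f) (h0 : ∀ y, 0 ≤ f y) {k : ℝ} (hk : 0 ≤ k)
    (h : ∫⁻ y, ENNReal.ofReal (f y) ∂uu ≤ ENNReal.ofReal k) : ∫ y, f y ∂uu ≤ k := by
  rw [integral_eq_lintegral_of_nonneg_ae (Filter.Eventually.of_forall h0) hm.aestronglyMeasurable]
  exact ENNReal.toReal_le_of_le_ofReal hk h

private theorem StepV_ae : ∀ᵐ y ∂uu, y ∈ Set.Icc (0 : ℝ) 1 ×ˢ Set.Icc (0 : ℝ) 1 := by
  unfold RAF.uu
  exact ae_restrict_mem (measurableSet_Icc.prod measurableSet_Icc)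

private theorem StepV_th_meas (M : ℕ) (t : ℝ) (g : ℕ → ℝ) (q : ℕ) :
    Measurable fun y => RLC.th (RAF.TT M t g q y) :=
  (measurable_of_countable RLC.th).comp (RAF.TT_meas M t g q)

private theorem StepV_F_meas (M : ℕ) (t : ℝ) (g : ℕ → ℝ) (Φ : ℕ → ℝ) (q : ℕ) :
    Measurable fun y => StepV_F M t g Φ q y :=
  (measurable_of_countable fun n => RLC.th n * Φ n).comp (RAF.TT_meas M t g q)

/-- The bound of `log TT`. -/
private theorem StepV_log (h : RAF.Adm M t K g) {c m : ℕ} (hm : 1 ≤ m) (hc : Nat.log 2 c = m) {y : ℝ × ℝ}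
    (hy : y ∈ Set.Icc (0 : ℝ) 1 ×ˢ Set.Icc (0 : ℝ) 1) :
    RLC.th (RAF.TT M t g c y) ≤ (m : ℝ) + Real.log (8 + 3 * K) := by
  have hc0 : 0 < c := by
    rcases Nat.eq_zero_or_pos c with h0 | h0
    · rw [h0, Nat.log_zero_right] at hc
      omega
    · exact h0
  have hK := h.hK
  have h1 := RAF.TT_le h hc0 hy
  rw [hc] at h1
  have h2 : (2 : ℝ) ^ (t * (m : ℝ)) ≤ 2 ^ m := by
    rw [← Real.rpow_natCast 2 m]
    apply Real.rpow_le_rpow_of_exponent_le (by norm_num)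
    have := h.ht1
    have hm0 : (0 : ℝ) ≤ m := Nat.cast_nonneg m
    nlinarith
  have h3 : (c : ℝ) ≤ 2 * 2 ^ m := by
    have := Nat.lt_pow_succ_log_self (b := 2) (by norm_num) c
    rw [hc, pow_succ] at this
    have h4 : (c : ℝ) < ((2 ^ m * 2 : ℕ) : ℝ) := by exact_mod_cast this
    push_cast at h4
    linarith
  have h5 : (RAF.TT M t g c y : ℝ) ≤ (8 + 3 * K) * 2 ^ m := by
    have h6 : (4 + 3 * K) * (2 : ℝ) ^ (t * (m : ℝ)) ≤ (4 + 3 * K) * 2 ^ m :=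
      mul_le_mul_of_nonneg_left h2 (by linarith)
    calc (RAF.TT M t g c y : ℝ) ≤ 2 * c + (4 + 3 * K) * (2 : ℝ) ^ (t * (m : ℝ)) := h1
      _ ≤ 2 * (2 * 2 ^ m) + (4 + 3 * K) * 2 ^ m := add_le_add (by linarith) h6
      _ = (8 + 3 * K) * 2 ^ m := by ring
  have h7 : 0 < RAF.TT M t g c y := by
    have := RAF.TT_ge M t g c y
    omega
  have h8 : Real.log (RAF.TT M t g c y : ℝ) ≤ Real.log ((8 + 3 * K) * 2 ^ m) :=
    Real.log_le_log (by exact_mod_cast h7) h5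
  rw [Real.log_mul (by linarith) (by positivity), Real.log_pow] at h8
  have h9 : Real.log 2 ≤ 1 := by
    have := Real.log_two_lt_d9
    linarith
  have h10 := RLC.th_le_log (RAF.TT M t g c y)
  have hm0 : (0 : ℝ) ≤ m := Nat.cast_nonneg m
  nlinarith

private theorem StepV_logK (h : RAF.Adm M t K g) : 0 ≤ Real.log (8 + 3 * K) :=
  Real.log_nonneg (by have := h.hK; linarith)

/-- Integrability of products. -/
private theorem StepV_intble (h : RAF.Adm M t K g) (hΦ : Per R Φ) {c c' m : ℕ} (hm : 1 ≤ m)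
    (hc : Nat.log 2 c = m) (hc' : Nat.log 2 c' = m) (r r' : ℝ) :
    Integrable (fun y => (StepV_F M t g Φ c y - r) * (StepV_F M t g Φ c' y - r')) uu := by
  refine Integrable.of_bound (C := ((m : ℝ) + Real.log (8 + 3 * K) + |r|) *
    ((m : ℝ) + Real.log (8 + 3 * K) + |r'|)) ?_ ?_
  · exact (((StepV_F_meas M t g Φ c).sub_const r).mul
      ((StepV_F_meas M t g Φ c').sub_const r')).aestronglyMeasurable
  · filter_upwards [StepV_ae] with y hy
    have hl := StepV_logK h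
    have hm0 : (0 : ℝ) ≤ m := Nat.cast_nonneg m
    have hb : ∀ (d : ℕ) (s : ℝ), Nat.log 2 d = m →
        |StepV_F M t g Φ d y - s| ≤ (m : ℝ) + Real.log (8 + 3 * K) + |s| := by
      intro d s hd
      have h1 := StepV_log h hm hd hy
      have h2 := StepV_F_nonneg hΦ M t g d y
      have h4 := StepV_F_le hΦ M t g d y
      have h3 := abs_sub (StepV_F M t g Φ d y) s
      rw [abs_of_nonneg h2] at h3
      linarith
    rw [norm_mul, Real.norm_eq_abs, Real.norm_eq_abs]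
    exact mul_le_mul (hb c r hc) (hb c' r' hc') (abs_nonneg _) (by positivity)

private theorem StepV_intth (h : RAF.Adm M t K g) {c c' m : ℕ} (hm : 1 ≤ m)
    (hc : Nat.log 2 c = m) (hc' : Nat.log 2 c' = m) :
    Integrable (fun y => RLC.th (RAF.TT M t g c y) * RLC.th (RAF.TT M t g c' y)) uu := by
  refine Integrable.of_bound (C := ((m : ℝ) + Real.log (8 + 3 * K)) *
    ((m : ℝ) + Real.log (8 + 3 * K))) ?_ ?_
  · exact ((StepV_th_meas M t g c).mul (StepV_th_meas M t g c')).aestronglyMeasurable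
  · filter_upwards [StepV_ae] with y hy
    have hl := StepV_logK h
    have hm0 : (0 : ℝ) ≤ m := Nat.cast_nonneg m
    rw [norm_mul, Real.norm_of_nonneg (RLC.th_nonneg _), Real.norm_of_nonneg (RLC.th_nonneg _)]
    exact mul_le_mul (StepV_log h hm hc hy) (StepV_log h hm hc' hy) (RLC.th_nonneg _) (by positivity)

private theorem StepV_int1 (h : RAF.Adm M t K g) {c m : ℕ} (hm : 1 ≤ m) (hc : Nat.log 2 c = m) :
    Integrable (fun y => RLC.th (RAF.TT M t g c y)) uu := by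
  refine Integrable.of_bound (C := (m : ℝ) + Real.log (8 + 3 * K))
    (StepV_th_meas M t g c).aestronglyMeasurable ?_
  filter_upwards [StepV_ae] with y hy
  rw [Real.norm_of_nonneg (RLC.th_nonneg _)]
  exact StepV_log h hm hc hy

private theorem StepV_ratio (hR : 0 < R) (hM : M ∣ R) : (M : ℝ) / M.totient ≤ (R : ℝ) := by
  have hM0 : 0 < M := Nat.pos_of_dvd_of_pos hM hR
  have h1 : (1 : ℝ) ≤ (M.totient : ℝ) := by exact_mod_cast Nat.totient_pos.2 hM0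
  have h2 : (M : ℝ) ≤ R := by exact_mod_cast Nat.le_of_dvd hR hM
  calc (M : ℝ) / M.totient ≤ M := div_le_self (Nat.cast_nonneg M) h1
    _ ≤ R := h2

private theorem StepV_mn_le (hR : 0 < R) (hΦ : Per R Φ) (hM : M ∣ R) (q : ℕ) : mn R M Φ q ≤ (R : ℝ) :=
  (mn_le hR hΦ hM q).trans (StepV_ratio hR hM)

/-- Equal members. -/
private theorem StepV_same (h : RAF.Adm M t K g) (hR : 0 < R) (hM : M ∣ R) (hΦ : Per R Φ) {C : ℝ} (hC : 1 ≤ C)
    (hOne : ∀ q : ℕ, 0 < q →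
    ∫⁻ y, ENNReal.ofReal (RLC.th (RAF.TT M t g q y)) ∂uu ≤ ENNReal.ofReal C) {c m : ℕ} (hm : 1 ≤ m)
    (hc : Nat.log 2 c = m)
    (hbig : C + (C * Real.log (8 + 3 * K) + (R : ℝ) ^ 2) ≤ m) :
    ∫ y, (StepV_F M t g Φ c y - mn R M Φ c) * (StepV_F M t g Φ c y - mn R M Φ c) ∂uu ≤ (m : ℝ) ^ 2 := by
  have hc0 : 0 < c := by
    rcases Nat.eq_zero_or_pos c with h0 | h0
    · rw [h0, Nat.log_zero_right] at hc
      omega
    · exact h0
  have hl := StepV_logK h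
  have hm1 : (1 : ℝ) ≤ m := by exact_mod_cast hm
  have hr0 := mn_nonneg hΦ M c
  have hr1 := StepV_mn_le hR hΦ hM c
  have h1 : ∫ y, RLC.th (RAF.TT M t g c y) ∂uu ≤ C :=
    StepV_int_le (StepV_th_meas M t g c) (fun y => RLC.th_nonneg _) (by linarith) (hOne c hc0)
  have hi : Integrable (fun y => ((m : ℝ) + Real.log (8 + 3 * K)) * RLC.th (RAF.TT M t g c y) +
      (R : ℝ) ^ 2) uu :=
    ((StepV_int1 h hm hc).const_mul _).add (integrable_const _)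
  calc ∫ y, (StepV_F M t g Φ c y - mn R M Φ c) * (StepV_F M t g Φ c y - mn R M Φ c) ∂uu
      ≤ ∫ y, (((m : ℝ) + Real.log (8 + 3 * K)) * RLC.th (RAF.TT M t g c y) +
          (R : ℝ) ^ 2) ∂uu := by
        refine integral_mono_ae (StepV_intble h hΦ hm hc hc _ _) hi ?_
        filter_upwards [StepV_ae] with y hy
        have h2 := StepV_log h hm hc hy
        have h3 := RLC.th_nonneg (RAF.TT M t g c y)
        have h3' := StepV_F_nonneg hΦ M t g c y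
        have h3'' := StepV_F_le hΦ M t g c y
        have h4 : mn R M Φ c ^ 2 ≤ (R : ℝ) ^ 2 := pow_le_pow_left₀ hr0 hr1 2
        have h5 : RLC.th (RAF.TT M t g c y) * RLC.th (RAF.TT M t g c y) ≤
            ((m : ℝ) + Real.log (8 + 3 * K)) * RLC.th (RAF.TT M t g c y) :=
          mul_le_mul_of_nonneg_right h2 h3
        have h5' : StepV_F M t g Φ c y * StepV_F M t g Φ c y ≤
            RLC.th (RAF.TT M t g c y) * RLC.th (RAF.TT M t g c y) := mul_le_mul h3'' h3'' h3' h3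
        have h6 : 0 ≤ mn R M Φ c * StepV_F M t g Φ c y := mul_nonneg hr0 h3'
        nlinarith
    _ = ((m : ℝ) + Real.log (8 + 3 * K)) * ∫ y, RLC.th (RAF.TT M t g c y) ∂uu +
          (R : ℝ) ^ 2 := by
        rw [integral_add ((StepV_int1 h hm hc).const_mul _) (integrable_const _), integral_const_mul,
          integral_const]
        simp
    _ ≤ ((m : ℝ) + Real.log (8 + 3 * K)) * C + (R : ℝ) ^ 2 := by
        have := mul_le_mul_of_nonneg_left h1 (show 0 ≤ (m : ℝ) + Real.log (8 + 3 * K) by linarith)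
        linarith
    _ ≤ (m : ℝ) ^ 2 := by
        set D : ℝ := C * Real.log (8 + 3 * K) + (R : ℝ) ^ 2 with hD
        have hD0 : 0 ≤ D := by positivity
        have h7 : (m : ℝ) * (C + D) ≤ m * m := mul_le_mul_of_nonneg_left hbig (by linarith)
        have h8 : D ≤ m * D := le_mul_of_one_le_left hD0 hm1
        nlinarith

/-- Different members, sieve bound. -/
private theorem StepV_near (h : RAF.Adm M t K g) (hR : 0 < R) (hM : M ∣ R) (hΦ : Per R Φ) {κ' : ℝ} {c c' m : ℕ}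
    (hm : 1 ≤ m) (hc : Nat.log 2 c = m) (hc' : Nat.log 2 c' = m)
    (hTwo : ∫⁻ y, ENNReal.ofReal (RLC.th (RAF.TT M t g c y) * RLC.th (RAF.TT M t g c' y)) ∂uu ≤
      ENNReal.ofReal ((m : ℝ) ^ (κ' / 2)))
    (hbig : 1 + (R : ℝ) ^ 2 ≤ (m : ℝ) ^ (κ' / 2)) :
    ∫ y, (StepV_F M t g Φ c y - mn R M Φ c) * (StepV_F M t g Φ c' y - mn R M Φ c') ∂uu ≤
      (m : ℝ) ^ κ' := by
  have hm1 : (1 : ℝ) ≤ m := by exact_mod_cast hm
  have hs0 : 0 ≤ (m : ℝ) ^ (κ' / 2) := by positivity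
  have h1 : ∫ y, RLC.th (RAF.TT M t g c y) * RLC.th (RAF.TT M t g c' y) ∂uu ≤ (m : ℝ) ^ (κ' / 2) :=
    StepV_int_le ((StepV_th_meas M t g c).mul (StepV_th_meas M t g c'))
      (fun y => mul_nonneg (RLC.th_nonneg _) (RLC.th_nonneg _)) hs0 hTwo
  have hi0 : Integrable (fun y => RLC.th (RAF.TT M t g c y) * RLC.th (RAF.TT M t g c' y)) uu :=
    StepV_intth h hm hc hc'
  have hsq : (m : ℝ) ^ κ' = (m : ℝ) ^ (κ' / 2) * (m : ℝ) ^ (κ' / 2) := by
    rw [← Real.rpow_add (by linarith)]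
    congr 1
    ring
  calc ∫ y, (StepV_F M t g Φ c y - mn R M Φ c) * (StepV_F M t g Φ c' y - mn R M Φ c') ∂uu
      ≤ ∫ y, (RLC.th (RAF.TT M t g c y) * RLC.th (RAF.TT M t g c' y) +
          (R : ℝ) ^ 2) ∂uu := by
        refine integral_mono (StepV_intble h hΦ hm hc hc' _ _) (hi0.add (integrable_const _)) ?_
        intro y
        have h2 := StepV_F_nonneg hΦ M t g c y
        have h3 := StepV_F_nonneg hΦ M t g c' y
        have h4 := mn_nonneg hΦ M c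
        have h5 := mn_nonneg hΦ M c'
        have h6 : mn R M Φ c * mn R M Φ c' ≤ (R : ℝ) ^ 2 := by
          rw [sq]
          exact mul_le_mul (StepV_mn_le hR hΦ hM c) (StepV_mn_le hR hΦ hM c') h5
            (h4.trans (StepV_mn_le hR hΦ hM c))
        have h7 := mul_nonneg h2 h5
        have h8 := mul_nonneg h4 h3
        have h9 : StepV_F M t g Φ c y * StepV_F M t g Φ c' y ≤
            RLC.th (RAF.TT M t g c y) * RLC.th (RAF.TT M t g c' y) :=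
          mul_le_mul (StepV_F_le hΦ M t g c y) (StepV_F_le hΦ M t g c' y) h3 (RLC.th_nonneg _)
        simp only
        nlinarith
    _ = (∫ y, RLC.th (RAF.TT M t g c y) * RLC.th (RAF.TT M t g c' y) ∂uu) +
          (R : ℝ) ^ 2 := by
        rw [integral_add hi0 (integrable_const _), integral_const]
        simp
    _ ≤ (m : ℝ) ^ (κ' / 2) + (R : ℝ) ^ 2 := by linarith
    _ ≤ (m : ℝ) ^ κ' := by
        rw [hsq]
        set s : ℝ := (m : ℝ) ^ (κ' / 2) with hs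
        have h9 : 0 ≤ (R : ℝ) ^ 2 := by positivity
        have h10 : s * (1 + (R : ℝ) ^ 2) ≤ s * s :=
          mul_le_mul_of_nonneg_left hbig hs0
        have h11 : (R : ℝ) ^ 2 ≤ s * (R : ℝ) ^ 2 :=
          le_mul_of_one_le_left h9 (by linarith)
        nlinarith

private theorem StepV_sq (I : Finset ℕ) (om f : ℕ → ℝ) :
    (∑ i ∈ I, om i * f i) ^ 2 = ∑ i ∈ I, ∑ i' ∈ I, om i * om i' * (f i * f i') := by
  rw [sq, Finset.sum_mul_sum]
  refine Finset.sum_congr rfl fun i _ => Finset.sum_congr rfl fun i' _ => ?_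
  ring

/-- From the bound for the pairs to the mean square. -/
private theorem StepV_fin (h : RAF.Adm M t K g) (hΦ : Per R Φ) {κ κ' A : ℝ} {m : ℕ} (hm : 1 ≤ m) (I : Finset ℕ)
    (c : ℕ → ℕ) (om : ℕ → ℝ) (hc : ∀ i ∈ I, Nat.log 2 (c i) = m) (hom : ∀ i ∈ I, 0 ≤ om i)
    (hpair : ∀ i ∈ I, ∀ i' ∈ I,
      ∫ y, (StepV_F M t g Φ (c i) y - mn R M Φ (c i)) * (StepV_F M t g Φ (c i') y - mn R M Φ (c i')) ∂uu ≤
        (m : ℝ) ^ (-A) + RAF.bd κ κ' m (c i) (c i')) :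
    ∫⁻ y, ENNReal.ofReal ((∑ i ∈ I, om i * (StepV_F M t g Φ (c i) y - mn R M Φ (c i))) ^ 2) ∂uu ≤
      ENNReal.ofReal ((m : ℝ) ^ (-A) * (∑ i ∈ I, om i) ^ 2 +
        ∑ i ∈ I, ∑ i' ∈ I, om i * om i' * RAF.bd κ κ' m (c i) (c i')) := by
  have hQ : ∀ y : ℝ × ℝ, (∑ i ∈ I, om i * (StepV_F M t g Φ (c i) y - mn R M Φ (c i))) ^ 2 =
      ∑ i ∈ I, ∑ i' ∈ I, om i * om i' * ((StepV_F M t g Φ (c i) y - mn R M Φ (c i)) *
        (StepV_F M t g Φ (c i') y - mn R M Φ (c i'))) := fun y =>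
    StepV_sq I om fun i => StepV_F M t g Φ (c i) y - mn R M Φ (c i)
  have hpi : ∀ i ∈ I, ∀ i' ∈ I, Integrable (fun y => om i * om i' *
      ((StepV_F M t g Φ (c i) y - mn R M Φ (c i)) *
        (StepV_F M t g Φ (c i') y - mn R M Φ (c i')))) uu := fun i hi i' hi' =>
    (StepV_intble h hΦ hm (hc i hi) (hc i' hi') _ _).const_mul _
  have hint : Integrable (fun y => (∑ i ∈ I, om i *
      (StepV_F M t g Φ (c i) y - mn R M Φ (c i))) ^ 2) uu := by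
    simp only [hQ]
    exact integrable_finsetSum _ fun i hi => integrable_finsetSum _ fun i' hi' => hpi i hi i' hi'
  rw [← ofReal_integral_eq_lintegral_ofReal hint (Filter.Eventually.of_forall fun y => sq_nonneg _)]
  apply ENNReal.ofReal_le_ofReal
  simp only [hQ]
  rw [integral_finsetSum _ fun i hi => integrable_finsetSum _ fun i' hi' => hpi i hi i' hi']
  have h1 : (m : ℝ) ^ (-A) * (∑ i ∈ I, om i) ^ 2 +
      ∑ i ∈ I, ∑ i' ∈ I, om i * om i' * RAF.bd κ κ' m (c i) (c i') =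
      ∑ i ∈ I, ∑ i' ∈ I, om i * om i' * ((m : ℝ) ^ (-A) + RAF.bd κ κ' m (c i) (c i')) := by
    rw [sq, Finset.sum_mul_sum, Finset.mul_sum, ← Finset.sum_add_distrib]
    refine Finset.sum_congr rfl fun i _ => ?_
    rw [Finset.mul_sum, ← Finset.sum_add_distrib]
    refine Finset.sum_congr rfl fun i' _ => ?_
    ring
  rw [h1]
  refine Finset.sum_le_sum fun i hi => ?_
  rw [integral_finsetSum _ fun i' hi' => hpi i hi i' hi']
  refine Finset.sum_le_sum fun i' hi' => ?_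
  rw [integral_const_mul]
  exact mul_le_mul_of_nonneg_left (hpair i hi i' hi') (mul_nonneg (hom i hi) (hom i' hi'))

/-- The pairs. -/
private theorem StepV_pair (h : RAF.Adm M t K g) (hR : 0 < R) (hM : M ∣ R) (hΦ : Per R Φ) {κ κ' A C : ℝ}
    {B : Set ℕ} {m : ℕ} (hm : 1 ≤ m) (hC : 1 ≤ C)
    (hOne : ∀ q : ℕ, 0 < q →
      ∫⁻ y, ENNReal.ofReal (RLC.th (RAF.TT M t g q y)) ∂uu ≤ ENNReal.ofReal C)
    (hTwo : ∀ c c' : ℕ, Nat.log 2 c = m → Nat.log 2 c' = m → c ≠ c' →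
      ∫⁻ y, ENNReal.ofReal (RLC.th (RAF.TT M t g c y) * RLC.th (RAF.TT M t g c' y)) ∂uu ≤
        ENNReal.ofReal ((m : ℝ) ^ (κ' / 2)))
    (hfar : ∀ c c' : ℕ, Nat.log 2 c = m → Nat.log 2 c' = m → c' ∉ B → c < c' →
      (2 : ℝ) ^ ((1 - κ) * (m : ℝ)) ≤ (c' : ℝ) - c →
      |∫ y, (StepV_F M t g Φ c y - mn R M Φ c) * (StepV_F M t g Φ c' y - mn R M Φ c') ∂uu| ≤ (m : ℝ) ^ (-A))
    (hb1 : C + (C * Real.log (8 + 3 * K) + (R : ℝ) ^ 2) ≤ m)
    (hb2 : 1 + (R : ℝ) ^ 2 ≤ (m : ℝ) ^ (κ' / 2))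
    {c c' : ℕ} (hc : Nat.log 2 c = m) (hc' : Nat.log 2 c' = m) (hB : c ∉ B) (hB' : c' ∉ B) :
    ∫ y, (StepV_F M t g Φ c y - mn R M Φ c) * (StepV_F M t g Φ c' y - mn R M Φ c') ∂uu ≤
      (m : ℝ) ^ (-A) + RAF.bd κ κ' m c c' := by
  have hA0 : 0 ≤ (m : ℝ) ^ (-A) := by positivity
  by_cases hcc : c = c'
  · subst hcc
    have h1 := StepV_same h hR hM hΦ hC hOne hm hc hb1
    have h2 : RAF.bd κ κ' m c c = (m : ℝ) ^ 2 := by
      unfold RAF.bd
      rw [if_pos rfl]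
    rw [h2]
    linarith
  · by_cases hn : |(c : ℝ) - c'| < (2 : ℝ) ^ ((1 - κ) * m)
    · have h1 := StepV_near h hR hM hΦ hm hc hc' (hTwo c c' hc hc' hcc) hb2
      have h2 : RAF.bd κ κ' m c c' = (m : ℝ) ^ κ' := by
        unfold RAF.bd
        rw [if_neg hcc, if_pos hn]
      rw [h2]
      linarith
    · have h2 : RAF.bd κ κ' m c c' = 0 := by
        unfold RAF.bd
        rw [if_neg hcc, if_neg hn]
      rw [h2, add_zero]
      push Not at hn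
      rcases lt_or_gt_of_ne hcc with h3 | h3
      · have h4 : (c : ℝ) < c' := by exact_mod_cast h3
        rw [abs_of_neg (by linarith)] at hn
        exact (le_abs_self _).trans (hfar c c' hc hc' hB' h3 (by linarith))
      · have h4 : (c' : ℝ) < c := by exact_mod_cast h3
        rw [abs_of_pos (by linarith)] at hn
        have h5 := hfar c' c hc' hc hB h3 hn
        have h6 : ∫ y, (StepV_F M t g Φ c y - mn R M Φ c) * (StepV_F M t g Φ c' y - mn R M Φ c') ∂uu =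
            ∫ y, (StepV_F M t g Φ c' y - mn R M Φ c') * (StepV_F M t g Φ c y - mn R M Φ c) ∂uu := by
          congr 1
          funext y
          ring
        rw [h6]
        exact (le_abs_self _).trans h5

private theorem StepV_ev (a : ℝ) {b s : ℝ} (hs : 0 < s) : ∃ m0 : ℕ, ∀ m : ℕ, m0 ≤ m →
    a ≤ (m : ℝ) ∧ b ≤ (m : ℝ) ^ s := by
  have h1 := (tendsto_natCast_atTop_atTop (R := ℝ)).eventually_ge_atTop a
  have h2 := ((tendsto_rpow_atTop hs).comp (tendsto_natCast_atTop_atTop (R := ℝ))).eventually_ge_atTop b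
  obtain ⟨m0, hm0⟩ := Filter.eventually_atTop.1 (h1.and h2)
  exact ⟨m0, fun m hm => hm0 m hm⟩

theorem sv {R : ℕ} (hR : 0 < R) {t K : ℝ} (ht : 1 / 2 < t) (ht' : t < 1) (hK : 1 ≤ K) :
    ∃ κ : ℝ, 0 < κ ∧ κ ≤ 1 / 8 ∧ ∀ κ' A : ℝ, 0 < κ' → ∃ (B : Set ℕ) (m0 : ℕ), SVG R t K κ κ' A B m0 := by
  obtain ⟨κ, hκ0, hκ1, hkap⟩ := kap_main hR ht ht' hK
  refine ⟨κ, hκ0, hκ1, fun κ' A hκ' => ?_⟩
  obtain ⟨B, m1, hB⟩ := hkap A
  obtain ⟨m2, hTwo⟩ := two_step hR t K (κ := κ' / 2) (by positivity)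
  obtain ⟨C, hC, hOne⟩ := one_step hR t K
  obtain ⟨m3, hev⟩ := StepV_ev (C + (C * Real.log (8 + 3 * K) + (R : ℝ) ^ 2))
    (b := 1 + (R : ℝ) ^ 2) (s := κ' / 2) (by positivity)
  refine ⟨B, max (max m1 m2) (max m3 1), ?_⟩
  have hm1 : ∀ {m : ℕ}, max (max m1 m2) (max m3 1) ≤ m → m1 ≤ m := fun hm => by omega
  have hm2 : ∀ {m : ℕ}, max (max m1 m2) (max m3 1) ≤ m → m2 ≤ m := fun hm => by omega
  have hm3 : ∀ {m : ℕ}, max (max m1 m2) (max m3 1) ≤ m → m3 ≤ m := fun hm => by omega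
  have hm4 : ∀ {m : ℕ}, max (max m1 m2) (max m3 1) ≤ m → 1 ≤ m := fun hm => by omega
  constructor
  · intro m hm
    exact (hB m (hm1 hm)).1
  · intro g hg M hM m hm c c' hc hc' hcc
    refine (hTwo g hg M hM m (hm2 hm) c c' hc hc' hcc).trans (ENNReal.ofReal_le_ofReal ?_)
    have h1 : (1 : ℝ) ≤ m := by exact_mod_cast hm4 hm
    exact Real.rpow_le_rpow_of_exponent_le h1 (by linarith)
  · intro g hg M hM Φ hΦ m hm I c om hc hom
    have h := hg.adm (Nat.pos_of_dvd_of_pos hM hR)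
    refine StepV_fin h hΦ (hm4 hm) I c om (fun i hi => (hc i hi).1) hom fun i hi i' hi' => ?_
    obtain ⟨h1, h2⟩ := hev m (hm3 hm)
    exact StepV_pair h hR hM hΦ (hm4 hm) hC (hOne g hg M hM) (hTwo g hg M hM m (hm2 hm))
      ((hB m (hm1 hm)).2 g hg M hM Φ hΦ) h1 h2 (hc i hi).1 (hc i' hi').1 (hc i hi).2 (hc i' hi').2

end RAG
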