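import Pool.Agent.RAG.Defs
import Pool.Agent.RAF.PntW

/-!
# RAG.PntI: primes in an arithmetic progression in intervals of the block `m`

PROOF. As `Pool/Agent/RAF/PntW.lean` (copy the private lemmas, in particular `PntW_core`, which gives for `2^m ≤ Y`, `Y + 2h ≤ Y'`, `Y' + 1 ≤ 2^(m+4)`:
the error is at most `(Y'-Y)/m + (C+1) 2^((1-κ)m) + (2C+2) h`), with `h = ⌈2^(m/2)⌉` or similar as there; this is `≤ e 2^m` for large `m`. If `Y' < Y + 2h` everything is at most `(2h+1)(m+2) + 2h ≤ e 2^m`.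
-/

namespace RAG

open Filter RAF

private noncomputable def PntI_s (M b n : ℕ) : ℝ := if n ≡ b [MOD M] then RLC.th n else 0

private theorem PntI_s_nonneg (M b n : ℕ) : 0 ≤ PntI_s M b n := by
  unfold PntI_s
  split_ifs
  · exact RLC.th_nonneg n
  · exact le_rfl

private theorem PntI_s_le (M b n : ℕ) : PntI_s M b n ≤ RLC.th n := by
  unfold PntI_s
  split_ifs
  · exact le_rfl
  · exact RLC.th_nonneg n

private theorem PntI_csum (M b h r : ℕ) :
    csum M b h r = ∑ n ∈ Finset.Ico (r * h) ((r + 1) * h), PntI_s M b n := by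
  unfold csum PntI_s
  rw [Finset.sum_filter]

/-- a sum over at most `h` consecutive positive numbers -/
private theorem PntI_piece {M b h u v : ℕ} {B : ℝ} (hu : 0 < u) (huv : v ≤ u + h)
    (hB : ∑ n ∈ Finset.Ioc (u - 1) (u - 1 + h), RLC.th n ≤ B) :
    ∑ n ∈ Finset.Ico u v, PntI_s M b n ≤ B := by
  refine le_trans ?_ hB
  calc ∑ n ∈ Finset.Ico u v, PntI_s M b n ≤ ∑ n ∈ Finset.Ico u v, RLC.th n :=
        Finset.sum_le_sum fun n _ => PntI_s_le M b n
    _ ≤ _ := by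
        apply Finset.sum_le_sum_of_subset_of_nonneg
        · intro n hn
          rw [Finset.mem_Ico] at hn
          rw [Finset.mem_Ioc]
          omega
        · intro n _ _
          exact RLC.th_nonneg n

private theorem PntI_cells (M b h r0 : ℕ) {r1 : ℕ} (hr : r0 ≤ r1) :
    ∑ n ∈ Finset.Ico (r0 * h) (r1 * h), PntI_s M b n = ∑ r ∈ Finset.Ico r0 r1, csum M b h r := by
  induction r1, hr using Nat.le_induction with
  | base => simp
  | succ r1 hr ih =>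
    rw [Finset.sum_Ico_succ_top hr, ← ih, PntI_csum,
      Finset.sum_Ico_consecutive _ (Nat.mul_le_mul_right h hr)
        (Nat.mul_le_mul_right h (Nat.le_succ r1))]

open Classical in
private theorem PntI_core {M b m h Y Y' : ℕ} {C κ : ℝ} (hM : 0 < M) (hb : b.Coprime M) (hh : 0 < h)
    (hC : 1 ≤ C) (hY : Y + 2 * h ≤ Y') (hm : 0 < m)
    (hbt : ∀ x : ℕ, x ≤ Y' → ∑ n ∈ Finset.Ioc x (x + h), RLC.th n ≤ C * h)
    (hlow : 2 ^ m ≤ Y) (hup : Y' + 1 ≤ 2 ^ (m + 4))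
    (hbad : (((Finset.Icc (2 ^ m / h) (2 ^ (m + 4) / h)).filter fun r => BadC M 1 h m r).card : ℝ) * h
      ≤ (2 : ℝ) ^ ((1 - κ) * (m : ℝ))) :
    |∑ n ∈ (Finset.Ioc Y Y').filter (fun n => n ≡ b [MOD M]), RLC.th n -
      ((Y' : ℝ) - Y) / (Nat.totient M : ℝ)| ≤
      ((Y' : ℝ) - Y) / m + (C + 1) * (2 : ℝ) ^ ((1 - κ) * (m : ℝ)) + (2 * C + 2) * h := by
  set r0 := Y / h + 1 with hr0
  set r1 := (Y' + 1) / h with hr1
  have e1 := Nat.div_add_mod Y h
  have e2 := Nat.mod_lt Y hh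
  have e3 : r0 * h = h * (Y / h) + h := by rw [hr0]; ring
  have e4 := Nat.div_add_mod (Y' + 1) h
  have e5 := Nat.mod_lt (Y' + 1) hh
  have e6 : r1 * h = h * ((Y' + 1) / h) := by rw [hr1]; ring
  have hd0 : Y < r0 * h := by omega
  have hd0' : r0 * h ≤ Y + h := by omega
  have hd1 : r1 * h ≤ Y' + 1 := by omega
  have hd1' : Y' + 1 < r1 * h + h := by omega
  have hrr : r0 ≤ r1 := by
    by_contra hcon
    push Not at hcon
    have : (r1 + 1) * h ≤ r0 * h := Nat.mul_le_mul_right h hcon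
    rw [Nat.add_mul, one_mul] at this
    omega
  have hsum : ∑ n ∈ (Finset.Ioc Y Y').filter (fun n => n ≡ b [MOD M]), RLC.th n =
      ∑ n ∈ Finset.Ico (Y + 1) (r0 * h), PntI_s M b n + ∑ r ∈ Finset.Ico r0 r1, csum M b h r +
        ∑ n ∈ Finset.Ico (r1 * h) (Y' + 1), PntI_s M b n := by
    rw [← PntI_cells M b h r0 hrr, Finset.sum_Ico_consecutive _ (by omega)
      (Nat.mul_le_mul_right h hrr), Finset.sum_Ico_consecutive _ (by
        have := Nat.mul_le_mul_right h hrr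
        omega) hd1, Finset.sum_filter]
    apply Finset.sum_congr
    · ext n
      rw [Finset.mem_Ioc, Finset.mem_Ico]
      omega
    · intro n _
      rfl
  have hA : ∑ n ∈ Finset.Ico (Y + 1) (r0 * h), PntI_s M b n ≤ C * h := by
    apply PntI_piece (Nat.succ_pos Y) (by omega) (hbt (Y + 1 - 1) (by omega))
  have hB : ∑ n ∈ Finset.Ico (r1 * h) (Y' + 1), PntI_s M b n ≤ C * h := by
    have h1 : r0 * h ≤ r1 * h := Nat.mul_le_mul_right h hrr
    apply PntI_piece (by omega) (by omega) (hbt (r1 * h - 1) (by omega))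
  have hA0 : 0 ≤ ∑ n ∈ Finset.Ico (Y + 1) (r0 * h), PntI_s M b n :=
    Finset.sum_nonneg fun n _ => PntI_s_nonneg M b n
  have hB0 : 0 ≤ ∑ n ∈ Finset.Ico (r1 * h) (Y' + 1), PntI_s M b n :=
    Finset.sum_nonneg fun n _ => PntI_s_nonneg M b n
  have hφ : (1 : ℝ) ≤ (Nat.totient M : ℝ) := by
    exact_mod_cast Nat.totient_pos.mpr hM
  have hhR : (0 : ℝ) < h := by exact_mod_cast hh
  have hmR : (0 : ℝ) < m := by exact_mod_cast hm
  have hhφ0 : 0 ≤ (h : ℝ) / (Nat.totient M : ℝ) := by positivity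
  have hhφ : (h : ℝ) / (Nat.totient M : ℝ) ≤ h := div_le_self hhR.le hφ
  set bad := (Finset.Icc (2 ^ m / h) (2 ^ (m + 4) / h)).filter fun r => BadC M 1 h m r with hbaddef
  -- each cell
  have hcell : ∀ r ∈ Finset.Ico r0 r1, |csum M b h r - (h : ℝ) / (Nat.totient M : ℝ)| ≤
      (h : ℝ) / m + (if r ∈ bad then (C + 1) * h else 0) := by
    intro r hr
    rw [Finset.mem_Ico] at hr
    by_cases hrb : r ∈ bad
    · rw [if_pos hrb]
      have h0 : 0 ≤ csum M b h r := by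
        rw [PntI_csum]
        exact Finset.sum_nonneg fun n _ => PntI_s_nonneg M b n
      have h2 : 0 < r * h := Nat.mul_pos (lt_of_lt_of_le (by rw [hr0]; exact Nat.succ_pos _) hr.1) hh
      have h3 : (r + 1) * h ≤ r1 * h := Nat.mul_le_mul_right h hr.2
      have h4 : (r + 1) * h = r * h + h := by ring
      have h1 : csum M b h r ≤ C * h := by
        rw [PntI_csum]
        apply PntI_piece h2 (by omega) (hbt (r * h - 1) (by omega))
      have h5 : 0 ≤ (h : ℝ) / m := by positivity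
      rw [abs_le]
      constructor
      · nlinarith
      · nlinarith
    · rw [if_neg hrb, add_zero]
      have hmem : r ∈ Finset.Icc (2 ^ m / h) (2 ^ (m + 4) / h) := by
        rw [Finset.mem_Icc]
        constructor
        · have : 2 ^ m / h ≤ Y / h := Nat.div_le_div_right hlow
          omega
        · have : (Y' + 1) / h ≤ 2 ^ (m + 4) / h := Nat.div_le_div_right hup
          omega
      have hnb : ¬ BadC M 1 h m r := by
        intro hcon
        exact hrb (Finset.mem_filter.mpr ⟨hmem, hcon⟩)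
      unfold BadC at hnb
      push Not at hnb
      have := hnb b hb
      rw [Real.rpow_neg hmR.le, Real.rpow_one, ← div_eq_mul_inv] at this
      exact this
  have hcard : ((Finset.Ico r0 r1).card : ℝ) = (r1 : ℝ) - r0 := by
    rw [Nat.card_Ico, Nat.cast_sub hrr]
  have hmain : |∑ r ∈ Finset.Ico r0 r1, csum M b h r -
      ((r1 : ℝ) - r0) * ((h : ℝ) / (Nat.totient M : ℝ))| ≤
      ((r1 : ℝ) - r0) * ((h : ℝ) / m) + (C + 1) * (2 : ℝ) ^ ((1 - κ) * (m : ℝ)) := by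
    have h1 : ∑ r ∈ Finset.Ico r0 r1, csum M b h r -
        ((r1 : ℝ) - r0) * ((h : ℝ) / (Nat.totient M : ℝ)) =
        ∑ r ∈ Finset.Ico r0 r1, (csum M b h r - (h : ℝ) / (Nat.totient M : ℝ)) := by
      rw [Finset.sum_sub_distrib, Finset.sum_const, nsmul_eq_mul, hcard]
    rw [h1]
    refine (Finset.abs_sum_le_sum_abs _ _).trans ((Finset.sum_le_sum hcell).trans ?_)
    rw [Finset.sum_add_distrib, Finset.sum_const, nsmul_eq_mul, hcard]
    have h2 : ∑ r ∈ Finset.Ico r0 r1, (if r ∈ bad then (C + 1) * (h : ℝ) else 0) ≤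
        (C + 1) * (2 : ℝ) ^ ((1 - κ) * (m : ℝ)) := by
      rw [← Finset.sum_filter, Finset.sum_const, nsmul_eq_mul]
      have h3 : (((Finset.Ico r0 r1).filter fun r => r ∈ bad).card : ℝ) ≤ (bad.card : ℝ) := by
        exact_mod_cast Finset.card_le_card (fun r hr => (Finset.mem_filter.mp hr).2)
      calc (((Finset.Ico r0 r1).filter fun r => r ∈ bad).card : ℝ) * ((C + 1) * h)
          ≤ (bad.card : ℝ) * ((C + 1) * h) := by
            apply mul_le_mul_of_nonneg_right h3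
            positivity
        _ = (C + 1) * ((bad.card : ℝ) * h) := by ring
        _ ≤ _ := by
            apply mul_le_mul_of_nonneg_left hbad
            linarith
    linarith
  -- assemble
  have hrh0 : (Y : ℝ) ≤ r0 * h := by exact_mod_cast hd0.le
  have hrh0' : (r0 : ℝ) * h ≤ Y + h := by exact_mod_cast hd0'
  have hrh1 : (r1 : ℝ) * h ≤ Y' + 1 := by exact_mod_cast hd1
  have hrh1' : (Y' : ℝ) + 1 ≤ r1 * h + h := by exact_mod_cast hd1'.le
  have hrh0'' : (Y : ℝ) + 1 ≤ r0 * h := by exact_mod_cast hd0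
  have hL1 : ((r1 : ℝ) - r0) * h ≤ (Y' : ℝ) - Y := by
    rw [sub_mul]
    linarith
  have hL2 : (Y' : ℝ) - Y - 2 * h ≤ ((r1 : ℝ) - r0) * h := by
    rw [sub_mul]
    linarith
  have hh1 : (1 : ℝ) ≤ h := by exact_mod_cast hh
  have hinv : 0 < (1 : ℝ) / (Nat.totient M : ℝ) := by positivity
  have hinv1 : (1 : ℝ) / (Nat.totient M : ℝ) ≤ 1 := by
    rw [div_le_one (by linarith)]
    exact hφ
  rw [hsum]
  have hm1 : ((r1 : ℝ) - r0) * ((h : ℝ) / m) ≤ ((Y' : ℝ) - Y) / m := by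
    rw [← mul_div_assoc]
    exact div_le_div_of_nonneg_right hL1 hmR.le
  have hm2 : |((r1 : ℝ) - r0) * ((h : ℝ) / (Nat.totient M : ℝ)) -
      ((Y' : ℝ) - Y) / (Nat.totient M : ℝ)| ≤ 2 * h := by
    have e7 : ((r1 : ℝ) - r0) * ((h : ℝ) / (Nat.totient M : ℝ)) -
      ((Y' : ℝ) - Y) / (Nat.totient M : ℝ) =
      -((((Y' : ℝ) - Y) - ((r1 : ℝ) - r0) * h) * (1 / (Nat.totient M : ℝ))) := by ring
    rw [e7, abs_neg, abs_mul, abs_of_pos hinv, abs_of_nonneg (by linarith)]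
    calc _ ≤ (2 * (h : ℝ)) * 1 := by
          apply mul_le_mul (by linarith) hinv1 hinv.le (by positivity)
      _ = _ := by ring
  rw [abs_le] at hmain hm2 ⊢
  constructor
  · linarith [hmain.1, hm2.1]
  · have : (2 * C + 2) * (h : ℝ) = C * h + C * h + 2 * h := by ring
    linarith [hmain.2, hm2.2]


private theorem PntI_exp {c : ℝ} (hc : 0 < c) :
    Tendsto (fun m : ℕ => (2 : ℝ) ^ (c * (m : ℝ))) atTop atTop := by
  have h1 : Tendsto (fun m : ℕ => ((2 : ℝ) ^ c) ^ m) atTop atTop :=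
    tendsto_pow_atTop_atTop_of_one_lt (Real.one_lt_rpow (by norm_num) hc)
  refine h1.congr fun m => ?_
  rw [← Real.rpow_natCast, ← Real.rpow_mul (by norm_num)]

private theorem PntI_cmp {u v K a : ℝ} {m : ℕ} (ha : 0 < a) (huv : u + v = 1)
    (h : K / a ≤ (2 : ℝ) ^ (u * (m : ℝ))) :
    K * (2 : ℝ) ^ (v * (m : ℝ)) ≤ a * (2 : ℝ) ^ m := by
  have e0 : (2 : ℝ) ^ m = (2 : ℝ) ^ (m : ℝ) := (Real.rpow_natCast 2 m).symm
  have e1 : (2 : ℝ) ^ (m : ℝ) = (2 : ℝ) ^ (u * (m : ℝ)) * (2 : ℝ) ^ (v * (m : ℝ)) := by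
    rw [← Real.rpow_add (by norm_num), ← add_mul, huv, one_mul]
  have e2 : (0 : ℝ) < (2 : ℝ) ^ (v * (m : ℝ)) := by positivity
  rw [div_le_iff₀ ha] at h
  rw [e0, e1]
  calc K * (2 : ℝ) ^ (v * (m : ℝ)) ≤ ((2 : ℝ) ^ (u * (m : ℝ)) * a) * (2 : ℝ) ^ (v * (m : ℝ)) :=
        mul_le_mul_of_nonneg_right h e2.le
    _ = _ := by ring

/-- The prime number theorem modulo `R` in the intervals of the block `m` with the error `e 2^m`. -/
def PntP (R m : ℕ) (e : ℝ) : Prop :=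
  ∀ Y Y' : ℕ, 2 ^ m ≤ Y → Y ≤ Y' → Y' ≤ 2 ^ (m + 1) → ∀ b : ℕ, b.Coprime R →
    |∑ n ∈ (Finset.Ioc Y Y').filter (fun n => n ≡ b [MOD R]), RLC.th n - ((Y' : ℝ) - Y) / (R.totient : ℝ)| ≤
      e * 2 ^ m

theorem pnt_int {R : ℕ} (hR : 0 < R) {e : ℝ} (he : 0 < e) : ∃ m0 : ℕ, ∀ m : ℕ, m0 ≤ m → PntP R m e := by
  classical
  obtain ⟨κ, hκ, hcells⟩ := cells hR (t1 := 3 / 4) (t2 := 4 / 5) (by norm_num) (by norm_num)
  obtain ⟨m0, hm0⟩ := hcells 1
  obtain ⟨C, hC, x0, hbt⟩ := bt (t := 3 / 8) (by norm_num)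
  have hcond : ∀ᶠ m : ℕ in atTop, m0 ≤ m ∧ 4 ≤ m ∧ (x0 : ℝ) ≤ (2 : ℝ) ^ (3 / 4 * (m : ℝ)) ∧
      (2 : ℝ) ^ (3 / 4 * (m : ℝ)) + 1 ≤ (2 : ℝ) ^ (4 / 5 * (m : ℝ)) ∧
      (1 : ℝ) / m ≤ e / 3 ∧
      (C + 1) * (2 : ℝ) ^ ((1 - κ) * (m : ℝ)) ≤ e / 3 * (2 : ℝ) ^ m ∧
      (2 * C + 2) * (2 : ℝ) ^ (4 / 5 * (m : ℝ)) ≤ e / 3 * (2 : ℝ) ^ m := by
    have he3 : 0 < e / 3 := by positivity
    filter_upwards [eventually_ge_atTop m0, eventually_ge_atTop 4,
      (PntI_exp (c := 3 / 4) (by norm_num)).eventually_ge_atTop (x0 : ℝ),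
      (PntI_exp (c := 1 / 20) (by norm_num)).eventually_ge_atTop 2,
      (tendsto_natCast_atTop_atTop (R := ℝ)).eventually_ge_atTop (1 / (e / 3)),
      (PntI_exp hκ).eventually_ge_atTop ((C + 1) / (e / 3)),
      (PntI_exp (c := 1 / 5) (by norm_num)).eventually_ge_atTop ((2 * C + 2) / (e / 3))]
      with m d1 d2 d3 d4 d5 d6 d7
    refine ⟨d1, d2, d3, ?_, ?_, ?_, ?_⟩
    · have e1 : (2 : ℝ) ^ (4 / 5 * (m : ℝ)) =
          (2 : ℝ) ^ (3 / 4 * (m : ℝ)) * (2 : ℝ) ^ (1 / 20 * (m : ℝ)) := by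
        rw [← Real.rpow_add (by norm_num)]
        congr 1
        ring
      have e2 : (1 : ℝ) ≤ (2 : ℝ) ^ (3 / 4 * (m : ℝ)) :=
        Real.one_le_rpow (by norm_num) (by positivity)
      rw [e1]
      nlinarith
    · have hm : (0 : ℝ) < m := by
        have : (4 : ℝ) ≤ m := by exact_mod_cast d2
        linarith
      rw [div_le_iff₀ hm]
      rw [div_le_iff₀ he3] at d5
      linarith
    · exact PntI_cmp he3 (by ring) d6
    · exact PntI_cmp he3 (by ring) d7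
  obtain ⟨m1, hm1⟩ := eventually_atTop.mp hcond
  refine ⟨m1, fun m hm Y Y' hlow hYY' hupp b hb => ?_⟩
  obtain ⟨c1, c2, c3, c4, c5, c6, c7⟩ := hm1 m hm
  set h := ⌈(2 : ℝ) ^ (3 / 4 * (m : ℝ))⌉₊ with hhdef
  have hh1 : (2 : ℝ) ^ (3 / 4 * (m : ℝ)) ≤ h := Nat.le_ceil _
  have hh2 : (h : ℝ) ≤ (2 : ℝ) ^ (4 / 5 * (m : ℝ)) := by
    have : (h : ℝ) < (2 : ℝ) ^ (3 / 4 * (m : ℝ)) + 1 := Nat.ceil_lt_add_one (by positivity)
    linarith
  have hh : 0 < h := by
    rw [hhdef, Nat.ceil_pos]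
    positivity
  have hpow0 : (0 : ℝ) < (2 : ℝ) ^ m := by positivity
  have hbt' : ∀ x : ℕ, x ≤ 2 ^ (m + 4) → ∑ n ∈ Finset.Ioc x (x + h), RLC.th n ≤ C * h := by
    intro x hx
    apply hbt
    · have : (x0 : ℝ) ≤ h := by linarith
      exact_mod_cast this
    · refine le_trans ?_ hh1
      have e1 : (x : ℝ) ≤ (2 : ℝ) ^ ((m : ℝ) + 4) := by
        have h3 : (x : ℝ) ≤ (2 : ℝ) ^ (m + 4) := by exact_mod_cast hx
        rw [← Real.rpow_natCast] at h3
        push_cast at h3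
        exact h3
      calc (x : ℝ) ^ (3 / 8 : ℝ) ≤ ((2 : ℝ) ^ ((m : ℝ) + 4)) ^ (3 / 8 : ℝ) :=
            Real.rpow_le_rpow (by positivity) e1 (by norm_num)
        _ = (2 : ℝ) ^ (((m : ℝ) + 4) * (3 / 8)) := by rw [← Real.rpow_mul (by norm_num)]
        _ ≤ _ := by
            apply Real.rpow_le_rpow_of_exponent_le (by norm_num)
            have : (4 : ℝ) ≤ m := by exact_mod_cast c2
            linarith
  have k3 : (2 * C + 2) * (h : ℝ) ≤ e / 3 * (2 : ℝ) ^ m := by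
    refine le_trans (mul_le_mul_of_nonneg_left hh2 (by linarith)) c7
  have he3 : 0 ≤ e / 3 * (2 : ℝ) ^ m := by positivity
  have e16 : (2 : ℕ) ^ (m + 4) = 8 * 2 ^ (m + 1) := by ring
  have hp1 : 1 ≤ 2 ^ (m + 1) := Nat.one_le_two_pow
  by_cases hYY : Y + 2 * h ≤ Y'
  · have hup : Y' + 1 ≤ 2 ^ (m + 4) := by omega
    have hbad := hm0 m c1 h hh1 hh2
    have key := PntI_core (κ := κ) hR hb hh hC hYY (by omega)
      (fun x hx => hbt' x (by omega)) hlow hup hbad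
    refine key.trans ?_
    have hD : (Y' : ℝ) - Y ≤ (2 : ℝ) ^ m := by
      have h1 : (Y' : ℝ) ≤ (2 : ℝ) ^ (m + 1) := by exact_mod_cast hupp
      have h2 : (2 : ℝ) ^ m ≤ Y := by exact_mod_cast hlow
      rw [pow_succ] at h1
      linarith
    have k1 : ((Y' : ℝ) - Y) / m ≤ e / 3 * (2 : ℝ) ^ m := by
      rw [div_eq_mul_one_div, mul_comm]
      have hm' : (0 : ℝ) ≤ 1 / (m : ℝ) := by positivity
      calc 1 / (m : ℝ) * ((Y' : ℝ) - Y) ≤ 1 / (m : ℝ) * (2 : ℝ) ^ m :=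
            mul_le_mul_of_nonneg_left hD hm'
        _ ≤ _ := mul_le_mul_of_nonneg_right c5 hpow0.le
    linarith
  · push Not at hYY
    have hφ : (1 : ℝ) ≤ (Nat.totient R : ℝ) := by
      exact_mod_cast Nat.totient_pos.mpr hR
    have hS0 : 0 ≤ ∑ n ∈ (Finset.Ioc Y Y').filter (fun n => n ≡ b [MOD R]), RLC.th n :=
      Finset.sum_nonneg fun n _ => RLC.th_nonneg n
    have hS1 : ∑ n ∈ (Finset.Ioc Y Y').filter (fun n => n ≡ b [MOD R]), RLC.th n ≤ 2 * C * h := by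
      have s1 : ∑ n ∈ (Finset.Ioc Y Y').filter (fun n => n ≡ b [MOD R]), RLC.th n ≤
          ∑ n ∈ Finset.Ioc Y (Y + h) ∪ Finset.Ioc (Y + h) (Y + h + h), RLC.th n := by
        apply Finset.sum_le_sum_of_subset_of_nonneg
        · intro n hn
          rw [Finset.mem_filter, Finset.mem_Ioc] at hn
          rw [Finset.mem_union, Finset.mem_Ioc, Finset.mem_Ioc]
          omega
        · intro n _ _
          exact RLC.th_nonneg n
      have s2 : ∑ n ∈ Finset.Ioc Y (Y + h) ∪ Finset.Ioc (Y + h) (Y + h + h), RLC.th n =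
          ∑ n ∈ Finset.Ioc Y (Y + h), RLC.th n + ∑ n ∈ Finset.Ioc (Y + h) (Y + h + h), RLC.th n := by
        apply Finset.sum_union
        rw [Finset.disjoint_left]
        intro n hn hn'
        rw [Finset.mem_Ioc] at hn hn'
        omega
      have hhm : h ≤ 2 ^ (m + 1) := by
        have h1 : (h : ℝ) ≤ (2 : ℝ) ^ (m + 1) := by
          refine hh2.trans ?_
          rw [← Real.rpow_natCast]
          apply Real.rpow_le_rpow_of_exponent_le (by norm_num)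
          push_cast
          have : (0 : ℝ) ≤ m := Nat.cast_nonneg m
          linarith
        exact_mod_cast h1
      have s3 := hbt' Y (by omega)
      have s4 := hbt' (Y + h) (by omega)
      linarith
    have hDR : (Y' : ℝ) ≤ Y + 2 * h := by exact_mod_cast hYY.le
    have hD0 : (0 : ℝ) ≤ (Y' : ℝ) - Y := by
      have : (Y : ℝ) ≤ Y' := by exact_mod_cast hYY'
      linarith
    have hD1 : ((Y' : ℝ) - Y) / (R.totient : ℝ) ≤ 2 * h := by
      refine (div_le_self hD0 hφ).trans ?_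
      linarith
    have hD2 : 0 ≤ ((Y' : ℝ) - Y) / (R.totient : ℝ) := by positivity
    have hCh : 0 ≤ 2 * C * (h : ℝ) := by
      have : (0 : ℝ) ≤ h := Nat.cast_nonneg h
      have : (0 : ℝ) ≤ C := by linarith
      positivity
    rw [abs_le]
    constructor <;> nlinarith

end RAG
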