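import Pool.Agent.RAG.Basic
import Pool.Agent.RAF.Res

/-!
# RAG.Res: resampling

PROOF. As `RAF.first_gen` in `Pool/Agent/RAF/Res.lean` (copy).
-/

namespace RAG

open MeasureTheory
open RAF (uu Pm)

theorem first_gen (Mb : ℕ → ℕ) (t : ℝ) (g : ℕ → ℝ) {n : ℕ} (hn : 0 < n) (F : ℕ → (ℕ → ℝ × ℝ) → ENNReal)
    (hF : ∀ q, Measurable (F q))
    (hF2 : ∀ (q m : ℕ) (y : ℝ × ℝ) (ω : ℕ → ℝ × ℝ), m < Nat.log 2 q → F q (Function.update ω m y) = F q ω) :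
    ∫⁻ ω, F (T Mb t g ω n) ω ∂Pm =
      ∫⁻ y, ∫⁻ ω, F (RAF.TT (Mb (Nat.log 2 n)) t g n y) ω ∂Pm ∂uu := by
  exact RAF.first_gen (Mb (Nat.log 2 n)) t g hn F hF hF2

end RAG
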