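import Pool.Agent.RAG.Mom2
import Pool.Agent.RAF.StepE

/-!
# RAG.StepE: the mean square of one step of the chains

PROOF. As `Pool/Agent/RAF/StepE.lean` (copy and simplify). Let `m` be large, `b = m + j`. `RAF.resample` at `b`; for almost all `ω` (`RAF.ae_mem`, `geo`): `log₂ (ch n j) = b` for all `n ∈ I`; with `c_n = ch n j`, `update ω b y`: `wb n j` and `c_n` do not change (`wb_update`, `ch_update_le`) and `ch n (j+1)` becomes
`RAF.TT (Mb b) t g c_n y` (`ch_update_last`). The terms with `c_n ∈ B` have `wb n j = 0`. `SVG.step` at `b` with `om n = wb n j`, `M = Mb b`: the inner integral is at most `b^(-A) (∑ wb n j)² + ∑∑ wb n j wb n' j bd κ (κ/8) b c_n c_n'`, `b^(-A) ≤ m^(-A)`. The double sum is estimated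
exactly as there (with `J = j + 1`, and without the factors `r^(2J)`): (1) `n = n'`: `b² E wt n j²`, `mom_diag`; (2) `n ≠ n'`, `|n - n'| < 2^((1-κ)m)`: `mom_two`.
-/

namespace RAG

open MeasureTheory
open RAF (uu Pm)

/-! ### Measurability -/

private theorem RAGStepE_meas_nat (Mb : ℕ → ℕ) (t : ℝ) (g : ℕ → ℝ) (f : ℕ → ℝ) (n i : ℕ) :
    Measurable fun ω => f (ch Mb t g ω n i) :=
  (measurable_of_countable f).comp (ch_meas Mb t g n i)

private theorem RAGStepE_wb_zero (Mb : ℕ → ℕ) (t : ℝ) (g : ℕ → ℝ) (B : Set ℕ) (n j : ℕ) (ω : ℕ → ℝ × ℝ)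
    (hB : ch Mb t g ω n j ∈ B) : wb Mb t g B n j ω = 0 := by
  unfold wb
  exact Finset.prod_eq_zero (Finset.mem_range.2 (Nat.lt_succ_self j)) (if_pos hB)

/-! ### Numerical estimates -/

private theorem RAGStepE_ev (η c : ℝ) (hη : 0 < η) (hc : 0 ≤ c) : ∃ m1 : ℕ, 2 ≤ m1 ∧ ∀ m : ℕ, m1 ≤ m →
    1 ≤ Real.log (Real.log ((2 : ℝ) ^ m)) ∧ 1 ≤ Real.log ((2 : ℝ) ^ m) ∧
    c * (Real.log ((2 : ℝ) ^ m) / Real.log (Real.log ((2 : ℝ) ^ m))) ≤ η * Real.log ((2 : ℝ) ^ m) ∧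
    Real.log ((2 : ℝ) ^ m) / Real.log (Real.log ((2 : ℝ) ^ m)) ^ 2 ≤ η * Real.log ((2 : ℝ) ^ m) ∧
    24 * (m : ℝ) ^ 3 ≤ Real.exp (η * Real.log ((2 : ℝ) ^ m)) := by
  have hl2 : 0 < Real.log 2 := Real.log_pos (by norm_num)
  have hL : Filter.Tendsto (fun m : ℕ => Real.log ((2 : ℝ) ^ m)) Filter.atTop Filter.atTop := by
    have h1 : (fun m : ℕ => Real.log ((2 : ℝ) ^ m)) = fun m : ℕ => (m : ℝ) * Real.log 2 := by
      funext m
      rw [Real.log_pow]
    rw [h1]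
    exact (tendsto_natCast_atTop_atTop (R := ℝ)).atTop_mul_const hl2
  have hLL := Real.tendsto_log_atTop.comp hL
  have e1 := hLL.eventually (Filter.eventually_ge_atTop (max 1 ((c + 1) / η)))
  have e2 := hL.eventually (Filter.eventually_ge_atTop (1 : ℝ))
  have e3 := (tendsto_natCast_atTop_atTop (R := ℝ)).eventually
    (Filter.eventually_ge_atTop (576 / (η * Real.log 2) ^ 4))
  obtain ⟨m1, hm1⟩ := ((e1.and (e2.and e3)).exists_forall_of_atTop)
  refine ⟨m1 + 2, by omega, fun m hm => ?_⟩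
  obtain ⟨f1, f2, f3⟩ := hm1 m (by omega)
  simp only [Function.comp] at f1
  set L : ℝ := Real.log ((2 : ℝ) ^ m) with hLdef
  have g1 : 1 ≤ Real.log L := (le_max_left _ _).trans f1
  have g2 : (c + 1) / η ≤ Real.log L := (le_max_right _ _).trans f1
  have hlog0 : 0 < Real.log L := by linarith
  have hL0 : 0 < L := by linarith
  rw [div_le_iff₀ hη] at g2
  refine ⟨g1, f2, ?_, ?_, ?_⟩
  · rw [← mul_div_assoc, div_le_iff₀ hlog0]
    nlinarith
  · rw [div_le_iff₀ (by positivity)]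
    have h3 : 1 ≤ η * Real.log L := by linarith
    have h4 : 1 ≤ η * Real.log L ^ 2 := by nlinarith
    nlinarith
  · have hLm : L = m * Real.log 2 := by rw [hLdef, Real.log_pow]
    have hm0 : (0 : ℝ) ≤ m := Nat.cast_nonneg m
    have h1 : (η * L) ^ 4 / (Nat.factorial 4 : ℝ) ≤ Real.exp (η * L) :=
      Real.pow_div_factorial_le_exp (η * L) (by positivity) 4
    refine le_trans ?_ h1
    have h4 : (Nat.factorial 4 : ℝ) = 24 := by norm_num [Nat.factorial]
    rw [h4, hLm, le_div_iff₀ (by norm_num)]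
    rw [div_le_iff₀ (by positivity)] at f3
    have h5 : (η * (m * Real.log 2)) ^ 4 = (m * (η * Real.log 2) ^ 4) * m ^ 3 := by ring
    rw [h5]
    have h6 : (0 : ℝ) ≤ m ^ 3 := by positivity
    nlinarith

/-- Near pairs. -/
private def RAGStepENear (κ : ℝ) (m n n' : ℕ) : Prop :=
  n' ≠ n ∧ |(n : ℝ) - n'| < (2 : ℝ) ^ ((1 - κ) * (m : ℝ))

open Classical in
private theorem RAGStepE_card_near (κ : ℝ) (hκ1 : κ ≤ 1) (m n : ℕ) (I : Finset ℕ) :
    ((I.filter fun n' => RAGStepENear κ m n n').card : ℝ) ≤ 3 * (2 : ℝ) ^ ((1 - κ) * (m : ℝ)) := by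
  set D : ℝ := (2 : ℝ) ^ ((1 - κ) * (m : ℝ)) with hD
  have hD1 : 1 ≤ D := Real.one_le_rpow (by norm_num) (mul_nonneg (by linarith) (Nat.cast_nonneg m))
  have hsub : (I.filter fun n' => RAGStepENear κ m n n') ⊆ Finset.Icc (n - ⌊D⌋₊) (n + ⌊D⌋₊) := by
    intro n' hn'
    rw [Finset.mem_filter] at hn'
    have h1 := hn'.2.2
    rw [abs_lt] at h1
    rw [Finset.mem_Icc]
    have h3 : (n : ℝ) < n' + (⌊D⌋₊ + 1 : ℝ) := by
      have := Nat.lt_floor_add_one D
      linarith [h1.2]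
    have h4 : (n' : ℝ) < n + (⌊D⌋₊ + 1 : ℝ) := by
      have := Nat.lt_floor_add_one D
      linarith [h1.1]
    have h5 : n < n' + (⌊D⌋₊ + 1) := by exact_mod_cast h3
    have h6 : n' < n + (⌊D⌋₊ + 1) := by exact_mod_cast h4
    omega
  have hcard := Finset.card_le_card hsub
  rw [Nat.card_Icc] at hcard
  have h7 : (I.filter fun n' => RAGStepENear κ m n n').card ≤ 2 * ⌊D⌋₊ + 1 := by omega
  have h8 : ((I.filter fun n' => RAGStepENear κ m n n').card : ℝ) ≤ 2 * (⌊D⌋₊ : ℝ) + 1 := by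
    exact_mod_cast h7
  have h9 : (⌊D⌋₊ : ℝ) ≤ D := Nat.floor_le (by linarith)
  linarith

private theorem RAGStepE_dist (κ : ℝ) (hκ : 0 < κ) (m j : ℕ) (c : ℕ → ℕ) (n n' : ℕ)
    (hd1 : n ≤ n' → c n + 2 ^ j * (n' - n) ≤ c n') (hd2 : n' ≤ n → c n' + 2 ^ j * (n - n') ≤ c n)
    (hlt : |(c n : ℝ) - c n'| < (2 : ℝ) ^ ((1 - κ) * ((m + j : ℕ) : ℝ))) :
    |(n : ℝ) - n'| < (2 : ℝ) ^ ((1 - κ) * (m : ℝ)) := by
  have h1 : (2 : ℝ) ^ j * |(n : ℝ) - n'| ≤ |(c n : ℝ) - c n'| := by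
    rcases le_total n n' with h | h
    · have h2 := hd1 h
      have h3 : (c n : ℝ) + 2 ^ j * ((n' : ℝ) - n) ≤ c n' := by
        rw [← Nat.cast_sub h]
        exact_mod_cast h2
      have h4 : (n : ℝ) ≤ n' := by exact_mod_cast h
      rw [abs_of_nonpos (by linarith : (n : ℝ) - n' ≤ 0)]
      have h5 : (c n' : ℝ) - c n ≤ |(c n : ℝ) - c n'| := by
        rw [abs_sub_comm]
        exact le_abs_self _
      linarith
    · have h2 := hd2 h
      have h3 : (c n' : ℝ) + 2 ^ j * ((n : ℝ) - n') ≤ c n := by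
        rw [← Nat.cast_sub h]
        exact_mod_cast h2
      have h4 : (n' : ℝ) ≤ n := by exact_mod_cast h
      rw [abs_of_nonneg (by linarith : 0 ≤ (n : ℝ) - n')]
      have h5 : (c n : ℝ) - c n' ≤ |(c n : ℝ) - c n'| := le_abs_self _
      linarith
  have h6 : (2 : ℝ) ^ ((1 - κ) * ((m + j : ℕ) : ℝ)) ≤ 2 ^ j * (2 : ℝ) ^ ((1 - κ) * (m : ℝ)) := by
    rw [← Real.rpow_natCast 2 j, ← Real.rpow_add (by norm_num)]
    refine Real.rpow_le_rpow_of_exponent_le (by norm_num) ?_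
    push_cast
    have : 0 ≤ κ * (j : ℝ) := mul_nonneg hκ.le (Nat.cast_nonneg j)
    linarith
  have h7 : (2 : ℝ) ^ j * |(n : ℝ) - n'| < 2 ^ j * (2 : ℝ) ^ ((1 - κ) * (m : ℝ)) := by linarith
  exact lt_of_mul_lt_mul_left h7 (by positivity)

open Classical in
private theorem RAGStepE_real {Mb : ℕ → ℕ} {t : ℝ} {g : ℕ → ℝ} {κ A : ℝ} (hκ : 0 < κ) (hA : 0 ≤ A) (B : Set ℕ) (m j : ℕ)
    (hm : 1 ≤ m) (I : Finset ℕ) (ω : ℕ → ℝ × ℝ)
    (hdiff : ∀ n ∈ I, ∀ n' ∈ I, n ≤ n' → ch Mb t g ω n j + 2 ^ j * (n' - n) ≤ ch Mb t g ω n' j) :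
    (((m + j : ℕ) : ℝ)) ^ (-A) * (∑ i ∈ I.filter (fun n => ch Mb t g ω n j ∉ B), wb Mb t g B i j ω) ^ 2 +
      ∑ i ∈ I.filter (fun n => ch Mb t g ω n j ∉ B), ∑ i' ∈ I.filter (fun n => ch Mb t g ω n j ∉ B),
        wb Mb t g B i j ω * wb Mb t g B i' j ω *
          RAF.bd κ (κ / 8) (m + j) (ch Mb t g ω i j) (ch Mb t g ω i' j) ≤
    (m : ℝ) ^ (-A) * (∑ n ∈ I, wb Mb t g B n j ω) ^ 2 +
      (∑ n ∈ I, (((m + j : ℕ) : ℝ) ^ 2) * wt Mb t g n j ω ^ 2 +
        ∑ n ∈ I, ∑ n' ∈ I.filter (fun n' => RAGStepENear κ m n n'),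
          (((m + j : ℕ) : ℝ) ^ (κ / 8)) * (wt Mb t g n j ω * wt Mb t g n' j ω)) := by
  set b : ℕ := m + j with hb
  have hb0 : (0 : ℝ) < b := by
    have : 0 < b := by omega
    exact_mod_cast this
  have hm0 : (0 : ℝ) < m := by exact_mod_cast hm
  have hom0 : ∀ n, 0 ≤ wb Mb t g B n j ω := fun n => wb_nonneg _ _ _ _ _ _ _
  have hom1 : ∀ n, wb Mb t g B n j ω ≤ wt Mb t g n j ω := fun n => wb_le_wt _ _ _ _ _ _ _
  have hwt : ∀ n, 0 ≤ wt Mb t g n j ω := fun n => wt_nonneg _ _ _ _ _ _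
  -- the first term
  have hsum0 : 0 ≤ ∑ i ∈ I.filter (fun n => ch Mb t g ω n j ∉ B), wb Mb t g B i j ω :=
    Finset.sum_nonneg fun i _ => hom0 i
  have hsum1 : ∑ i ∈ I.filter (fun n => ch Mb t g ω n j ∉ B), wb Mb t g B i j ω ≤
      ∑ n ∈ I, wb Mb t g B n j ω :=
    Finset.sum_le_sum_of_subset_of_nonneg (Finset.filter_subset _ _) fun i _ _ => hom0 i
  have hT1 : ((b : ℝ)) ^ (-A) * (∑ i ∈ I.filter (fun n => ch Mb t g ω n j ∉ B), wb Mb t g B i j ω) ^ 2 ≤
      (m : ℝ) ^ (-A) * (∑ n ∈ I, wb Mb t g B n j ω) ^ 2 := by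
    refine mul_le_mul ?_ (pow_le_pow_left₀ hsum0 hsum1 2) (sq_nonneg _) (Real.rpow_nonneg hm0.le _)
    refine Real.rpow_le_rpow_of_nonpos hm0 ?_ (by linarith)
    rw [hb]
    push_cast
    have : (0 : ℝ) ≤ j := Nat.cast_nonneg j
    linarith
  refine add_le_add hT1 ?_
  -- the pairs
  have hbd0 : ∀ c c' : ℕ, 0 ≤ RAF.bd κ (κ / 8) b c c' := by
    intro c c'
    unfold RAF.bd
    split_ifs
    · positivity
    · exact Real.rpow_nonneg hb0.le _
    · exact le_rfl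
  have hpair : ∀ n ∈ I, ∀ n' ∈ I,
      wb Mb t g B n j ω * wb Mb t g B n' j ω *
        RAF.bd κ (κ / 8) b (ch Mb t g ω n j) (ch Mb t g ω n' j) ≤
      (if n' = n then ((b : ℝ) ^ 2) * wt Mb t g n j ω ^ 2 else 0) +
      (if RAGStepENear κ m n n' then ((b : ℝ) ^ (κ / 8)) *
        (wt Mb t g n j ω * wt Mb t g n' j ω) else 0) := by
    intro n hn n' hn'
    have hprod : wb Mb t g B n j ω * wb Mb t g B n' j ω ≤ wt Mb t g n j ω * wt Mb t g n' j ω :=
      mul_le_mul (hom1 n) (hom1 n') (hom0 n') (hwt n)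
    by_cases he : n' = n
    · subst he
      have h1 : ¬ RAGStepENear κ m n' n' := fun hc => hc.1 rfl
      rw [if_pos rfl, if_neg h1, add_zero]
      have h2 : RAF.bd κ (κ / 8) b (ch Mb t g ω n' j) (ch Mb t g ω n' j) = (b : ℝ) ^ 2 := by
        unfold RAF.bd
        rw [if_pos rfl]
      rw [h2]
      calc wb Mb t g B n' j ω * wb Mb t g B n' j ω * (b : ℝ) ^ 2
          ≤ wt Mb t g n' j ω * wt Mb t g n' j ω * (b : ℝ) ^ 2 :=
            mul_le_mul_of_nonneg_right hprod (by positivity)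
        _ = ((b : ℝ) ^ 2) * wt Mb t g n' j ω ^ 2 := by ring
    · rw [if_neg he, zero_add]
      have hd1 : n ≤ n' → ch Mb t g ω n j + 2 ^ j * (n' - n) ≤ ch Mb t g ω n' j :=
        fun h => hdiff n hn n' hn' h
      have hd2 : n' ≤ n → ch Mb t g ω n' j + 2 ^ j * (n - n') ≤ ch Mb t g ω n j :=
        fun h => hdiff n' hn' n hn h
      have hcne : ch Mb t g ω n j ≠ ch Mb t g ω n' j := by
        intro hc
        have hpj : 0 < 2 ^ j := by positivity
        rcases lt_trichotomy n n' with h1 | h1 | h1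
        · have h2 := hd1 h1.le
          have h3 : 0 < 2 ^ j * (n' - n) := Nat.mul_pos hpj (by omega)
          omega
        · exact he h1.symm
        · have h2 := hd2 h1.le
          have h3 : 0 < 2 ^ j * (n - n') := Nat.mul_pos hpj (by omega)
          omega
      by_cases hnear : |((ch Mb t g ω n j : ℕ) : ℝ) - (ch Mb t g ω n' j : ℕ)| <
          (2 : ℝ) ^ ((1 - κ) * (b : ℝ))
      · have h1 : RAF.bd κ (κ / 8) b (ch Mb t g ω n j) (ch Mb t g ω n' j) = (b : ℝ) ^ (κ / 8) := by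
          unfold RAF.bd
          rw [if_neg hcne, if_pos hnear]
        have h2 : RAGStepENear κ m n n' := ⟨he, RAGStepE_dist κ hκ m j (fun n => ch Mb t g ω n j) n n' hd1 hd2
          hnear⟩
        rw [h1, if_pos h2]
        calc wb Mb t g B n j ω * wb Mb t g B n' j ω * (b : ℝ) ^ (κ / 8)
            ≤ wt Mb t g n j ω * wt Mb t g n' j ω * (b : ℝ) ^ (κ / 8) :=
              mul_le_mul_of_nonneg_right hprod (Real.rpow_nonneg hb0.le _)
          _ = ((b : ℝ) ^ (κ / 8)) * (wt Mb t g n j ω * wt Mb t g n' j ω) := by ring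
      · have h1 : RAF.bd κ (κ / 8) b (ch Mb t g ω n j) (ch Mb t g ω n' j) = 0 := by
          unfold RAF.bd
          rw [if_neg hcne, if_neg hnear]
        rw [h1, mul_zero]
        split_ifs
        · exact mul_nonneg (Real.rpow_nonneg hb0.le _)
            (mul_nonneg (hwt n) (hwt n'))
        · exact le_rfl
  have hterm0 : ∀ n n', 0 ≤ wb Mb t g B n j ω * wb Mb t g B n' j ω *
      RAF.bd κ (κ / 8) b (ch Mb t g ω n j) (ch Mb t g ω n' j) :=
    fun n n' => mul_nonneg (mul_nonneg (hom0 n) (hom0 n')) (hbd0 _ _)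
  calc ∑ i ∈ I.filter (fun n => ch Mb t g ω n j ∉ B), ∑ i' ∈ I.filter (fun n => ch Mb t g ω n j ∉ B),
        wb Mb t g B i j ω * wb Mb t g B i' j ω *
          RAF.bd κ (κ / 8) b (ch Mb t g ω i j) (ch Mb t g ω i' j)
      ≤ ∑ i ∈ I.filter (fun n => ch Mb t g ω n j ∉ B), ∑ i' ∈ I,
        wb Mb t g B i j ω * wb Mb t g B i' j ω *
          RAF.bd κ (κ / 8) b (ch Mb t g ω i j) (ch Mb t g ω i' j) :=
        Finset.sum_le_sum fun i _ => Finset.sum_le_sum_of_subset_of_nonneg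
          (Finset.filter_subset _ _) fun i' _ _ => hterm0 i i'
    _ ≤ ∑ i ∈ I, ∑ i' ∈ I, wb Mb t g B i j ω * wb Mb t g B i' j ω *
          RAF.bd κ (κ / 8) b (ch Mb t g ω i j) (ch Mb t g ω i' j) :=
        Finset.sum_le_sum_of_subset_of_nonneg (Finset.filter_subset _ _) fun i _ _ =>
          Finset.sum_nonneg fun i' _ => hterm0 i i'
    _ ≤ ∑ i ∈ I, ∑ i' ∈ I, ((if i' = i then ((b : ℝ) ^ 2) * wt Mb t g i j ω ^ 2 else 0) +
        (if RAGStepENear κ m i i' then ((b : ℝ) ^ (κ / 8)) *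
          (wt Mb t g i j ω * wt Mb t g i' j ω) else 0)) :=
        Finset.sum_le_sum fun i hi => Finset.sum_le_sum fun i' hi' => hpair i hi i' hi'
    _ = ∑ n ∈ I, ((b : ℝ) ^ 2) * wt Mb t g n j ω ^ 2 +
        ∑ n ∈ I, ∑ n' ∈ I.filter (fun n' => RAGStepENear κ m n n'),
          ((b : ℝ) ^ (κ / 8)) * (wt Mb t g n j ω * wt Mb t g n' j ω) := by
        rw [← Finset.sum_add_distrib]
        refine Finset.sum_congr rfl fun n hn => ?_
        rw [Finset.sum_add_distrib, Finset.sum_ite_eq' I n, if_pos hn, Finset.sum_filter]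

private theorem RAGStepE_ofReal_sum (s : Finset ℕ) (f : ℕ → ℝ) (hf : ∀ n ∈ s, 0 ≤ f n) :
    ENNReal.ofReal (∑ n ∈ s, f n) = ∑ n ∈ s, ENNReal.ofReal (f n) :=
  ENNReal.ofReal_sum_of_nonneg hf

private theorem RAGStepE_split (a u p s : ℝ) (ha : 0 ≤ a) (hp : 0 ≤ p) (hs : 0 ≤ s)
    (I : Finset ℕ) (F : ℕ → Finset ℕ) (q : ℕ → ℝ) (v : ℕ → ℕ → ℝ) (hq : ∀ n, 0 ≤ q n)
    (hv : ∀ n n', 0 ≤ v n n') :
    ENNReal.ofReal (a * u + (∑ n ∈ I, p * q n + ∑ n ∈ I, ∑ n' ∈ F n, s * v n n')) ≤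
      ENNReal.ofReal a * ENNReal.ofReal u + (∑ n ∈ I, ENNReal.ofReal p * ENNReal.ofReal (q n) +
        ∑ n ∈ I, ∑ n' ∈ F n, ENNReal.ofReal s * ENNReal.ofReal (v n n')) := by
  refine ENNReal.ofReal_add_le.trans (add_le_add (le_of_eq (ENNReal.ofReal_mul ha)) ?_)
  refine ENNReal.ofReal_add_le.trans (add_le_add ?_ ?_)
  · rw [RAGStepE_ofReal_sum I _ fun n _ => mul_nonneg hp (hq n)]
    exact le_of_eq (Finset.sum_congr rfl fun n _ => ENNReal.ofReal_mul hp)
  · rw [RAGStepE_ofReal_sum I _ fun n _ => Finset.sum_nonneg fun n' _ => mul_nonneg hs (hv n n')]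
    refine le_of_eq (Finset.sum_congr rfl fun n _ => ?_)
    rw [RAGStepE_ofReal_sum (F n) _ fun n' _ => mul_nonneg hs (hv n n')]
    exact Finset.sum_congr rfl fun n' _ => ENNReal.ofReal_mul hs

/-- The error of one step. -/
private noncomputable def RAGStepE_D (R : ℕ) (Mb : ℕ → ℕ) (t : ℝ) (g : ℕ → ℝ) (B : Set ℕ) (Φ : ℕ → ℝ) (b : ℕ)
    (I : Finset ℕ) (j : ℕ) (ω : ℕ → ℝ × ℝ) : ℝ :=
  ∑ n ∈ I, wb Mb t g B n j ω *
    (RLC.th (ch Mb t g ω n (j + 1)) * Φ (ch Mb t g ω n (j + 1)) - mn R (Mb b) Φ (ch Mb t g ω n j))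

private theorem RAGStepE_meas_D (R : ℕ) (Mb : ℕ → ℕ) (t : ℝ) (g : ℕ → ℝ) (B : Set ℕ) (Φ : ℕ → ℝ) (b : ℕ)
    (I : Finset ℕ) (j : ℕ) : Measurable (RAGStepE_D R Mb t g B Φ b I j) := by
  unfold RAGStepE_D
  exact Finset.measurable_fun_sum I fun n _ => (wb_meas Mb t g B n j).mul
    ((RAGStepE_meas_nat Mb t g (fun c => RLC.th c * Φ c) n (j + 1)).sub
      (RAGStepE_meas_nat Mb t g (fun c => mn R (Mb b) Φ c) n j))

open Classical in
private theorem RAGStepE_ae {R : ℕ} {Mb : ℕ → ℕ} {t K : ℝ} {g : ℕ → ℝ} (h : AdmG R Mb t K g) {κ A : ℝ} (hκ : 0 < κ)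
    (hA : 0 ≤ A) {B : Set ℕ} {m0 : ℕ} (hSV : SVG R t K κ (κ / 8) A B m0) (m j : ℕ) (hm0 : m0 ≤ m) (hm : 1 ≤ m)
    (I : Finset ℕ) (ω : ℕ → ℝ × ℝ) (hpos : ∀ n ∈ I, 0 < n)
    (hlog : ∀ n ∈ I, Nat.log 2 (ch Mb t g ω n j) = m + j)
    (hdiff : ∀ n ∈ I, ∀ n' ∈ I, n ≤ n' → ch Mb t g ω n j + 2 ^ j * (n' - n) ≤ ch Mb t g ω n' j)
    {Φ : ℕ → ℝ} (hΦ : Per R Φ) :
    ∫⁻ y, ENNReal.ofReal (RAGStepE_D R Mb t g B Φ (m + j) I j (Function.update ω (m + j) y) ^ 2) ∂uu ≤
    ENNReal.ofReal ((m : ℝ) ^ (-A)) * ENNReal.ofReal ((∑ n ∈ I, wb Mb t g B n j ω) ^ 2) +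
      (∑ n ∈ I, ENNReal.ofReal (((m + j : ℕ) : ℝ) ^ 2) *
          ENNReal.ofReal (wt Mb t g n j ω ^ 2) +
        ∑ n ∈ I, ∑ n' ∈ I.filter (fun n' => RAGStepENear κ m n n'),
          ENNReal.ofReal (((m + j : ℕ) : ℝ) ^ (κ / 8)) *
            ENNReal.ofReal (wt Mb t g n j ω * wt Mb t g n' j ω)) := by
  have hD : ∀ y, RAGStepE_D R Mb t g B Φ (m + j) I j (Function.update ω (m + j) y) =
      ∑ i ∈ I.filter (fun n => ch Mb t g ω n j ∉ B),
        wb Mb t g B i j ω * (RLC.th (RAF.TT (Mb (m + j)) t g (ch Mb t g ω i j) y) *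
          Φ (RAF.TT (Mb (m + j)) t g (ch Mb t g ω i j) y) - mn R (Mb (m + j)) Φ (ch Mb t g ω i j)) := by
    intro y
    rw [Finset.sum_filter_of_ne]
    · unfold RAGStepE_D
      refine Finset.sum_congr rfl fun n hn => ?_
      rw [wb_update Mb t g B ω (hpos n hn) (hlog n hn) y, ch_update_last Mb t g ω (hpos n hn) (hlog n hn) y,
        ch_update_le Mb t g ω (hpos n hn) (hlog n hn) y le_rfl]
    · intro n _ hne hB
      apply hne
      rw [RAGStepE_wb_zero Mb t g B n j ω hB]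
      ring
  have h1 : ∫⁻ y, ENNReal.ofReal (RAGStepE_D R Mb t g B Φ (m + j) I j (Function.update ω (m + j) y) ^ 2) ∂uu =
      ∫⁻ y, ENNReal.ofReal ((∑ i ∈ I.filter (fun n => ch Mb t g ω n j ∉ B),
        wb Mb t g B i j ω * (RLC.th (RAF.TT (Mb (m + j)) t g (ch Mb t g ω i j) y) *
          Φ (RAF.TT (Mb (m + j)) t g (ch Mb t g ω i j) y) - mn R (Mb (m + j)) Φ (ch Mb t g ω i j))) ^ 2) ∂uu := by
    refine lintegral_congr fun y => ?_
    rw [hD y]
  rw [h1]
  refine (hSV.step g h.admK (Mb (m + j)) (h.dvd _) Φ hΦ (m + j) (by omega)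
    (I.filter (fun n => ch Mb t g ω n j ∉ B))
    (fun n => ch Mb t g ω n j) (fun n => wb Mb t g B n j ω) (fun i hi => ?_)
    (fun i _ => wb_nonneg _ _ _ _ _ _ _)).trans ?_
  · rw [Finset.mem_filter] at hi
    exact ⟨hlog i hi.1, hi.2⟩
  · refine (ENNReal.ofReal_le_ofReal (RAGStepE_real hκ hA B m j hm I ω hdiff)).trans ?_
    exact RAGStepE_split _ _ _ _ (Real.rpow_nonneg (Nat.cast_nonneg m) _) (by positivity)
      (Real.rpow_nonneg (Nat.cast_nonneg _) _) I _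
      (fun n => wt Mb t g n j ω ^ 2) (fun n n' => wt Mb t g n j ω * wt Mb t g n' j ω)
      (fun n => sq_nonneg _) (fun n n' => mul_nonneg (wt_nonneg _ _ _ _ _ _) (wt_nonneg _ _ _ _ _ _))

/-! ### The two error terms -/

private theorem RAGStepE_two_pow (m : ℕ) (a : ℝ) :
    (2 : ℝ) ^ (a * (m : ℝ)) = Real.exp (a * Real.log ((2 : ℝ) ^ m)) := by
  rw [Real.rpow_def_of_pos (by norm_num), Real.log_pow]
  congr 1
  ring

private theorem RAGStepE_pow_exp {r : ℝ} (hr : 0 < r) (J : ℕ) : r ^ J = Real.exp (J * Real.log r) := by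
  rw [Real.exp_nat_mul, Real.exp_log hr]

/-- The common part of the sizes. -/
private theorem RAGStepE_sizes {ε : ℝ} (hε : 0 < ε) (hε1 : ε < 1) (m j : ℕ)
    (hlog1 : 1 ≤ Real.log (Real.log ((2 : ℝ) ^ m))) (hL1 : 1 ≤ Real.log ((2 : ℝ) ^ m))
    (hJ : ((j : ℝ) + 1 ≤ (1 - ε) * (Real.log (2 ^ m) / Real.log (Real.log (2 ^ m))))) :
    ((j : ℝ) + 1 ≤ (1 - ε) * (Real.log (2 ^ m) / Real.log (Real.log (2 ^ m)))) ∧
    ((j : ℝ) + 1 ≤ Real.log (2 ^ m) / Real.log (Real.log (2 ^ m))) ∧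
    Real.log (2 ^ m) / Real.log (Real.log (2 ^ m)) ≤ Real.log (2 ^ m) ∧
    Real.log ((2 : ℝ) ^ m) ≤ m ∧ (j : ℝ) ≤ m := by
  set L : ℝ := Real.log ((2 : ℝ) ^ m) with hL
  set Q : ℝ := L / Real.log L with hQ
  have hlog0 : 0 < Real.log L := by linarith
  have hQ0 : 0 ≤ Q := div_nonneg (by linarith) hlog0.le
  have h1 : (1 - ε) * Q ≤ Q := by nlinarith
  have hQL : Q ≤ L := div_le_self (by linarith) hlog1
  have hLm : L ≤ m := by
    rw [hL, Real.log_pow]
    have h2 : Real.log 2 ≤ 1 := by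
      have := Real.log_two_lt_d9
      linarith
    have h3 : (0 : ℝ) ≤ m := Nat.cast_nonneg m
    nlinarith
  refine ⟨by linarith, by linarith, hQL, hLm, by linarith⟩

private theorem RAGStepE_prod {ε η : ℝ} (hε : 0 < ε) (hε1 : ε < 1) (m j : ℕ)
    (hlog1 : 1 ≤ Real.log (Real.log ((2 : ℝ) ^ m))) (hL1 : 1 ≤ Real.log ((2 : ℝ) ^ m))
    (hj1 : ((j : ℝ) + 1 ≤ (1 - ε) * (Real.log (2 ^ m) / Real.log (Real.log (2 ^ m)))))
    (hj2 : ((j : ℝ) + 1 ≤ Real.log (2 ^ m) / Real.log (Real.log (2 ^ m))))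
    (hη2 : Real.log ((2 : ℝ) ^ m) / Real.log (Real.log ((2 : ℝ) ^ m)) ^ 2 ≤
      η * Real.log ((2 : ℝ) ^ m)) :
    ∏ i ∈ Finset.range (j + 1), (((m : ℝ) + i + 1) * Real.log 2) ≤
      Real.exp ((1 - ε) * Real.log ((2 : ℝ) ^ m) + η * Real.log ((2 : ℝ) ^ m)) := by
  have hLm : Real.log ((2 : ℝ) ^ m) = m * Real.log 2 := by rw [Real.log_pow]
  set L : ℝ := Real.log ((2 : ℝ) ^ m) with hL
  have hlog0 : 0 < Real.log L := by linarith
  have hL0 : 0 < L := by linarith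
  have hl2 : 0 < Real.log 2 := Real.log_pos (by norm_num)
  have hl21 : Real.log 2 ≤ 1 := by
    have := Real.log_two_lt_d9
    linarith
  have hfac : ∀ i ∈ Finset.range (j + 1), ((m : ℝ) + i + 1) * Real.log 2 ≤
      Real.exp (Real.log L + 1 / Real.log L) := by
    intro i hi
    rw [Finset.mem_range] at hi
    have hij : (i : ℝ) + 1 ≤ (j : ℝ) + 1 := by
      have : i ≤ j := by omega
      have h1 : (i : ℝ) ≤ j := by exact_mod_cast this
      linarith
    have h2 : ((m : ℝ) + i + 1) * Real.log 2 ≤ L + L / Real.log L := by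
      rw [hLm]
      have h3 : ((i : ℝ) + 1) * Real.log 2 ≤ ((i : ℝ) + 1) * 1 :=
        mul_le_mul_of_nonneg_left hl21 (by positivity)
      rw [hLm] at hj2
      linarith
    refine h2.trans ?_
    rw [Real.exp_add, Real.exp_log hL0]
    have h4 := Real.add_one_le_exp (1 / Real.log L)
    have h5 : L + L / Real.log L = L * (1 / Real.log L + 1) := by ring
    rw [h5]
    exact mul_le_mul_of_nonneg_left h4 hL0.le
  have h1 : ∏ i ∈ Finset.range (j + 1), (((m : ℝ) + i + 1) * Real.log 2) ≤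
      Real.exp (Real.log L + 1 / Real.log L) ^ (j + 1) := by
    have h2 := Finset.prod_le_prod (s := Finset.range (j + 1))
      (fun i _ => (by positivity : (0 : ℝ) ≤ ((m : ℝ) + i + 1) * Real.log 2)) hfac
    rwa [Finset.prod_const, Finset.card_range] at h2
  refine h1.trans ?_
  rw [← Real.exp_nat_mul]
  refine Real.exp_le_exp.2 ?_
  have h3 : 0 ≤ Real.log L + 1 / Real.log L := by positivity
  have h4 : ((j + 1 : ℕ) : ℝ) * (Real.log L + 1 / Real.log L) ≤
      (1 - ε) * (L / Real.log L) * (Real.log L + 1 / Real.log L) := by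
    refine mul_le_mul_of_nonneg_right ?_ h3
    push_cast
    exact hj1
  have h5 : (1 - ε) * (L / Real.log L) * (Real.log L + 1 / Real.log L) =
      (1 - ε) * L + (1 - ε) * (L / Real.log L ^ 2) := by
    field_simp
  have h6 : 0 ≤ L / Real.log L ^ 2 := by positivity
  have h7 : (1 - ε) * (L / Real.log L ^ 2) ≤ L / Real.log L ^ 2 := by nlinarith
  linarith

private theorem RAGStepE_rC {r C c η Q L : ℝ} (hr : 1 ≤ r) (hC : 1 ≤ C) {a : ℝ}
    (hcd : 2 * Real.log r + Real.log C + a ≤ c) (hcQ : c * Q ≤ η * L) (hQ : 0 ≤ Q) (J j : ℕ)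
    (hJ : (J : ℝ) ≤ Q) (hj : (j : ℝ) ≤ Q) :
    (r ^ J) ^ 2 * C ^ j * Real.exp (a * Q) ≤ Real.exp (η * L) := by
  rw [RAGStepE_pow_exp (by linarith) J, RAGStepE_pow_exp (by linarith) j, ← Real.exp_nat_mul,
    ← Real.exp_add, ← Real.exp_add]
  refine Real.exp_le_exp.2 ?_
  have h1 : 0 ≤ Real.log r := Real.log_nonneg hr
  have h2 : 0 ≤ Real.log C := Real.log_nonneg hC
  have h3 : (J : ℝ) * Real.log r ≤ Q * Real.log r := mul_le_mul_of_nonneg_right hJ h1
  have h4 : (j : ℝ) * Real.log C ≤ Q * Real.log C := mul_le_mul_of_nonneg_right hj h2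
  have h5 : (2 * Real.log r + Real.log C + a) * Q ≤ c * Q := mul_le_mul_of_nonneg_right hcd hQ
  push_cast
  linarith

private theorem RAGStepE_sum_le (s : Finset ℕ) (f : ℕ → ENNReal) (x N : ℝ) (hx : 0 ≤ x)
    (hN : (s.card : ℝ) ≤ N) (hf : ∀ n ∈ s, f n ≤ ENNReal.ofReal x) :
    ∑ n ∈ s, f n ≤ ENNReal.ofReal (N * x) := by
  calc ∑ n ∈ s, f n ≤ ∑ _n ∈ s, ENNReal.ofReal x := Finset.sum_le_sum hf
    _ = ENNReal.ofReal ((s.card : ℝ) * x) := by
        rw [Finset.sum_const, nsmul_eq_mul, ENNReal.ofReal_mul (Nat.cast_nonneg _),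
          ENNReal.ofReal_natCast]
    _ ≤ ENNReal.ofReal (N * x) := ENNReal.ofReal_le_ofReal (mul_le_mul_of_nonneg_right hN hx)

private theorem RAGStepE_th_le {t : ℝ} {m n : ℕ} (hn : n ∈ RAF.Inn t m) : RLC.th n ≤ (m : ℝ) + 1 := by
  unfold RAF.Inn at hn
  rw [Finset.mem_filter, Finset.mem_Ico] at hn
  have h1 : n ≤ 2 ^ (m + 1) := hn.1.2.le
  have hn0 : 0 < n := lt_of_lt_of_le (by positivity) hn.1.1
  refine (RLC.th_le_log n).trans ?_
  have h2 : Real.log n ≤ Real.log ((2 : ℝ) ^ (m + 1)) := by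
    refine Real.log_le_log (by exact_mod_cast hn0) ?_
    exact_mod_cast h1
  rw [Real.log_pow] at h2
  have h3 : Real.log 2 ≤ 1 := by
    have := Real.log_two_lt_d9
    linarith
  push_cast at h2
  have h4 : (0 : ℝ) ≤ (m : ℝ) + 1 := by positivity
  nlinarith

private theorem RAGStepE_card_Inn {t : ℝ} {m : ℕ} (I : Finset ℕ) (hI : I ⊆ RAF.Inn t m) :
    (I.card : ℝ) ≤ (2 : ℝ) ^ m := by
  have h1 : I ⊆ Finset.Ico (2 ^ m) (2 ^ (m + 1)) := by
    refine hI.trans ?_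
    unfold RAF.Inn
    exact Finset.filter_subset _ _
  have h2 := Finset.card_le_card h1
  rw [Nat.card_Ico, pow_succ] at h2
  have h3 : I.card ≤ 2 ^ m := by omega
  exact_mod_cast h3

theorem step_e {R : ℕ} (hR : 0 < R) (t K : ℝ) {κ ε A : ℝ} (hκ : 0 < κ) (hκ1 : κ ≤ 1 / 8) (hε : 0 < ε) (hε1 : ε < 1)
    (hA : 0 ≤ A) : ∃ δ : ℝ, 0 < δ ∧ ∃ m1 : ℕ, ∀ (Mb : ℕ → ℕ) (g : ℕ → ℝ), AdmG R Mb t K g →
    ∀ (B : Set ℕ) (m0 : ℕ), SVG R t K κ (κ / 8) A B m0 →
    ∀ m : ℕ, m0 ≤ m → m1 ≤ m → ∀ I ⊆ RAF.Inn t m, ∀ j : ℕ, ((j : ℝ) + 1 ≤ (1 - ε) * (LL m / Real.log (LL m))) →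
    ∀ Φ : ℕ → ℝ, Per R Φ →
    ∫⁻ ω, ENNReal.ofReal ((∑ n ∈ I, wb Mb t g B n j ω *
        (RLC.th (ch Mb t g ω n (j + 1)) * Φ (ch Mb t g ω n (j + 1)) - mn R (Mb (m + j)) Φ (ch Mb t g ω n j))) ^ 2) ∂Pm ≤
      ENNReal.ofReal ((m : ℝ) ^ (-A)) * ∫⁻ ω, ENNReal.ofReal ((∑ n ∈ I, wb Mb t g B n j ω) ^ 2) ∂Pm +
        ENNReal.ofReal ((2 : ℝ) ^ ((2 - δ) * (m : ℝ))) := by
    classical
  obtain ⟨mg, hgeo⟩ := geo t K
  obtain ⟨mt, hmt⟩ := mom_two t K
  obtain ⟨C, hC1, md, hmd⟩ := mom_diag hR t K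
  have hlC : 0 ≤ Real.log C := Real.log_nonneg hC1
  set μ : ℝ := min ε κ with hμ
  have hμ0 : 0 < μ := lt_min hε hκ
  have hμε : μ ≤ ε := min_le_left _ _
  have hμκ : μ ≤ κ := min_le_right _ _
  set η : ℝ := μ / 8 with hη
  have hη0 : 0 < η := by positivity
  set c : ℝ := 2 * Real.log 1 + Real.log C + κ with hc
  obtain ⟨me, hme2, hev⟩ := RAGStepE_ev η c hη0 (by rw [hc, Real.log_one]; positivity)
  refine ⟨μ / 2, by positivity, mg + mt + md + me, ?_⟩
  intro Mb g h B m0 hSV m hm0 hm1 I hI j hJ Φ hΦ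
  obtain ⟨hlog1, hL1, hcQ, hη2, h24⟩ := hev m (by omega)
  have hJ' : (((j : ℝ)) + 1 ≤ (1 - ε) * (Real.log (2 ^ m) / Real.log (Real.log (2 ^ m)))) := hJ
  obtain ⟨hj1, hj2, hQL, hLm, hjm⟩ := RAGStepE_sizes hε hε1 m j hlog1 hL1 hJ'
  have hmpos : 1 ≤ m := by omega
  have hm1r : (1 : ℝ) ≤ m := by exact_mod_cast hmpos
  have hpos : ∀ n ∈ I, 0 < n := fun n hn => (RAF.Inn_pos (hI hn)).1
  -- the almost sure inequality
  have hres := RAF.resample (m + j) (fun ω => ENNReal.ofReal (RAGStepE_D R Mb t g B Φ (m + j) I j ω ^ 2))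
    ((RAGStepE_meas_D R Mb t g B Φ (m + j) I j).pow_const 2).ennreal_ofReal
  have hshow : ∫⁻ ω, ENNReal.ofReal ((∑ n ∈ I, wb Mb t g B n j ω *
        (RLC.th (ch Mb t g ω n (j + 1)) * Φ (ch Mb t g ω n (j + 1)) - mn R (Mb (m + j)) Φ (ch Mb t g ω n j))) ^ 2) ∂Pm =
      ∫⁻ ω, ENNReal.ofReal (RAGStepE_D R Mb t g B Φ (m + j) I j ω ^ 2) ∂Pm := rfl
  rw [hshow, hres]
  have hae : ∀ᵐ ω ∂Pm, ∫⁻ y, ENNReal.ofReal (RAGStepE_D R Mb t g B Φ (m + j) I j
      (Function.update ω (m + j) y) ^ 2) ∂uu ≤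
    ENNReal.ofReal ((m : ℝ) ^ (-A)) * ENNReal.ofReal ((∑ n ∈ I, wb Mb t g B n j ω) ^ 2) +
      (∑ n ∈ I, ENNReal.ofReal (((m + j : ℕ) : ℝ) ^ 2) *
          ENNReal.ofReal (wt Mb t g n j ω ^ 2) +
        ∑ n ∈ I, ∑ n' ∈ I.filter (fun n' => RAGStepENear κ m n n'),
          ENNReal.ofReal (((m + j : ℕ) : ℝ) ^ (κ / 8)) *
            ENNReal.ofReal (wt Mb t g n j ω * wt Mb t g n' j ω)) := by
    filter_upwards [RAF.ae_mem] with ω hω
    have hG := hgeo R Mb g h m (by omega) ω hω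
    exact RAGStepE_ae h hκ hA hSV m j hm0 hmpos I ω hpos
      (fun n hn => ((hG n (hI hn)).1 j).1)
      (fun n hn n' hn' hle => (hG n (hI hn)).2 n' (hI hn') hle j) hΦ
  refine (lintegral_mono_ae hae).trans ?_
  have hmeas1 : Measurable fun ω => ∑ n ∈ I, ENNReal.ofReal (((m + j : ℕ) : ℝ) ^ 2) *
          ENNReal.ofReal (wt Mb t g n j ω ^ 2) :=
    Finset.measurable_fun_sum I fun n _ =>
      (((wt_meas Mb t g n j).pow_const 2).ennreal_ofReal).const_mul _
  have hmeas2 : Measurable fun ω => ∑ n ∈ I, ∑ n' ∈ I.filter (fun n' => RAGStepENear κ m n n'),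
          ENNReal.ofReal (((m + j : ℕ) : ℝ) ^ (κ / 8)) *
            ENNReal.ofReal (wt Mb t g n j ω * wt Mb t g n' j ω) :=
    Finset.measurable_fun_sum I fun n _ => Finset.measurable_fun_sum _ fun n' _ =>
      (((wt_meas Mb t g n j).mul (wt_meas Mb t g n' j)).ennreal_ofReal).const_mul _
  have hmeas12 : Measurable fun ω =>
      (∑ n ∈ I, ENNReal.ofReal (((m + j : ℕ) : ℝ) ^ 2) *
          ENNReal.ofReal (wt Mb t g n j ω ^ 2)) +
        ∑ n ∈ I, ∑ n' ∈ I.filter (fun n' => RAGStepENear κ m n n'),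
          ENNReal.ofReal (((m + j : ℕ) : ℝ) ^ (κ / 8)) *
            ENNReal.ofReal (wt Mb t g n j ω * wt Mb t g n' j ω) := hmeas1.add hmeas2
  rw [lintegral_add_right _ hmeas12, lintegral_const_mul' _ _ ENNReal.ofReal_ne_top,
    lintegral_add_left hmeas1]
  refine add_le_add le_rfl ?_
  -- sizes
  set L : ℝ := Real.log ((2 : ℝ) ^ m) with hL
  set Q : ℝ := L / Real.log L with hQ
  have hlog0 : 0 < Real.log L := by linarith
  have hQ0 : 0 ≤ Q := div_nonneg (by linarith) hlog0.le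
  have hjQ : (j : ℝ) ≤ Q := by linarith
  have hexpL : (2 : ℝ) ^ m = Real.exp L := by
    rw [hL, Real.exp_log (by positivity)]
  have hb2m : ((m + j : ℕ) : ℝ) ≤ 2 * m := by
    push_cast
    linarith
  have hb0 : (0 : ℝ) < ((m + j : ℕ) : ℝ) := by
    have : 0 < m + j := by omega
    exact_mod_cast this
  have hm3 : (1 : ℝ) ≤ (m : ℝ) ^ 3 := one_le_pow₀ hm1r
  have htarget : (2 : ℝ) ^ ((2 - μ / 2) * (m : ℝ)) = Real.exp ((2 - μ / 2) * L) :=
    RAGStepE_two_pow m _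
  -- the diagonal
  have hD : ∫⁻ ω, ∑ n ∈ I, ENNReal.ofReal (((m + j : ℕ) : ℝ) ^ 2) *
          ENNReal.ofReal (wt Mb t g n j ω ^ 2) ∂Pm ≤
      ENNReal.ofReal (Real.exp ((2 - μ / 2) * L) / 2) := by
    rw [lintegral_finsetSum _ fun n _ =>
      (((wt_meas Mb t g n j).pow_const 2).ennreal_ofReal).const_mul _]
    set P : ℝ := ∏ i ∈ Finset.range (j + 1), (((m : ℝ) + i + 1) * Real.log 2) with hP
    have hP0 : 0 ≤ P := by
      rw [hP]
      have hl2 : 0 < Real.log 2 := Real.log_pos (by norm_num)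
      exact Finset.prod_nonneg fun i _ => by positivity
    have hPle : P ≤ Real.exp ((1 - ε) * L + η * L) := RAGStepE_prod hε hε1 m j hlog1 hL1 hj1 hj2 hη2
    refine (RAGStepE_sum_le I _ ((((m + j : ℕ) : ℝ) ^ 2) * (P * (((m : ℝ) + 1) * C ^ j)))
      (Real.exp L) (by positivity) ?_ ?_).trans ?_
    · rw [← hexpL]
      exact RAGStepE_card_Inn I hI
    · intro n hn
      rw [lintegral_const_mul' _ _ ENNReal.ofReal_ne_top,
        ENNReal.ofReal_mul (by positivity : (0 : ℝ) ≤ ((m + j : ℕ) : ℝ) ^ 2)]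
      refine mul_le_mul' le_rfl ((hmd Mb g h m (by omega) n (hI hn) j).trans (ENNReal.ofReal_le_ofReal ?_))
      refine mul_le_mul_of_nonneg_left ?_ hP0
      exact mul_le_mul_of_nonneg_right (RAGStepE_th_le (hI hn)) (by positivity)
    · refine ENNReal.ofReal_le_ofReal ?_
      have h1 : ((m + j : ℕ) : ℝ) ^ 2 ≤ 4 * (m : ℝ) ^ 2 := by
        have := pow_le_pow_left₀ hb0.le hb2m 2
        linarith
      have h2 : (m : ℝ) + 1 ≤ 2 * m := by linarith
      have h3 : ((1 : ℝ) ^ j) ^ 2 * C ^ j * Real.exp (κ * Q) ≤ Real.exp (η * L) :=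
        RAGStepE_rC le_rfl hC1 le_rfl hcQ hQ0 j j hjQ hjQ
      have h3' : C ^ j ≤ Real.exp (η * L) := by
        rw [one_pow, one_pow, one_mul] at h3
        refine le_trans ?_ h3
        have : 1 ≤ Real.exp (κ * Q) := Real.one_le_exp (by positivity)
        exact le_mul_of_one_le_right (by positivity) this
      calc Real.exp L * ((((m + j : ℕ) : ℝ) ^ 2) * (P * (((m : ℝ) + 1) * C ^ j)))
          = Real.exp L * ((((m + j : ℕ) : ℝ) ^ 2 * ((m : ℝ) + 1)) * (C ^ j) * P) := by ring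
        _ ≤ Real.exp L * ((4 * (m : ℝ) ^ 2 * (2 * m)) * Real.exp (η * L) *
              Real.exp ((1 - ε) * L + η * L)) := by
            refine mul_le_mul_of_nonneg_left ?_ (Real.exp_pos _).le
            refine mul_le_mul ?_ hPle hP0 (by positivity)
            exact mul_le_mul (mul_le_mul h1 h2 (by positivity) (by positivity)) h3' (by positivity)
              (by positivity)
        _ ≤ Real.exp L * ((Real.exp (η * L) / 2) * Real.exp (η * L) *
              Real.exp ((1 - ε) * L + η * L)) := by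
            refine mul_le_mul_of_nonneg_left ?_ (Real.exp_pos _).le
            refine mul_le_mul_of_nonneg_right ?_ (Real.exp_pos _).le
            refine mul_le_mul_of_nonneg_right ?_ (Real.exp_pos _).le
            have : 4 * (m : ℝ) ^ 2 * (2 * m) = 8 * (m : ℝ) ^ 3 := by ring
            rw [this]
            linarith
        _ = Real.exp (L + (η * L + (η * L + ((1 - ε) * L + η * L)))) / 2 := by
            simp only [Real.exp_add]
            ring
        _ ≤ Real.exp ((2 - μ / 2) * L) / 2 := by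
            refine div_le_div_of_nonneg_right (Real.exp_le_exp.2 ?_) (by norm_num)
            have hL0 : 0 ≤ L := by linarith
            have e1 : L + (η * L + (η * L + ((1 - ε) * L + η * L))) = (2 - ε + 3 * η) * L := by ring
            rw [e1]
            refine mul_le_mul_of_nonneg_right ?_ hL0
            rw [hη]
            linarith
  -- the near pairs
  have hN : ∫⁻ ω, ∑ n ∈ I, ∑ n' ∈ I.filter (fun n' => RAGStepENear κ m n n'),
          ENNReal.ofReal (((m + j : ℕ) : ℝ) ^ (κ / 8)) *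
            ENNReal.ofReal (wt Mb t g n j ω * wt Mb t g n' j ω) ∂Pm ≤
      ENNReal.ofReal (Real.exp ((2 - μ / 2) * L) / 2) := by
    have hmp : ∀ n n', Measurable fun ω =>
        ENNReal.ofReal (((m + j : ℕ) : ℝ) ^ (κ / 8)) *
            ENNReal.ofReal (wt Mb t g n j ω * wt Mb t g n' j ω) := fun n n' =>
      (((wt_meas Mb t g n j).mul (wt_meas Mb t g n' j)).ennreal_ofReal).const_mul _
    have hmq : ∀ n, Measurable fun ω => ∑ n' ∈ I.filter (fun n' => RAGStepENear κ m n n'),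
        ENNReal.ofReal (((m + j : ℕ) : ℝ) ^ (κ / 8)) *
            ENNReal.ofReal (wt Mb t g n j ω * wt Mb t g n' j ω) := fun n =>
      Finset.measurable_fun_sum _ fun n' _ => hmp n n'
    rw [lintegral_finsetSum _ fun n _ => hmq n]
    set β : ℝ := ((m + j : ℕ) : ℝ) ^ (κ / 8) with hβ
    have hβ0 : 0 < β := Real.rpow_pos_of_pos hb0 _
    set x : ℝ := (β) * (((m : ℝ) + 1) ^ 2 * β ^ j) with hx
    have hx0 : 0 ≤ x := by positivity
    have hexpκ : (2 : ℝ) ^ ((1 - κ) * (m : ℝ)) = Real.exp ((1 - κ) * L) := RAGStepE_two_pow m _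
    refine (RAGStepE_sum_le I _ ((3 * Real.exp ((1 - κ) * L)) * x) (Real.exp L) (by positivity) ?_ ?_).trans ?_
    · rw [← hexpL]
      exact RAGStepE_card_Inn I hI
    · intro n hn
      rw [lintegral_finsetSum _ fun n' _ => hmp n n']
      refine RAGStepE_sum_le _ _ x _ hx0 ?_ ?_
      · rw [← hexpκ]
        exact RAGStepE_card_near κ (by linarith) m n I
      · intro n' hn'
        rw [Finset.mem_filter] at hn'
        rw [lintegral_const_mul' _ _ ENNReal.ofReal_ne_top, hx,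
          ENNReal.ofReal_mul (by positivity : (0 : ℝ) ≤ β)]
        refine mul_le_mul' le_rfl ((hmt R Mb g h κ (κ / 8) A B m0 (by positivity) hSV m hm0 (by omega) n (hI hn) n'
          (hI hn'.1) (Ne.symm hn'.2.1) j).trans (ENNReal.ofReal_le_ofReal ?_))
        have e1 : ((m : ℝ) + j) ^ (κ / 8) = β := by
          rw [hβ]
          push_cast
          rfl
        rw [e1]
        refine mul_le_mul_of_nonneg_right ?_ (by positivity)
        rw [pow_two]
        exact mul_le_mul (RAGStepE_th_le (hI hn)) (RAGStepE_th_le (hI hn'.1)) (RLC.th_nonneg _) (by positivity)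
    · refine ENNReal.ofReal_le_ofReal ?_
      have h2 : ((m : ℝ) + 1) ^ 2 ≤ 4 * (m : ℝ) ^ 3 := by
        have e1 : (m : ℝ) + 1 ≤ 2 * m := by linarith
        have e2 := pow_le_pow_left₀ (by positivity) e1 2
        have e3 : (m : ℝ) ^ 2 ≤ m ^ 3 := pow_le_pow_right₀ hm1r (by norm_num)
        nlinarith
      have hlogb : Real.log ((m + j : ℕ) : ℝ) ≤ Real.log L + Real.log 3 := by
        rw [← Real.log_mul (by linarith) (by norm_num)]
        refine Real.log_le_log hb0 (hb2m.trans ?_)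
        have e1 : L = m * Real.log 2 := by rw [hL, Real.log_pow]
        rw [e1]
        have := Real.log_two_gt_d9
        nlinarith
      have hlog3 : Real.log 3 ≤ 2 := by
        have e1 : Real.log 3 ≤ Real.log 4 := Real.log_le_log (by norm_num) (by norm_num)
        have e2 : Real.log 4 = 2 * Real.log 2 := by
          rw [show (4 : ℝ) = 2 ^ (2 : ℕ) by norm_num, Real.log_pow]
          norm_num
        have := Real.log_two_lt_d9
        linarith
      have hβj : β * β ^ j ≤ Real.exp (κ / 8 * L) * Real.exp (κ * Q) := by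
        rw [← pow_succ', hβ, ← Real.rpow_natCast, ← Real.rpow_mul hb0.le, Real.rpow_def_of_pos hb0,
          ← Real.exp_add]
        refine Real.exp_le_exp.2 ?_
        push_cast
        have e1 : Real.log ((m : ℝ) + j) ≤ Real.log L + 2 := by
          have := hlogb
          push_cast at this
          linarith
        have e2 : 0 ≤ κ / 8 * ((j : ℝ) + 1) := by positivity
        have e3 : κ / 8 * ((j : ℝ) + 1) ≤ κ / 8 * Q := mul_le_mul_of_nonneg_left hj2 (by positivity)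
        have e4 : Real.log ((m : ℝ) + j) * (κ / 8 * ((j : ℝ) + 1)) ≤
            (Real.log L + 2) * (κ / 8 * Q) := by
          refine mul_le_mul e1 e3 e2 (by positivity)
        have e5 : Q * Real.log L = L := by
          rw [hQ]
          field_simp
        have e6 : (Real.log L + 2) * (κ / 8 * Q) = κ / 8 * (Q * Real.log L) + κ / 4 * Q := by ring
        rw [e6, e5] at e4
        have e7 : κ / 4 * Q ≤ κ * Q := mul_le_mul_of_nonneg_right (by linarith) hQ0
        linarith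
      have h3 : Real.exp (κ * Q) ≤ Real.exp (η * L) := by
        have e1 := RAGStepE_rC le_rfl le_rfl (show 2 * Real.log 1 + Real.log 1 + κ ≤ c by
          rw [hc]
          linarith [Real.log_one]) hcQ hQ0 j j hjQ hjQ
        simpa only [one_pow, one_mul, mul_one] using e1
      calc Real.exp L * ((3 * Real.exp ((1 - κ) * L)) * x)
          = Real.exp L * (Real.exp ((1 - κ) * L) * ((3 * ((m : ℝ) + 1) ^ 2) *
              (β * β ^ j))) := by
            rw [hx]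
            ring
        _ ≤ Real.exp L * (Real.exp ((1 - κ) * L) * ((3 * (4 * (m : ℝ) ^ 3)) *
              (Real.exp (κ / 8 * L) * Real.exp (κ * Q)))) := by
            refine mul_le_mul_of_nonneg_left ?_ (Real.exp_pos _).le
            refine mul_le_mul_of_nonneg_left ?_ (Real.exp_pos _).le
            refine mul_le_mul ?_ ?_ (by positivity) (by positivity)
            · linarith
            · exact hβj
        _ = Real.exp L * (Real.exp ((1 - κ) * L) * ((12 * (m : ℝ) ^ 3) *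
              (Real.exp (κ / 8 * L) * Real.exp (κ * Q)))) := by ring
        _ ≤ Real.exp L * (Real.exp ((1 - κ) * L) * ((Real.exp (η * L) / 2) *
              (Real.exp (κ / 8 * L) * Real.exp (η * L)))) := by
            refine mul_le_mul_of_nonneg_left ?_ (Real.exp_pos _).le
            refine mul_le_mul_of_nonneg_left ?_ (Real.exp_pos _).le
            refine mul_le_mul (by linarith) ?_ (by positivity) (by positivity)
            exact mul_le_mul_of_nonneg_left h3 (Real.exp_pos _).le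
        _ = Real.exp (L + ((1 - κ) * L + (η * L + (κ / 8 * L + η * L)))) / 2 := by
            simp only [Real.exp_add]
            ring
        _ ≤ Real.exp ((2 - μ / 2) * L) / 2 := by
            refine div_le_div_of_nonneg_right (Real.exp_le_exp.2 ?_) (by norm_num)
            have hL0 : 0 ≤ L := by linarith
            have e1 : L + ((1 - κ) * L + (η * L + (κ / 8 * L + η * L))) =
                (2 - κ + κ / 8 + 2 * η) * L := by ring
            rw [e1]
            refine mul_le_mul_of_nonneg_right ?_ hL0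
            rw [hη]
            linarith
  refine (add_le_add hD hN).trans ?_
  rw [← ENNReal.ofReal_add (by positivity) (by positivity), htarget]
  refine ENNReal.ofReal_le_ofReal (le_of_eq ?_)
  ring


end RAG
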