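import Pool.Agent.RAG.StepE
import Pool.Agent.RAG.BadL
import Pool.Agent.RAF.Vari

/-!
# RAG.Vari: the variance (in `L¹`)

PROOF. Similar to `Pool/Agent/RAF/Vari.lean`. `κ` from `sv hR`, `A' = 2A + 8`, `κ' = κ/8`: `B`, `m0`; `δ` from `step_e` (`A'`); `m` large; `‖·‖_p` the norms of `L^p(Pm)`.
(1) `S_j = ∑_{n∈I} wb n j`, `x_j = ‖S_j‖_2`. For `j < J`: `0 ≤ S_(j+1) ≤ ∑_{n∈I} wb n j th (ch n (j+1))` (`wb_succ`), and by `step_e` with `Φ = 1`, `mn R (Mb (m+j)) 1 q ≤ rat Mb (m+j)` (`mn_le`), Minkowski: `x_(j+1) ≤ rat Mb (m+j) x_j + m^(-A'/2) x_j + 2^((1-δ/2)m)`.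
`x_0 ≤ 2^m (m+1)`. So (`rat ≥ 1`, `J ≤ m`, `m m^(-A'/2) ≤ 1`) by induction `x_j ≤ pr Mb m j · (1 + m^(-A'/2))^j (2^m (m+1) + j 2^((1-δ/2)m)) ≤ 8 · pr Mb m j · 2^m m`.
(2) `U_j = ∑_{n∈I} wb n j · gg R Mb (J-j) (m+j) (ch n j)` and, for `j < J`, `V_j = ∑_{n∈I} wb n j · th (ch n (j+1)) · gg R Mb (J-j-1) (m+j+1) (ch n (j+1))`. With `Φ_j q = gg R Mb (J-j-1) (m+j+1) q/pr Mb (m+j+1) (J-j-1)` (`gg_per`) and `gg_succ`, `mn_smul`:
`V_j - U_j = pr Mb (m+j+1) (J-j-1) · ∑_{n∈I} wb n j (th (ch n (j+1)) Φ_j (ch n (j+1)) - mn R (Mb (m+j)) Φ_j (ch n j))`, so by `step_e`: `‖V_j - U_j‖_1 ≤ ‖..‖_2 ≤ pr Mb (m+j+1) (J-j-1) (m^(-A'/2) x_j + 2^((1-δ/2)m)) ≤ pr Mb m J (8 m^(1-A'/2) 2^m + 2^((1-δ/2)m))` (`pr_add`, all factors `≥ 1`).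
(3) `0 ≤ V_j - U_(j+1) = ∑ (wb n j th (ch n (j+1)) - wb n (j+1)) gg ≤ pr Mb m J ∑_{n∈I} (wt n (j+1) - wb n (j+1))` (`gg_le`, `wb_le_wt`), so by `bad_loss` its `L¹` norm is `≤ pr Mb m J 2^((1-κ/2)m)`. (4) `U_J = S_J` (`gg_zero`) and `∑ wt n J - S_J`: `bad_loss`. (5) `∑_{n∈I} th n gg R Mb J m n - U_0 =
∑_{n∈I∩B} .. ≤ (m+1) pr Mb m J 2^((1-κ)m)`. Sum over `j < J ≤ m`.
-/

namespace RAG

open MeasureTheory Pool.Agent.PCx
open RAF (uu Pm)

private theorem VaG_th_nonneg (n : ℕ) : 0 ≤ RLC.th n := by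
  unfold RLC.th
  split_ifs
  · exact Real.log_natCast_nonneg n
  · exact le_rfl

private theorem VaG_th_le {n m : ℕ} (hn : n < 2 ^ (m + 1)) : RLC.th n ≤ (m : ℝ) + 1 := by
  unfold RLC.th
  split_ifs with hp
  · have hn0 : (0 : ℝ) < n := by exact_mod_cast hp.pos
    have h1 : Real.log n ≤ Real.log ((2 : ℝ) ^ (m + 1)) := by
      apply Real.log_le_log hn0
      exact_mod_cast hn.le
    rw [Real.log_pow] at h1
    have h2 : Real.log 2 ≤ 1 := by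
      have := Real.log_two_lt_d9
      linarith
    have h3 : ((m + 1 : ℕ) : ℝ) * Real.log 2 ≤ ((m + 1 : ℕ) : ℝ) * 1 :=
      mul_le_mul_of_nonneg_left h2 (Nat.cast_nonneg _)
    push_cast at h1 h3
    linarith
  · positivity


/-- The sum of the weights. -/
private noncomputable def VaG_S (Mb : ℕ → ℕ) (t : ℝ) (g : ℕ → ℝ) (B : Set ℕ) (I : Finset ℕ) (j : ℕ)
    (ω : ℕ → ℝ × ℝ) : ℝ := ∑ n ∈ I, wb Mb t g B n j ω

/-- The deviation. -/
private noncomputable def VaG_D (R : ℕ) (Mb : ℕ → ℕ) (t : ℝ) (g : ℕ → ℝ) (B : Set ℕ) (I : Finset ℕ) (m : ℕ)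
    (Φ : ℕ → ℝ) (j : ℕ) (ω : ℕ → ℝ × ℝ) : ℝ :=
  ∑ n ∈ I, wb Mb t g B n j ω *
    (RLC.th (ch Mb t g ω n (j + 1)) * Φ (ch Mb t g ω n (j + 1)) - mn R (Mb (m + j)) Φ (ch Mb t g ω n j))

private noncomputable def VaG_U (R : ℕ) (Mb : ℕ → ℕ) (t : ℝ) (g : ℕ → ℝ) (B : Set ℕ) (J : ℕ) (I : Finset ℕ) (m j : ℕ)
    (ω : ℕ → ℝ × ℝ) : ℝ :=
  ∑ n ∈ I, wb Mb t g B n j ω * gg R Mb (J - j) (m + j) (ch Mb t g ω n j)

private noncomputable def VaG_V (R : ℕ) (Mb : ℕ → ℕ) (t : ℝ) (g : ℕ → ℝ) (B : Set ℕ) (J : ℕ) (I : Finset ℕ) (m j : ℕ)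
    (ω : ℕ → ℝ × ℝ) : ℝ :=
  ∑ n ∈ I, wb Mb t g B n j ω *
    (RLC.th (ch Mb t g ω n (j + 1)) * gg R Mb (J - (j + 1)) (m + (j + 1)) (ch Mb t g ω n (j + 1)))

private theorem VaG_fc_meas (Mb : ℕ → ℕ) (t : ℝ) (g : ℕ → ℝ) (n j : ℕ) (f : ℕ → ℝ) :
    Measurable fun ω => f (ch Mb t g ω n j) :=
  (measurable_from_top (f := f)).comp (ch_meas Mb t g n j)

private theorem VaG_S_meas (Mb : ℕ → ℕ) (t : ℝ) (g : ℕ → ℝ) (B : Set ℕ) (I : Finset ℕ) (j : ℕ) :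
    Measurable (VaG_S Mb t g B I j) := by
  unfold VaG_S
  exact Finset.measurable_fun_sum _ fun n _ => wb_meas Mb t g B n j

private theorem VaG_D_meas (R : ℕ) (Mb : ℕ → ℕ) (t : ℝ) (g : ℕ → ℝ) (B : Set ℕ) (I : Finset ℕ) (m : ℕ)
    (Φ : ℕ → ℝ) (j : ℕ) : Measurable (VaG_D R Mb t g B I m Φ j) := by
  unfold VaG_D
  exact Finset.measurable_fun_sum _ fun n _ => (wb_meas Mb t g B n j).mul
    (((VaG_fc_meas Mb t g n (j + 1) fun q => RLC.th q).mul (VaG_fc_meas Mb t g n (j + 1) Φ)).sub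
      (VaG_fc_meas Mb t g n j fun q => mn R (Mb (m + j)) Φ q))

private theorem VaG_U_meas (R : ℕ) (Mb : ℕ → ℕ) (t : ℝ) (g : ℕ → ℝ) (B : Set ℕ) (J : ℕ) (I : Finset ℕ) (m j : ℕ) :
    Measurable (VaG_U R Mb t g B J I m j) := by
  unfold VaG_U
  exact Finset.measurable_fun_sum _ fun n _ => (wb_meas Mb t g B n j).mul
    (VaG_fc_meas Mb t g n j fun q => gg R Mb (J - j) (m + j) q)

private theorem VaG_V_meas (R : ℕ) (Mb : ℕ → ℕ) (t : ℝ) (g : ℕ → ℝ) (B : Set ℕ) (J : ℕ) (I : Finset ℕ) (m j : ℕ) :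
    Measurable (VaG_V R Mb t g B J I m j) := by
  unfold VaG_V
  exact Finset.measurable_fun_sum _ fun n _ => (wb_meas Mb t g B n j).mul
    ((VaG_fc_meas Mb t g n (j + 1) fun q => RLC.th q).mul
      (VaG_fc_meas Mb t g n (j + 1) fun q => gg R Mb (J - (j + 1)) (m + (j + 1)) q))

open Classical in
private theorem VaG_wb_step (Mb : ℕ → ℕ) (t : ℝ) (g : ℕ → ℝ) (B : Set ℕ) (n j : ℕ) (ω : ℕ → ℝ × ℝ) :
    wb Mb t g B n (j + 1) ω ≤ wb Mb t g B n j ω * RLC.th (ch Mb t g ω n (j + 1)) := by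
  rw [wb_succ]
  apply mul_le_mul_of_nonneg_left _ (wb_nonneg Mb t g B n j ω)
  split_ifs
  · exact VaG_th_nonneg _
  · exact le_rfl

private theorem VaG_S_nonneg (Mb : ℕ → ℕ) (t : ℝ) (g : ℕ → ℝ) (B : Set ℕ) (I : Finset ℕ) (j : ℕ)
    (ω : ℕ → ℝ × ℝ) : 0 ≤ VaG_S Mb t g B I j ω :=
  Finset.sum_nonneg fun n _ => wb_nonneg Mb t g B n j ω

private theorem VaG_one (R : ℕ) : Per R fun _ => (1 : ℝ) :=
  ⟨fun _ _ _ => rfl, fun _ => zero_le_one, fun _ => le_rfl⟩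

/-- One step for the sum of the weights. -/
private theorem VaG_S_step {R : ℕ} (hR : 0 < R) {Mb : ℕ → ℕ} (hd : ∀ m, Mb m ∣ R) (t : ℝ) (g : ℕ → ℝ) (B : Set ℕ)
    (I : Finset ℕ) (m j : ℕ) (ω : ℕ → ℝ × ℝ) :
    VaG_S Mb t g B I (j + 1) ω ≤
      rat Mb (m + j) * VaG_S Mb t g B I j ω + VaG_D R Mb t g B I m (fun _ => 1) j ω := by
  unfold VaG_S VaG_D
  rw [Finset.mul_sum, ← Finset.sum_add_distrib]
  apply Finset.sum_le_sum
  intro n _
  have h1 := VaG_wb_step Mb t g B n j ω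
  have h2 := wb_nonneg Mb t g B n j ω
  have h3 : mn R (Mb (m + j)) (fun _ => 1) (ch Mb t g ω n j) ≤ rat Mb (m + j) :=
    mn_le hR (VaG_one R) (hd (m + j)) _
  have h4 := mul_le_mul_of_nonneg_left h3 h2
  rw [mul_one, mul_sub]
  linarith

/-- The difference of `V` and `U`. -/
private theorem VaG_vu {R : ℕ} {Mb : ℕ → ℕ} (hp : ∀ m, 0 < Mb m) (t : ℝ) (g : ℕ → ℝ) (B : Set ℕ)
    {J j : ℕ} (hj : j < J) (I : Finset ℕ) (m : ℕ) (ω : ℕ → ℝ × ℝ) :
    VaG_V R Mb t g B J I m j ω - VaG_U R Mb t g B J I m j ω =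
      pr Mb (m + (j + 1)) (J - (j + 1)) * VaG_D R Mb t g B I m
        (fun q => gg R Mb (J - (j + 1)) (m + (j + 1)) q / pr Mb (m + (j + 1)) (J - (j + 1))) j ω := by
  have hpr : pr Mb (m + (j + 1)) (J - (j + 1)) ≠ 0 :=
    (lt_of_lt_of_le one_pos (pr_one_le hp _ _)).ne'
  generalize pr Mb (m + (j + 1)) (J - (j + 1)) = p at hpr ⊢
  unfold VaG_V VaG_U VaG_D
  rw [← Finset.sum_sub_distrib, Finset.mul_sum]
  apply Finset.sum_congr rfl
  intro n _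
  have h1 : J - j = (J - (j + 1)) + 1 := by omega
  have h2 : gg R Mb (J - j) (m + j) (ch Mb t g ω n j) =
      p * mn R (Mb (m + j)) (fun q => gg R Mb (J - (j + 1)) (m + (j + 1)) q / p) (ch Mb t g ω n j) := by
    rw [h1, gg_succ, ← mn_smul]
    congr 1
    funext b
    show gg R Mb (J - (j + 1)) (m + j + 1) b = _
    rw [mul_div_cancel₀ _ hpr]
    rfl
  rw [h2]
  field_simp

private theorem VaG_u_le_v {R : ℕ} (hR : 0 < R) {Mb : ℕ → ℕ} (hd : ∀ m, Mb m ∣ R) (t : ℝ) (g : ℕ → ℝ) (B : Set ℕ)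
    (J : ℕ) (I : Finset ℕ) (m j : ℕ) (ω : ℕ → ℝ × ℝ) :
    VaG_U R Mb t g B J I m (j + 1) ω ≤ VaG_V R Mb t g B J I m j ω := by
  unfold VaG_U VaG_V
  apply Finset.sum_le_sum
  intro n _
  rw [← mul_assoc]
  exact mul_le_mul_of_nonneg_right (VaG_wb_step Mb t g B n j ω) (gg_nonneg hR hd _ _ _)

private theorem VaG_pr_le {Mb : ℕ → ℕ} (hp : ∀ m, 0 < Mb m) (m : ℕ) {i J : ℕ} (hi : i ≤ J) :
    pr Mb (m + i) (J - i) ≤ pr Mb m J := by
  have h1 : pr Mb m J = pr Mb m i * pr Mb (m + i) (J - i) := by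
    rw [← pr_add]
    congr 1
    omega
  rw [h1]
  exact le_mul_of_one_le_left (le_trans zero_le_one (pr_one_le hp _ _)) (pr_one_le hp _ _)

private theorem VaG_v_sub_u {R : ℕ} (hR : 0 < R) {Mb : ℕ → ℕ} (hd : ∀ m, Mb m ∣ R) (hp : ∀ m, 0 < Mb m) (t : ℝ)
    (g : ℕ → ℝ) (B : Set ℕ) {J j : ℕ} (hj : j < J) (I : Finset ℕ) (m : ℕ) (ω : ℕ → ℝ × ℝ) :
    VaG_V R Mb t g B J I m j ω - VaG_U R Mb t g B J I m (j + 1) ω ≤
      pr Mb m J * ∑ n ∈ I, (wt Mb t g n (j + 1) ω - wb Mb t g B n (j + 1) ω) := by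
  unfold VaG_U VaG_V
  rw [← Finset.sum_sub_distrib, Finset.mul_sum]
  apply Finset.sum_le_sum
  intro n _
  have h1 := gg_nonneg hR hd (J - (j + 1)) (m + (j + 1)) (ch Mb t g ω n (j + 1))
  have h2 := gg_le hR hd (J - (j + 1)) (m + (j + 1)) (ch Mb t g ω n (j + 1))
  have h3 : pr Mb (m + (j + 1)) (J - (j + 1)) ≤ pr Mb m J := VaG_pr_le hp m hj
  have h4 : wb Mb t g B n j ω * RLC.th (ch Mb t g ω n (j + 1)) ≤ wt Mb t g n (j + 1) ω := by
    rw [wt_succ]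
    exact mul_le_mul_of_nonneg_right (wb_le_wt Mb t g B n j ω) (VaG_th_nonneg _)
  have h5 := VaG_wb_step Mb t g B n j ω
  have h6 : (0 : ℝ) ≤ pr Mb m J := le_trans zero_le_one (pr_one_le hp m J)
  calc wb Mb t g B n j ω * (RLC.th (ch Mb t g ω n (j + 1)) *
        gg R Mb (J - (j + 1)) (m + (j + 1)) (ch Mb t g ω n (j + 1))) -
        wb Mb t g B n (j + 1) ω * gg R Mb (J - (j + 1)) (m + (j + 1)) (ch Mb t g ω n (j + 1))
      = (wb Mb t g B n j ω * RLC.th (ch Mb t g ω n (j + 1)) - wb Mb t g B n (j + 1) ω) *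
          gg R Mb (J - (j + 1)) (m + (j + 1)) (ch Mb t g ω n (j + 1)) := by ring
    _ ≤ (wb Mb t g B n j ω * RLC.th (ch Mb t g ω n (j + 1)) - wb Mb t g B n (j + 1) ω) * pr Mb m J :=
        mul_le_mul_of_nonneg_left (h2.trans h3) (by linarith)
    _ ≤ (wt Mb t g n (j + 1) ω - wb Mb t g B n (j + 1) ω) * pr Mb m J :=
        mul_le_mul_of_nonneg_right (by linarith) h6
    _ = _ := by ring

open Classical in
private theorem VaG_start {R : ℕ} (hR : 0 < R) {Mb : ℕ → ℕ} (hd : ∀ m, Mb m ∣ R) (hp : ∀ m, 0 < Mb m) (t : ℝ)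
    (g : ℕ → ℝ) (B : Set ℕ) (J : ℕ) (I : Finset ℕ) {m : ℕ}
    (hI : ∀ n ∈ I, n ∈ Finset.Ico (2 ^ m) (2 ^ (m + 1))) (ω : ℕ → ℝ × ℝ) :
    |VaG_U R Mb t g B J I m 0 ω - ∑ n ∈ I, RLC.th n * gg R Mb J m n| ≤
      pr Mb m J * ((m : ℝ) + 1) *
        (((Finset.Ico (2 ^ m) (2 ^ (m + 1))).filter fun z => z ∈ B).card : ℝ) := by
  have h0 : (0 : ℝ) ≤ pr Mb m J := le_trans zero_le_one (pr_one_le hp m J)
  have h1 : VaG_U R Mb t g B J I m 0 ω - ∑ n ∈ I, RLC.th n * gg R Mb J m n =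
      -∑ n ∈ I.filter (fun n => n ∈ B), RLC.th n * gg R Mb J m n := by
    unfold VaG_U
    rw [Finset.sum_filter, ← Finset.sum_sub_distrib, ← Finset.sum_neg_distrib]
    apply Finset.sum_congr rfl
    intro n _
    have h2 : (n ∈ B → wb Mb t g B n 0 ω = 0) ∧ (n ∉ B → wb Mb t g B n 0 ω = RLC.th n) := by
      constructor <;> intro hn <;> simp [wb, ch_zero, hn]
    rw [ch_zero, Nat.sub_zero, Nat.add_zero]
    by_cases hn : n ∈ B
    · rw [h2.1 hn, if_pos hn]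
      ring
    · rw [h2.2 hn, if_neg hn]
      ring
  rw [h1, abs_neg, abs_of_nonneg (Finset.sum_nonneg fun n _ => mul_nonneg (VaG_th_nonneg n) (gg_nonneg hR hd J m n))]
  have h3 : I.filter (fun n => n ∈ B) ⊆ (Finset.Ico (2 ^ m) (2 ^ (m + 1))).filter fun z => z ∈ B := by
    intro n hn
    rw [Finset.mem_filter] at hn ⊢
    exact ⟨hI n hn.1, hn.2⟩
  calc ∑ n ∈ I.filter (fun n => n ∈ B), RLC.th n * gg R Mb J m n
      ≤ ∑ n ∈ (Finset.Ico (2 ^ m) (2 ^ (m + 1))).filter (fun z => z ∈ B), RLC.th n * gg R Mb J m n :=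
        Finset.sum_le_sum_of_subset_of_nonneg h3 fun n _ _ =>
          mul_nonneg (VaG_th_nonneg n) (gg_nonneg hR hd J m n)
    _ ≤ ∑ n ∈ (Finset.Ico (2 ^ m) (2 ^ (m + 1))).filter (fun z => z ∈ B),
          ((m : ℝ) + 1) * pr Mb m J := by
        apply Finset.sum_le_sum
        intro n hn
        rw [Finset.mem_filter, Finset.mem_Ico] at hn
        exact mul_le_mul (VaG_th_le hn.1.2) (gg_le hR hd J m n) (gg_nonneg hR hd J m n) (by positivity)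
    _ = _ := by
        rw [Finset.sum_const, nsmul_eq_mul]
        ring

private theorem VaG_S_zero_le (Mb : ℕ → ℕ) (t : ℝ) (g : ℕ → ℝ) (B : Set ℕ) (I : Finset ℕ) {m : ℕ}
    (hI : ∀ n ∈ I, n ∈ Finset.Ico (2 ^ m) (2 ^ (m + 1))) (ω : ℕ → ℝ × ℝ) :
    VaG_S Mb t g B I 0 ω ≤ 2 ^ m * ((m : ℝ) + 1) := by
  have hc : (I.card : ℝ) ≤ 2 ^ m := by
    have h1 : I.card ≤ (Finset.Ico (2 ^ m) (2 ^ (m + 1))).card := Finset.card_le_card hI
    rw [Nat.card_Ico, pow_succ] at h1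
    have h2 : I.card ≤ 2 ^ m := by omega
    exact_mod_cast h2
  calc VaG_S Mb t g B I 0 ω ≤ ∑ n ∈ I, ((m : ℝ) + 1) := by
        apply Finset.sum_le_sum
        intro n hn
        have h1 := Finset.mem_Ico.1 (hI n hn)
        refine (wb_le_wt Mb t g B n 0 ω).trans ?_
        rw [wt_zero]
        exact VaG_th_le h1.2
    _ = (I.card : ℝ) * ((m : ℝ) + 1) := by rw [Finset.sum_const, nsmul_eq_mul]
    _ ≤ 2 ^ m * ((m : ℝ) + 1) := mul_le_mul_of_nonneg_right hc (by positivity)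

private theorem VaG_tele {R : ℕ} (hR : 0 < R) {Mb : ℕ → ℕ} (hd : ∀ m, Mb m ∣ R) (t : ℝ) (g : ℕ → ℝ) (B : Set ℕ)
    (J : ℕ) (I : Finset ℕ) (m : ℕ) (ω : ℕ → ℝ × ℝ) (k : ℕ) :
    |VaG_U R Mb t g B J I m k ω - VaG_U R Mb t g B J I m 0 ω| ≤
      ∑ j ∈ Finset.range k, |VaG_V R Mb t g B J I m j ω - VaG_U R Mb t g B J I m j ω| +
        ∑ j ∈ Finset.range k, (VaG_V R Mb t g B J I m j ω - VaG_U R Mb t g B J I m (j + 1) ω) := by
  induction k with
  | zero => simp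
  | succ k ih =>
    rw [Finset.sum_range_succ, Finset.sum_range_succ]
    have h1 := VaG_u_le_v hR hd t g B J I m k ω
    have h2 := abs_le.1 ih
    have h3 := abs_le.1 (le_refl |VaG_V R Mb t g B J I m k ω - VaG_U R Mb t g B J I m k ω|)
    rw [abs_le]
    constructor <;> linarith [h2.1, h2.2, h3.1, h3.2]

/-- The pointwise inequality. -/
private theorem VaG_point {R : ℕ} (hR : 0 < R) {Mb : ℕ → ℕ} (hd : ∀ m, Mb m ∣ R) (hp : ∀ m, 0 < Mb m) (t : ℝ)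
    (g : ℕ → ℝ) (B : Set ℕ) (J : ℕ) (I : Finset ℕ) (m : ℕ) (S0 : ℝ)
    (hS : ∀ ω, |VaG_U R Mb t g B J I m 0 ω - ∑ n ∈ I, RLC.th n * gg R Mb J m n| ≤ S0) (ω : ℕ → ℝ × ℝ) :
    |∑ n ∈ I, (wt Mb t g n J ω - RLC.th n * gg R Mb J m n)| ≤
      ∑ n ∈ I, (wt Mb t g n J ω - wb Mb t g B n J ω) +
      ∑ j ∈ Finset.range J, |VaG_V R Mb t g B J I m j ω - VaG_U R Mb t g B J I m j ω| +
      ∑ j ∈ Finset.range J, (pr Mb m J *
        ∑ n ∈ I, (wt Mb t g n (j + 1) ω - wb Mb t g B n (j + 1) ω)) + S0 := by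
  have h1 := VaG_tele hR hd t g B J I m ω J
  have h2 : ∑ j ∈ Finset.range J, (VaG_V R Mb t g B J I m j ω - VaG_U R Mb t g B J I m (j + 1) ω) ≤
      ∑ j ∈ Finset.range J, (pr Mb m J *
        ∑ n ∈ I, (wt Mb t g n (j + 1) ω - wb Mb t g B n (j + 1) ω)) :=
    Finset.sum_le_sum fun j hj => VaG_v_sub_u hR hd hp t g B (Finset.mem_range.1 hj) I m ω
  have h3 : VaG_U R Mb t g B J I m J ω = ∑ n ∈ I, wb Mb t g B n J ω := by
    unfold VaG_U
    apply Finset.sum_congr rfl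
    intro n _
    rw [Nat.sub_self, gg_zero, mul_one]
  have h4 : 0 ≤ ∑ n ∈ I, (wt Mb t g n J ω - wb Mb t g B n J ω) :=
    Finset.sum_nonneg fun n _ => sub_nonneg.2 (wb_le_wt Mb t g B n J ω)
  have h5 : ∑ n ∈ I, (wt Mb t g n J ω - RLC.th n * gg R Mb J m n) =
      ∑ n ∈ I, (wt Mb t g n J ω - wb Mb t g B n J ω) +
        (VaG_U R Mb t g B J I m J ω - VaG_U R Mb t g B J I m 0 ω) +
        (VaG_U R Mb t g B J I m 0 ω - ∑ n ∈ I, RLC.th n * gg R Mb J m n) := by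
    rw [h3, Finset.sum_sub_distrib, Finset.sum_sub_distrib]
    ring
  rw [h5]
  have h6 := abs_le.1 (hS ω)
  have h7 := abs_le.1 h1
  rw [abs_le]
  constructor <;> linarith [h6.1, h6.2, h7.1, h7.2]

private theorem VaG_sq (f : (ℕ → ℝ × ℝ) → ℝ) :
    ∫⁻ ω, ENNReal.ofReal (f ω ^ 2) ∂Pm = eLpNorm f 2 Pm ^ 2 := by
  have h1 : eLpNorm f 2 Pm = (∫⁻ ω, ENNReal.ofReal (f ω ^ 2) ∂Pm) ^ (1 / (2 : ℝ)) := by
    rw [eLpNorm_eq_lintegral_rpow_enorm_toReal two_ne_zero ENNReal.ofNat_ne_top]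
    simp only [ENNReal.toReal_ofNat]
    congr 1
    apply lintegral_congr
    intro ω
    rw [← ofReal_norm, ENNReal.ofReal_rpow_of_nonneg (norm_nonneg _) (by norm_num),
      Real.norm_eq_abs]
    congr 1
    rw [show (2 : ℝ) = ((2 : ℕ) : ℝ) by norm_num, Real.rpow_natCast, sq_abs]
  rw [h1, ← ENNReal.rpow_natCast, ← ENNReal.rpow_mul]
  norm_num

private theorem VaG_l1 (f : (ℕ → ℝ × ℝ) → ℝ) (hf : Measurable f) :
    ∫⁻ ω, ENNReal.ofReal |f ω| ∂Pm ≤ eLpNorm f 2 Pm := by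
  have h1 : ∫⁻ ω, ENNReal.ofReal |f ω| ∂Pm = eLpNorm f 1 Pm := by
    rw [eLpNorm_one_eq_lintegral_enorm]
    apply lintegral_congr
    intro ω
    rw [← ofReal_norm, Real.norm_eq_abs]
  rw [h1]
  exact eLpNorm_le_eLpNorm_of_exponent_le (by norm_num) hf.aestronglyMeasurable

private theorem VaG_mono (f k : (ℕ → ℝ × ℝ) → ℝ) (hf : ∀ ω, 0 ≤ f ω) (hfk : ∀ ω, f ω ≤ k ω) :
    eLpNorm f 2 Pm ≤ eLpNorm k 2 Pm := by
  apply eLpNorm_mono_real
  intro ω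
  rw [Real.norm_eq_abs, abs_of_nonneg (hf ω)]
  exact hfk ω

private theorem VaG_sqrt {a b : ℝ} {D X : ENNReal} (ha : 0 ≤ a) (hb : 0 ≤ b)
    (h : D ^ 2 ≤ ENNReal.ofReal (a ^ 2) * X ^ 2 + ENNReal.ofReal (b ^ 2)) :
    D ≤ ENNReal.ofReal a * X + ENNReal.ofReal b := by
  have h1 : D ^ 2 ≤ (ENNReal.ofReal a * X + ENNReal.ofReal b) ^ 2 := by
    refine h.trans ?_
    rw [ENNReal.ofReal_pow ha, ENNReal.ofReal_pow hb, ← mul_pow]
    have h2 : (ENNReal.ofReal a * X + ENNReal.ofReal b) ^ 2 =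
        (ENNReal.ofReal a * X) ^ 2 + ENNReal.ofReal b ^ 2 +
          2 * (ENNReal.ofReal a * X) * ENNReal.ofReal b := by ring
    rw [h2]
    exact le_self_add
  exact (ENNReal.pow_le_pow_left_iff two_ne_zero).1 h1

/-- The recursion. -/
private theorem VaG_rec (x ρ q : ℕ → ENNReal) (a b : ENNReal) (J : ℕ) (hq0 : q 0 = 1)
    (hq : ∀ j, q (j + 1) = q j * ρ j) (hρ : ∀ j, 1 ≤ ρ j)
    (h1 : ∀ j < J, x (j + 1) ≤ ρ j * x j + (a * x j + b)) :
    ∀ j ≤ J, x j ≤ q j * ((1 + a) ^ j * (x 0 + j * b)) := by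
  have hq1 : ∀ j, 1 ≤ q j := by
    intro j
    induction j with
    | zero => exact hq0.ge
    | succ j ih =>
      rw [hq]
      exact one_le_mul ih (hρ j)
  intro j
  induction j with
  | zero => intro _; simp [hq0]
  | succ j ih =>
    intro hj
    have h3 := ih (by omega)
    have h4 : (1 : ENNReal) ≤ q (j + 1) * (1 + a) ^ (j + 1) := one_le_mul (hq1 _) (one_le_pow₀ le_self_add)
    calc x (j + 1) ≤ ρ j * x j + (a * x j + b) := h1 j (by omega)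
      _ ≤ ρ j * x j + (ρ j * a * x j + b) := by
          gcongr
          calc a = 1 * a := (one_mul a).symm
            _ ≤ ρ j * a := by
                gcongr
                exact hρ j
      _ = ρ j * (1 + a) * x j + b := by ring
      _ ≤ ρ j * (1 + a) * (q j * ((1 + a) ^ j * (x 0 + j * b))) + q (j + 1) * (1 + a) ^ (j + 1) * b := by
          gcongr
          calc b = 1 * b := (one_mul b).symm
            _ ≤ _ := by gcongr
      _ = q (j + 1) * ((1 + a) ^ (j + 1) * (x 0 + ((j + 1 : ℕ) : ENNReal) * b)) := by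
          rw [hq]
          push_cast
          ring

/-- Smallness of exponentials. -/
private theorem VaG_small {c : ℝ} (hc : 0 < c) (A : ℝ) : ∃ m1 : ℕ, ∀ m : ℕ, m1 ≤ m →
    ((m : ℝ) + 1) * (2 : ℝ) ^ (-(c * (m : ℝ))) ≤ (m : ℝ) ^ (-A) / 4 := by
  have hl : 0 < Real.log 2 := Real.log_pos (by norm_num)
  have h1 := (tendsto_rpow_mul_exp_neg_mul_atTop_nhds_zero (A + 1) (Real.log 2 * c) (by positivity)).comp
    (tendsto_natCast_atTop_atTop (R := ℝ))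
  have h2 := h1.eventually_lt_const (show (0 : ℝ) < 1 / 8 by norm_num)
  obtain ⟨m1, hm1⟩ := Filter.eventually_atTop.1 h2
  refine ⟨m1 + 1, fun m hm => ?_⟩
  have h3 := hm1 m (by omega)
  have hm0 : (1 : ℝ) ≤ m := by exact_mod_cast (show 1 ≤ m by omega)
  have hmp : (0 : ℝ) < m := by linarith
  simp only [Function.comp_apply] at h3
  have h4 : (2 : ℝ) ^ (-(c * (m : ℝ))) = Real.exp (-(Real.log 2 * c) * (m : ℝ)) := by
    rw [Real.rpow_def_of_pos (by norm_num)]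
    congr 1
    ring
  have h5 : (m : ℝ) ^ (-A) = (m : ℝ) * (m : ℝ) ^ (-A - 1) := by
    rw [Real.rpow_sub hmp, Real.rpow_one]
    field_simp
  have h6 : (m : ℝ) ^ (A + 1) * (m : ℝ) ^ (-A - 1) = 1 := by
    rw [← Real.rpow_add hmp, show A + 1 + (-A - 1) = 0 by ring, Real.rpow_zero]
  have h7 : 0 < (m : ℝ) ^ (-A - 1) := Real.rpow_pos_of_pos hmp _
  have h8 : Real.exp (-(Real.log 2 * c) * (m : ℝ)) ≤ (m : ℝ) ^ (-A - 1) / 8 := by
    have h9 := mul_le_mul_of_nonneg_right h3.le h7.le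
    calc Real.exp (-(Real.log 2 * c) * (m : ℝ))
        = ((m : ℝ) ^ (A + 1) * (m : ℝ) ^ (-A - 1)) * Real.exp (-(Real.log 2 * c) * (m : ℝ)) := by
          rw [h6, one_mul]
      _ = (m : ℝ) ^ (A + 1) * Real.exp (-(Real.log 2 * c) * (m : ℝ)) * (m : ℝ) ^ (-A - 1) := by ring
      _ ≤ 1 / 8 * (m : ℝ) ^ (-A - 1) := h9
      _ = _ := by ring
  rw [h4, h5]
  have h10 : 0 ≤ Real.exp (-(Real.log 2 * c) * (m : ℝ)) := (Real.exp_pos _).le
  calc ((m : ℝ) + 1) * Real.exp (-(Real.log 2 * c) * (m : ℝ))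
      ≤ (2 * (m : ℝ)) * ((m : ℝ) ^ (-A - 1) / 8) :=
        mul_le_mul (by linarith) h8 h10 (by positivity)
    _ = _ := by ring

/-- The length is small. -/
private theorem VaG_len {ε : ℝ} (hε : 0 < ε) (hε1 : ε < 1) {m J : ℕ} (hm : 5 ≤ m)
    (hJ : (J : ℝ) + 1 ≤ (1 - ε) * (Real.log (2 ^ m) / Real.log (Real.log (2 ^ m)))) :
    (J : ℝ) + 1 ≤ m ∧ (J : ℝ) ≤ 2 * (Real.log (2 ^ m) / Real.log (Real.log (2 ^ m))) := by
  have hl : 0.6931471803 < Real.log 2 := Real.log_two_gt_d9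
  have hl2 : Real.log 2 < 0.6931471808 := Real.log_two_lt_d9
  have hm5 : (5 : ℝ) ≤ m := by exact_mod_cast hm
  have hL : Real.log ((2 : ℝ) ^ m) = m * Real.log 2 := by rw [Real.log_pow]
  have hL1 : Real.exp 1 ≤ Real.log ((2 : ℝ) ^ m) := by
    rw [hL]
    have he := Real.exp_one_lt_d9
    nlinarith
  have hL0 : 0 < Real.log ((2 : ℝ) ^ m) := lt_of_lt_of_le (Real.exp_pos 1) hL1
  have hL2 : 1 ≤ Real.log (Real.log ((2 : ℝ) ^ m)) := by
    rw [Real.le_log_iff_exp_le hL0]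
    exact hL1
  have hq : Real.log ((2 : ℝ) ^ m) / Real.log (Real.log ((2 : ℝ) ^ m)) ≤ Real.log ((2 : ℝ) ^ m) :=
    div_le_self hL0.le hL2
  have hq0 : 0 ≤ Real.log ((2 : ℝ) ^ m) / Real.log (Real.log ((2 : ℝ) ^ m)) := by positivity
  have hLm : Real.log ((2 : ℝ) ^ m) ≤ m := by
    rw [hL]
    nlinarith
  constructor
  · have h1 : (1 - ε) * (Real.log ((2 : ℝ) ^ m) / Real.log (Real.log ((2 : ℝ) ^ m))) ≤
        Real.log ((2 : ℝ) ^ m) / Real.log (Real.log ((2 : ℝ) ^ m)) := by nlinarith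
    linarith
  · have h1 : (1 - ε) * (Real.log ((2 : ℝ) ^ m) / Real.log (Real.log ((2 : ℝ) ^ m))) ≤
        2 * (Real.log ((2 : ℝ) ^ m) / Real.log (Real.log ((2 : ℝ) ^ m))) := by nlinarith
    linarith

/-- The loss at the exceptional set. -/
private theorem VaG_loss (Mb : ℕ → ℕ) (t : ℝ) (g : ℕ → ℝ) (B : Set ℕ) (I : Finset ℕ) (j : ℕ) {s : ℝ}
    (hb : ∑ n ∈ I, ∫⁻ ω, ENNReal.ofReal (wt Mb t g n j ω - wb Mb t g B n j ω) ∂Pm ≤ ENNReal.ofReal s) :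
    ∫⁻ ω, ENNReal.ofReal (∑ n ∈ I, (wt Mb t g n j ω - wb Mb t g B n j ω)) ∂Pm ≤ ENNReal.ofReal s := by
  refine le_trans (le_of_eq ?_) hb
  rw [← lintegral_finsetSum]
  · apply lintegral_congr
    intro ω
    rw [ENNReal.ofReal_sum_of_nonneg]
    intro n _
    exact sub_nonneg.2 (wb_le_wt Mb t g B n j ω)
  · intro n _
    exact ((wt_meas Mb t g n j).sub (wb_meas Mb t g B n j)).ennreal_ofReal

private theorem VaG_smul (c : ℝ) (hc : 0 ≤ c) (f : (ℕ → ℝ × ℝ) → ℝ) :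
    eLpNorm (fun ω => c * f ω) 2 Pm = ENNReal.ofReal c * eLpNorm f 2 Pm := by
  have h1 : (fun ω => c * f ω) = c • f := rfl
  rw [h1, eLpNorm_const_smul, Real.enorm_eq_ofReal hc]

/-- The norms of the main terms. -/
private theorem VaG_norm {R : ℕ} (hR : 0 < R) {Mb : ℕ → ℕ} (hd : ∀ m, Mb m ∣ R) (hp : ∀ m, 0 < Mb m) (t : ℝ)
    (g : ℕ → ℝ) (B : Set ℕ) (J : ℕ) (I : Finset ℕ) {m : ℕ} (hm : 1 ≤ m)
    (hI : ∀ n ∈ I, n ∈ Finset.Ico (2 ^ m) (2 ^ (m + 1))) (hJm : (J : ℝ) + 1 ≤ m) {α β : ℝ} (hα : 0 ≤ α)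
    (hβ : 0 ≤ β) (hαm : (m : ℝ) * α ≤ 1) (hβm : β ≤ 2 ^ m)
    (hD : ∀ j < J, ∀ Φ : ℕ → ℝ, Per R Φ → ∫⁻ ω, ENNReal.ofReal (VaG_D R Mb t g B I m Φ j ω ^ 2) ∂Pm ≤
      ENNReal.ofReal (α ^ 2) * ∫⁻ ω, ENNReal.ofReal (VaG_S Mb t g B I j ω ^ 2) ∂Pm + ENNReal.ofReal (β ^ 2)) :
    ∀ j < J, ∫⁻ ω, ENNReal.ofReal |VaG_V R Mb t g B J I m j ω - VaG_U R Mb t g B J I m j ω| ∂Pm ≤
      ENNReal.ofReal (pr Mb m J * (α * (9 * (2 ^ m * m)) + β)) := by
  have hm1 : (1 : ℝ) ≤ m := by exact_mod_cast hm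
  set x : ℕ → ENNReal := fun j => eLpNorm (VaG_S Mb t g B I j) 2 Pm with hx
  have hD2 : ∀ j < J, ∀ Φ : ℕ → ℝ, Per R Φ →
      eLpNorm (VaG_D R Mb t g B I m Φ j) 2 Pm ≤ ENNReal.ofReal α * x j + ENNReal.ofReal β := by
    intro j hj Φ hΦ
    apply VaG_sqrt hα hβ
    have h1 := hD j hj Φ hΦ
    rw [VaG_sq (VaG_D R Mb t g B I m Φ j), VaG_sq (VaG_S Mb t g B I j)] at h1
    exact h1
  have hrat0 : ∀ j, 1 ≤ rat Mb (m + j) := fun j => rat_one_le (hp _)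
  have hx1 : ∀ j < J, x (j + 1) ≤ ENNReal.ofReal (rat Mb (m + j)) * x j +
      (ENNReal.ofReal α * x j + ENNReal.ofReal β) := by
    intro j hj
    calc x (j + 1) ≤ eLpNorm (fun ω => rat Mb (m + j) * VaG_S Mb t g B I j ω +
            VaG_D R Mb t g B I m (fun _ => 1) j ω) 2 Pm :=
          VaG_mono _ _ (VaG_S_nonneg Mb t g B I (j + 1)) (VaG_S_step hR hd t g B I m j)
      _ = eLpNorm ((fun ω => rat Mb (m + j) * VaG_S Mb t g B I j ω) + VaG_D R Mb t g B I m (fun _ => 1) j) 2 Pm := rfl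
      _ ≤ eLpNorm (fun ω => rat Mb (m + j) * VaG_S Mb t g B I j ω) 2 Pm +
            eLpNorm (VaG_D R Mb t g B I m (fun _ => 1) j) 2 Pm :=
          eLpNorm_add_le ((VaG_S_meas Mb t g B I j).const_mul _).aestronglyMeasurable
            (VaG_D_meas R Mb t g B I m _ j).aestronglyMeasurable (by norm_num)
      _ ≤ _ := by
          rw [VaG_smul _ (le_trans zero_le_one (hrat0 j))]
          gcongr
          exact hD2 j hj _ (VaG_one R)
  have hx0 : x 0 ≤ ENNReal.ofReal (2 ^ m * ((m : ℝ) + 1)) := by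
    have h1 := eLpNorm_le_of_ae_bound (p := 2) (μ := Pm) (f := VaG_S Mb t g B I 0)
      (C := 2 ^ m * ((m : ℝ) + 1)) (Filter.Eventually.of_forall fun ω => by
        rw [Real.norm_eq_abs, abs_of_nonneg (VaG_S_nonneg Mb t g B I 0 ω)]
        exact VaG_S_zero_le Mb t g B I hI ω)
    refine h1.trans (le_of_eq ?_)
    rw [measure_univ, ENNReal.one_rpow, one_mul]
  have hrec := VaG_rec x (fun j => ENNReal.ofReal (rat Mb (m + j))) (fun j => ENNReal.ofReal (pr Mb m j))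
    (ENNReal.ofReal α) (ENNReal.ofReal β) J (by simp [pr])
    (fun j => by
      show ENNReal.ofReal (pr Mb m (j + 1)) = ENNReal.ofReal (pr Mb m j) * ENNReal.ofReal (rat Mb (m + j))
      rw [← ENNReal.ofReal_mul (le_trans zero_le_one (pr_one_le hp m j))]
      congr 1
      unfold pr
      rw [Finset.prod_range_succ])
    (fun j => by
      rw [← ENNReal.ofReal_one]
      exact ENNReal.ofReal_le_ofReal (hrat0 j)) hx1
  intro j hj
  have hprj : 1 ≤ pr Mb m j := pr_one_le hp m j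
  have hxj : x j ≤ ENNReal.ofReal (pr Mb m j * (9 * (2 ^ m * m))) := by
    have hjm : (j : ℝ) ≤ m := by
      have : (j : ℝ) ≤ J := by exact_mod_cast hj.le
      linarith
    calc x j ≤ ENNReal.ofReal (pr Mb m j) * ((1 + ENNReal.ofReal α) ^ j * (x 0 + j * ENNReal.ofReal β)) :=
          hrec j hj.le
      _ ≤ ENNReal.ofReal (pr Mb m j) *
            ((1 + ENNReal.ofReal α) ^ j * (ENNReal.ofReal (2 ^ m * ((m : ℝ) + 1)) + j * ENNReal.ofReal β)) := by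
          gcongr
      _ = ENNReal.ofReal (pr Mb m j * ((1 + α) ^ j * (2 ^ m * ((m : ℝ) + 1) + j * β))) := by
          rw [ENNReal.ofReal_mul (p := pr Mb m j) (by linarith),
            ENNReal.ofReal_mul (p := (1 + α) ^ j) (by positivity),
            ENNReal.ofReal_add (p := 2 ^ m * ((m : ℝ) + 1)) (by positivity) (by positivity),
            ENNReal.ofReal_mul (Nat.cast_nonneg j), ENNReal.ofReal_natCast,
            ENNReal.ofReal_pow (by positivity), ENNReal.ofReal_add zero_le_one hα, ENNReal.ofReal_one]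
      _ ≤ ENNReal.ofReal (pr Mb m j * (9 * (2 ^ m * m))) := by
          apply ENNReal.ofReal_le_ofReal
          apply mul_le_mul_of_nonneg_left _ (by linarith)
          have h1 : (1 + α) ^ j ≤ 3 := by
            have h2 : 1 + α ≤ Real.exp α := by linarith [Real.add_one_le_exp α]
            calc (1 + α) ^ j ≤ Real.exp α ^ j := pow_le_pow_left₀ (by positivity) h2 j
              _ = Real.exp (j * α) := by rw [← Real.exp_nat_mul]
              _ ≤ Real.exp 1 := by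
                  apply Real.exp_le_exp.2
                  nlinarith
              _ ≤ 3 := by
                  have := Real.exp_one_lt_d9
                  linarith
          have h2 : (j : ℝ) * β ≤ m * 2 ^ m := mul_le_mul hjm hβm hβ (by positivity)
          have h5 : (2 : ℝ) ^ m ≤ 2 ^ m * m := le_mul_of_one_le_right (by positivity) hm1
          calc (1 + α) ^ j * (2 ^ m * ((m : ℝ) + 1) + j * β)
              ≤ 3 * (2 ^ m * ((m : ℝ) + 1) + j * β) :=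
                mul_le_mul_of_nonneg_right h1 (by positivity)
            _ ≤ 9 * (2 ^ m * m) := by nlinarith
  -- the constants
  set p : ℝ := pr Mb (m + (j + 1)) (J - (j + 1)) with hpdef
  have hp1 : 1 ≤ p := pr_one_le hp _ _
  have hP : pr Mb m J = pr Mb m j * (rat Mb (m + j) * p) := by
    have h1 : rat Mb (m + j) * p = pr Mb (m + j) ((J - (j + 1)) + 1) := (pr_succ Mb (m + j) (J - (j + 1))).symm
    rw [h1, ← pr_add]
    congr 1
    omega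
  have hpP : p ≤ pr Mb m J := VaG_pr_le hp m hj
  have hpP2 : p * pr Mb m j ≤ pr Mb m J := by
    rw [hP]
    have h1 : p * 1 ≤ p * rat Mb (m + j) := mul_le_mul_of_nonneg_left (hrat0 j) (by linarith)
    calc p * pr Mb m j = pr Mb m j * (p * 1) := by ring
      _ ≤ pr Mb m j * (p * rat Mb (m + j)) := mul_le_mul_of_nonneg_left h1 (by linarith)
      _ = _ := by ring
  set Φ : ℕ → ℝ := fun q => gg R Mb (J - (j + 1)) (m + (j + 1)) q / p with hΦ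
  have hPer : Per R Φ := gg_per hR hd _ _
  have hvu : (fun ω => VaG_V R Mb t g B J I m j ω - VaG_U R Mb t g B J I m j ω) =
      fun ω => p * VaG_D R Mb t g B I m Φ j ω := by
    funext ω
    exact VaG_vu hp t g B hj I m ω
  calc ∫⁻ ω, ENNReal.ofReal |VaG_V R Mb t g B J I m j ω - VaG_U R Mb t g B J I m j ω| ∂Pm
      ≤ eLpNorm (fun ω => VaG_V R Mb t g B J I m j ω - VaG_U R Mb t g B J I m j ω) 2 Pm :=
        VaG_l1 _ ((VaG_V_meas R Mb t g B J I m j).sub (VaG_U_meas R Mb t g B J I m j))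
    _ = ENNReal.ofReal p * eLpNorm (VaG_D R Mb t g B I m Φ j) 2 Pm := by
        rw [hvu, VaG_smul _ (by linarith)]
    _ ≤ ENNReal.ofReal p * (ENNReal.ofReal α * x j + ENNReal.ofReal β) := by
        gcongr
        exact hD2 j hj Φ hPer
    _ ≤ ENNReal.ofReal p * (ENNReal.ofReal α * ENNReal.ofReal (pr Mb m j * (9 * (2 ^ m * m))) +
          ENNReal.ofReal β) := by gcongr
    _ = ENNReal.ofReal (p * (α * (pr Mb m j * (9 * (2 ^ m * m))) + β)) := by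
        have h9 : 0 ≤ pr Mb m j * (9 * (2 ^ m * (m : ℝ))) := by positivity
        rw [ENNReal.ofReal_mul (p := p) (by linarith), ENNReal.ofReal_add (mul_nonneg hα h9) hβ,
          ENNReal.ofReal_mul hα]
    _ ≤ ENNReal.ofReal (pr Mb m J * (α * (9 * (2 ^ m * m)) + β)) := by
        apply ENNReal.ofReal_le_ofReal
        have h9 : 0 ≤ α * (9 * (2 ^ m * (m : ℝ))) := by positivity
        have h10 := mul_le_mul_of_nonneg_right hpP2 h9
        have h11 := mul_le_mul_of_nonneg_right hpP hβ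
        calc p * (α * (pr Mb m j * (9 * (2 ^ m * m))) + β)
            = p * pr Mb m j * (α * (9 * (2 ^ m * m))) + p * β := by ring
          _ ≤ pr Mb m J * (α * (9 * (2 ^ m * m))) + pr Mb m J * β := add_le_add h10 h11
          _ = _ := by ring

theorem variance {R : ℕ} (hR : 0 < R) {t K ε A : ℝ} (ht : 1 / 2 < t) (ht' : t < 1) (hK : 1 ≤ K) (hε : 0 < ε) (hε1 : ε < 1)
    (hA : 0 ≤ A) : ∃ m1 : ℕ, ∀ (Mb : ℕ → ℕ) (g : ℕ → ℝ), AdmG R Mb t K g →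
    ∀ m : ℕ, m1 ≤ m → ∀ I ⊆ RAF.Inn t m, ∀ J : ℕ, ((J : ℝ) + 1 ≤ (1 - ε) * (LL m / Real.log (LL m))) →
    ∫⁻ ω, ENNReal.ofReal |∑ n ∈ I, (wt Mb t g n J ω - RLC.th n * gg R Mb J m n)| ∂Pm ≤
      ENNReal.ofReal (pr Mb m J * 2 ^ m * (m : ℝ) ^ (-A)) := by
  classical
  obtain ⟨κ, hκ, hκ8, hsv⟩ := sv hR ht ht' hK
  obtain ⟨B, m0, hB⟩ := hsv (κ / 8) (2 * A + 8) (by positivity)
  obtain ⟨δ, hδ, m1, hstep⟩ := step_e hR t K hκ hκ8 hε hε1 (show 0 ≤ 2 * A + 8 by positivity)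
  obtain ⟨m2, hbad⟩ := bad_loss hR t K hκ (by linarith)
  obtain ⟨m3, hm3⟩ := VaG_small (show 0 < κ / 2 by positivity) A
  obtain ⟨m4, hm4⟩ := VaG_small hκ A
  obtain ⟨m5, hm5⟩ := VaG_small (show 0 < δ / 2 by positivity) A
  refine ⟨m0 + m1 + m2 + m3 + m4 + m5 + 6, fun Mb g hG m hm I hI J hJ => ?_⟩
  have hd : ∀ m, Mb m ∣ R := hG.dvd
  have hp : ∀ m, 0 < Mb m := hG.pos
  have hI' : ∀ n ∈ I, n ∈ Finset.Ico (2 ^ m) (2 ^ (m + 1)) := fun n hn =>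
    (Finset.mem_filter.1 (hI hn)).1
  obtain ⟨hJm, hJ2⟩ := VaG_len hε hε1 (show 5 ≤ m by omega) hJ
  have hm6 : (6 : ℝ) ≤ m := by exact_mod_cast (show 6 ≤ m by omega)
  have hmp : (0 : ℝ) < m := by linarith
  have hJ0 : (0 : ℝ) ≤ J := Nat.cast_nonneg J
  -- the three small quantities
  set α : ℝ := (m : ℝ) ^ (-(A + 4)) with hα
  set β : ℝ := (2 : ℝ) ^ ((1 - δ / 2) * (m : ℝ)) with hβ
  have hα0 : 0 ≤ α := Real.rpow_nonneg hmp.le _
  have hβ0 : 0 ≤ β := Real.rpow_nonneg (by norm_num) _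
  have hα2 : α ^ 2 = (m : ℝ) ^ (-(2 * A + 8)) := by
    rw [hα, ← Real.rpow_natCast, ← Real.rpow_mul hmp.le]
    congr 1
    push_cast
    ring
  have hβ2 : β ^ 2 = (2 : ℝ) ^ ((2 - δ) * (m : ℝ)) := by
    rw [hβ, ← Real.rpow_natCast, ← Real.rpow_mul (by norm_num)]
    congr 1
    push_cast
    ring
  have hαA : α = (m : ℝ) ^ (-A) * ((m : ℝ) ^ 4)⁻¹ := by
    rw [hα, show -(A + 4) = -A + -(4 : ℝ) by ring, Real.rpow_add hmp, Real.rpow_neg hmp.le 4]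
    congr 2
    rw [show (4 : ℝ) = ((4 : ℕ) : ℝ) by norm_num, Real.rpow_natCast]
  have hmA1 : (m : ℝ) ^ (-A) ≤ 1 := Real.rpow_le_one_of_one_le_of_nonpos (by linarith) (by linarith)
  have hmA0 : 0 < (m : ℝ) ^ (-A) := Real.rpow_pos_of_pos hmp _
  have hαm : (m : ℝ) * α ≤ 1 := by
    rw [hαA]
    have h1 : ((m : ℝ) ^ 4)⁻¹ * m ≤ 1 := by
      rw [inv_mul_le_iff₀ (by positivity), mul_one]
      calc (m : ℝ) = m ^ 1 := (pow_one _).symm
        _ ≤ m ^ 4 := pow_le_pow_right₀ (by linarith) (by norm_num)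
    calc (m : ℝ) * ((m : ℝ) ^ (-A) * ((m : ℝ) ^ 4)⁻¹) = (m : ℝ) ^ (-A) * (((m : ℝ) ^ 4)⁻¹ * m) := by ring
      _ ≤ 1 * 1 := mul_le_mul hmA1 h1 (by positivity) zero_le_one
      _ = 1 := one_mul 1
  have hsplit : ∀ c : ℝ, (2 : ℝ) ^ ((1 - c) * (m : ℝ)) = 2 ^ m * (2 : ℝ) ^ (-(c * (m : ℝ))) := by
    intro c
    rw [show (1 - c) * (m : ℝ) = (m : ℝ) + -(c * (m : ℝ)) by ring, Real.rpow_add (by norm_num),
      Real.rpow_natCast]
  have hβm : β ≤ 2 ^ m := by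
    rw [hβ, hsplit]
    have h1 : (2 : ℝ) ^ (-(δ / 2 * (m : ℝ))) ≤ 1 :=
      Real.rpow_le_one_of_one_le_of_nonpos (by norm_num) (by
        have : 0 ≤ δ / 2 * (m : ℝ) := by positivity
        linarith)
    calc (2 : ℝ) ^ m * (2 : ℝ) ^ (-(δ / 2 * (m : ℝ))) ≤ 2 ^ m * 1 :=
          mul_le_mul_of_nonneg_left h1 (by positivity)
      _ = _ := mul_one _
  -- the norms
  have hD : ∀ j < J, ∀ Φ : ℕ → ℝ, Per R Φ → ∫⁻ ω, ENNReal.ofReal (VaG_D R Mb t g B I m Φ j ω ^ 2) ∂Pm ≤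
      ENNReal.ofReal (α ^ 2) * ∫⁻ ω, ENNReal.ofReal (VaG_S Mb t g B I j ω ^ 2) ∂Pm + ENNReal.ofReal (β ^ 2) := by
    intro j hj Φ hΦ
    rw [hα2, hβ2]
    have hjJ : (j : ℝ) + 1 ≤ (1 - ε) * (LL m / Real.log (LL m)) := by
      have : (j : ℝ) ≤ J := by exact_mod_cast hj.le
      linarith
    exact hstep Mb g hG B m0 hB m (by omega) (by omega) I hI j hjJ Φ hΦ
  have hV := VaG_norm hR hd hp t g B J I (show 1 ≤ m by omega) hI' hJm hα0 hβ0 hαm hβm hD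
  -- the losses
  have hbl : ∀ j ≤ J, ∫⁻ ω, ENNReal.ofReal (∑ n ∈ I, (wt Mb t g n j ω - wb Mb t g B n j ω)) ∂Pm ≤
      ENNReal.ofReal ((2 : ℝ) ^ ((1 - κ / 2) * (m : ℝ))) := by
    intro j hj
    apply VaG_loss
    apply hbad Mb g hG B m0 hB.card m (by omega) (by omega) I hI j
    have : (j : ℝ) ≤ J := by exact_mod_cast hj
    unfold LL
    linarith
  set P : ℝ := pr Mb m J with hPdef
  have hP1 : 1 ≤ P := pr_one_le hp m J
  have hP0 : 0 < P := by linarith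
  set S0 : ℝ := P * ((m : ℝ) + 1) *
    (((Finset.Ico (2 ^ m) (2 ^ (m + 1))).filter fun z => z ∈ B).card : ℝ) with hS0
  have hS : ∀ ω, |VaG_U R Mb t g B J I m 0 ω - ∑ n ∈ I, RLC.th n * gg R Mb J m n| ≤ S0 :=
    fun ω => VaG_start hR hd hp t g B J I hI' ω
  have hS00 : 0 ≤ S0 := by positivity
  have hS1 : S0 ≤ P * ((m : ℝ) + 1) * (2 : ℝ) ^ ((1 - κ) * (m : ℝ)) :=
    mul_le_mul_of_nonneg_left (hB.card m (by omega)) (by positivity)
  have hpt := VaG_point hR hd hp t g B J I m S0 hS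
  set γ : ℝ := (2 : ℝ) ^ ((1 - κ / 2) * (m : ℝ)) with hγ
  have hγ0 : 0 ≤ γ := Real.rpow_nonneg (by norm_num) _
  have hmeas1 : Measurable fun ω => ENNReal.ofReal (∑ n ∈ I, (wt Mb t g n J ω - wb Mb t g B n J ω)) :=
    (Finset.measurable_fun_sum _ fun n _ => (wt_meas Mb t g n J).sub (wb_meas Mb t g B n J)).ennreal_ofReal
  have hmeas2 : ∀ j, Measurable fun ω => ENNReal.ofReal |VaG_V R Mb t g B J I m j ω - VaG_U R Mb t g B J I m j ω| :=
    fun j => (continuous_abs.measurable.comp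
      ((VaG_V_meas R Mb t g B J I m j).sub (VaG_U_meas R Mb t g B J I m j))).ennreal_ofReal
  have hmeas3 : ∀ j, Measurable fun ω => ENNReal.ofReal (P *
      ∑ n ∈ I, (wt Mb t g n (j + 1) ω - wb Mb t g B n (j + 1) ω)) := fun j =>
    ((Finset.measurable_fun_sum _ fun n _ =>
      (wt_meas Mb t g n (j + 1)).sub (wb_meas Mb t g B n (j + 1))).const_mul P).ennreal_ofReal
  calc ∫⁻ ω, ENNReal.ofReal |∑ n ∈ I, (wt Mb t g n J ω - RLC.th n * gg R Mb J m n)| ∂Pm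
      ≤ ∫⁻ ω, (ENNReal.ofReal (∑ n ∈ I, (wt Mb t g n J ω - wb Mb t g B n J ω)) +
          ∑ j ∈ Finset.range J, ENNReal.ofReal |VaG_V R Mb t g B J I m j ω - VaG_U R Mb t g B J I m j ω| +
          ∑ j ∈ Finset.range J, ENNReal.ofReal (P *
            ∑ n ∈ I, (wt Mb t g n (j + 1) ω - wb Mb t g B n (j + 1) ω)) + ENNReal.ofReal S0) ∂Pm := by
        apply lintegral_mono
        intro ω
        have ha : 0 ≤ ∑ n ∈ I, (wt Mb t g n J ω - wb Mb t g B n J ω) :=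
          Finset.sum_nonneg fun n _ => sub_nonneg.2 (wb_le_wt Mb t g B n J ω)
        have hc : ∀ j, 0 ≤ P * ∑ n ∈ I, (wt Mb t g n (j + 1) ω - wb Mb t g B n (j + 1) ω) := fun j =>
          mul_nonneg hP0.le
            (Finset.sum_nonneg fun n _ => sub_nonneg.2 (wb_le_wt Mb t g B n (j + 1) ω))
        have hb' : 0 ≤ ∑ j ∈ Finset.range J, |VaG_V R Mb t g B J I m j ω - VaG_U R Mb t g B J I m j ω| :=
          Finset.sum_nonneg fun j _ => abs_nonneg _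
        have hc' : 0 ≤ ∑ j ∈ Finset.range J, (P *
            ∑ n ∈ I, (wt Mb t g n (j + 1) ω - wb Mb t g B n (j + 1) ω)) :=
          Finset.sum_nonneg fun j _ => hc j
        show ENNReal.ofReal _ ≤ _
        refine (ENNReal.ofReal_le_ofReal (hpt ω)).trans (le_of_eq ?_)
        rw [ENNReal.ofReal_add (by positivity) hS00, ENNReal.ofReal_add (by positivity) hc',
          ENNReal.ofReal_add ha hb', ENNReal.ofReal_sum_of_nonneg (fun j _ => abs_nonneg _),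
          ENNReal.ofReal_sum_of_nonneg (fun j _ => hc j)]
    _ = ∫⁻ ω, ENNReal.ofReal (∑ n ∈ I, (wt Mb t g n J ω - wb Mb t g B n J ω)) ∂Pm +
          ∑ j ∈ Finset.range J, ∫⁻ ω, ENNReal.ofReal |VaG_V R Mb t g B J I m j ω - VaG_U R Mb t g B J I m j ω| ∂Pm +
          ∑ j ∈ Finset.range J, ∫⁻ ω, ENNReal.ofReal (P *
            ∑ n ∈ I, (wt Mb t g n (j + 1) ω - wb Mb t g B n (j + 1) ω)) ∂Pm + ENNReal.ofReal S0 := by
        rw [lintegral_add_right _ measurable_const, lintegral_const, measure_univ, mul_one,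
          lintegral_add_right _ (Finset.measurable_fun_sum _ fun j _ => hmeas3 j),
          lintegral_finsetSum _ (fun j _ => hmeas3 j),
          lintegral_add_right _ (Finset.measurable_fun_sum _ fun j _ => hmeas2 j),
          lintegral_finsetSum _ (fun j _ => hmeas2 j)]
    _ ≤ ENNReal.ofReal γ + ∑ j ∈ Finset.range J, ENNReal.ofReal (P * (α * (9 * (2 ^ m * m)) + β)) +
          ∑ j ∈ Finset.range J, ENNReal.ofReal (P * γ) + ENNReal.ofReal S0 := by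
        gcongr with j hj j hj
        · exact hbl J le_rfl
        · exact hV j (Finset.mem_range.1 hj)
        · have h1 : ∀ ω, ENNReal.ofReal (P * ∑ n ∈ I, (wt Mb t g n (j + 1) ω - wb Mb t g B n (j + 1) ω)) =
              ENNReal.ofReal P *
                ENNReal.ofReal (∑ n ∈ I, (wt Mb t g n (j + 1) ω - wb Mb t g B n (j + 1) ω)) := fun ω =>
            ENNReal.ofReal_mul hP0.le
          simp_rw [h1]
          rw [lintegral_const_mul' _ _ ENNReal.ofReal_ne_top, ENNReal.ofReal_mul hP0.le]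
          gcongr
          exact hbl (j + 1) (Finset.mem_range.1 hj)
    _ = ENNReal.ofReal (γ + J * (P * (α * (9 * (2 ^ m * m)) + β)) + J * (P * γ) + S0) := by
        have hE1 : 0 ≤ P * (α * (9 * (2 ^ m * m)) + β) := by positivity
        have hE2 : 0 ≤ P * γ := by positivity
        rw [Finset.sum_const, Finset.sum_const, Finset.card_range, nsmul_eq_mul, nsmul_eq_mul]
        generalize P * (α * (9 * (2 ^ m * m)) + β) = E1 at hE1 ⊢
        generalize P * γ = E2 at hE2 ⊢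
        rw [ENNReal.ofReal_add (p := γ + J * E1 + J * E2) (by positivity) hS00,
          ENNReal.ofReal_add (p := γ + J * E1) (by positivity) (by positivity),
          ENNReal.ofReal_add (p := γ) hγ0 (by positivity), ENNReal.ofReal_mul hJ0, ENNReal.ofReal_mul hJ0,
          ENNReal.ofReal_natCast]
    _ ≤ ENNReal.ofReal (P * 2 ^ m * (m : ℝ) ^ (-A)) := by
        apply ENNReal.ofReal_le_ofReal
        have h3 := hm3 m (by omega)
        have h4 := hm4 m (by omega)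
        have h5 := hm5 m (by omega)
        have hγs : γ = 2 ^ m * (2 : ℝ) ^ (-(κ / 2 * (m : ℝ))) := hsplit (κ / 2)
        have hβs : β = 2 ^ m * (2 : ℝ) ^ (-(δ / 2 * (m : ℝ))) := hsplit (δ / 2)
        have hκs := hsplit κ
        have h2m : (0 : ℝ) < 2 ^ m := by positivity
        have hQ0 : 0 < P * 2 ^ m := by positivity
        -- the four parts
        have e1 : γ + J * (P * γ) ≤ P * 2 ^ m * ((m : ℝ) ^ (-A) / 4) := by
          have h6 : γ ≤ P * γ := le_mul_of_one_le_left hγ0 hP1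
          calc γ + J * (P * γ) ≤ P * γ + J * (P * γ) := by linarith
            _ = ((J : ℝ) + 1) * (P * γ) := by ring
            _ ≤ ((m : ℝ) + 1) * (P * γ) := mul_le_mul_of_nonneg_right (by linarith) (by positivity)
            _ = P * 2 ^ m * (((m : ℝ) + 1) * (2 : ℝ) ^ (-(κ / 2 * (m : ℝ)))) := by rw [hγs]; ring
            _ ≤ _ := mul_le_mul_of_nonneg_left h3 hQ0.le
        have e2 : S0 ≤ P * 2 ^ m * ((m : ℝ) ^ (-A) / 4) := by
          calc S0 ≤ P * ((m : ℝ) + 1) * (2 : ℝ) ^ ((1 - κ) * (m : ℝ)) := hS1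
            _ = P * 2 ^ m * (((m : ℝ) + 1) * (2 : ℝ) ^ (-(κ * (m : ℝ)))) := by rw [hκs]; ring
            _ ≤ _ := mul_le_mul_of_nonneg_left h4 hQ0.le
        have e3 : J * (P * β) ≤ P * 2 ^ m * ((m : ℝ) ^ (-A) / 4) := by
          calc J * (P * β) ≤ ((m : ℝ) + 1) * (P * β) := mul_le_mul_of_nonneg_right (by linarith) (by positivity)
            _ = P * 2 ^ m * (((m : ℝ) + 1) * (2 : ℝ) ^ (-(δ / 2 * (m : ℝ)))) := by rw [hβs]; ring
            _ ≤ _ := mul_le_mul_of_nonneg_left h5 hQ0.le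
        have e4 : J * (P * (α * (9 * (2 ^ m * m)))) ≤ P * 2 ^ m * ((m : ℝ) ^ (-A) / 4) := by
          have h6 : (J : ℝ) * (P * (α * (9 * (2 ^ m * m)))) ≤ m * (P * (α * (9 * (2 ^ m * m)))) :=
            mul_le_mul_of_nonneg_right (by linarith) (by positivity)
          have h7 : (m : ℝ) * (P * (α * (9 * (2 ^ m * m)))) =
              P * 2 ^ m * ((m : ℝ) ^ (-A) * (9 * (m ^ 2 * ((m : ℝ) ^ 4)⁻¹))) := by
            rw [hαA]; ring
          have h8 : (m : ℝ) ^ 2 * ((m : ℝ) ^ 4)⁻¹ = ((m : ℝ) ^ 2)⁻¹ := by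
            field_simp
          have h9 : 9 * ((m : ℝ) ^ 2)⁻¹ ≤ 1 / 4 := by
            rw [← div_eq_mul_inv, div_le_div_iff₀ (by positivity) (by norm_num)]
            nlinarith
          refine h6.trans ?_
          rw [h7, h8]
          apply mul_le_mul_of_nonneg_left _ hQ0.le
          calc (m : ℝ) ^ (-A) * (9 * ((m : ℝ) ^ 2)⁻¹) ≤ (m : ℝ) ^ (-A) * (1 / 4) :=
                mul_le_mul_of_nonneg_left h9 hmA0.le
            _ = _ := by ring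
        calc γ + J * (P * (α * (9 * (2 ^ m * m)) + β)) + J * (P * γ) + S0
            = (γ + J * (P * γ)) + S0 + J * (P * β) + J * (P * (α * (9 * (2 ^ m * m)))) := by ring
          _ ≤ P * 2 ^ m * ((m : ℝ) ^ (-A) / 4) + P * 2 ^ m * ((m : ℝ) ^ (-A) / 4) +
              P * 2 ^ m * ((m : ℝ) ^ (-A) / 4) + P * 2 ^ m * ((m : ℝ) ^ (-A) / 4) := by linarith
          _ = P * 2 ^ m * (m : ℝ) ^ (-A) := by ring

end RAG
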