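import Pool.Agent.RAG.AeI
import Pool.Agent.RAG.MainI
import Pool.Agent.RAG.MbF

/-!
# RAG.WinK: the sums over the windows for a fixed length

PROOF. Let `J`, `N`, `s < N`, `δ > 0` be fixed, `m` large, `R = MM ζ (4m)`, `Mb = Ml ζ m`, `W = wn m N s`, `Y = 2^m + 2^m s/N`, `Y' = 2^m + 2^m (s+1)/N` (natural division; `2^m ≤ Y ≤ Y' ≤ 2^(m+1)`, `|Y' - Y - 2^m/N| ≤ 1`). `pr Mb m J ≤ R^J` (`rat Mb i ≤ Mb i ≤ R`) and `R^(J+2) ≤ m` for large `m` (`ZH.small`).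
(1) `∑_{n∈W} th n gg R Mb J m n = kapL R (fun i => Mb (m+i)) J (Y'-Y) + O(e R pr 2^m)` by `main_int` (`R < 2^m` as `R ≤ m`) with `e = 1/((i+1) R^i)`, `i ≥ J + 1`, `1/(i+1) ≤ δ/8` (`ZH.pnt i`): the error is at most `R^(J+1)/((i+1) R^i) 2^m ≤ (δ/8) 2^m`; and `|kapL - BH J| ≤ δ/8` (`kap_lim`; `Ml ζ m (m+i) = MM ζ (min (m+i) (4m))` by definition), `|Y' - Y - 2^m/N| ≤ 1`.
(2) `∑_{n∈W, n∉Inn} th n gg ≤ pr ∑_{n∈block, n∉Inn} wt n 0 ≤ m 2^((1-(1-t)/8)m)` (`GoodI.bdry` with `J = 0`, `wt_zero`, `gg_le`; the only element of `W` which may not be in the block is `2^(m+1)`, not prime: `th = 0`). (3) `GoodI.var` (`ε = 1/2`; `J + 1 ≤ (1/2) LL m/log (LL m)` for large `m`): `∑_{n∈W∩Inn} wt n J = ∑_{n∈W∩Inn} th n gg + O(pr 2^m/m²)`, `pr ≤ m`.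
(4) `∑_{n∈W, n∉Inn} wt n J ≤ 2^((1-(1-t)/8)m)` (`GoodI.bdry`; for `n = 2^(m+1)` the term is `0`, `wt` contains the factor `th n`).
-/

namespace RAG

open Filter Pool.Agent.PCx

private theorem WinK_pr {R : ℕ} (hR : 0 < R) {Mb : ℕ → ℕ} (h : ∀ m, Mb m ∣ R) (m J : ℕ) :
    pr Mb m J ≤ (R : ℝ) ^ J := by
  unfold pr
  have h1 : ∀ i ∈ Finset.range J, rat Mb (m + i) ≤ (R : ℝ) := by
    intro i _
    unfold rat
    have hp : 0 < Mb (m + i) := Nat.pos_of_dvd_of_pos (h _) hR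
    have h2 : (1 : ℝ) ≤ (Mb (m + i)).totient := by exact_mod_cast Nat.totient_pos.mpr hp
    have h3 : (Mb (m + i) : ℝ) ≤ R := by exact_mod_cast Nat.le_of_dvd hR (h _)
    exact (div_le_self (Nat.cast_nonneg _) h2).trans h3
  calc ∏ i ∈ Finset.range J, rat Mb (m + i) ≤ ∏ _i ∈ Finset.range J, (R : ℝ) :=
        Finset.prod_le_prod (fun i _ => div_nonneg (Nat.cast_nonneg _) (Nat.cast_nonneg _)) h1
    _ = (R : ℝ) ^ J := by rw [Finset.prod_const, Finset.card_range]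

private theorem WinK_th (m : ℕ) (hm : 1 ≤ m) : RLC.th (2 ^ (m + 1)) = 0 := by
  unfold RLC.th
  rw [if_neg]
  exact Nat.Prime.not_prime_pow (by omega)

private theorem WinK_wt (Mb : ℕ → ℕ) (t : ℝ) (g : ℕ → ℝ) (ω : ℕ → ℝ × ℝ) (J m : ℕ) (hm : 1 ≤ m) :
    wt Mb t g (2 ^ (m + 1)) J ω = 0 := by
  unfold wt
  refine Finset.prod_eq_zero (i := 0) (Finset.mem_range.mpr (by omega)) ?_
  rw [ch_zero]
  exact WinK_th m hm

private theorem WinK_sub (t : ℝ) (f : ℕ → ℝ) (hf : ∀ n, 0 ≤ f n) (m : ℕ) (h0 : f (2 ^ (m + 1)) = 0) {Y Y' : ℕ}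
    (hY : 2 ^ m ≤ Y) (hY' : Y' ≤ 2 ^ (m + 1)) :
    ∑ n ∈ (Finset.Ioc Y Y').filter (fun n => n ∉ RAF.Inn t m), f n ≤
      ∑ n ∈ (Finset.Ico (2 ^ m) (2 ^ (m + 1))).filter (fun n => n ∉ RAF.Inn t m), f n := by
  classical
  rw [← Finset.sum_filter_ne_zero]
  refine Finset.sum_le_sum_of_subset_of_nonneg ?_ fun n _ _ => hf n
  intro n hn
  rw [Finset.mem_filter, Finset.mem_filter, Finset.mem_Ioc] at hn
  rw [Finset.mem_filter, Finset.mem_Ico]
  obtain ⟨⟨⟨h1, h2⟩, h3⟩, h4⟩ := hn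
  refine ⟨⟨by omega, ?_⟩, h3⟩
  have h5 : n ≠ 2 ^ (m + 1) := by
    intro h6
    rw [h6] at h4
    exact h4 h0
  omega

private theorem WinK_len (m N s : ℕ) (hN : 1 ≤ N) :
    |((((2 ^ m + 2 ^ m * (s + 1) / N : ℕ) : ℝ)) - ((2 ^ m + 2 ^ m * s / N : ℕ) : ℝ)) - 2 ^ m / N| ≤ 1 := by
  have hN' : (0 : ℝ) < N := by exact_mod_cast hN
  have h1 : ∀ a : ℕ, ((a / N : ℕ) : ℝ) ≤ (a : ℝ) / N := fun a => Nat.cast_div_le
  have h2 : ∀ a : ℕ, (a : ℝ) / N < ((a / N : ℕ) : ℝ) + 1 := by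
    intro a
    have := Nat.lt_floor_add_one ((a : ℝ) / N)
    rwa [Nat.floor_div_eq_div] at this
  have a1 := h1 (2 ^ m * s)
  have a2 := h2 (2 ^ m * s)
  have b1 := h1 (2 ^ m * (s + 1))
  have b2 := h2 (2 ^ m * (s + 1))
  have e1 : ((2 ^ m * (s + 1) : ℕ) : ℝ) / N = ((2 ^ m * s : ℕ) : ℝ) / N + 2 ^ m / N := by
    push_cast
    field_simp
  push_cast at a1 a2 b1 b2 e1 ⊢
  rw [abs_le]
  constructor <;> linarith

private theorem WinK_small {κ : ℝ} (hκ : 0 < κ) {δ : ℝ} (hδ : 0 < δ) :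
    ∀ᶠ m : ℕ in atTop, (m : ℝ) * (2 : ℝ) ^ ((1 - κ) * (m : ℝ)) ≤ δ * 2 ^ m := by
  have h1 : |(2 : ℝ) ^ (-κ)| < 1 := by
    rw [abs_of_pos (by positivity)]
    exact Real.rpow_lt_one_of_one_lt_of_neg (by norm_num) (by linarith)
  have h2 := tendsto_pow_const_mul_const_pow_of_abs_lt_one 1 h1
  filter_upwards [h2.eventually_lt_const hδ] with m hm
  have h3 : (2 : ℝ) ^ ((1 - κ) * (m : ℝ)) = ((2 : ℝ) ^ (-κ)) ^ m * 2 ^ m := by
    rw [← Real.rpow_natCast ((2 : ℝ) ^ (-κ)), ← Real.rpow_mul (by norm_num), ← Real.rpow_natCast 2 m,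
      ← Real.rpow_add (by norm_num)]
    congr 1
    ring
  rw [h3]
  rw [pow_one] at hm
  have h4 : (0 : ℝ) < 2 ^ m := by positivity
  nlinarith

private theorem WinK_J (J : ℕ) : ∀ᶠ m : ℕ in atTop, (J : ℝ) + 1 ≤ (1 - 1 / 2) * (LL m / Real.log (LL m)) := by
  have h1 : Tendsto (fun x : ℝ => x / Real.log x) atTop atTop := by
    have h2 : Tendsto (fun x : ℝ => Real.log x / x) atTop (nhdsWithin 0 (Set.Ioi 0)) := by
      rw [tendsto_nhdsWithin_iff]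
      constructor
      · have := Real.isLittleO_log_id_atTop.tendsto_div_nhds_zero
        simpa using this
      · filter_upwards [eventually_gt_atTop 1] with x hx
        exact div_pos (Real.log_pos hx) (by linarith)
    have h3 := h2.inv_tendsto_nhdsGT_zero
    refine h3.congr fun x => ?_
    simp [inv_div]
  have h4 : Tendsto (fun m : ℕ => LL m) atTop atTop := by
    have h5 : Tendsto (fun m : ℕ => (m : ℝ) * Real.log 2) atTop atTop :=
      tendsto_natCast_atTop_atTop.atTop_mul_const (Real.log_pos (by norm_num))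
    refine h5.congr fun m => ?_
    rw [LL_eq]
  filter_upwards [(h1.comp h4).eventually_ge_atTop (2 * ((J : ℝ) + 1))] with m hm
  simp only [Function.comp] at hm
  linarith

theorem win_k {t K : ℝ} {g : ℕ → ℝ} (h : AdmK t K g) {ζ : ℕ → ℕ} (hζ : ZH t ζ) {ω : ℕ → ℝ × ℝ} (hω : GoodI t g ζ ω)
    (J : ℕ) {N : ℕ} (hN : 1 ≤ N) (s : ℕ) (hs : s < N) {δ : ℝ} (hδ : 0 < δ) : ∀ᶠ m : ℕ in atTop,
    |∑ n ∈ wn m N s, wt (Ml ζ m) t g n J ω - BH J * (2 ^ m / N)| ≤ δ * 2 ^ m := by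
  have hκ : 0 < (1 - t) / 8 := by
    have := h.ht1
    linarith
  obtain ⟨i0, hi0⟩ := exists_nat_gt (8 / δ)
  set i := i0 + (J + 1) with hi
  have hiδ : 1 / ((i : ℝ) + 1) ≤ δ / 8 := by
    have h1 : 8 / δ ≤ (i : ℝ) + 1 := by
      rw [hi]
      push_cast
      have : (0 : ℝ) ≤ J := Nat.cast_nonneg _
      linarith
    have h2 : 0 < 8 / δ := by positivity
    have h3 := one_div_le_one_div_of_le h2 h1
    refine h3.trans (le_of_eq ?_)
    field_simp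
  have e1 : ∀ᶠ m : ℕ in atTop, (8 : ℝ) / δ ≤ m := tendsto_natCast_atTop_atTop.eventually_ge_atTop _
  have e2 : ∀ᶠ m : ℕ in atTop, 8 / δ * (|BH J| + δ / 8) ≤ (2 : ℝ) ^ m :=
    (tendsto_pow_atTop_atTop_of_one_lt (by norm_num : (1 : ℝ) < 2)).eventually_ge_atTop _
  filter_upwards [eventually_ge_atTop 1, hζ.small 1, hζ.small J, hζ.pnt i, WinK_small hκ (show 0 < δ / 8 by linarith),
    WinK_J J, WinK_J 0, hω.var (1 / 2) (by norm_num) (by norm_num) N hN, hω.bdry,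
    kap_lim hζ.grow J (show 0 < δ / 8 by linarith), e1, e2] with m hm hs1 hsJ hpnt hsm hJ hJ0 hvar hbd hkap hm8 hm2
  set R := MM ζ (4 * m) with hRdef
  set Mb := Ml ζ m with hMb
  have hR : 0 < R := MM_pos ζ _
  have hd : ∀ b, Mb b ∣ R := fun b => Ml_dvd ζ m b
  have hpR := WinK_pr hR hd m J
  have hp0 : 0 ≤ pr Mb m J := (gg_nonneg hR hd J m 0).trans (gg_le hR hd J m 0)
  have hpm : pr Mb m J ≤ m := hpR.trans (by exact_mod_cast hsJ)
  have h2m : (0 : ℝ) < 2 ^ m := by positivity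
  have hmR : (1 : ℝ) ≤ m := by exact_mod_cast hm
  have hRR : (1 : ℝ) ≤ R := by exact_mod_cast hR
  have hRm : R < 2 ^ m := by
    rw [pow_one] at hs1
    exact lt_of_le_of_lt hs1 Nat.lt_two_pow_self
  set Y := 2 ^ m + 2 ^ m * s / N with hY
  set Y' := 2 ^ m + 2 ^ m * (s + 1) / N with hY'
  have hYge : 2 ^ m ≤ Y := Nat.le_add_right _ _
  have hYY : Y ≤ Y' := by
    rw [hY, hY']
    exact Nat.add_le_add_left (Nat.div_le_div_right (Nat.mul_le_mul_left _ (Nat.le_succ _))) _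
  have hY'le : Y' ≤ 2 ^ (m + 1) := by
    rw [hY', pow_succ]
    have h1 : 2 ^ m * (s + 1) / N ≤ 2 ^ m := by
      apply Nat.div_le_of_le_mul
      rw [mul_comm N]
      exact Nat.mul_le_mul_left _ hs
    omega
  have hW : wn m N s = Finset.Ioc Y Y' := rfl
  rw [hW]
  -- (A)
  have hA := hvar s hs J hJ
  rw [hW] at hA
  have hA' : pr Mb m J * (2 ^ m / (m : ℝ) ^ 2) ≤ δ / 8 * 2 ^ m := by
    have h1 : pr Mb m J * (2 ^ m / (m : ℝ) ^ 2) ≤ m * (2 ^ m / (m : ℝ) ^ 2) :=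
      mul_le_mul_of_nonneg_right hpm (by positivity)
    have h2 : (m : ℝ) * (2 ^ m / (m : ℝ) ^ 2) = 1 / m * 2 ^ m := by
      field_simp
    have h3 : 1 / (m : ℝ) ≤ δ / 8 := by
      have h4 : 0 < 8 / δ := by positivity
      refine (one_div_le_one_div_of_le h4 hm8).trans (le_of_eq ?_)
      field_simp
    rw [h2] at h1
    exact h1.trans (mul_le_mul_of_nonneg_right h3 h2m.le)
  -- (B)
  have hnn : (0 : ℝ) ≤ LL m / Real.log (LL m) := by
    have : (0 : ℝ) ≤ (0 : ℕ) := by norm_num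
    push_cast at hJ0
    linarith
  have hB : ∑ n ∈ (Finset.Ioc Y Y').filter (fun n => n ∉ RAF.Inn t m), wt Mb t g n J ω ≤ δ / 8 * 2 ^ m := by
    refine (WinK_sub t (fun n => wt Mb t g n J ω) (fun n => wt_nonneg _ _ _ _ _ _) m
      (WinK_wt Mb t g ω J m hm) hYge hY'le).trans ?_
    refine (hbd J (by linarith)).trans ?_
    refine le_trans ?_ hsm
    have : (0 : ℝ) ≤ (2 : ℝ) ^ ((1 - (1 - t) / 8) * (m : ℝ)) := by positivity
    nlinarith
  -- (C)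
  have hth0 : ∀ n, 0 ≤ RLC.th n := by
    intro n
    have := wt_nonneg Mb t g n 0 ω
    rwa [wt_zero] at this
  have hC : ∑ n ∈ (Finset.Ioc Y Y').filter (fun n => n ∉ RAF.Inn t m), RLC.th n * gg R Mb J m n ≤ δ / 8 * 2 ^ m := by
    have h1 : ∑ n ∈ (Finset.Ioc Y Y').filter (fun n => n ∉ RAF.Inn t m), RLC.th n * gg R Mb J m n ≤
        pr Mb m J * ∑ n ∈ (Finset.Ioc Y Y').filter (fun n => n ∉ RAF.Inn t m), RLC.th n := by
      rw [Finset.mul_sum]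
      refine Finset.sum_le_sum fun n _ => ?_
      rw [mul_comm]
      exact mul_le_mul_of_nonneg_right (gg_le hR hd J m n) (hth0 n)
    refine h1.trans ?_
    have h2 : ∑ n ∈ (Finset.Ioc Y Y').filter (fun n => n ∉ RAF.Inn t m), RLC.th n ≤
        (2 : ℝ) ^ ((1 - (1 - t) / 8) * (m : ℝ)) := by
      refine (WinK_sub t RLC.th hth0 m (WinK_th m hm) hYge hY'le).trans ?_
      have h3 := hbd 0 (by push_cast; linarith)
      simp only [wt_zero] at h3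
      exact h3
    calc pr Mb m J * ∑ n ∈ (Finset.Ioc Y Y').filter (fun n => n ∉ RAF.Inn t m), RLC.th n
        ≤ pr Mb m J * (2 : ℝ) ^ ((1 - (1 - t) / 8) * (m : ℝ)) := mul_le_mul_of_nonneg_left h2 hp0
      _ ≤ m * (2 : ℝ) ^ ((1 - (1 - t) / 8) * (m : ℝ)) := mul_le_mul_of_nonneg_right hpm (by positivity)
      _ ≤ δ / 8 * 2 ^ m := hsm
  have hC0 : 0 ≤ ∑ n ∈ (Finset.Ioc Y Y').filter (fun n => n ∉ RAF.Inn t m), RLC.th n * gg R Mb J m n :=
    Finset.sum_nonneg fun n _ => mul_nonneg (hth0 n) (gg_nonneg hR hd J m n)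
  have hB0 : 0 ≤ ∑ n ∈ (Finset.Ioc Y Y').filter (fun n => n ∉ RAF.Inn t m), wt Mb t g n J ω :=
    Finset.sum_nonneg fun n _ => wt_nonneg _ _ _ _ _ _
  -- (D)
  have hD := main_int hR hd hpnt hRm J hYge hYY hY'le
  have hD' : 1 / (((i : ℝ) + 1) * (R : ℝ) ^ i) * R * pr Mb m J * 2 ^ m ≤ δ / 8 * 2 ^ m := by
    refine mul_le_mul_of_nonneg_right ?_ h2m.le
    have h1 : (R : ℝ) * pr Mb m J ≤ (R : ℝ) ^ i := by
      calc (R : ℝ) * pr Mb m J ≤ R * (R : ℝ) ^ J := mul_le_mul_of_nonneg_left hpR (by linarith)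
        _ = (R : ℝ) ^ (J + 1) := by ring
        _ ≤ (R : ℝ) ^ i := pow_le_pow_right₀ hRR (by omega)
    have h2 : (0 : ℝ) < (R : ℝ) ^ i := by positivity
    have h3 : (0 : ℝ) < (i : ℝ) + 1 := by positivity
    calc 1 / (((i : ℝ) + 1) * (R : ℝ) ^ i) * R * pr Mb m J
        = 1 / (((i : ℝ) + 1) * (R : ℝ) ^ i) * (R * pr Mb m J) := by ring
      _ ≤ 1 / (((i : ℝ) + 1) * (R : ℝ) ^ i) * (R : ℝ) ^ i := mul_le_mul_of_nonneg_left h1 (by positivity)
      _ = 1 / ((i : ℝ) + 1) := by field_simp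
      _ ≤ δ / 8 := hiδ
  -- (E), (F)
  have hkap' : |kapL R (fun i => Mb (m + i)) J - BH J| ≤ δ / 8 := hkap
  set κ := kapL R (fun i => Mb (m + i)) J with hκdef
  have hlen := WinK_len m N s hN
  rw [← hY, ← hY'] at hlen
  have hE : |κ * ((Y' : ℝ) - Y) - BH J * (2 ^ m / N)| ≤ δ / 8 * 2 ^ m + δ / 8 * 2 ^ m := by
    have h1 : κ * ((Y' : ℝ) - Y) - BH J * (2 ^ m / N) =
        κ * (((Y' : ℝ) - Y) - 2 ^ m / N) + (κ - BH J) * (2 ^ m / N) := by ring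
    rw [h1]
    refine (abs_add_le _ _).trans (add_le_add ?_ ?_)
    · rw [abs_mul]
      have h2 : |κ| ≤ |BH J| + δ / 8 := by
        have h3 : κ = BH J + (κ - BH J) := by ring
        rw [h3]
        refine (abs_add_le _ _).trans ?_
        linarith
      have h4 : |κ| * |((Y' : ℝ) - Y) - 2 ^ m / N| ≤ (|BH J| + δ / 8) * 1 :=
        mul_le_mul h2 hlen (abs_nonneg _) (by positivity)
      refine h4.trans ?_
      have h5 : δ / 8 * (8 / δ * (|BH J| + δ / 8)) = |BH J| + δ / 8 := by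
        field_simp
      rw [mul_one, ← h5]
      exact mul_le_mul_of_nonneg_left hm2 (by positivity)
    · rw [abs_mul]
      have h2 : |(2 : ℝ) ^ m / N| ≤ 2 ^ m := by
        rw [abs_of_nonneg (by positivity)]
        have hN1 : (1 : ℝ) ≤ N := by exact_mod_cast hN
        exact div_le_self h2m.le hN1
      exact mul_le_mul hkap' h2 (abs_nonneg _) (by positivity)
  -- together
  have s1 := Finset.sum_filter_add_sum_filter_not (Finset.Ioc Y Y') (fun n => n ∈ RAF.Inn t m)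
    (fun n => wt Mb t g n J ω)
  have s2 := Finset.sum_filter_add_sum_filter_not (Finset.Ioc Y Y') (fun n => n ∈ RAF.Inn t m)
    (fun n => RLC.th n * gg R Mb J m n)
  rw [Finset.sum_sub_distrib] at hA
  have hA2 := hA.trans hA'
  have hD2 := hD.trans hD'
  rw [abs_le] at hA2 hD2 hE ⊢
  constructor <;> linarith [hA2.1, hA2.2, hD2.1, hD2.2, hE.1, hE.2]

end RAG
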