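import Pool.Agent.RAG.Basic
import Pool.Agent.RAF.WinInt

/-!
# RAG.WinU: primes in the class of `2c+1` modulo `M` in a window, weighted with a function of the residue modulo `R`

PROOF. As `Pool/Agent/RAF/WinInt.lean` (copy). `z = 2c+1+Mk`. The full `k` contribute `M ∑ th z Φ z` over the `z ≡ 2c+1 (mod M)` in `[Z0, Z1)`. Split into the classes `b < R` modulo `R` with `b ≡ 2c+1 (mod M)`: for `b` not coprime to `R` there are no primes `z > R` in the class;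
for `b` coprime to `R` the sum is `Φ b ∑_{z ≡ b (R)} th z`, and the cells `[rH, (r+1)H) ⊆ [Z0, Z1)` which are not bad (`BadC R A H m r`) contribute `H/φ(R) + O(H m^(-A))` each, the others at most `C H` (`bt`), the two incomplete cells at most `C H` each. Total:
`M ∑_b Φ b (|cells| H/φ(R) + O(|cells| H m^(-A) + (#bad + 2) C H))`, with `|cells| H = Z1 - Z0 + O(H) = x1 - x0 + O(H)`, and `(M/φ(R)) ∑_b Φ b = mn R M Φ c`. (At most `R` classes, `Φ ≤ 1`, `M ≤ R`.)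
-/

namespace RAG

open MeasureTheory

variable {M : ℕ}

private theorem wu_grow {s : ℝ} (hs : 0 < s) (D : ℝ) : ∃ m0 : ℕ, 1 ≤ m0 ∧ ∀ m : ℕ, m0 ≤ m →
    D * ((m : ℝ) + 1) ≤ (2 : ℝ) ^ (s * (m : ℝ)) := by
  have hl : 0 < Real.log 2 := Real.log_pos (by norm_num)
  set c : ℝ := s * Real.log 2 with hc
  have hc0 : 0 < c := by positivity
  refine ⟨max 1 ⌈4 * |D| / c ^ 2⌉₊, le_max_left _ _, fun m hm => ?_⟩
  have hm1 : (1 : ℝ) ≤ m := by exact_mod_cast (le_max_left _ _).trans hm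
  have hm2 : 4 * |D| / c ^ 2 ≤ m := (Nat.le_ceil _).trans (by exact_mod_cast (le_max_right _ _).trans hm)
  rw [div_le_iff₀ (by positivity)] at hm2
  have h1 : (2 : ℝ) ^ (s * (m : ℝ)) = Real.exp (c * m) := by
    rw [Real.rpow_def_of_pos (by norm_num)]
    congr 1
    rw [hc]; ring
  rw [h1]
  have h2 := Real.quadratic_le_exp_of_nonneg (x := c * m) (by positivity)
  have h3 : D * ((m : ℝ) + 1) ≤ |D| * (2 * m) := by
    calc D * ((m : ℝ) + 1) ≤ |D| * ((m : ℝ) + 1) := by gcongr; exact le_abs_self D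
      _ ≤ |D| * (2 * m) := by gcongr; linarith
  have h4 : |D| * (2 * m) ≤ (c * m) ^ 2 / 2 := by nlinarith
  have h5 : 0 ≤ c * m := by positivity
  linarith

private theorem wu_fl (hM : 0 < M) {j : ℕ} {a b x : ℝ} (ha : (M : ℝ) * j ≤ a) (hb : b ≤ (M : ℝ) * (j + 1))
    (hx : x ∈ Set.Ioo a b) : ⌊x / M⌋₊ = j := by
  have hM0 : (0 : ℝ) < M := by exact_mod_cast hM
  have hx0 : 0 ≤ x / M := by
    have : (0 : ℝ) ≤ (M : ℝ) * j := by positivity
    exact div_nonneg (by linarith [hx.1]) hM0.le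
  rw [Nat.floor_eq_iff hx0]
  constructor
  · rw [le_div_iff₀ hM0]
    linarith [hx.1]
  · rw [div_lt_iff₀ hM0]
    linarith [hx.2]

private theorem wu_piece (hM : 0 < M) (F : ℕ → ℝ) {j : ℕ} {a b : ℝ} (hab : a ≤ b) (ha : (M : ℝ) * j ≤ a)
    (hb : b ≤ (M : ℝ) * (j + 1)) :
    IntervalIntegrable (fun x : ℝ => F ⌊x / M⌋₊) volume a b ∧
      ∫ x in a..b, F ⌊x / M⌋₊ = (b - a) * F j := by
  have h1 : Set.EqOn (fun _ : ℝ => F j) (fun x : ℝ => F ⌊x / M⌋₊) (Set.uIoo a b) := by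
    intro x hx
    rw [Set.uIoo_of_le hab] at hx
    simp only
    rw [wu_fl hM ha hb hx]
  refine ⟨IntervalIntegrable.congr_uIoo intervalIntegrable_const h1, ?_⟩
  rw [← intervalIntegral.integral_congr_uIoo h1, intervalIntegral.integral_const, smul_eq_mul]

private theorem wu_zero (hM : 0 < M) (F : ℕ → ℝ) {y : ℝ} (hy : 0 ≤ y) :
    IntervalIntegrable (fun x : ℝ => F ⌊x / M⌋₊) volume 0 y ∧
      ∫ x in (0 : ℝ)..y, F ⌊x / M⌋₊ = M * ∑ j ∈ Finset.range ⌊y / M⌋₊, F j +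
        (y - M * (⌊y / M⌋₊ : ℝ)) * F ⌊y / M⌋₊ := by
  have hM0 : (0 : ℝ) < M := by exact_mod_cast hM
  set k : ℕ := ⌊y / M⌋₊ with hk
  have hk1 : (M : ℝ) * k ≤ y := by
    have := Nat.floor_le (div_nonneg hy hM0.le)
    rw [← hk, le_div_iff₀ hM0] at this
    linarith
  have hk2 : y ≤ (M : ℝ) * (k + 1) := by
    have := Nat.lt_floor_add_one (y / M)
    rw [← hk, div_lt_iff₀ hM0] at this
    linarith
  have hp : ∀ j : ℕ, IntervalIntegrable (fun x : ℝ => F ⌊x / M⌋₊) volume ((M : ℝ) * j) ((M : ℝ) * ((j + 1 : ℕ) : ℝ)) ∧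
      ∫ x in ((M : ℝ) * j)..((M : ℝ) * ((j + 1 : ℕ) : ℝ)), F ⌊x / M⌋₊ = M * F j := by
    intro j
    have h := wu_piece hM F (j := j) (a := (M : ℝ) * j) (b := (M : ℝ) * ((j + 1 : ℕ) : ℝ)) (by push_cast; nlinarith) le_rfl
      (by push_cast; exact le_rfl)
    refine ⟨h.1, h.2.trans ?_⟩
    push_cast
    ring
  have hsum := intervalIntegral.sum_integral_adjacent_intervals (f := fun x : ℝ => F ⌊x / M⌋₊) (μ := volume)
    (a := fun j : ℕ => (M : ℝ) * j) (n := k) (fun j _ => (hp j).1)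
  have hint := IntervalIntegrable.trans_iterate (f := fun x : ℝ => F ⌊x / M⌋₊) (μ := volume)
    (a := fun j : ℕ => (M : ℝ) * j) (n := k) (fun j _ => (hp j).1)
  have hlast := wu_piece hM F (j := k) (a := (M : ℝ) * k) (b := y) hk1 le_rfl hk2
  have h0 : (M : ℝ) * ((0 : ℕ) : ℝ) = 0 := by simp
  simp only [h0] at hsum hint
  refine ⟨hint.trans hlast.1, ?_⟩
  rw [← intervalIntegral.integral_add_adjacent_intervals hint hlast.1, ← hsum, hlast.2, Finset.mul_sum]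
  congr 1
  exact Finset.sum_congr rfl fun j _ => (hp j).2

private theorem wu_int (hM : 0 < M) (F : ℕ → ℝ) (ρ : ℝ) {x0 x1 : ℝ} (h0 : 0 ≤ x0) (h01 : x0 ≤ x1) :
    ∫ x in Set.Icc x0 x1, (F ⌊x / M⌋₊ - ρ) =
      M * ∑ j ∈ Finset.Ico ⌊x0 / M⌋₊ ⌊x1 / M⌋₊, F j + (x1 - M * (⌊x1 / M⌋₊ : ℝ)) * F ⌊x1 / M⌋₊ -
        (x0 - M * (⌊x0 / M⌋₊ : ℝ)) * F ⌊x0 / M⌋₊ - ρ * (x1 - x0) := by
  have hM0 : (0 : ℝ) < M := by exact_mod_cast hM
  have hA := wu_zero hM F h0
  have hB := wu_zero hM F (h0.trans h01)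
  have hI : IntervalIntegrable (fun x : ℝ => F ⌊x / M⌋₊) volume x0 x1 := hA.1.symm.trans hB.1
  rw [integral_Icc_eq_integral_Ioc, ← intervalIntegral.integral_of_le h01,
    intervalIntegral.integral_sub hI intervalIntegrable_const, intervalIntegral.integral_const, smul_eq_mul]
  have h2 : ∫ x in x0..x1, F ⌊x / M⌋₊ = (∫ x in (0 : ℝ)..x1, F ⌊x / M⌋₊) - ∫ x in (0 : ℝ)..x0, F ⌊x / M⌋₊ :=
    (intervalIntegral.integral_interval_sub_left hB.1 hA.1).symm
  have hle : ⌊x0 / M⌋₊ ≤ ⌊x1 / M⌋₊ := Nat.floor_le_floor (div_le_div_of_nonneg_right h01 hM0.le)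
  rw [h2, hA.2, hB.2, Finset.sum_Ico_eq_sub _ hle]
  ring

private theorem wu_sum (M b k0 k1 : ℕ) (hM : 0 < M) (f : ℕ → ℝ) :
    ∑ j ∈ Finset.Ico k0 k1, f (b + M * j) =
      ∑ n ∈ Finset.Ico (b + M * k0) (b + M * k1), if n ≡ b [MOD M] then f n else 0 := by
  rw [← Finset.sum_filter]
  refine Finset.sum_bij (fun j _ => b + M * j) ?_ ?_ ?_ ?_
  · intro j hj
    rw [Finset.mem_Ico] at hj
    rw [Finset.mem_filter, Finset.mem_Ico]
    refine ⟨⟨?_, ?_⟩, ?_⟩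
    · have := Nat.mul_le_mul_left M hj.1
      omega
    · have := Nat.mul_lt_mul_of_pos_left hj.2 hM
      omega
    · show (b + M * j) % M = b % M
      simp
  · intro i _ j _ hij
    have : M * i = M * j := by simpa using hij
    exact Nat.eq_of_mul_eq_mul_left hM this
  · intro n hn
    rw [Finset.mem_filter, Finset.mem_Ico] at hn
    have hbn : b ≤ n := by
      have := hn.1.1
      have h2 : 0 ≤ M * k0 := Nat.zero_le _
      omega
    have hd : M ∣ n - b := (Nat.modEq_iff_dvd' hbn).1 hn.2.symm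
    obtain ⟨j, hj⟩ := hd
    refine ⟨j, ?_, by omega⟩
    rw [Finset.mem_Ico]
    constructor
    · have : M * k0 ≤ M * j := by omega
      exact Nat.le_of_mul_le_mul_left this hM
    · have : M * j < M * k1 := by omega
      exact Nat.lt_of_mul_lt_mul_left this
  · intro j _
    rfl

private theorem wu_cells (G : ℕ → ℝ) (H r0 r1 : ℕ) (hr : r0 ≤ r1) :
    ∑ n ∈ Finset.Ico (r0 * H) (r1 * H), G n = ∑ r ∈ Finset.Ico r0 r1, ∑ n ∈ Finset.Ico (r * H) ((r + 1) * H), G n := by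
  induction r1, hr using Nat.le_induction with
  | base => simp
  | succ r hr ih =>
    rw [Finset.sum_Ico_succ_top hr, ← ih, Finset.sum_Ico_consecutive]
    · exact Nat.mul_le_mul_right H hr
    · exact Nat.mul_le_mul_right H (Nat.le_succ r)

open Classical in
private theorem wu_core (G : ℕ → ℝ) (hG : ∀ n, 0 ≤ G n) (H : ℕ) (hH : 0 < H) (Z0 Z1 : ℕ) (hZ : Z0 ≤ Z1)
    (q : ℝ) (hq0 : 0 ≤ q) (hq1 : q ≤ 1) (B ε W : ℝ) (hε : 0 ≤ ε)
    (hB : ∀ a a', Z0 ≤ a → a ≤ a' → a' ≤ Z1 → a' ≤ a + H → ∑ n ∈ Finset.Ico a a', G n ≤ B)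
    (bad : ℕ → Prop)
    (hgood : ∀ r, Z0 ≤ r * H → (r + 1) * H ≤ Z1 → ¬ bad r →
      |∑ n ∈ Finset.Ico (r * H) ((r + 1) * H), G n - H * q| ≤ H * ε)
    (T : Finset ℕ) (hT : ∀ r, Z0 ≤ r * H → (r + 1) * H ≤ Z1 → r ∈ T)
    (hW : ∀ N : ℕ, N * H ≤ Z1 - Z0 → ((N * H : ℕ) : ℝ) ≤ W) :
    |∑ n ∈ Finset.Ico Z0 Z1, G n - ((Z1 : ℝ) - Z0) * q| ≤ (2 + ((T.filter bad).card : ℝ)) * (B + H) + W * ε := by
  have hB0 : 0 ≤ B := by simpa using hB Z0 Z0 le_rfl le_rfl hZ (by omega)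
  have hH0 : (0 : ℝ) < H := by exact_mod_cast hH
  have hW0 : 0 ≤ W := by simpa using hW 0 (by simp)
  have hcard : (0 : ℝ) ≤ ((T.filter bad).card : ℝ) := Nat.cast_nonneg _
  have hS0 : ∀ s : Finset ℕ, 0 ≤ ∑ n ∈ s, G n := fun s => Finset.sum_nonneg fun n _ => hG n
  set r0 : ℕ := (Z0 + H - 1) / H with hr0
  set r1 : ℕ := Z1 / H with hr1
  have e1 : Z0 ≤ r0 * H := by
    have h := Nat.div_add_mod (Z0 + H - 1) H
    have h2 := Nat.mod_lt (Z0 + H - 1) hH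
    rw [← hr0] at h
    have h3 : H * r0 = r0 * H := Nat.mul_comm _ _
    omega
  have e2 : r0 * H < Z0 + H := by
    have h := Nat.div_add_mod (Z0 + H - 1) H
    rw [← hr0] at h
    have h3 : H * r0 = r0 * H := Nat.mul_comm _ _
    omega
  have e3 : r1 * H ≤ Z1 := Nat.div_mul_le_self Z1 H
  have e4 : Z1 < (r1 + 1) * H := by
    have h := Nat.div_add_mod Z1 H
    have h2 := Nat.mod_lt Z1 hH
    rw [← hr1] at h
    have h3 : H * r1 = r1 * H := Nat.mul_comm _ _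
    have h4 : (r1 + 1) * H = r1 * H + H := by ring
    omega
  by_cases hr : r0 ≤ r1
  · have hmul : r0 * H ≤ r1 * H := Nat.mul_le_mul_right H hr
    have hsplit : ∑ n ∈ Finset.Ico Z0 Z1, G n = ∑ n ∈ Finset.Ico Z0 (r0 * H), G n +
        ∑ r ∈ Finset.Ico r0 r1, ∑ n ∈ Finset.Ico (r * H) ((r + 1) * H), G n + ∑ n ∈ Finset.Ico (r1 * H) Z1, G n := by
      rw [← wu_cells G H r0 r1 hr, Finset.sum_Ico_consecutive _ e1 hmul, Finset.sum_Ico_consecutive _ (e1.trans hmul) e3]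
    have b1 := hB Z0 (r0 * H) le_rfl e1 (hmul.trans e3) e2.le
    have b2 := hB (r1 * H) Z1 (e1.trans hmul) e3 le_rfl (by have : (r1 + 1) * H = r1 * H + H := by ring
                                                            omega)
    have n1 := hS0 (Finset.Ico Z0 (r0 * H))
    have n2 := hS0 (Finset.Ico (r1 * H) Z1)
    have hin : ∀ r ∈ Finset.Ico r0 r1, Z0 ≤ r * H ∧ (r + 1) * H ≤ Z1 := by
      intro r hrr
      rw [Finset.mem_Ico] at hrr
      exact ⟨e1.trans (Nat.mul_le_mul_right H hrr.1), (Nat.mul_le_mul_right H hrr.2).trans e3⟩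
    have hmid : |∑ r ∈ Finset.Ico r0 r1, ∑ n ∈ Finset.Ico (r * H) ((r + 1) * H), G n -
        (((r1 - r0 : ℕ) : ℝ) * H) * q| ≤ ((T.filter bad).card : ℝ) * (B + H) + W * ε := by
      have h1 : (((r1 - r0 : ℕ) : ℝ) * H) * q = ∑ r ∈ Finset.Ico r0 r1, (H : ℝ) * q := by
        rw [Finset.sum_const, Nat.card_Ico, nsmul_eq_mul]
        ring
      rw [h1, ← Finset.sum_sub_distrib]
      calc |∑ r ∈ Finset.Ico r0 r1, (∑ n ∈ Finset.Ico (r * H) ((r + 1) * H), G n - (H : ℝ) * q)|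
          ≤ ∑ r ∈ Finset.Ico r0 r1, |∑ n ∈ Finset.Ico (r * H) ((r + 1) * H), G n - (H : ℝ) * q| :=
            Finset.abs_sum_le_sum_abs _ _
        _ ≤ ∑ r ∈ Finset.Ico r0 r1, ((if bad r then (B + H) else 0) + H * ε) := by
            refine Finset.sum_le_sum fun r hrr => ?_
            obtain ⟨i1, i2⟩ := hin r hrr
            by_cases hb : bad r
            · rw [if_pos hb]
              have b3 := hB (r * H) ((r + 1) * H) i1 (Nat.mul_le_mul_right H (Nat.le_succ r)) i2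
                (by have : (r + 1) * H = r * H + H := by ring
                    omega)
              have n3 := hS0 (Finset.Ico (r * H) ((r + 1) * H))
              have h4 : 0 ≤ (H : ℝ) * q := by positivity
              have h5 : (H : ℝ) * q ≤ H := by nlinarith
              have h6 : 0 ≤ (H : ℝ) * ε := by positivity
              rw [abs_le]
              constructor <;> linarith
            · rw [if_neg hb, zero_add]
              exact hgood r i1 i2 hb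
        _ = (((Finset.Ico r0 r1).filter bad).card : ℝ) * (B + H) + (((r1 - r0) * H : ℕ) : ℝ) * ε := by
            rw [Finset.sum_add_distrib, ← Finset.sum_filter, Finset.sum_const, Finset.sum_const, Nat.card_Ico,
              nsmul_eq_mul, nsmul_eq_mul]
            push_cast
            ring
        _ ≤ ((T.filter bad).card : ℝ) * (B + H) + W * ε := by
            have h7 : (Finset.Ico r0 r1).filter bad ⊆ T.filter bad := by
              intro r hrr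
              rw [Finset.mem_filter] at hrr ⊢
              exact ⟨hT r (hin r hrr.1).1 (hin r hrr.1).2, hrr.2⟩
            have h8 : (((Finset.Ico r0 r1).filter bad).card : ℝ) ≤ ((T.filter bad).card : ℝ) := by
              exact_mod_cast Finset.card_le_card h7
            have h9 : (((r1 - r0) * H : ℕ) : ℝ) ≤ W := by
              refine hW _ ?_
              rw [Nat.sub_mul]
              omega
            have h10 : 0 ≤ B + H := by positivity
            exact add_le_add (mul_le_mul_of_nonneg_right h8 h10) (mul_le_mul_of_nonneg_right h9 hε)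
    have c1 : ((r1 - r0 : ℕ) : ℝ) = (r1 : ℝ) - r0 := Nat.cast_sub hr
    have d1 : (Z0 : ℝ) ≤ (r0 : ℝ) * H := by exact_mod_cast e1
    have d2 : (r0 : ℝ) * H ≤ Z0 + H := by exact_mod_cast e2.le
    have d3 : (r1 : ℝ) * H ≤ Z1 := by exact_mod_cast e3
    have d4 : (Z1 : ℝ) ≤ ((r1 : ℝ) + 1) * H := by exact_mod_cast e4.le
    rw [hsplit]
    rw [c1] at hmid
    have g1 : 0 ≤ ((r0 : ℝ) * H - Z0) * q := mul_nonneg (by linarith) hq0
    have g2 : ((r0 : ℝ) * H - Z0) * q ≤ H := by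
      calc ((r0 : ℝ) * H - Z0) * q ≤ ((r0 : ℝ) * H - Z0) * 1 := mul_le_mul_of_nonneg_left hq1 (by linarith)
        _ ≤ H := by linarith
    have g3 : 0 ≤ ((Z1 : ℝ) - r1 * H) * q := mul_nonneg (by linarith) hq0
    have g4 : ((Z1 : ℝ) - r1 * H) * q ≤ H := by
      calc ((Z1 : ℝ) - r1 * H) * q ≤ ((Z1 : ℝ) - r1 * H) * 1 := mul_le_mul_of_nonneg_left hq1 (by linarith)
        _ ≤ H := by linarith
    rw [abs_le] at hmid ⊢
    constructor <;> nlinarith [hmid.1, hmid.2]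
  · rw [not_le] at hr
    have h1 : (r1 + 1) * H ≤ r0 * H := Nat.mul_le_mul_right H hr
    have b1 := hB Z0 Z1 le_rfl hZ le_rfl (by omega)
    have n1 := hS0 (Finset.Ico Z0 Z1)
    have d1 : (Z0 : ℝ) ≤ Z1 := by exact_mod_cast hZ
    have d2 : (Z1 : ℝ) ≤ Z0 + H := by exact_mod_cast (by omega : Z1 ≤ Z0 + H)
    have g1 : 0 ≤ ((Z1 : ℝ) - Z0) * q := mul_nonneg (by linarith) hq0
    have g2 : ((Z1 : ℝ) - Z0) * q ≤ H := by
      calc ((Z1 : ℝ) - Z0) * q ≤ ((Z1 : ℝ) - Z0) * 1 := mul_le_mul_of_nonneg_left hq1 (by linarith)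
        _ ≤ H := by linarith
    have g3 : 0 ≤ W * ε := mul_nonneg hW0 hε
    have g4 : 0 ≤ ((T.filter bad).card : ℝ) * (B + H) := by positivity
    rw [abs_le]
    constructor <;> nlinarith


private theorem wu_noncop {R : ℕ} (hR : 0 < R) {n b : ℕ} (hn : R < n) (hnb : n % R = b) (hco : ¬ Nat.Coprime b R) :
    RLC.th n = 0 := by
  unfold RLC.th
  rw [if_neg]
  intro hp
  have h1 : Nat.gcd b R = Nat.gcd n R := by
    rw [← hnb]
    exact (Nat.mod_modEq n R).gcd_eq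
  have h2 : Nat.gcd n R ∣ n := Nat.gcd_dvd_left _ _
  rcases (Nat.dvd_prime hp).1 h2 with h3 | h3
  · exact hco (h1.trans h3)
  · have h4 := Nat.le_of_dvd hR (Nat.gcd_dvd_right n R)
    omega

private theorem wu_split {R : ℕ} (hR : 0 < R) {Φ : ℕ → ℝ} (hΦ : Per R Φ) (hMR : M ∣ R) (b : ℕ) (s : Finset ℕ)
    (hs : ∀ n ∈ s, R < n) :
    ∑ n ∈ s, (if n ≡ b [MOD M] then RLC.th n * Φ n else 0) =
      ∑ b' ∈ (Finset.range R).filter (fun b' => Nat.Coprime b' R ∧ b' ≡ b [MOD M]),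
        Φ b' * ∑ n ∈ s.filter (fun n => n ≡ b' [MOD R]), RLC.th n := by
  rw [← Finset.sum_fiberwise_of_maps_to (s := s) (t := Finset.range R) (g := fun n => n % R)
    (fun n _ => Finset.mem_range.2 (Nat.mod_lt n hR))]
  rw [Finset.sum_filter]
  refine Finset.sum_congr rfl fun b' hb' => ?_
  rw [Finset.mem_range] at hb'
  have hmod : ∀ n, n % R = b' → n ≡ b' [MOD R] := by
    intro n hn
    show n % R = b' % R
    rw [hn, Nat.mod_eq_of_lt hb']
  have hmod' : ∀ n, n ≡ b' [MOD R] → n % R = b' := by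
    intro n hn
    have h1 : n % R = b' % R := hn
    rw [h1, Nat.mod_eq_of_lt hb']
  by_cases hc : Nat.Coprime b' R ∧ b' ≡ b [MOD M]
  · rw [if_pos hc, Finset.mul_sum]
    have hset : s.filter (fun n => n % R = b') = s.filter (fun n => n ≡ b' [MOD R]) := by
      refine Finset.filter_congr fun n _ => ⟨hmod n, hmod' n⟩
    rw [hset]
    refine Finset.sum_congr rfl fun n hn => ?_
    rw [Finset.mem_filter] at hn
    have h2 : n ≡ b [MOD M] := (hn.2.of_dvd hMR).trans hc.2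
    rw [if_pos h2, hΦ.mod n b' hn.2, mul_comm]
  · rw [if_neg hc]
    refine Finset.sum_eq_zero fun n hn => ?_
    rw [Finset.mem_filter] at hn
    by_cases h3 : n ≡ b [MOD M]
    · rw [if_pos h3]
      have h4 : ¬ Nat.Coprime b' R := by
        intro h5
        exact hc ⟨h5, (((hmod n hn.2).of_dvd hMR).symm).trans h3⟩
      rw [wu_noncop hR (hs n hn.1) hn.2 h4, zero_mul]
    · rw [if_neg h3]

open Classical in
theorem win_int {R : ℕ} (hR : 0 < R) {t K t1 : ℝ} (ht : 0 < t) (ht' : t < 1) (hK : 1 ≤ K) (ht1 : 0 < t1) :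
    ∃ C : ℝ, 1 ≤ C ∧ ∃ m0 : ℕ, ∀ M : ℕ, M ∣ R → ∀ Φ : ℕ → ℝ, Per R Φ → ∀ m : ℕ, m0 ≤ m →
    ∀ H : ℕ, (2 : ℝ) ^ (t1 * (m : ℝ)) ≤ H → (H : ℝ) ≤ (2 : ℝ) ^ (t * (m : ℝ)) → ∀ (A : ℝ) (c : ℕ), Nat.log 2 c = m →
    ∀ x0 x1 : ℝ, 0 ≤ x0 → x0 ≤ x1 → x1 ≤ (3 + 3 * K) * (2 : ℝ) ^ (t * (m : ℝ)) →
    |∫ x in Set.Icc x0 x1, (RLC.th (2 * c + 1 + M * ⌊x / M⌋₊) * Φ (2 * c + 1 + M * ⌊x / M⌋₊) - mn R M Φ c)| ≤
      C * ((x1 - x0) * (m : ℝ) ^ (-A) +
        H * (2 + ((RAF.Wc t K m H c).filter fun r => RAF.BadC R A H m r).card)) := by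
  have hR0 : (0 : ℝ) < R := by exact_mod_cast hR
  have hR1 : (1 : ℝ) ≤ R := by exact_mod_cast hR
  obtain ⟨C1, hC1, y0, hbt⟩ := RAF.bt (t := t1 / 2) (by positivity)
  obtain ⟨ma, hma1, hma⟩ := wu_grow ht1 ((y0 : ℝ) + 8 * R ^ 2)
  obtain ⟨mb, hmb1, hmb⟩ := wu_grow (s := 1) one_pos (8 + 3 * K + R)
  refine ⟨R * (C1 + 1) + 2 * R ^ 2 + 2, by nlinarith, max ma mb, ?_⟩
  intro M hMR Φ hΦ m hm H hH1 hH2 A c hc x0 x1 hx0 hx01 hx1
  have hM : 0 < M := Nat.pos_of_dvd_of_pos hMR hR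
  have hM0 : (0 : ℝ) < M := by exact_mod_cast hM
  have hM1 : (1 : ℝ) ≤ M := by exact_mod_cast hM
  have hMleR : (M : ℝ) ≤ R := by exact_mod_cast Nat.le_of_dvd hR hMR
  have hm1n : 1 ≤ m := hma1.trans ((le_max_left _ _).trans hm)
  have hm1 : (1 : ℝ) ≤ m := by exact_mod_cast hm1n
  have hP := hma m ((le_max_left _ _).trans hm)
  have hQ := hmb m ((le_max_right _ _).trans hm)
  have hy0 : (0 : ℝ) ≤ y0 := Nat.cast_nonneg _
  have hM2 : (M : ℝ) ≤ (M : ℝ) ^ 2 := by nlinarith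
  have hMR2 : (M : ℝ) ^ 2 ≤ (R : ℝ) ^ 2 := by gcongr
  have hP' : ((y0 : ℝ) + 8 * M ^ 2) * ((m : ℝ) + 1) ≤ (2 : ℝ) ^ (t1 * (m : ℝ)) := by
    refine le_trans ?_ hP
    gcongr
  have hHa : (y0 : ℝ) ≤ H := by nlinarith
  have hHb : 8 * (M : ℝ) ^ 2 * (m + 1) ≤ H := by nlinarith
  have hHy : y0 ≤ H := by exact_mod_cast hHa
  have hHe : 8 * (M : ℝ) ^ 2 * (m + 1) = 8 * ((M : ℝ) ^ 2 * m) + 8 * (M : ℝ) ^ 2 := by ring
  have hMm : (M : ℝ) * m ≤ (M : ℝ) ^ 2 * m := mul_le_mul_of_nonneg_right hM2 (by positivity)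
  have hMm0 : 0 ≤ (M : ℝ) * m := by positivity
  have hHc : (M : ℝ) ^ 2 + 2 * (M * (2 * m)) ≤ H := by linarith
  have hH2M : 2 * (M : ℝ) ≤ H := by linarith
  have hH0 : (0 : ℝ) < H := by linarith
  have hHn : 0 < H := by exact_mod_cast hH0
  have hX : (8 + 3 * K + R : ℝ) ≤ 2 ^ m := by
    rw [one_mul, Real.rpow_natCast] at hQ
    nlinarith
  have hXpos : (0 : ℝ) < 2 ^ m := by positivity
  have hc0 : c ≠ 0 := by
    rintro rfl
    simp at hc
    omega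
  have hcl : 2 ^ m ≤ c := by
    have := Nat.pow_log_le_self 2 hc0
    rwa [hc] at this
  have hcu : c < 2 ^ (m + 1) := by
    have := Nat.lt_pow_succ_log_self (b := 2) (by norm_num) c
    rwa [hc] at this
  have hclr : (2 : ℝ) ^ m ≤ c := by exact_mod_cast hcl
  have hcur : (2 : ℝ) * c + 1 ≤ 4 * 2 ^ m := by
    have h1 : 2 * c + 1 ≤ 4 * 2 ^ m := by
      have : 2 ^ (m + 1) = 2 * 2 ^ m := by ring
      omega
    exact_mod_cast h1
  have hε : 0 ≤ (m : ℝ) ^ (-A) := Real.rpow_nonneg (by linarith) _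
  have hN0 : (0 : ℝ) ≤ (((RAF.Wc t K m H c).filter fun r => RAF.BadC R A H m r).card : ℝ) := Nat.cast_nonneg _
  have hx01' : 0 ≤ x1 - x0 := by linarith
  set N : ℝ := (((RAF.Wc t K m H c).filter fun r => RAF.BadC R A H m r).card : ℝ) with hN
  have htm : (2 : ℝ) ^ (t * (m : ℝ)) ≤ 2 ^ m := by
    rw [← Real.rpow_natCast]
    refine Real.rpow_le_rpow_of_exponent_le (by norm_num) ?_
    nlinarith
  have htm1 : (1 : ℝ) ≤ (2 : ℝ) ^ (t * (m : ℝ)) := by
    refine Real.one_le_rpow (by norm_num) ?_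
    nlinarith
  have hφ0 : (0 : ℝ) < (Nat.totient R : ℝ) := by
    exact_mod_cast Nat.totient_pos.2 hR
  set Fb : Finset ℕ := (Finset.range R).filter (fun b => Nat.Coprime b R ∧ b ≡ 2 * c + 1 [MOD M]) with hFb
  have hFbR : (Fb.card : ℝ) ≤ R := by
    have h1 : Fb.card ≤ (Finset.range R).card := Finset.card_filter_le _ _
    rw [Finset.card_range] at h1
    exact_mod_cast h1
  have hFbφ : (Fb.card : ℝ) ≤ (Nat.totient R : ℝ) := by
    have h1 : Fb.card ≤ ((Finset.range R).filter (fun b => Nat.Coprime R b)).card := by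
      refine Finset.card_le_card ?_
      intro b hb
      rw [hFb, Finset.mem_filter] at hb
      rw [Finset.mem_filter]
      exact ⟨hb.1, hb.2.1.symm⟩
    have h2 : ((Finset.range R).filter (fun b => Nat.Coprime R b)).card = Nat.totient R :=
      (Nat.totient_eq_card_coprime R).symm
    rw [h2] at h1
    exact_mod_cast h1
  set q : ℝ := (∑ b ∈ Fb, Φ b) / (Nat.totient R : ℝ) with hq
  have hq0 : 0 ≤ q := div_nonneg (Finset.sum_nonneg fun b _ => hΦ.nonneg b) hφ0.le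
  have hq1 : q ≤ 1 := by
    rw [hq, div_le_one hφ0]
    refine le_trans ?_ hFbφ
    calc ∑ b ∈ Fb, Φ b ≤ ∑ b ∈ Fb, (1 : ℝ) := Finset.sum_le_sum fun b _ => hΦ.le b
      _ = (Fb.card : ℝ) := by simp
  have hρ : mn R M Φ c = M * q := by
    unfold mn
    rw [hq, hFb]
    ring
  set k0 : ℕ := ⌊x0 / M⌋₊ with hk0
  set k1 : ℕ := ⌊x1 / M⌋₊ with hk1
  have hkle : k0 ≤ k1 := Nat.floor_le_floor (div_le_div_of_nonneg_right hx01 hM0.le)
  have k0a : (M : ℝ) * k0 ≤ x0 := by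
    have := Nat.floor_le (div_nonneg hx0 hM0.le)
    rw [← hk0, le_div_iff₀ hM0] at this
    linarith
  have k0b : x0 ≤ (M : ℝ) * k0 + M := by
    have := Nat.lt_floor_add_one (x0 / M)
    rw [← hk0, div_lt_iff₀ hM0] at this
    linarith
  have k1a : (M : ℝ) * k1 ≤ x1 := by
    have := Nat.floor_le (div_nonneg (hx0.trans hx01) hM0.le)
    rw [← hk1, le_div_iff₀ hM0] at this
    linarith
  have k1b : x1 ≤ (M : ℝ) * k1 + M := by
    have := Nat.lt_floor_add_one (x1 / M)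
    rw [← hk1, div_lt_iff₀ hM0] at this
    linarith
  have hx1' : x1 ≤ (3 + 3 * K) * 2 ^ m := hx1.trans (mul_le_mul_of_nonneg_left htm (by linarith))
  have hsize : (2 : ℝ) * c + 1 + x1 ≤ 2 ^ (2 * m) := by
    have h1 : (2 : ℝ) ^ (2 * m) = 2 ^ m * 2 ^ m := by rw [two_mul, pow_add]
    have h2 := mul_le_mul_of_nonneg_right hX hXpos.le
    have h3 : (8 + 3 * K + R : ℝ) * 2 ^ m = (3 + 3 * K) * 2 ^ m + 4 * 2 ^ m + 2 ^ m + R * 2 ^ m := by ring
    have h4 : 0 ≤ (R : ℝ) * 2 ^ m := by positivity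
    rw [h1]
    linarith
  set b : ℕ := 2 * c + 1 with hb
  have hbr : (b : ℝ) = 2 * c + 1 := by rw [hb]; push_cast; ring
  have hbR : R < b := by
    have h1 : (R : ℝ) < b := by
      rw [hbr]
      linarith
    exact_mod_cast h1
  set Z0 : ℕ := b + M * k0 with hZ0
  set Z1 : ℕ := b + M * k1 with hZ1
  have hZ0r : (Z0 : ℝ) = b + M * k0 := by rw [hZ0]; push_cast; ring
  have hZ1r : (Z1 : ℝ) = b + M * k1 := by rw [hZ1]; push_cast; ring
  have hZ : Z0 ≤ Z1 := by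
    have := Nat.mul_le_mul_left M hkle
    omega
  have hZ0b : b ≤ Z0 := Nat.le_add_right _ _
  have hZ1s : (Z1 : ℝ) ≤ 2 ^ (2 * m) := by linarith
  -- the bound for a single value
  have hval : ∀ z : ℕ, (z : ℝ) ≤ 2 ^ (2 * m) → RLC.th z * Φ z ≤ 2 * m := by
    intro z hz
    have hle : RLC.th z * Φ z ≤ RLC.th z := mul_le_of_le_one_right (RLC.th_nonneg z) (hΦ.le z)
    refine hle.trans ?_
    rcases Nat.eq_zero_or_pos z with h0 | h0
    · subst h0
      have : RLC.th 0 = 0 := by simp [RLC.th]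
      rw [this]
      positivity
    · have h1 := RLC.th_le_log z
      have h2 : Real.log z ≤ Real.log (2 ^ (2 * m)) := Real.log_le_log (by exact_mod_cast h0) hz
      rw [Real.log_pow] at h2
      have h3 : Real.log 2 ≤ 1 := by linarith [Real.log_two_lt_d9]
      push_cast at h2
      exact h1.trans (h2.trans (mul_le_of_le_one_right (by positivity) h3))
  set G : ℕ → ℝ := fun n => if n ≡ b [MOD M] then RLC.th n * Φ n else 0 with hG
  have hG0 : ∀ n, 0 ≤ G n := by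
    intro n
    simp only [hG]
    split_ifs
    · exact mul_nonneg (RLC.th_nonneg n) (hΦ.nonneg n)
    · exact le_rfl
  have hGle : ∀ n, G n ≤ RLC.th n := by
    intro n
    simp only [hG]
    split_ifs
    · exact mul_le_of_le_one_right (RLC.th_nonneg n) (hΦ.le n)
    · exact RLC.th_nonneg n
  have hB : ∀ a a', Z0 ≤ a → a ≤ a' → a' ≤ Z1 → a' ≤ a + H → ∑ n ∈ Finset.Ico a a', G n ≤ C1 * H := by
    intro a a' ha haa ha' haH
    have ha1 : 1 ≤ a := by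
      have : 0 ≤ M * k0 := Nat.zero_le _
      omega
    have hpow : ((a - 1 : ℕ) : ℝ) ^ (t1 / 2) ≤ H := by
      have h1 : ((a - 1 : ℕ) : ℝ) ≤ 2 ^ (2 * m) := by
        have h2 : ((a - 1 : ℕ) : ℝ) ≤ (Z1 : ℝ) := by exact_mod_cast (by omega : a - 1 ≤ Z1)
        exact h2.trans hZ1s
      calc ((a - 1 : ℕ) : ℝ) ^ (t1 / 2) ≤ ((2 : ℝ) ^ (2 * m)) ^ (t1 / 2) :=
            Real.rpow_le_rpow (Nat.cast_nonneg _) h1 (by positivity)
        _ = (2 : ℝ) ^ (t1 * (m : ℝ)) := by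
            rw [← Real.rpow_natCast 2 (2 * m), ← Real.rpow_mul (by norm_num)]
            congr 1
            push_cast
            ring
        _ ≤ H := hH1
    have h3 := hbt (a - 1) H hHy hpow
    refine le_trans ?_ h3
    refine le_trans (Finset.sum_le_sum fun n _ => hGle n) ?_
    refine Finset.sum_le_sum_of_subset_of_nonneg ?_ fun n _ _ => RLC.th_nonneg n
    intro n hn
    rw [Finset.mem_Ico] at hn
    rw [Finset.mem_Ioc]
    omega
  have hgood : ∀ r, Z0 ≤ r * H → (r + 1) * H ≤ Z1 → ¬ RAF.BadC R A H m r →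
      |∑ n ∈ Finset.Ico (r * H) ((r + 1) * H), G n - H * q| ≤ H * (R * (m : ℝ) ^ (-A)) := by
    intro r hr1 _ hbad
    have h1 : ∀ b' ∈ Fb, |RAF.csum R b' H r - (H : ℝ) / (Nat.totient R : ℝ)| ≤ H * (m : ℝ) ^ (-A) := by
      intro b' hb'
      rw [hFb, Finset.mem_filter] at hb'
      by_contra h2
      exact hbad ⟨b', hb'.2.1, not_le.1 h2⟩
    have hsp := wu_split hR hΦ hMR b (Finset.Ico (r * H) ((r + 1) * H)) (by
      intro n hn
      rw [Finset.mem_Ico] at hn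
      omega)
    have hsum : ∑ n ∈ Finset.Ico (r * H) ((r + 1) * H), G n = ∑ b' ∈ Fb, Φ b' * RAF.csum R b' H r := hsp
    have hHq : (H : ℝ) * q = ∑ b' ∈ Fb, Φ b' * ((H : ℝ) / (Nat.totient R : ℝ)) := by
      rw [← Finset.sum_mul, hq]
      ring
    rw [hsum, hHq, ← Finset.sum_sub_distrib]
    calc |∑ b' ∈ Fb, (Φ b' * RAF.csum R b' H r - Φ b' * ((H : ℝ) / (Nat.totient R : ℝ)))|
        ≤ ∑ b' ∈ Fb, |Φ b' * RAF.csum R b' H r - Φ b' * ((H : ℝ) / (Nat.totient R : ℝ))| :=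
          Finset.abs_sum_le_sum_abs _ _
      _ ≤ ∑ b' ∈ Fb, (H * (m : ℝ) ^ (-A)) := by
          refine Finset.sum_le_sum fun b' hb' => ?_
          rw [← mul_sub, abs_mul, abs_of_nonneg (hΦ.nonneg b')]
          calc Φ b' * |RAF.csum R b' H r - (H : ℝ) / (Nat.totient R : ℝ)|
              ≤ 1 * |RAF.csum R b' H r - (H : ℝ) / (Nat.totient R : ℝ)| :=
                mul_le_mul_of_nonneg_right (hΦ.le b') (abs_nonneg _)
            _ ≤ H * (m : ℝ) ^ (-A) := by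
                rw [one_mul]
                exact h1 b' hb'
      _ = (Fb.card : ℝ) * (H * (m : ℝ) ^ (-A)) := by
          rw [Finset.sum_const, nsmul_eq_mul]
      _ ≤ R * (H * (m : ℝ) ^ (-A)) := mul_le_mul_of_nonneg_right hFbR (by positivity)
      _ = H * (R * (m : ℝ) ^ (-A)) := by ring
  have hT : ∀ r, Z0 ≤ r * H → (r + 1) * H ≤ Z1 → r ∈ RAF.Wc t K m H c := by
    intro r h1 h2
    unfold RAF.Wc
    rw [Finset.mem_Icc]
    constructor
    · refine Nat.div_le_of_le_mul ?_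
      have h3 : 0 ≤ M * k0 := Nat.zero_le _
      have h4 : H * r = r * H := Nat.mul_comm _ _
      omega
    · rw [Nat.le_div_iff_mul_le hHn]
      have h3 : (1 : ℝ) + M * k1 ≤ ((⌈(5 + 4 * K) * (2 : ℝ) ^ (t * (m : ℝ))⌉₊ : ℕ) : ℝ) := by
        refine le_trans ?_ (Nat.le_ceil _)
        have h6 : (1 : ℝ) ≤ (2 + K) * (2 : ℝ) ^ (t * (m : ℝ)) := by
          calc (1 : ℝ) ≤ 1 * 1 := by norm_num
            _ ≤ (2 + K) * (2 : ℝ) ^ (t * (m : ℝ)) := mul_le_mul (by linarith) htm1 zero_le_one (by linarith)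
        have h7 : (5 + 4 * K) * (2 : ℝ) ^ (t * (m : ℝ)) = (3 + 3 * K) * (2 : ℝ) ^ (t * (m : ℝ)) +
          (2 + K) * (2 : ℝ) ^ (t * (m : ℝ)) := by ring
        rw [h7]
        linarith
      have h4 : 1 + M * k1 ≤ ⌈(5 + 4 * K) * (2 : ℝ) ^ (t * (m : ℝ))⌉₊ := by exact_mod_cast h3
      have h5 : (r + 1) * H = r * H + H := by ring
      omega
  have hW : ∀ N : ℕ, N * H ≤ Z1 - Z0 → ((N * H : ℕ) : ℝ) ≤ 2 * (x1 - x0) := by
    intro N' hN'
    rcases Nat.eq_zero_or_pos N' with h0 | h0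
    · subst h0
      simp only [zero_mul, Nat.cast_zero]
      linarith
    · have h1 : H ≤ N' * H := Nat.le_mul_of_pos_left H h0
      have h2 : (H : ℝ) ≤ ((N' * H : ℕ) : ℝ) := by exact_mod_cast h1
      have h3 : ((N' * H : ℕ) : ℝ) ≤ (Z1 : ℝ) - Z0 := by
        rw [← Nat.cast_sub hZ]
        exact_mod_cast hN'
      have h5 : (Z1 : ℝ) - Z0 ≤ x1 - x0 + M := by linarith
      linarith
  have hcore := wu_core G hG0 H hHn Z0 Z1 hZ q hq0 hq1 (C1 * H) (R * (m : ℝ) ^ (-A)) (2 * (x1 - x0)) (by positivity) hB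
    (fun r => RAF.BadC R A H m r) hgood (RAF.Wc t K m H c) hT hW
  have hint := wu_int hM (fun j => RLC.th (b + M * j) * Φ (b + M * j)) (mn R M Φ c) hx0 hx01
  rw [← hk0, ← hk1, wu_sum M b k0 k1 hM (fun n => RLC.th n * Φ n)] at hint
  have hgoal : ∫ x in Set.Icc x0 x1, (RLC.th (b + M * ⌊x / M⌋₊) * Φ (b + M * ⌊x / M⌋₊) - mn R M Φ c) =
      M * ∑ n ∈ Finset.Ico Z0 Z1, G n + (x1 - M * (k1 : ℝ)) * (RLC.th (b + M * k1) * Φ (b + M * k1)) -
        (x0 - M * (k0 : ℝ)) * (RLC.th (b + M * k0) * Φ (b + M * k0)) - M * q * (x1 - x0) := by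
    rw [hint, hρ]
  rw [hgoal]
  have v1 : RLC.th (b + M * k1) * Φ (b + M * k1) ≤ 2 * m := hval _ (by
    have : ((b + M * k1 : ℕ) : ℝ) = Z1 := by rw [hZ1]
    rw [this]; exact hZ1s)
  have v0 : RLC.th (b + M * k0) * Φ (b + M * k0) ≤ 2 * m := hval _ (by
    have : ((b + M * k0 : ℕ) : ℝ) = Z0 := by rw [hZ0]
    rw [this]
    have h2 : (Z0 : ℝ) ≤ Z1 := by exact_mod_cast hZ
    linarith)
  have w1 : 0 ≤ RLC.th (b + M * k1) * Φ (b + M * k1) := mul_nonneg (RLC.th_nonneg _) (hΦ.nonneg _)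
  have w0 : 0 ≤ RLC.th (b + M * k0) * Φ (b + M * k0) := mul_nonneg (RLC.th_nonneg _) (hΦ.nonneg _)
  set u1 : ℝ := RLC.th (b + M * k1) * Φ (b + M * k1) with hu1
  set u0 : ℝ := RLC.th (b + M * k0) * Φ (b + M * k0) with hu0
  have hm0 : (0 : ℝ) ≤ 2 * m := by positivity
  have a1 : 0 ≤ (x1 - M * (k1 : ℝ)) * u1 := mul_nonneg (by linarith) w1
  have a1' : (x1 - M * (k1 : ℝ)) * u1 ≤ M * (2 * m) :=
    mul_le_mul (by linarith) v1 w1 hM0.le
  have a0 : 0 ≤ (x0 - M * (k0 : ℝ)) * u0 := mul_nonneg (by linarith) w0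
  have a0' : (x0 - M * (k0 : ℝ)) * u0 ≤ M * (2 * m) :=
    mul_le_mul (by linarith) v0 w0 hM0.le
  set S : ℝ := ∑ n ∈ Finset.Ico Z0 Z1, G n with hS
  set D : ℝ := (Z1 : ℝ) - Z0 with hD
  have hD1 : D - (x1 - x0) ≤ M := by rw [hD]; linarith
  have hD2 : -(M : ℝ) ≤ D - (x1 - x0) := by rw [hD]; linarith
  rw [abs_le] at hcore
  set Q : ℝ := (2 + N) * (C1 * H + H) + 2 * (x1 - x0) * (R * (m : ℝ) ^ (-A)) with hQd
  have hMS1 : M * S - M * (D * q) ≤ M * Q := by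
    have := mul_le_mul_of_nonneg_left hcore.2 hM0.le
    linarith
  have hMS2 : -(M * Q) ≤ M * S - M * (D * q) := by
    have := mul_le_mul_of_nonneg_left hcore.1 hM0.le
    linarith
  have hMq0 : 0 ≤ (M : ℝ) * q := by positivity
  have hMq1 : (M : ℝ) * q ≤ M := mul_le_of_le_one_right hM0.le hq1
  have hDq1 : M * q * (D - (x1 - x0)) ≤ (M : ℝ) ^ 2 := by
    calc M * q * (D - (x1 - x0)) ≤ M * q * M := mul_le_mul_of_nonneg_left hD1 hMq0
      _ ≤ M * M := mul_le_mul_of_nonneg_right hMq1 hM0.le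
      _ = (M : ℝ) ^ 2 := by ring
  have hDq2 : -((M : ℝ) ^ 2) ≤ M * q * (D - (x1 - x0)) := by
    have h1 : M * q * (-(M : ℝ)) ≤ M * q * (D - (x1 - x0)) := mul_le_mul_of_nonneg_left hD2 hMq0
    have h2 : M * q * M ≤ M * M := mul_le_mul_of_nonneg_right hMq1 hM0.le
    have h3 : M * q * (-(M : ℝ)) = -(M * q * M) := by ring
    have h4 : (M : ℝ) ^ 2 = M * M := by ring
    rw [h3] at h1
    rw [h4]
    linarith
  have hQ0 : 0 ≤ Q := by
    rw [hQd]
    have h1 : 0 ≤ 2 * (x1 - x0) * (R * (m : ℝ) ^ (-A)) := by positivity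
    have h2 : 0 ≤ (2 + N) * (C1 * H + H) := by positivity
    linarith
  have hfin : M * Q + H ≤ (R * (C1 + 1) + 2 * R ^ 2 + 2) * ((x1 - x0) * (m : ℝ) ^ (-A) + H * (2 + N)) := by
    have h0 : M * Q ≤ R * Q := mul_le_mul_of_nonneg_right hMleR hQ0
    have h1 : 0 ≤ (x1 - x0) * (m : ℝ) ^ (-A) := mul_nonneg hx01' hε
    have h2 : 0 ≤ (H : ℝ) * N := by positivity
    have h3 : 0 ≤ (R : ℝ) * (C1 + 1) := by positivity
    have e : (R * (C1 + 1) + 2 * R ^ 2 + 2) * ((x1 - x0) * (m : ℝ) ^ (-A) + H * (2 + N)) - (R * Q + H) =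
        R * (C1 + 1) * ((x1 - x0) * (m : ℝ) ^ (-A)) + 2 * ((x1 - x0) * (m : ℝ) ^ (-A)) +
          2 * R ^ 2 * (2 * H + H * N) + 3 * H + 2 * (H * N) := by
      rw [hQd]; ring
    have h4 : 0 ≤ R * (C1 + 1) * ((x1 - x0) * (m : ℝ) ^ (-A)) := mul_nonneg h3 h1
    have h5 : 0 ≤ 2 * (R : ℝ) ^ 2 * (2 * H + H * N) := by positivity
    linarith
  have hkey : M * S + (x1 - M * (k1 : ℝ)) * u1 - (x0 - M * (k0 : ℝ)) * u0 -
      M * q * (x1 - x0) = (M * S - M * (D * q)) + M * q * (D - (x1 - x0)) +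
        (x1 - M * (k1 : ℝ)) * u1 - (x0 - M * (k0 : ℝ)) * u0 := by ring
  rw [hkey, abs_le]
  constructor <;> linarith

end RAG
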