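import Pool.Agent.RAG.Diag
import Pool.Agent.RAG.BndD
import Pool.Agent.RAG.PntI

/-!
# RAG.ZHx: the choice of the thresholds

PROOF. `diag` with `P i j m := (QQ j)^i ≤ m ∧ PntP (QQ j) m (1/((i+1) (QQ j)^i)) ∧ Bnd (QQ j) t (i+1) (1/(i+2)) m` (`pnt_int`, `bnd_ev`), `MM ζ (4m) = QQ (JJ ζ (4m))` by definition.
-/

namespace RAG

open Filter Pool.Agent.PCx

structure ZH (t : ℝ) (ζ : ℕ → ℕ) : Prop where
  grow : ∀ j, 2 ^ (j + 10) * (ζ j + 1) ≤ ζ (j + 1)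
  small : ∀ i : ℕ, ∀ᶠ m : ℕ in atTop, (MM ζ (4 * m)) ^ i ≤ m
  pnt : ∀ i : ℕ, ∀ᶠ m : ℕ in atTop, PntP (MM ζ (4 * m)) m (1 / (((i : ℝ) + 1) * (MM ζ (4 * m) : ℝ) ^ i))
  bnd : ∀ i : ℕ, ∀ᶠ m : ℕ in atTop, Bnd (MM ζ (4 * m)) t ((i : ℝ) + 1) (1 / ((i : ℝ) + 2)) m

theorem exists_ZH {t : ℝ} (ht : 1 / 2 < t) (ht' : t < 1) : ∃ ζ : ℕ → ℕ, ZH t ζ := by
  obtain ⟨ζ, hg, hP⟩ := diag (fun i j m => (QQ j) ^ i ≤ m ∧
      PntP (QQ j) m (1 / (((i : ℝ) + 1) * (QQ j : ℝ) ^ i)) ∧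
      Bnd (QQ j) t ((i : ℝ) + 1) (1 / ((i : ℝ) + 2)) m) (fun i j => by
    have hQ : (0 : ℝ) < (QQ j : ℝ) := by exact_mod_cast QQ_pos j
    have h1 : ∀ᶠ m : ℕ in atTop, (QQ j) ^ i ≤ m := eventually_ge_atTop _
    have h2 : ∀ᶠ m : ℕ in atTop, PntP (QQ j) m (1 / (((i : ℝ) + 1) * (QQ j : ℝ) ^ i)) :=
      eventually_atTop.2 (pnt_int (QQ_pos j) (by positivity))
    have hi : (0 : ℝ) ≤ i := Nat.cast_nonneg i
    have h3 : ∀ᶠ m : ℕ in atTop, Bnd (QQ j) t ((i : ℝ) + 1) (1 / ((i : ℝ) + 2)) m :=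
      bnd_ev (QQ_pos j) ht ht' (by linarith) (by positivity) (by
        rw [div_lt_one (by linarith)]
        linarith)
    exact h1.and (h2.and h3))
  exact ⟨ζ, hg, fun i => (hP i).mono fun m hm => hm.1, fun i => (hP i).mono fun m hm => hm.2.1,
    fun i => (hP i).mono fun m hm => hm.2.2⟩

end RAG
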